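import Pool.Agent.H35.AN.Defs

/-!
# AN-20: upper bounds for the discriminant by an integral family
-/

set_option autoImplicit false

open Polynomial IsDedekindDomain NumberField Module Matrix

namespace Pool.Agent.H35.AN

open scoped Classical in
theorem an20_norm_det_le {ι : Type} [Fintype ι] [DecidableEq ι] (M : Matrix ι ι ℂ) (B : ι → ℝ)
    (hM : ∀ i j, ‖M i j‖ ≤ B i) : ‖M.det‖ ≤ ((Fintype.card ι).factorial : ℝ) * ∏ j, B j := by
  rw [Matrix.det_apply]
  refine (norm_sum_le _ _).trans ?_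
  have h1 : ∀ σ ∈ (Finset.univ : Finset (Equiv.Perm ι)),
      ‖Equiv.Perm.sign σ • ∏ i, M (σ i) i‖ ≤ ∏ j, B j := by
    intro σ _
    have h2 : ‖Equiv.Perm.sign σ • ∏ i, M (σ i) i‖ = ‖∏ i, M (σ i) i‖ := by
      rcases Int.units_eq_one_or (Equiv.Perm.sign σ) with h | h <;> simp [h]
    rw [h2, norm_prod]
    calc ∏ i, ‖M (σ i) i‖ ≤ ∏ i, B (σ i) :=
          Finset.prod_le_prod (fun i _ => norm_nonneg _) (fun i _ => hM _ _)
      _ = ∏ j, B j := Equiv.prod_comp σ B
  refine (Finset.sum_le_sum h1).trans ?_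
  rw [Finset.sum_const, Finset.card_univ, Fintype.card_perm, nsmul_eq_mul]

theorem discr_le_of_family {K : Type} [Field K] [NumberField K] {ι : Type} [Fintype ι]
    (hn : Module.finrank ℚ K = Fintype.card ι) (ω : ι → K) (hω : ∀ j, IsIntegral ℤ (ω j))
    (hli : LinearIndependent ℚ ω) (B : ι → ℝ) (hB : ∀ (φ : K →+* ℂ) j, ‖φ (ω j)‖ ≤ B j) :
    |(NumberField.discr K : ℝ)| ≤ (((Fintype.card ι).factorial : ℝ) * ∏ j, B j) ^ 2 := by
  classical
  -- the integral basis, indexed by `ι`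
  have hcard : Fintype.card (Free.ChooseBasisIndex ℤ (𝓞 K)) = Fintype.card ι := by
    rw [← hn, Module.finrank_eq_card_basis (integralBasis K)]
  let e : Free.ChooseBasisIndex ℤ (𝓞 K) ≃ ι := Fintype.equivOfCardEq hcard
  let b : Basis ι ℚ K := (integralBasis K).reindex e
  -- the integral matrix
  have hint : ∀ j i, ∃ m : ℤ, b.repr (ω j) i = (m : ℚ) := by
    intro j i
    refine ⟨(RingOfIntegers.basis K).repr (⟨ω j, hω j⟩ : 𝓞 K) (e.symm i), ?_⟩
    have := integralBasis_repr_apply K (⟨ω j, hω j⟩ : 𝓞 K) (e.symm i)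
    simpa [b] using this
  choose m hm using hint
  let P : Matrix ι ι ℤ := Matrix.of fun i j => m j i
  have hP : ω = (b : ι → K) ᵥ* ((P.map (Int.castRingHom ℚ)).map (algebraMap ℚ K)) := by
    funext j
    have h1 : ω j = ∑ i, b.repr (ω j) i • b i := (b.sum_repr (ω j)).symm
    rw [h1]
    simp only [Matrix.vecMul, dotProduct, Matrix.map_apply, P, Matrix.of_apply]
    refine Finset.sum_congr rfl fun i _ => ?_
    rw [hm j i, Algebra.smul_def, mul_comm]
    rfl
  have hdisc : Algebra.discr ℚ ω = ((P.det : ℤ) : ℚ) ^ 2 * (NumberField.discr K : ℚ) := by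
    rw [hP, Algebra.discr_of_matrix_vecMul]
    congr 1
    · congr 1
      exact ((Int.castRingHom ℚ).map_det P).symm
    · rw [coe_discr]
      have h5 := Algebra.discr_reindex ℚ (integralBasis K) e
      rwa [← Basis.coe_reindex] at h5
  have hne : Algebra.discr ℚ ω ≠ 0 := by
    have : Nonempty ι := by
      rw [← Fintype.card_pos_iff, ← hn]
      exact Module.finrank_pos
    have h1 := Algebra.discr_not_zero_of_basis ℚ (basisOfLinearIndependentOfCardEqFinrank hli
      (by rw [hn]))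
    rwa [coe_basisOfLinearIndependentOfCardEqFinrank] at h1
  have hdet : P.det ≠ 0 := by
    intro h
    rw [hdisc, h] at hne
    simp at hne
  have hdet1 : (1 : ℝ) ≤ ((P.det : ℤ) : ℝ) ^ 2 := by
    have : (1 : ℤ) ≤ P.det ^ 2 := by
      have h0 : 0 < P.det ^ 2 := by positivity
      omega
    exact_mod_cast this
  -- the archimedean bound
  have hcard2 : Fintype.card ι = Fintype.card (K →ₐ[ℚ] ℂ) := by
    rw [AlgHom.card, hn]
  let e2 : ι ≃ (K →ₐ[ℚ] ℂ) := Fintype.equivOfCardEq hcard2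
  have hE := Algebra.discr_eq_det_embeddingsMatrixReindex_pow_two ℚ ℂ ω e2
  have hnorm : |((Algebra.discr ℚ ω : ℚ) : ℝ)| ≤
      (((Fintype.card ι).factorial : ℝ) * ∏ j, B j) ^ 2 := by
    have h1 : |((Algebra.discr ℚ ω : ℚ) : ℝ)| = ‖algebraMap ℚ ℂ (Algebra.discr ℚ ω)‖ := by
      have : algebraMap ℚ ℂ (Algebra.discr ℚ ω) = (((Algebra.discr ℚ ω : ℚ) : ℝ) : ℂ) := by simp
      rw [this, Complex.norm_real, Real.norm_eq_abs]
    rw [h1, hE, norm_pow]
    refine pow_le_pow_left₀ (norm_nonneg _) ?_ 2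
    refine an20_norm_det_le _ B fun i j => ?_
    exact hB (e2 j : K →+* ℂ) i
  have h3 : |((Algebra.discr ℚ ω : ℚ) : ℝ)| = ((P.det : ℤ) : ℝ) ^ 2 * |(NumberField.discr K : ℝ)| := by
    rw [hdisc]
    rw [Rat.cast_mul, Rat.cast_pow, Rat.cast_intCast, Rat.cast_intCast, abs_mul,
      abs_of_nonneg (sq_nonneg _)]
  calc |(NumberField.discr K : ℝ)| ≤ ((P.det : ℤ) : ℝ) ^ 2 * |(NumberField.discr K : ℝ)| := by
        nlinarith [abs_nonneg (NumberField.discr K : ℝ)]
    _ = |((Algebra.discr ℚ ω : ℚ) : ℝ)| := h3.symm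
    _ ≤ _ := hnorm

/-- relative version: an integral `k`-basis of `K` with bounded conjugates -/
theorem discr_le_rel (k : Type) [Field k] [NumberField k] (n : ℕ) : ∃ C : ℝ, 0 < C ∧
    ∀ (K : Type) [Field K] [NumberField K] [Algebra k K], Module.finrank k K = n →
    ∀ (ω : Fin n → K), (∀ j, IsIntegral ℤ (ω j)) → LinearIndependent k ω →
    ∀ (B : Fin n → ℝ), (∀ (φ : K →+* ℂ) j, ‖φ (ω j)‖ ≤ B j) →
    |(NumberField.discr K : ℝ)| ≤ C * (∏ j, B j) ^ (2 * Module.finrank ℚ k) := by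
  classical
  let ι := Free.ChooseBasisIndex ℤ (𝓞 k)
  let β : Basis ι ℚ k := integralBasis k
  let M : ℝ := 1 + ∑ ψ : k →+* ℂ, ∑ i : ι, ‖ψ (β i)‖
  have hM1 : 1 ≤ M := by
    have : 0 ≤ ∑ ψ : k →+* ℂ, ∑ i : ι, ‖ψ (β i)‖ :=
      Finset.sum_nonneg fun _ _ => Finset.sum_nonneg fun _ _ => norm_nonneg _
    simp only [M]; linarith
  have hM : ∀ (ψ : k →+* ℂ) (i : ι), ‖ψ (β i)‖ ≤ M := by
    intro ψ i
    have h1 : ‖ψ (β i)‖ ≤ ∑ i : ι, ‖ψ (β i)‖ :=
      Finset.single_le_sum (f := fun i => ‖ψ (β i)‖) (fun _ _ => norm_nonneg _) (Finset.mem_univ i)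
    have h2 : ∑ i : ι, ‖ψ (β i)‖ ≤ ∑ ψ : k →+* ℂ, ∑ i : ι, ‖ψ (β i)‖ :=
      Finset.single_le_sum (f := fun ψ : k →+* ℂ => ∑ i : ι, ‖ψ (β i)‖)
        (fun _ _ => Finset.sum_nonneg fun _ _ => norm_nonneg _) (Finset.mem_univ ψ)
    simp only [M]; linarith
  have hcardι : Fintype.card ι = Module.finrank ℚ k :=
    (Module.finrank_eq_card_basis β).symm
  refine ⟨(((Fintype.card (ι × Fin n)).factorial : ℝ) * M ^ (Fintype.card (ι × Fin n))) ^ 2,
    by positivity, ?_⟩
  intro K _ _ _ hK ω hω hli B hB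
  have : FiniteDimensional k K := Module.Finite.of_restrictScalars_finite ℚ k K
  let W : ι × Fin n → K := fun p => β p.1 • ω p.2
  have hWli : LinearIndependent ℚ W := linearIndependent_smul β.linearIndependent hli
  have hWfin : Module.finrank ℚ K = Fintype.card (ι × Fin n) := by
    rw [← Module.finrank_mul_finrank ℚ k K, hK, Fintype.card_prod, Fintype.card_fin, hcardι]
  have hWint : ∀ p, IsIntegral ℤ (W p) := by
    intro p
    simp only [W]
    rw [Algebra.smul_def]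
    refine IsIntegral.mul ?_ (hω _)
    have h1 : IsIntegral ℤ (β p.1) := by
      have : β p.1 = algebraMap (𝓞 k) k (RingOfIntegers.basis k p.1) := integralBasis_apply k p.1
      rw [this]
      exact (RingOfIntegers.basis k p.1).isIntegral_coe
    exact h1.map (IsScalarTower.toAlgHom ℤ k K)
  have hWB : ∀ (φ : K →+* ℂ) (p : ι × Fin n), ‖φ (W p)‖ ≤ M * B p.2 := by
    intro φ p
    simp only [W]
    rw [Algebra.smul_def, map_mul, norm_mul]
    exact mul_le_mul (hM (φ.comp (algebraMap k K)) p.1) (hB φ p.2) (norm_nonneg _) (by linarith)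
  have h := discr_le_of_family hWfin W hWint hWli (fun p => M * B p.2) hWB
  refine h.trans (le_of_eq ?_)
  rw [Finset.prod_mul_distrib, Finset.prod_const, Finset.card_univ]
  have h4 : ∏ p : ι × Fin n, B p.2 = (∏ j, B j) ^ (Module.finrank ℚ k) := by
    rw [Fintype.prod_prod_type]
    simp only [Finset.prod_const, Finset.card_univ, hcardι]
  rw [h4, pow_mul']
  ring

end Pool.Agent.H35.AN
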