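import Pool.Agent.H35.AN.Defs

/-!
# Project AN, row 1: valuation calculus
-/

set_option autoImplicit false

open Polynomial IsDedekindDomain NumberField

namespace Pool.Agent.H35.AN

section Val

variable {K : Type*} [Field K] [NumberField K] (P : HeightOneSpectrum (𝓞 K))

theorem ge_zero (m : ℤ) : Ge P m (0 : K) := by
  unfold Ge
  rw [map_zero]
  exact zero_le

theorem ge_add {m : ℤ} {x y : K} (hx : Ge P m x) (hy : Ge P m y) : Ge P m (x + y) :=
  Valuation.map_add_le _ hx hy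

theorem ge_neg {m : ℤ} {x : K} (hx : Ge P m x) : Ge P m (-x) := by
  unfold Ge at hx ⊢
  rwa [Valuation.map_neg]

theorem ge_sub {m : ℤ} {x y : K} (hx : Ge P m x) (hy : Ge P m y) : Ge P m (x - y) := by
  rw [sub_eq_add_neg]
  exact ge_add P hx (ge_neg P hy)

theorem ge_mul {m n : ℤ} {x y : K} (hx : Ge P m x) (hy : Ge P n y) : Ge P (m + n) (x * y) := by
  unfold Ge at hx hy ⊢
  rw [map_mul, neg_add, WithZero.exp_add]
  exact mul_le_mul' hx hy

theorem an1_ge_one : Ge P 0 (1 : K) := by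
  unfold Ge
  rw [map_one, neg_zero, WithZero.exp_zero]

theorem ge_pow {m : ℤ} {x : K} (hx : Ge P m x) (n : ℕ) : Ge P (n * m) (x ^ n) := by
  induction n with
  | zero =>
    rw [pow_zero, Nat.cast_zero, zero_mul]
    exact an1_ge_one P
  | succ n ih =>
    rw [pow_succ, Nat.cast_succ, add_mul, one_mul]
    exact ge_mul P ih hx

theorem ge_mono {m n : ℤ} (h : m ≤ n) {x : K} (hx : Ge P n x) : Ge P m x := by
  unfold Ge at hx ⊢
  refine hx.trans ?_
  rw [WithZero.exp_le_exp]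
  omega

theorem ge_sum {ι : Type*} (s : Finset ι) (f : ι → K) {m : ℤ} (hf : ∀ i ∈ s, Ge P m (f i)) :
    Ge P m (∑ i ∈ s, f i) := by
  classical
  induction s using Finset.induction_on with
  | empty =>
    rw [Finset.sum_empty]
    exact ge_zero P m
  | insert a s ha ih =>
    rw [Finset.sum_insert ha]
    exact ge_add P (hf a (Finset.mem_insert_self a s))
      (ih (fun i hi => hf i (Finset.mem_insert_of_mem hi)))

theorem an1_val_ne {x : K} (hx : x ≠ 0) : P.valuation K x ≠ 0 :=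
  (Valuation.ne_zero_iff _).mpr hx

theorem ge_iff {m : ℤ} {x : K} (hx : x ≠ 0) : Ge P m x ↔ m ≤ ord P x := by
  unfold Ge ord
  rw [← WithZero.log_le_iff_le_exp (an1_val_ne P hx)]
  constructor <;> intro h <;> omega

theorem an1_ge_zero_iff (x : K) : Ge P 0 x ↔ P.valuation K x ≤ 1 := by
  unfold Ge
  rw [neg_zero, WithZero.exp_zero]

theorem an1_ge_coe (x : 𝓞 K) : Ge P 0 (x : K) := by
  rw [an1_ge_zero_iff]
  exact P.valuation_le_one x

theorem ge_of_isIntegral {x : K} (hx : IsIntegral ℤ x) : Ge P 0 x :=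
  an1_ge_coe P (⟨x, hx⟩ : 𝓞 K)

theorem ge_int (m : ℤ) : Ge P 0 (m : K) := by
  have h := an1_ge_coe P (m : 𝓞 K)
  simpa using h

theorem ge_nat (m : ℕ) : Ge P 0 (m : K) := by
  have h := an1_ge_coe P (m : 𝓞 K)
  simpa using h

theorem ord_mul {x y : K} (hx : x ≠ 0) (hy : y ≠ 0) : ord P (x * y) = ord P x + ord P y := by
  unfold ord
  rw [map_mul, WithZero.log_mul (an1_val_ne P hx) (an1_val_ne P hy)]
  ring

theorem ord_zero : ord P (0 : K) = 0 := by
  unfold ord
  rw [map_zero, WithZero.log_zero, neg_zero]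

theorem ord_one : ord P (1 : K) = 0 := by
  unfold ord
  rw [map_one, WithZero.log_one, neg_zero]

theorem ord_neg (x : K) : ord P (-x) = ord P x := by
  unfold ord
  rw [Valuation.map_neg]

theorem ord_inv (x : K) : ord P x⁻¹ = -ord P x := by
  unfold ord
  rw [map_inv₀, WithZero.log_inv]

theorem ord_div {x y : K} (hx : x ≠ 0) (hy : y ≠ 0) : ord P (x / y) = ord P x - ord P y := by
  rw [div_eq_mul_inv, ord_mul P hx (inv_ne_zero hy), ord_inv]
  ring

theorem ord_pow (x : K) (n : ℕ) : ord P (x ^ n) = n * ord P x := by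
  unfold ord
  rw [map_pow, WithZero.log_pow, nsmul_eq_mul]
  ring

theorem ord_prod {ι : Type*} (s : Finset ι) (f : ι → K) (hf : ∀ i ∈ s, f i ≠ 0) :
    ord P (∏ i ∈ s, f i) = ∑ i ∈ s, ord P (f i) := by
  classical
  induction s using Finset.induction_on with
  | empty => rw [Finset.prod_empty, Finset.sum_empty, ord_one]
  | insert a s ha ih =>
    have h1 : ∀ i ∈ s, f i ≠ 0 := fun i hi => hf i (Finset.mem_insert_of_mem hi)
    rw [Finset.prod_insert ha, Finset.sum_insert ha,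
      ord_mul P (hf a (Finset.mem_insert_self a s)) (Finset.prod_ne_zero_iff.mpr h1), ih h1]

/-- the dominant term decides -/
theorem ord_add_eq {x y : K} (hx : x ≠ 0) (hy : Ge P (ord P x + 1) y) :
    x + y ≠ 0 ∧ ord P (x + y) = ord P x := by
  have h1 : P.valuation K y < P.valuation K x := by
    unfold Ge at hy
    refine hy.trans_lt ?_
    rw [← WithZero.exp_log (an1_val_ne P hx), WithZero.exp_lt_exp]
    unfold ord
    omega
  have h2 : P.valuation K (x + y) = P.valuation K x := Valuation.map_add_eq_of_lt_left _ h1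
  constructor
  · intro h
    rw [h, map_zero] at h2
    exact an1_val_ne P hx h2.symm
  · unfold ord
    rw [h2]

/-- an element cannot cancel against something of larger valuation -/
theorem ord_not_cancel {x y : K} (hx : x ≠ 0) (hxy : x = y) : ¬ Ge P (ord P x + 1) y := by
  intro h
  rw [← hxy, ge_iff P hx] at h
  omega

theorem exists_rat_prime : ∃ r : ℕ, r.Prime ∧ ((r : ℕ) : 𝓞 K) ∈ P.asIdeal := by
  have h1 : (Ideal.absNorm P.asIdeal : 𝓞 K) ∈ P.asIdeal := Ideal.absNorm_mem _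
  have h2 : Ideal.absNorm P.asIdeal ≠ 0 := by
    rw [Ne, Ideal.absNorm_eq_zero_iff]
    exact P.ne_bot
  have h3 : ∀ n : ℕ, n ≠ 0 → (n : 𝓞 K) ∈ P.asIdeal →
      ∃ r : ℕ, r.Prime ∧ ((r : ℕ) : 𝓞 K) ∈ P.asIdeal := by
    intro n
    induction n using Nat.recOnMul with
    | zero => intro h; exact absurd rfl h
    | one =>
      intro _ h
      rw [Nat.cast_one] at h
      exact absurd ((Ideal.eq_top_iff_one _).mpr h) P.isPrime.ne_top
    | prime p hp => intro _ h; exact ⟨p, hp, h⟩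
    | mul a b ha hb =>
      intro h0 h
      rw [Nat.cast_mul] at h
      rcases P.isPrime.mem_or_mem h with h | h
      · exact ha (left_ne_zero_of_mul h0) h
      · exact hb (right_ne_zero_of_mul h0) h
  exact h3 _ h2 h1

theorem exists_prime_over (K : Type*) [Field K] [NumberField K] {r : ℕ} (hr : r.Prime) :
    ∃ P : HeightOneSpectrum (𝓞 K), ((r : ℕ) : 𝓞 K) ∈ P.asIdeal := by
  have h1 : ¬ IsUnit ((r : ℕ) : 𝓞 K) := by
    intro h
    have h2 : IsUnit (Algebra.norm ℤ ((r : ℕ) : 𝓞 K)) := h.map (Algebra.norm ℤ)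
    have h3 : Algebra.norm ℤ ((r : ℕ) : 𝓞 K) = (r : ℤ) ^ Module.finrank ℤ (𝓞 K) := by
      have h4 := Algebra.norm_algebraMap_of_basis (RingOfIntegers.basis K) ((r : ℕ) : ℤ)
      rw [← Module.finrank_eq_card_chooseBasisIndex] at h4
      simpa using h4
    have h5 : Module.finrank ℤ (𝓞 K) ≠ 0 := by
      rw [RingOfIntegers.rank K]
      exact Module.finrank_pos.ne'
    rw [h3, isUnit_pow_iff h5] at h2
    exact (Nat.prime_iff_prime_int.mp hr).not_isUnit h2
  obtain ⟨M, hM, hrM⟩ := exists_max_ideal_of_mem_nonunits h1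
  have h0 : ((r : ℕ) : 𝓞 K) ≠ 0 := Nat.cast_ne_zero.mpr hr.ne_zero
  exact ⟨⟨M, hM.isPrime, fun h => h0 (by rw [h] at hrM; exact hrM)⟩, hrM⟩

omit [NumberField K] in
theorem an1_coprime_not_mem {r : ℕ} (hP : ((r : ℕ) : 𝓞 K) ∈ P.asIdeal) {m : ℤ}
    (hm : IsCoprime (r : ℤ) m) : ((m : ℤ) : 𝓞 K) ∉ P.asIdeal := by
  intro h
  obtain ⟨u, v, huv⟩ := hm
  have h1 : ((u * r + v * m : ℤ) : 𝓞 K) ∈ P.asIdeal := by
    push_cast
    exact P.asIdeal.add_mem (P.asIdeal.mul_mem_left _ hP) (P.asIdeal.mul_mem_left _ h)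
  rw [huv, Int.cast_one] at h1
  exact P.isPrime.ne_top ((Ideal.eq_top_iff_one _).mpr h1)

theorem an1_ord_coe_eq_zero {x : 𝓞 K} (hx : x ∉ P.asIdeal) : ord P (x : K) = 0 := by
  have h := P.valuation_eq_one_iff_notMem (K := K) (r := x)
  have h1 : P.valuation K (algebraMap (𝓞 K) K x) = 1 := by
    rw [h]; exact hx
  unfold ord
  rw [h1, WithZero.log_one, neg_zero]

theorem ord_int_unit {r : ℕ} (hr : r.Prime) (hP : ((r : ℕ) : 𝓞 K) ∈ P.asIdeal) {m : ℤ}
    (hm : ¬ (r : ℤ) ∣ m) : ord P (m : K) = 0 := by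
  have h1 : IsCoprime (r : ℤ) m :=
    (Prime.coprime_iff_not_dvd (Nat.prime_iff_prime_int.mp hr)).mpr hm
  have h2 := an1_ord_coe_eq_zero P (an1_coprime_not_mem P hP h1)
  simpa using h2

theorem mem_pow_iff (x : 𝓞 K) (n : ℕ) : x ∈ P.asIdeal ^ n ↔ Ge P n (x : K) := by
  rw [← P.intValuation_le_pow_iff_mem x n, ← P.valuation_of_algebraMap (K := K)]
  rfl

theorem mem_iff_ge_one (x : 𝓞 K) : x ∈ P.asIdeal ↔ Ge P 1 (x : K) := by
  have h := mem_pow_iff P x 1
  rwa [pow_one, Nat.cast_one] at h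

theorem ord_int_pos {r : ℕ} (_hr : r.Prime) (hP : ((r : ℕ) : 𝓞 K) ∈ P.asIdeal) {m : ℤ}
    (hm0 : m ≠ 0) (hm : (r : ℤ) ∣ m) : 0 < ord P (m : K) := by
  obtain ⟨c, rfl⟩ := hm
  have h1 : (((r : ℤ) * c : ℤ) : 𝓞 K) ∈ P.asIdeal := by
    push_cast
    exact P.asIdeal.mul_mem_right _ hP
  rw [mem_iff_ge_one] at h1
  have h2 : Ge P 1 ((((r : ℤ) * c : ℤ)) : K) := by simpa using h1
  have h3 : ((((r : ℤ) * c : ℤ)) : K) ≠ 0 := Int.cast_ne_zero.mpr hm0
  rw [ge_iff P h3] at h2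
  omega

theorem unitsUpTo_of_lt {r N : ℕ} (hr : r.Prime) (hP : ((r : ℕ) : 𝓞 K) ∈ P.asIdeal)
    (hN : N < r) : UnitsUpTo P N := by
  intro m hm0 hmN
  have h := ord_int_unit P hr hP (m := (m : ℤ)) (by
    intro h
    have h1 := Nat.le_of_dvd hm0 (Int.natCast_dvd_natCast.mp h)
    omega)
  simpa using h

theorem isIntegral_of_forall_ge {x : K} (hx : ∀ P : HeightOneSpectrum (𝓞 K), Ge P 0 x) :
    IsIntegral ℤ x := by
  obtain ⟨y, hy⟩ := HeightOneSpectrum.mem_integers_of_valuation_le_one (R := 𝓞 K) K x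
    (fun P => (an1_ge_zero_iff P x).mp (hx P))
  rw [← hy]
  exact RingOfIntegers.isIntegral_coe y

end Val

end Pool.Agent.H35.AN
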