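import Pool.Agent.H35.AN.Defs
import Pool.Agent.H35.AN.Val

/-!
# Project AN, AN-32: few ideals for a given discriminant
-/

set_option autoImplicit false

open Polynomial IsDedekindDomain NumberField

namespace Pool.Agent.H35.AN

section Choices

variable (k : Type) [Field k] [NumberField k]

/-- At most `[k:ℚ]` primes of `k` lie over a rational prime. -/
theorem an32_over {r : ℕ} (hr : r.Prime) :
    Set.Finite {P : HeightOneSpectrum (𝓞 k) | (r : 𝓞 k) ∈ P.asIdeal} ∧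
      Set.ncard {P : HeightOneSpectrum (𝓞 k) | (r : 𝓞 k) ∈ P.asIdeal} ≤ Module.finrank ℚ k := by
  have hrZ : Prime (r : ℤ) := Nat.prime_iff_prime_int.mp hr
  have hp0 : (Ideal.span {(r : ℤ)}) ≠ ⊥ := by
    rw [Ne, Ideal.span_singleton_eq_bot]
    exact hrZ.ne_zero
  have hprime : (Ideal.span {(r : ℤ)}).IsPrime :=
    (Ideal.span_singleton_prime hrZ.ne_zero).mpr hrZ
  have hmax : (Ideal.span {(r : ℤ)}).IsMaximal := hprime.isMaximal hp0
  have hsub : ∀ P ∈ {P : HeightOneSpectrum (𝓞 k) | (r : 𝓞 k) ∈ P.asIdeal},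
      P.asIdeal ∈ (IsDedekindDomain.primesOverFinset (Ideal.span {(r : ℤ)}) (𝓞 k) :
        Set (Ideal (𝓞 k))) := by
    intro P hP
    rw [Finset.mem_coe, IsDedekindDomain.mem_primesOverFinset_iff hp0]
    refine ⟨P.isPrime, ⟨?_⟩⟩
    have hle : Ideal.span {(r : ℤ)} ≤ P.asIdeal.under ℤ := by
      rw [Ideal.span_singleton_le_iff_mem, Ideal.under_def, Ideal.mem_comap]
      simpa using hP
    have hne : P.asIdeal.under ℤ ≠ ⊤ := (Ideal.IsPrime.under ℤ P.asIdeal).ne_top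
    exact hmax.eq_of_le hne hle
  have hinj : Set.InjOn (fun P : HeightOneSpectrum (𝓞 k) => P.asIdeal)
      {P : HeightOneSpectrum (𝓞 k) | (r : 𝓞 k) ∈ P.asIdeal} := by
    intro P _ Q _ h
    exact HeightOneSpectrum.ext h
  have hfin : Set.Finite (IsDedekindDomain.primesOverFinset (Ideal.span {(r : ℤ)}) (𝓞 k) :
        Set (Ideal (𝓞 k))) := Finset.finite_toSet _
  refine ⟨Set.Finite.of_injOn hsub hinj hfin, ?_⟩
  refine (Set.ncard_le_ncard_of_injOn _ hsub hinj hfin).trans ?_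
  rw [Set.ncard_coe_finset]
  exact Ideal.card_primesOverFinset_le_finrank (𝓞 k) ℚ k hp0

variable {k} in
/-- Two non-zero integers with the same orders generate the same ideal. -/
theorem an32_span_eq {a b : 𝓞 k} (ha : a ≠ 0) (hb : b ≠ 0)
    (h : ∀ P : HeightOneSpectrum (𝓞 k), ord P (a : k) = ord P (b : k)) :
    Ideal.span {a} = Ideal.span {b} := by
  have key : ∀ a b : 𝓞 k, a ≠ 0 → b ≠ 0 →
      (∀ P : HeightOneSpectrum (𝓞 k), ord P (a : k) = ord P (b : k)) →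
      Ideal.span {a} ≤ Ideal.span {b} := by
    intro a b ha hb h
    rw [Ideal.span_singleton_le_span_singleton]
    have ha' : (a : k) ≠ 0 := by simpa using ha
    have hb' : (b : k) ≠ 0 := by simpa using hb
    have hint : IsIntegral ℤ ((a : k) / (b : k)) := by
      apply isIntegral_of_forall_ge
      intro P
      rw [ge_iff P (div_ne_zero ha' hb'), ord_div P ha' hb', h P, sub_self]
    refine ⟨⟨(a : k) / (b : k), hint⟩, ?_⟩
    apply RingOfIntegers.ext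
    change (a : k) = (b : k) * ((a : k) / (b : k))
    rw [mul_div_cancel₀ _ hb']
  exact le_antisymm (key a b ha hb h) (key b a hb ha (fun P => (h P).symm))

variable {k} in
theorem an32_ord_mem {M : ℕ} {a : 𝓞 k} (ha : a ≠ 0) (hs : SqfreeOff M a)
    (P : HeightOneSpectrum (𝓞 k)) (hP : (M : 𝓞 k) ∉ P.asIdeal) :
    (a ∈ P.asIdeal ∧ ord P (a : k) = 1) ∨ (a ∉ P.asIdeal ∧ ord P (a : k) = 0) := by
  have ha' : (a : k) ≠ 0 := by simpa using ha
  have h2 := hs P hP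
  rw [mem_pow_iff, ge_iff P ha'] at h2
  push_cast at h2
  have h0 := (ge_iff P ha').mp (ge_of_isIntegral P (RingOfIntegers.isIntegral_coe a))
  by_cases hm : a ∈ P.asIdeal
  · have h1 := (ge_iff P ha').mp ((mem_iff_ge_one P a).mp hm)
    left
    exact ⟨hm, by omega⟩
  · have h1 : ¬ (1 : ℤ) ≤ ord P (a : k) := fun hc =>
      hm ((mem_iff_ge_one P a).mpr ((ge_iff P ha').mpr hc))
    right
    exact ⟨hm, by omega⟩

theorem ideal_choices (M : ℕ) (hM : 0 < M) (α : 𝓞 k)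
    (hα : ∀ a : 𝓞 k, (M : 𝓞 k) ∣ a - α → ∀ r : HeightOneSpectrum (𝓞 k),
      (M : 𝓞 k) ∈ r.asIdeal → a ≠ 0 ∧ ord r (a : k) = ord r (α : k)) (Δ : ℤ) (hΔ : Δ ≠ 0) :
    Set.Finite {I : Ideal (𝓞 k) | ∃ a : 𝓞 k, a ≠ 0 ∧ I = Ideal.span {a} ∧ (M : 𝓞 k) ∣ a - α ∧
      SqfreeOff M a ∧ ∀ (r : ℕ), r.Prime → ∀ p : HeightOneSpectrum (𝓞 k), (r : 𝓞 k) ∈ p.asIdeal →
        (M : 𝓞 k) ∉ p.asIdeal → a ∈ p.asIdeal → (r : ℤ) ∣ Δ} ∧
    Set.ncard {I : Ideal (𝓞 k) | ∃ a : 𝓞 k, a ≠ 0 ∧ I = Ideal.span {a} ∧ (M : 𝓞 k) ∣ a - α ∧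
      SqfreeOff M a ∧ ∀ (r : ℕ), r.Prime → ∀ p : HeightOneSpectrum (𝓞 k), (r : 𝓞 k) ∈ p.asIdeal →
        (M : 𝓞 k) ∉ p.asIdeal → a ∈ p.asIdeal → (r : ℤ) ∣ Δ} ≤
      2 ^ (Module.finrank ℚ k * Δ.natAbs.primeFactors.card) := by
  classical
  set S : Set (Ideal (𝓞 k)) := {I : Ideal (𝓞 k) | ∃ a : 𝓞 k, a ≠ 0 ∧ I = Ideal.span {a} ∧
      (M : 𝓞 k) ∣ a - α ∧
      SqfreeOff M a ∧ ∀ (r : ℕ), r.Prime → ∀ p : HeightOneSpectrum (𝓞 k), (r : 𝓞 k) ∈ p.asIdeal →
        (M : 𝓞 k) ∉ p.asIdeal → a ∈ p.asIdeal → (r : ℤ) ∣ Δ} with hS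
  -- the primes over the prime divisors of `Δ`
  set V : ℕ → Finset (HeightOneSpectrum (𝓞 k)) := fun r =>
    if hr : r.Prime then (an32_over k hr).1.toFinset else ∅ with hV
  have hVmem : ∀ r : ℕ, r.Prime → ∀ P : HeightOneSpectrum (𝓞 k), P ∈ V r ↔
      (r : 𝓞 k) ∈ P.asIdeal := by
    intro r hr P
    simp only [hV]
    rw [dif_pos hr, Set.Finite.mem_toFinset]
    rfl
  have hVcard : ∀ r : ℕ, r.Prime → (V r).card ≤ Module.finrank ℚ k := by
    intro r hr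
    simp only [hV]
    rw [dif_pos hr, ← Set.ncard_eq_toFinset_card _ (an32_over k hr).1]
    exact (an32_over k hr).2
  set U : Finset (HeightOneSpectrum (𝓞 k)) := Δ.natAbs.primeFactors.biUnion V with hU
  have hUcard : U.card ≤ Module.finrank ℚ k * Δ.natAbs.primeFactors.card := by
    rw [mul_comm]
    exact Finset.card_biUnion_le_card_mul _ _ _
      (fun r hr => hVcard r (Nat.prime_of_mem_primeFactors hr))
  set f : Ideal (𝓞 k) → Finset (HeightOneSpectrum (𝓞 k)) := fun I =>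
    U.filter (fun P => I ≤ P.asIdeal) with hf
  have hmaps : ∀ I ∈ S, f I ∈ (U.powerset : Set (Finset (HeightOneSpectrum (𝓞 k)))) := by
    intro I _
    rw [Finset.mem_coe, Finset.mem_powerset]
    exact Finset.filter_subset _ _
  have hinj : Set.InjOn f S := by
    rintro I ⟨a, ha, rfl, hαa, hsa, hra⟩ J ⟨b, hb, rfl, hαb, hsb, hrb⟩ hIJ
    apply an32_span_eq ha hb
    intro P
    by_cases hMP : (M : 𝓞 k) ∈ P.asIdeal
    · rw [(hα a hαa P hMP).2, (hα b hαb P hMP).2]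
    · -- membership in `P` is the same for `a` and `b`
      obtain ⟨r, hr, hrP⟩ := exists_rat_prime P
      have hmem : ∀ c : 𝓞 k, (∀ (r : ℕ), r.Prime → ∀ p : HeightOneSpectrum (𝓞 k),
          (r : 𝓞 k) ∈ p.asIdeal → (M : 𝓞 k) ∉ p.asIdeal → c ∈ p.asIdeal → (r : ℤ) ∣ Δ) →
          (c ∈ P.asIdeal ↔ P ∈ f (Ideal.span {c})) := by
        intro c hc
        simp only [hf, Finset.mem_filter, Ideal.span_singleton_le_iff_mem]
        constructor
        · intro hcP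
          refine ⟨?_, hcP⟩
          rw [hU, Finset.mem_biUnion]
          refine ⟨r, ?_, (hVmem r hr P).mpr hrP⟩
          rw [Nat.mem_primeFactors]
          exact ⟨hr, Int.natCast_dvd.mp (hc r hr P hrP hMP hcP), Int.natAbs_ne_zero.mpr hΔ⟩
        · exact fun h => h.2
      have hiff : a ∈ P.asIdeal ↔ b ∈ P.asIdeal := by
        rw [hmem a hra, hmem b hrb, hIJ]
      rcases an32_ord_mem ha hsa P hMP with ⟨h1, h2⟩ | ⟨h1, h2⟩ <;>
        rcases an32_ord_mem hb hsb P hMP with ⟨h3, h4⟩ | ⟨h3, h4⟩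
      · rw [h2, h4]
      · exact absurd (hiff.mp h1) h3
      · exact absurd (hiff.mpr h3) h1
      · rw [h2, h4]
  have hfin : Set.Finite (U.powerset : Set (Finset (HeightOneSpectrum (𝓞 k)))) :=
    Finset.finite_toSet _
  refine ⟨Set.Finite.of_injOn hmaps hinj hfin, ?_⟩
  refine (Set.ncard_le_ncard_of_injOn f hmaps hinj hfin).trans ?_
  rw [Set.ncard_coe_finset, Finset.card_powerset]
  exact Nat.pow_le_pow_right (by norm_num) hUcard

end Choices

end Pool.Agent.H35.AN
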