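import Pool.Agent.H35.AN.Defs

/-!
# AN-29: counting ideals, balanced generators, balanced elements of an ideal
-/

set_option autoImplicit false

open Polynomial IsDedekindDomain NumberField

namespace Pool.Agent.H35.AN

variable (k : Type) [Field k] [NumberField k]

theorem ideal_count : ∃ C : ℝ, 0 < C ∧ ∀ x : ℕ,
    Set.Finite {I : Ideal (𝓞 k) | I ≠ ⊥ ∧ Ideal.absNorm I ≤ x} ∧
      (Set.ncard {I : Ideal (𝓞 k) | I ≠ ⊥ ∧ Ideal.absNorm I ≤ x} : ℝ) ≤ C * x := by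
  have hfin : ∀ x : ℕ, Set.Finite {I : Ideal (𝓞 k) | Ideal.absNorm I ≤ x} :=
    fun x => Ideal.finite_setOfPred_absNorm_le x
  have hfin' : ∀ x : ℕ, Set.Finite {I : Ideal (𝓞 k) | I ≠ ⊥ ∧ Ideal.absNorm I ≤ x} :=
    fun x => (hfin x).subset (fun I hI => hI.2)
  obtain ⟨L, hL⟩ : ∃ L : ℝ, Filter.Tendsto
      (fun s : ℝ ↦ (Nat.card {I : Ideal (𝓞 k) // Ideal.absNorm I ≤ s} : ℝ) / s)
      Filter.atTop (nhds L) := ⟨_, NumberField.Ideal.tendsto_norm_le_div_atTop k⟩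
  have h1 : ∀ᶠ s : ℝ in Filter.atTop,
      (Nat.card {I : Ideal (𝓞 k) // Ideal.absNorm I ≤ s} : ℝ) / s ≤ |L| + 1 := by
    have := hL.eventually (gt_mem_nhds (show L < |L| + 1 by linarith [le_abs_self L]))
    exact this.mono (fun s hs => hs.le)
  obtain ⟨s0, hs0⟩ := Filter.eventually_atTop.mp h1
  set N : ℕ := ⌈max s0 1⌉₊ with hN
  have hcard : ∀ x : ℕ, Set.ncard {I : Ideal (𝓞 k) | I ≠ ⊥ ∧ Ideal.absNorm I ≤ x} ≤
      Nat.card {I : Ideal (𝓞 k) // Ideal.absNorm I ≤ x} := by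
    intro x
    rw [← Nat.card_coe_set_eq]
    have : Finite {I : Ideal (𝓞 k) // Ideal.absNorm I ≤ x} := hfin x
    exact Nat.card_le_card_of_injective
      (fun I : {I : Ideal (𝓞 k) | I ≠ ⊥ ∧ Ideal.absNorm I ≤ x} =>
        (⟨I.1, I.2.2⟩ : {I : Ideal (𝓞 k) // Ideal.absNorm I ≤ x}))
      (fun I J h => Subtype.ext (by simpa using h))
  set C0 : ℝ := (Nat.card {I : Ideal (𝓞 k) // Ideal.absNorm I ≤ N} : ℝ) with hC0
  refine ⟨|L| + 1 + C0, by positivity, fun x => ⟨hfin' x, ?_⟩⟩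
  rcases Nat.eq_zero_or_pos x with hx | hx
  · subst hx
    have : {I : Ideal (𝓞 k) | I ≠ ⊥ ∧ Ideal.absNorm I ≤ 0} = ∅ := by
      ext I
      simp only [Set.mem_ofPred_eq, Set.mem_empty_iff_false, iff_false, not_and, not_le]
      intro hI
      exact Nat.pos_of_ne_zero (fun h => hI (Ideal.absNorm_eq_zero_iff.mp h))
    rw [this]
    simp
  have hx1 : (1 : ℝ) ≤ x := by exact_mod_cast hx
  have hC00 : (0 : ℝ) ≤ C0 := by positivity
  rcases le_total N x with hNx | hNx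
  · have hsx : s0 ≤ (x : ℝ) := by
      calc s0 ≤ max s0 1 := le_max_left _ _
        _ ≤ (N : ℝ) := Nat.le_ceil _
        _ ≤ (x : ℝ) := by exact_mod_cast hNx
    have h2 := hs0 x hsx
    rw [div_le_iff₀ (by linarith)] at h2
    have h3 : (Set.ncard {I : Ideal (𝓞 k) | I ≠ ⊥ ∧ Ideal.absNorm I ≤ x} : ℝ) ≤
        (Nat.card {I : Ideal (𝓞 k) // Ideal.absNorm I ≤ x} : ℝ) := by exact_mod_cast hcard x
    have h4 : (Nat.card {I : Ideal (𝓞 k) // ((Ideal.absNorm I : ℕ) : ℝ) ≤ ((x : ℕ) : ℝ)} : ℝ) =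
        (Nat.card {I : Ideal (𝓞 k) // Ideal.absNorm I ≤ x} : ℝ) := by
      simp only [Nat.cast_le]
    rw [h4] at h2
    calc (Set.ncard {I : Ideal (𝓞 k) | I ≠ ⊥ ∧ Ideal.absNorm I ≤ x} : ℝ)
        ≤ (|L| + 1) * x := h3.trans h2
      _ ≤ (|L| + 1 + C0) * x := by nlinarith
  · have h3 : (Set.ncard {I : Ideal (𝓞 k) | I ≠ ⊥ ∧ Ideal.absNorm I ≤ x} : ℝ) ≤ C0 := by
      have h5 : Nat.card {I : Ideal (𝓞 k) // Ideal.absNorm I ≤ x} ≤
          Nat.card {I : Ideal (𝓞 k) // Ideal.absNorm I ≤ N} := by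
        have : Finite {I : Ideal (𝓞 k) // Ideal.absNorm I ≤ N} := hfin N
        exact Nat.card_le_card_of_injective
          (fun I : {I : Ideal (𝓞 k) // Ideal.absNorm I ≤ x} =>
            (⟨I.1, I.2.trans hNx⟩ : {I : Ideal (𝓞 k) // Ideal.absNorm I ≤ N}))
          (fun I J h => Subtype.ext (by simpa using h))
      rw [hC0]
      exact_mod_cast (hcard x).trans h5
    have habs := abs_nonneg L
    calc (Set.ncard {I : Ideal (𝓞 k) | I ≠ ⊥ ∧ Ideal.absNorm I ≤ x} : ℝ) ≤ C0 := h3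
      _ ≤ (|L| + 1 + C0) * 1 := by linarith
      _ ≤ (|L| + 1 + C0) * x := by gcongr

variable {k} in
theorem an29_ne_zero {lam T : ℝ} (hT : 0 < T) {a : 𝓞 k}
    (ha : Balanced lam T a) : a ≠ 0 := by
  rintro rfl
  have φ : k →+* ℂ := Classical.arbitrary _
  have := (ha φ).1
  simp at this
  linarith

/-- boundedly many balanced generators -/
theorem gens_count (lam : ℝ) (hlam : 1 ≤ lam) : ∃ C : ℕ, ∀ (T : ℝ), 0 < T → ∀ I : Ideal (𝓞 k),
    Set.Finite {a : 𝓞 k | Balanced lam T a ∧ Ideal.span {a} = I} ∧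
      Set.ncard {a : 𝓞 k | Balanced lam T a ∧ Ideal.span {a} = I} ≤ C := by
  have hfin := NumberField.Embeddings.finite_of_norm_le k ℂ (lam ^ 2)
  refine ⟨Set.ncard {x : k | IsIntegral ℤ x ∧ ∀ φ : k →+* ℂ, ‖φ x‖ ≤ lam ^ 2}, fun T hT I => ?_⟩
  rcases Set.eq_empty_or_nonempty {a : 𝓞 k | Balanced lam T a ∧ Ideal.span {a} = I} with h | ⟨b, hb⟩
  · rw [h]
    exact ⟨Set.finite_empty, by simp⟩
  have hb0 : b ≠ 0 := an29_ne_zero hT hb.1
  have hbk : (b : k) ≠ 0 := by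
    intro h
    exact hb0 (RingOfIntegers.coe_eq_zero_iff.mp h)
  have hmaps : ∀ a ∈ {a : 𝓞 k | Balanced lam T a ∧ Ideal.span {a} = I},
      (a : k) / (b : k) ∈ {x : k | IsIntegral ℤ x ∧ ∀ φ : k →+* ℂ, ‖φ x‖ ≤ lam ^ 2} := by
    rintro a ⟨ha1, ha2⟩
    have hba : b ∣ a := by
      rw [← Ideal.span_singleton_le_span_singleton, ha2, hb.2]
    obtain ⟨c, hc⟩ := hba
    have hck : (a : k) / (b : k) = (c : k) := by
      rw [hc]
      push_cast
      field_simp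
    refine ⟨?_, fun φ => ?_⟩
    · rw [hck]
      exact RingOfIntegers.isIntegral_coe c
    · rw [map_div₀, norm_div]
      have hb1 := (hb.1 φ).1
      have ha3 := (ha1 φ).2
      have hpos : 0 < ‖φ (b : k)‖ := by
        rw [norm_pos_iff]
        exact (map_ne_zero φ).mpr hbk
      rw [div_le_iff₀ hpos]
      have hl : 0 < lam := by linarith
      calc ‖φ (a : k)‖ ≤ lam * T := ha3
        _ ≤ lam * (lam * ‖φ (b : k)‖) := by gcongr
        _ = lam ^ 2 * ‖φ (b : k)‖ := by ring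
  have hinj : Set.InjOn (fun a : 𝓞 k => (a : k) / (b : k))
      {a : 𝓞 k | Balanced lam T a ∧ Ideal.span {a} = I} := by
    intro a _ c _ h
    have h' : (a : k) / (b : k) = (c : k) / (b : k) := h
    rw [div_left_inj' hbk] at h'
    exact RingOfIntegers.ext h'
  exact ⟨Set.Finite.of_injOn hmaps hinj hfin, Set.ncard_le_ncard_of_injOn _ hmaps hinj hfin⟩

variable {k} in
theorem an29_norm_le {lam T : ℝ} {a : 𝓞 k} (ha : Balanced lam T a) :
    (Ideal.absNorm (Ideal.span {a}) : ℝ) ≤ (lam * T) ^ Module.finrank ℚ k := by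
  rw [Ideal.absNorm_span_singleton]
  have h1 : ((Algebra.norm ℤ a).natAbs : ℝ) = ‖(((Algebra.norm ℤ a : ℤ) : ℚ) : ℂ)‖ := by
    rw [Nat.cast_natAbs]
    simp
  rw [h1]
  have h2 : (((Algebra.norm ℤ a : ℤ) : ℚ) : ℂ) = ∏ φ : k →+* ℂ, φ (a : k) := by
    have h3 : ((Algebra.norm ℤ a : ℤ) : ℚ) = Algebra.norm ℚ (a : k) := by
      exact Algebra.coe_norm_int a
    rw [h3]
    have h4 := Algebra.norm_eq_prod_embeddings ℚ ℂ (a : k)
    have h5 : ((Algebra.norm ℚ (a : k) : ℚ) : ℂ) = algebraMap ℚ ℂ (Algebra.norm ℚ (a : k)) := rfl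
    rw [h5, h4]
    exact Fintype.prod_equiv (RingHom.equivRatAlgHom (R := k) (S := ℂ)).symm _ _ (fun φ => rfl)
  rw [h2, norm_prod]
  calc ∏ φ : k →+* ℂ, ‖φ (a : k)‖ ≤ ∏ _φ : k →+* ℂ, (lam * T) :=
        Finset.prod_le_prod (fun φ _ => norm_nonneg _) (fun φ _ => (ha φ).2)
    _ = (lam * T) ^ Module.finrank ℚ k := by
        rw [Finset.prod_const, Finset.card_univ, NumberField.Embeddings.card]

/-- few balanced elements are divisible by a given ideal: `#{a balanced, a ∈ I} ≤ C T^m / N(I)` -/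
theorem balanced_mem_count (lam : ℝ) (hlam : 1 ≤ lam) : ∃ C : ℝ, 0 < C ∧ ∀ (T : ℝ), 1 ≤ T →
    ∀ I : Ideal (𝓞 k), I ≠ ⊥ → Set.Finite {a : 𝓞 k | Balanced lam T a ∧ a ∈ I} ∧
      (Set.ncard {a : 𝓞 k | Balanced lam T a ∧ a ∈ I} : ℝ) ≤
        C * T ^ Module.finrank ℚ k / Ideal.absNorm I := by
  classical
  obtain ⟨C1, hC1, hcount⟩ := ideal_count k
  obtain ⟨C2, hgens⟩ := gens_count k lam hlam
  refine ⟨C1 * (C2 + 1) * lam ^ Module.finrank ℚ k, by positivity, fun T hT I hI => ?_⟩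
  have hT0 : 0 < T := by linarith
  have hNI : 0 < Ideal.absNorm I :=
    Nat.pos_of_ne_zero (fun h => hI (Ideal.absNorm_eq_zero_iff.mp h))
  have hNI' : (0 : ℝ) < Ideal.absNorm I := by exact_mod_cast hNI
  set m := Module.finrank ℚ k with hm
  set x : ℕ := ⌊(lam * T) ^ m / Ideal.absNorm I⌋₊ with hx
  obtain ⟨hJfin, hJcard⟩ := hcount x
  set 𝒥 : Finset (Ideal (𝓞 k)) := hJfin.toFinset with h𝒥
  have h𝒥card : (𝒥.card : ℝ) ≤ C1 * x := by
    rw [h𝒥, ← Set.ncard_eq_toFinset_card _ hJfin]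
    exact hJcard
  -- the set is contained in the union of the generator sets
  have hsub : {a : 𝓞 k | Balanced lam T a ∧ a ∈ I} ⊆
      ⋃ J ∈ 𝒥, {a : 𝓞 k | Balanced lam T a ∧ Ideal.span {a} = I * J} := by
    rintro a ⟨ha1, ha2⟩
    have ha0 : a ≠ 0 := an29_ne_zero hT0 ha1
    have hdvd : I ∣ Ideal.span {a} := by
      rw [Ideal.dvd_iff_le, Ideal.span_singleton_le_iff_mem]
      exact ha2
    obtain ⟨J, hJ⟩ := hdvd
    rw [Set.mem_iUnion₂]
    refine ⟨J, ?_, ha1, hJ⟩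
    rw [h𝒥, Set.Finite.mem_toFinset]
    refine ⟨?_, ?_⟩
    · rintro rfl
      rw [Ideal.mul_bot, Ideal.span_singleton_eq_bot] at hJ
      exact ha0 hJ
    · rw [hx]
      apply Nat.le_floor
      rw [le_div_iff₀ hNI']
      have h1 := an29_norm_le ha1
      rw [hJ, map_mul] at h1
      push_cast at h1
      linarith
  have hfinU : Set.Finite (⋃ J ∈ 𝒥, {a : 𝓞 k | Balanced lam T a ∧ Ideal.span {a} = I * J}) :=
    Set.Finite.biUnion 𝒥.finite_toSet (fun J _ => (hgens T hT0 (I * J)).1)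
  refine ⟨hfinU.subset hsub, ?_⟩
  have h1 : Set.ncard {a : 𝓞 k | Balanced lam T a ∧ a ∈ I} ≤ 𝒥.card * C2 := by
    refine (Set.ncard_le_ncard hsub hfinU).trans ?_
    refine (Finset.set_ncard_biUnion_le 𝒥 _).trans ?_
    calc ∑ J ∈ 𝒥, Set.ncard {a : 𝓞 k | Balanced lam T a ∧ Ideal.span {a} = I * J}
        ≤ ∑ _J ∈ 𝒥, C2 := Finset.sum_le_sum (fun J _ => (hgens T hT0 (I * J)).2)
      _ = 𝒥.card * C2 := by rw [Finset.sum_const, smul_eq_mul]
  have h2 : (x : ℝ) ≤ (lam * T) ^ m / Ideal.absNorm I := by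
    rw [hx]
    exact Nat.floor_le (by positivity)
  have hl : 0 < lam := by linarith
  calc (Set.ncard {a : 𝓞 k | Balanced lam T a ∧ a ∈ I} : ℝ)
      ≤ ((𝒥.card * C2 : ℕ) : ℝ) := by exact_mod_cast h1
    _ = (𝒥.card : ℝ) * C2 := by push_cast; ring
    _ ≤ (C1 * x) * C2 := by gcongr
    _ ≤ (C1 * ((lam * T) ^ m / Ideal.absNorm I)) * (C2 + 1) := by
        gcongr
        linarith
    _ = C1 * (C2 + 1) * lam ^ m * T ^ m / Ideal.absNorm I := by
        rw [mul_pow]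
        ring

end Pool.Agent.H35.AN
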