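import Pool.Agent.H35.AN.Defs

/-!
# Project AN, AN-33: `2^(m ω(N)) ≤ C N^ε`
-/

set_option autoImplicit false

open Polynomial IsDedekindDomain NumberField

namespace Pool.Agent.H35.AN

theorem two_pow_omega (m : ℕ) (ε : ℝ) (hε : 0 < ε) : ∃ C : ℝ, 1 ≤ C ∧ ∀ N : ℕ, 1 ≤ N →
    (2 : ℝ) ^ (m * N.primeFactors.card) ≤ C * (N : ℝ) ^ ε := by
  have h2m : (1 : ℝ) ≤ 2 ^ m := one_le_pow₀ (by norm_num)
  set P0 : ℕ := ⌈((2 : ℝ) ^ m) ^ (1 / ε)⌉₊ with hP0
  have hbig : ∀ p : ℕ, P0 ≤ p → (2 : ℝ) ^ m ≤ (p : ℝ) ^ ε := by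
    intro p hp
    have h1 : ((2 : ℝ) ^ m) ^ (1 / ε) ≤ (p : ℝ) :=
      (Nat.le_ceil _).trans (Nat.cast_le.mpr hp)
    have h2 := Real.rpow_le_rpow (by positivity) h1 hε.le
    rwa [← Real.rpow_mul (by positivity), one_div_mul_cancel hε.ne', Real.rpow_one] at h2
  refine ⟨((2 : ℝ) ^ m) ^ P0, one_le_pow₀ h2m, ?_⟩
  intro N hN
  have e1 : (2 : ℝ) ^ (m * N.primeFactors.card) = ∏ _p ∈ N.primeFactors, (2 : ℝ) ^ m := by
    rw [Finset.prod_const, pow_mul]
  have e2 : ∏ _p ∈ N.primeFactors, (2 : ℝ) ^ m ≤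
      ∏ p ∈ N.primeFactors, ((if p < P0 then (2 : ℝ) ^ m else 1) * (p : ℝ) ^ ε) := by
    apply Finset.prod_le_prod
    · intro p _
      positivity
    · intro p hp
      have hp1 : (1 : ℝ) ≤ (p : ℝ) := by
        exact_mod_cast (Nat.prime_of_mem_primeFactors hp).one_lt.le
      split_ifs with h
      · exact le_mul_of_one_le_right (by positivity) (Real.one_le_rpow hp1 hε.le)
      · rw [one_mul]
        exact hbig p (not_lt.mp h)
  have e3 : ∏ p ∈ N.primeFactors, (if p < P0 then (2 : ℝ) ^ m else 1) ≤ ((2 : ℝ) ^ m) ^ P0 := by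
    rw [Finset.prod_ite, Finset.prod_const, Finset.prod_const_one, mul_one]
    apply pow_le_pow_right₀ h2m
    calc (N.primeFactors.filter (fun p => p < P0)).card ≤ (Finset.range P0).card := by
          apply Finset.card_le_card
          intro p hp
          rw [Finset.mem_filter] at hp
          exact Finset.mem_range.mpr hp.2
      _ = P0 := Finset.card_range P0
  have e4 : ∏ p ∈ N.primeFactors, (p : ℝ) ^ ε ≤ (N : ℝ) ^ ε := by
    rw [Real.finsetProd_rpow _ _ (fun p _ => Nat.cast_nonneg p)]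
    apply Real.rpow_le_rpow (Finset.prod_nonneg (fun p _ => Nat.cast_nonneg p)) _ hε.le
    rw [← Nat.cast_prod]
    exact_mod_cast Nat.le_of_dvd hN (Nat.prod_primeFactors_dvd N)
  rw [e1]
  refine e2.trans ?_
  rw [Finset.prod_mul_distrib]
  exact mul_le_mul e3 e4 (Finset.prod_nonneg (fun p _ => by positivity)) (by positivity)

end Pool.Agent.H35.AN
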