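import Pool.Agent.H35.AN.Defs

/-!
# Project AN, AN-27: the box
-/

set_option autoImplicit false

open Polynomial IsDedekindDomain NumberField

namespace Pool.Agent.H35.AN

section BoxS

variable (k : Type) [Field k] [NumberField k]

theorem card_box (Q : ℕ) : (box k Q).card = Q ^ Module.finrank ℚ k := by
  unfold box
  rw [Fintype.card_piFinset, Finset.prod_const, Finset.card_range, Finset.card_univ,
    ← Module.finrank_eq_card_chooseBasisIndex, RingOfIntegers.rank]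

variable {k} in
theorem an27_sum_le (φ : k →+* ℂ) (f : (k →+* ℂ) → ℝ) (hf : ∀ ψ, 0 ≤ f ψ) :
    f φ ≤ ∑ ψ : k →+* ℂ, f ψ :=
  Finset.single_le_sum (fun ψ _ => hf ψ) (Finset.mem_univ φ)

theorem exists_box : ∃ D0 : ℕ, 1 ≤ D0 ∧ ∀ (M : ℕ), 0 < M → ∀ α : 𝓞 k,
    ∃ (lam : ℝ) (T0 : ℕ), 1 ≤ lam ∧ ∀ T : ℕ, T0 ≤ T → ∀ y ∈ box k (T / D0),
      Balanced lam T (boxElt k M α T y) ∧ boxElt k M α T y ≠ 0 := by
  set Bd : ℝ := ∑ ψ : k →+* ℂ, ∑ i : Idx k, ‖ψ ((RingOfIntegers.basis k i : 𝓞 k) : k)‖ with hBd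
  have hBd0 : 0 ≤ Bd := Finset.sum_nonneg (fun ψ _ => Finset.sum_nonneg (fun i _ => norm_nonneg _))
  have hBφ : ∀ φ : k →+* ℂ, ∑ i : Idx k, ‖φ ((RingOfIntegers.basis k i : 𝓞 k) : k)‖ ≤ Bd :=
    fun φ => an27_sum_le φ (fun ψ => ∑ i : Idx k, ‖ψ ((RingOfIntegers.basis k i : 𝓞 k) : k)‖)
      (fun ψ => Finset.sum_nonneg (fun i _ => norm_nonneg _))
  refine ⟨⌈4 * Bd⌉₊ + 1, by omega, ?_⟩
  intro M hM α
  set D0 : ℕ := ⌈4 * Bd⌉₊ + 1 with hD0
  have hD0B : 4 * Bd ≤ (D0 : ℝ) := by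
    rw [hD0]
    push_cast
    linarith [Nat.le_ceil (4 * Bd)]
  have hD0pos : (0 : ℝ) < (D0 : ℝ) := by
    rw [hD0]
    positivity
  set A : ℝ := ∑ ψ : k →+* ℂ, ‖ψ (α : k)‖ with hA
  have hAφ : ∀ φ : k →+* ℂ, ‖φ (α : k)‖ ≤ A :=
    fun φ => an27_sum_le φ (fun ψ => ‖ψ (α : k)‖) (fun ψ => norm_nonneg _)
  have hM1 : (1 : ℝ) ≤ (M : ℝ) := by exact_mod_cast hM
  refine ⟨2 * M, ⌈4 * A⌉₊ + 1, by linarith, ?_⟩
  intro T hT y hy
  have hT1 : (1 : ℝ) ≤ (T : ℝ) := by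
    have : 1 ≤ T := by omega
    exact_mod_cast this
  have hTA : 4 * A ≤ (T : ℝ) := by
    have h1 : ((⌈4 * A⌉₊ + 1 : ℕ) : ℝ) ≤ (T : ℝ) := by exact_mod_cast hT
    push_cast at h1
    linarith [Nat.le_ceil (4 * A)]
  have hy' : ∀ i, y i < T / D0 := by
    intro i
    unfold box at hy
    rw [Fintype.mem_piFinset] at hy
    exact Finset.mem_range.mp (hy i)
  have hyR : ∀ i, (y i : ℝ) ≤ (T : ℝ) / (D0 : ℝ) := by
    intro i
    have h1 : ((y i : ℕ) : ℝ) ≤ ((T / D0 : ℕ) : ℝ) := by exact_mod_cast (hy' i).le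
    exact h1.trans Nat.cast_div_le
  have hbal : ∀ φ : k →+* ℂ, (T : ℝ) ≤ 2 * M * ‖φ ((boxElt k M α T y : 𝓞 k) : k)‖ ∧
      ‖φ ((boxElt k M α T y : 𝓞 k) : k)‖ ≤ 2 * M * T := by
    intro φ
    have hval : φ ((boxElt k M α T y : 𝓞 k) : k) =
        (M : ℂ) * ((T : ℂ) + ∑ i : Idx k, (y i : ℂ) *
          φ ((RingOfIntegers.basis k i : 𝓞 k) : k)) + φ (α : k) := by
      unfold boxElt
      simp only [map_add, map_mul, map_natCast, map_sum]
    have hsum : ‖∑ i : Idx k, (y i : ℂ) * φ ((RingOfIntegers.basis k i : 𝓞 k) : k)‖ ≤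
        (T : ℝ) / 4 := by
      calc ‖∑ i : Idx k, (y i : ℂ) * φ ((RingOfIntegers.basis k i : 𝓞 k) : k)‖
          ≤ ∑ i : Idx k, ‖(y i : ℂ) * φ ((RingOfIntegers.basis k i : 𝓞 k) : k)‖ :=
            norm_sum_le _ _
        _ ≤ ∑ i : Idx k, ((T : ℝ) / (D0 : ℝ)) *
              ‖φ ((RingOfIntegers.basis k i : 𝓞 k) : k)‖ := by
            apply Finset.sum_le_sum
            intro i _
            rw [norm_mul, Complex.norm_natCast]
            exact mul_le_mul_of_nonneg_right (hyR i) (norm_nonneg _)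
        _ = ((T : ℝ) / (D0 : ℝ)) * ∑ i : Idx k,
              ‖φ ((RingOfIntegers.basis k i : 𝓞 k) : k)‖ := by rw [Finset.mul_sum]
        _ ≤ ((T : ℝ) / (D0 : ℝ)) * Bd :=
            mul_le_mul_of_nonneg_left (hBφ φ) (by positivity)
        _ ≤ (T : ℝ) / 4 := by
            rw [div_mul_eq_mul_div, div_le_iff₀ hD0pos]
            nlinarith
    set s := ∑ i : Idx k, (y i : ℂ) * φ ((RingOfIntegers.basis k i : 𝓞 k) : k) with hs
    have hnM : ‖(M : ℂ)‖ = (M : ℝ) := Complex.norm_natCast M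
    have hnT : ‖(T : ℂ)‖ = (T : ℝ) := Complex.norm_natCast T
    have hup : ‖(M : ℂ) * ((T : ℂ) + s) + φ (α : k)‖ ≤ M * (T + T / 4) + T / 4 := by
      calc ‖(M : ℂ) * ((T : ℂ) + s) + φ (α : k)‖ ≤ ‖(M : ℂ) * ((T : ℂ) + s)‖ + ‖φ (α : k)‖ :=
            norm_add_le _ _
        _ = M * ‖(T : ℂ) + s‖ + ‖φ (α : k)‖ := by rw [norm_mul, hnM]
        _ ≤ M * (T + T / 4) + T / 4 := by
            have h1 : ‖(T : ℂ) + s‖ ≤ T + T / 4 :=
              (norm_add_le _ _).trans (by rw [hnT]; linarith)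
            have h2 := hAφ φ
            have h3 := mul_le_mul_of_nonneg_left h1 (by linarith : (0 : ℝ) ≤ (M : ℝ))
            linarith
    have hlow : (M : ℝ) * (T - T / 4) - T / 4 ≤ ‖(M : ℂ) * ((T : ℂ) + s) + φ (α : k)‖ := by
      have h0 : ‖(M : ℂ) * ((T : ℂ) + s)‖ - ‖φ (α : k)‖ ≤
          ‖(M : ℂ) * ((T : ℂ) + s) + φ (α : k)‖ := by
        have := norm_sub_le ((M : ℂ) * ((T : ℂ) + s) + φ (α : k)) (φ (α : k))
        rw [add_sub_cancel_right] at this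
        linarith
      have h1 : (T : ℝ) - T / 4 ≤ ‖(T : ℂ) + s‖ := by
        have := norm_sub_le ((T : ℂ) + s) s
        rw [add_sub_cancel_right, hnT] at this
        linarith
      have h2 := hAφ φ
      have h3 := mul_le_mul_of_nonneg_left h1 (by linarith : (0 : ℝ) ≤ (M : ℝ))
      rw [norm_mul, hnM] at h0
      linarith
    rw [hval]
    constructor
    · have hge : (T : ℝ) / 2 ≤ ‖(M : ℂ) * ((T : ℂ) + s) + φ (α : k)‖ := by
        refine le_trans ?_ hlow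
        nlinarith
      have h4 : (T : ℝ) ≤ 2 * ‖(M : ℂ) * ((T : ℂ) + s) + φ (α : k)‖ := by linarith
      have h5 : 2 * ‖(M : ℂ) * ((T : ℂ) + s) + φ (α : k)‖ ≤
          2 * M * ‖(M : ℂ) * ((T : ℂ) + s) + φ (α : k)‖ := by
        have := norm_nonneg ((M : ℂ) * ((T : ℂ) + s) + φ (α : k))
        nlinarith
      exact h4.trans h5
    · refine hup.trans ?_
      nlinarith
  refine ⟨hbal, ?_⟩
  intro h0
  obtain ⟨φ⟩ : Nonempty (k →+* ℂ) := inferInstance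
  have h1 := (hbal φ).1
  rw [h0] at h1
  simp only [map_zero, norm_zero, mul_zero] at h1
  linarith

theorem boxElt_inj {M : ℕ} (hM : 0 < M) (α : 𝓞 k) (T : ℕ) :
    Function.Injective (boxElt k M α T) := by
  intro y z h
  unfold boxElt at h
  have h1 := add_right_cancel h
  have hM0 : (M : 𝓞 k) ≠ 0 := by exact_mod_cast hM.ne'
  have h2 := add_left_cancel (mul_left_cancel₀ hM0 h1)
  have h3 : (RingOfIntegers.basis k).equivFun.symm (fun i => (y i : ℤ)) =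
      (RingOfIntegers.basis k).equivFun.symm (fun i => (z i : ℤ)) := by
    rw [Module.Basis.equivFun_symm_apply, Module.Basis.equivFun_symm_apply]
    simpa [zsmul_eq_mul] using h2
  have h4 := (RingOfIntegers.basis k).equivFun.symm.injective h3
  funext i
  have h5 := congrFun h4 i
  exact_mod_cast h5

end BoxS

end Pool.Agent.H35.AN
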