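import Pool.Agent.H35.AN.Defs

/-!
# AN-28: box elements in an ideal (MP_a3214d_nt)
-/

set_option autoImplicit false

open Polynomial IsDedekindDomain NumberField

namespace Pool.Agent.H35.AN

/-- numbers below `Q` in a residue class -/
theorem an28_class {N : ℕ} (Q : ℕ) (r : ZMod N) :
    ((Finset.range Q).filter (fun x : ℕ => (x : ZMod N) = r)).card ≤ Q / N + 1 := by
  have h1 : ((Finset.range Q).filter (fun x : ℕ => (x : ZMod N) = r)).card ≤
      (Finset.range (Q / N + 1)).card := by
    refine Finset.card_le_card_of_injOn (fun x => x / N) ?_ ?_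
    · intro x hx
      have hx1 := Finset.mem_filter.1 (Finset.mem_coe.1 hx)
      have hx2 := Finset.mem_range.1 hx1.1
      refine Finset.mem_coe.2 (Finset.mem_range.2 ?_)
      exact Nat.lt_succ_of_le (Nat.div_le_div_right hx2.le)
    · intro x hx y hy hxy
      have hx1 := (Finset.mem_filter.1 (Finset.mem_coe.1 hx)).2
      have hy1 := (Finset.mem_filter.1 (Finset.mem_coe.1 hy)).2
      have h2 : (x : ZMod N) = (y : ZMod N) := hx1.trans hy1.symm
      have h3 : x % N = y % N := (ZMod.natCast_eq_natCast_iff x y N).1 h2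
      have h4 : x / N = y / N := hxy
      rw [← Nat.div_add_mod x N, ← Nat.div_add_mod y N, h3, h4]
  rwa [Finset.card_range] at h1

open scoped Classical in
/-- fibres of a surjective homomorphism of finite groups -/
theorem an28_fibre {A B : Type} [AddGroup A] [Fintype A] [AddGroup B] (f : A →+ B)
    (hf : Function.Surjective f) (b : B) :
    (Finset.univ.filter (fun a => f a = b)).card * Nat.card B = Fintype.card A := by
  haveI : Finite B := Finite.of_surjective f hf
  haveI : Fintype B := Fintype.ofFinite B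
  have h1 : (Finset.univ : Finset A).card =
      ∑ b' ∈ (Finset.univ : Finset B), (Finset.univ.filter (fun a => f a = b')).card :=
    Finset.card_eq_sum_card_fiberwise (fun _ _ => Finset.mem_coe.2 (Finset.mem_univ _))
  have h2 : ∀ b' ∈ (Finset.univ : Finset B), (Finset.univ.filter (fun a => f a = b')).card =
      (Finset.univ.filter (fun a => f a = b)).card := fun b' _ =>
    AddMonoidHom.card_fiber_eq_of_mem_range f (hf b') (hf b)
  rw [Finset.sum_congr rfl h2, Finset.sum_const, smul_eq_mul, Finset.card_univ,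
    Finset.card_univ] at h1
  rw [h1, Nat.card_eq_fintype_card, mul_comm]

variable (k : Type) [Field k] [NumberField k]

/-- the homomorphism `r ↦ M Σ r_i β_i mod I` -/
noncomputable def an28_hom (M N : ℕ) (I : Ideal (𝓞 k)) (hI : (N : 𝓞 k) ∈ I) :
    (Idx k → ZMod N) →+ (𝓞 k ⧸ I) :=
  ∑ i, (ZMod.lift N ⟨zmultiplesHom (𝓞 k ⧸ I)
    (Ideal.Quotient.mk I ((M : 𝓞 k) * RingOfIntegers.basis k i)), by
      rw [zmultiplesHom_apply, natCast_zsmul, nsmul_eq_mul, ← map_natCast (Ideal.Quotient.mk I),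
        ← map_mul]
      exact Ideal.Quotient.eq_zero_iff_mem.2 (I.mul_mem_right _ hI)⟩).comp
    (Pi.evalAddMonoidHom (fun _ : Idx k => ZMod N) i)

theorem an28_hom_int (M N : ℕ) (I : Ideal (𝓞 k)) (hI : (N : 𝓞 k) ∈ I) (v : Idx k → ℤ) :
    an28_hom k M N I hI (fun i => (v i : ZMod N)) =
      Ideal.Quotient.mk I ((M : 𝓞 k) * ∑ i, (v i : 𝓞 k) * RingOfIntegers.basis k i) := by
  rw [an28_hom, AddMonoidHom.finsetSum_apply, Finset.mul_sum, map_sum]
  refine Finset.sum_congr rfl fun i _ => ?_
  rw [AddMonoidHom.comp_apply, Pi.evalAddMonoidHom_apply, ZMod.lift_coe]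
  show zmultiplesHom (𝓞 k ⧸ I) _ (v i) = _
  rw [zmultiplesHom_apply, zsmul_eq_mul, ← map_intCast (Ideal.Quotient.mk I), ← map_mul]
  congr 1
  ring

theorem an28_surj (M N : ℕ) (hMN : Nat.Coprime M N) (I : Ideal (𝓞 k)) (hI : (N : 𝓞 k) ∈ I) :
    Function.Surjective (an28_hom k M N I hI) := by
  intro x
  obtain ⟨c, rfl⟩ := Ideal.Quotient.mk_surjective x
  have h1 : IsCoprime (M : ℤ) (N : ℤ) := Nat.isCoprime_iff_coprime.2 hMN
  obtain ⟨u, w, huw⟩ := h1
  refine ⟨fun i => (((RingOfIntegers.basis k).repr ((u : 𝓞 k) * c) i : ℤ) : ZMod N), ?_⟩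
  rw [an28_hom_int]
  have h2 : ∑ i, (((RingOfIntegers.basis k).repr ((u : 𝓞 k) * c) i : ℤ) : 𝓞 k) *
      RingOfIntegers.basis k i = (u : 𝓞 k) * c := by
    have h3 := (RingOfIntegers.basis k).sum_repr ((u : 𝓞 k) * c)
    rw [← h3]
    refine Finset.sum_congr rfl fun i _ => ?_
    rw [h3, zsmul_eq_mul]
  rw [h2, Ideal.Quotient.eq]
  have h4 : (M : 𝓞 k) * ((u : 𝓞 k) * c) - c = -((N : 𝓞 k) * ((w : 𝓞 k) * c)) := by
    have h5 : (u : 𝓞 k) * (M : 𝓞 k) + (w : 𝓞 k) * (N : 𝓞 k) = 1 := by
      exact_mod_cast congrArg (Int.cast : ℤ → 𝓞 k) huw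
    linear_combination c * h5
  rw [h4]
  exact I.neg_mem (I.mul_mem_right _ hI)

open scoped Classical in
/-- ### AN-28 BoxCount.lean : box elements in an ideal containing `N` prime to `M` -/
theorem box_count (M N : ℕ) (hMN : Nat.Coprime M N) (hN : 0 < N) (I : Ideal (𝓞 k))
    (hI : (N : 𝓞 k) ∈ I) (α : 𝓞 k) (T Q : ℕ) :
    ((box k Q).filter (fun y => boxElt k M α T y ∈ I)).card * Ideal.absNorm I ≤
      N ^ Module.finrank ℚ k * (Q / N + 1) ^ Module.finrank ℚ k := by
  haveI : NeZero N := ⟨hN.ne'⟩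
  have hcard : Fintype.card (Idx k) = Module.finrank ℚ k := by
    rw [← RingOfIntegers.rank k, Module.finrank_eq_card_chooseBasisIndex]
  set b : 𝓞 k ⧸ I := Ideal.Quotient.mk I (-((M : 𝓞 k) * (T : 𝓞 k) + α)) with hb
  have h1 := an28_fibre (an28_hom k M N I hI) (an28_surj k M N hMN I hI) b
  have h2 : Fintype.card (Idx k → ZMod N) = N ^ Module.finrank ℚ k := by
    rw [Fintype.card_fun, ZMod.card, hcard]
  have h3 : ((box k Q).filter (fun y => boxElt k M α T y ∈ I)).card ≤
      (Q / N + 1) ^ Module.finrank ℚ k *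
        (Finset.univ.filter (fun a => an28_hom k M N I hI a = b)).card := by
    refine Finset.card_le_mul_card_image_of_maps_to
      (f := fun (y : Idx k → ℕ) (i : Idx k) => (y i : ZMod N)) ?_ _ ?_
    · intro y hy
      have hy1 := (Finset.mem_filter.1 hy).2
      refine Finset.mem_filter.2 ⟨Finset.mem_univ _, ?_⟩
      have h4 := an28_hom_int k M N I hI (fun i => (y i : ℤ))
      simp only [Int.cast_natCast] at h4
      rw [h4, hb, Ideal.Quotient.eq]
      have h5 : (M : 𝓞 k) * ∑ i, (y i : 𝓞 k) * RingOfIntegers.basis k i -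
          -((M : 𝓞 k) * (T : 𝓞 k) + α) = boxElt k M α T y := by
        rw [boxElt]
        ring
      rw [h5]
      exact hy1
    · intro r _
      have h6 : ((box k Q).filter (fun y => boxElt k M α T y ∈ I)).filter
          (fun y => (fun i : Idx k => (y i : ZMod N)) = r) ⊆
          Fintype.piFinset (fun i : Idx k =>
            (Finset.range Q).filter (fun x : ℕ => (x : ZMod N) = r i)) := by
        intro y hy
        have hy1 := Finset.mem_filter.1 hy
        have hy2 := (Finset.mem_filter.1 hy1.1).1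
        have hy3 := Fintype.mem_piFinset.1 hy2
        refine Fintype.mem_piFinset.2 fun i => Finset.mem_filter.2 ⟨hy3 i, ?_⟩
        exact congrFun hy1.2 i
      refine (Finset.card_le_card h6).trans ?_
      rw [Fintype.card_piFinset, ← hcard]
      refine (Finset.prod_le_prod' fun i _ => an28_class Q (r i)).trans ?_
      rw [Finset.prod_const, Finset.card_univ]
  have h7 : Ideal.absNorm I = Nat.card (𝓞 k ⧸ I) := by
    rw [Ideal.absNorm_apply, Submodule.cardQuot_apply]
  rw [h7, ← h2, ← h1]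
  calc _ ≤ ((Q / N + 1) ^ Module.finrank ℚ k *
        (Finset.univ.filter (fun a => an28_hom k M N I hI a = b)).card) *
        Nat.card (𝓞 k ⧸ I) := Nat.mul_le_mul_right _ h3
    _ = _ := by ring

end Pool.Agent.H35.AN
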