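import Pool.Agent.H35.AN.Defs
import Pool.Agent.H35.AN.Box
import Pool.Agent.H35.AN.BoxCount
import Pool.Agent.H35.AN.Ideals

/-!
# Project AN, AN-30: few box elements are divisible by the square of a large prime
-/

set_option autoImplicit false

open Polynomial IsDedekindDomain NumberField

namespace Pool.Agent.H35.AN

section BoxS

variable (k : Type) [Field k] [NumberField k]

/-- a prime containing the rational prime `r` has norm at least `r` -/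
theorem an30_le_absNorm {r : ℕ} (hr : r.Prime) (p : HeightOneSpectrum (𝓞 k))
    (hp : (r : 𝓞 k) ∈ p.asIdeal) : r ≤ Ideal.absNorm p.asIdeal := by
  have h0 : Ideal.absNorm p.asIdeal ≠ 0 := by
    rw [Ne, Ideal.absNorm_eq_zero_iff]
    exact p.ne_bot
  refine Nat.le_of_dvd (Nat.pos_of_ne_zero h0) ?_
  by_contra hcon
  have hcop : Nat.Coprime r (Ideal.absNorm p.asIdeal) := (Nat.Prime.coprime_iff_not_dvd hr).2 hcon
  have hz : IsCoprime (r : ℤ) (Ideal.absNorm p.asIdeal : ℤ) := Nat.isCoprime_iff_coprime.2 hcop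
  obtain ⟨u, v, huv⟩ := hz
  have h1 : (1 : 𝓞 k) ∈ p.asIdeal := by
    have h2 : ((u * (r : ℤ) + v * (Ideal.absNorm p.asIdeal : ℤ) : ℤ) : 𝓞 k) = 1 := by
      rw [huv]; simp
    rw [← h2]
    push_cast
    exact p.asIdeal.add_mem (p.asIdeal.mul_mem_left _ hp)
      (p.asIdeal.mul_mem_left _ (Ideal.absNorm_mem p.asIdeal))
  exact p.isPrime.ne_top ((Ideal.eq_top_iff_one _).2 h1)

/-- at most `[k : ℚ]` primes contain the rational prime `r` -/
theorem an30_primes_over {r : ℕ} (hr : r.Prime) :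
    ∃ s : Finset (HeightOneSpectrum (𝓞 k)), s.card ≤ Module.finrank ℚ k ∧
      ∀ p : HeightOneSpectrum (𝓞 k), (r : 𝓞 k) ∈ p.asIdeal → p ∈ s := by
  classical
  have hr0 : (r : 𝓞 k) ≠ 0 := by exact_mod_cast hr.ne_zero
  have hI : Ideal.span {(r : 𝓞 k)} ≠ 0 := by
    rw [Ne, Ideal.zero_eq_bot, Ideal.span_singleton_eq_bot]
    exact hr0
  have hfin : {v : HeightOneSpectrum (𝓞 k) | v.asIdeal ∣ Ideal.span {(r : 𝓞 k)}}.Finite :=
    Ideal.finite_factors hI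
  refine ⟨hfin.toFinset, ?_, ?_⟩
  · have hdvd : ∏ P ∈ (hfin.toFinset.image (fun v : HeightOneSpectrum (𝓞 k) => v.asIdeal)), P ∣
        Ideal.span {(r : 𝓞 k)} := by
      refine Finset.prod_primes_dvd _ ?_ ?_
      · intro P hP
        obtain ⟨v, -, rfl⟩ := Finset.mem_image.1 hP
        exact v.prime
      · intro P hP
        obtain ⟨v, hv, rfl⟩ := Finset.mem_image.1 hP
        exact (Set.Finite.mem_toFinset hfin).1 hv
    rw [Finset.prod_image (fun x _ y _ h => HeightOneSpectrum.ext h)] at hdvd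
    have hN := map_dvd Ideal.absNorm hdvd
    rw [map_prod, Ideal.absNorm_span_natCast, RingOfIntegers.rank] at hN
    have hle := Nat.le_of_dvd (pow_pos hr.pos _) hN
    have h2 : r ^ hfin.toFinset.card ≤ ∏ v ∈ hfin.toFinset, Ideal.absNorm v.asIdeal := by
      refine Finset.pow_card_le_prod _ _ _ ?_
      intro v hv
      refine an30_le_absNorm k hr v ?_
      have := (Set.Finite.mem_toFinset hfin).1 hv
      exact (Ideal.dvd_span_singleton).1 this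
    exact (Nat.pow_le_pow_iff_right hr.one_lt).1 (h2.trans hle)
  · intro p hp
    refine (Set.Finite.mem_toFinset hfin).2 ?_
    exact (Ideal.dvd_span_singleton).2 hp

/-- the rational prime below a prime -/
theorem an30_exists_rat (p : HeightOneSpectrum (𝓞 k)) :
    ∃ r : ℕ, r.Prime ∧ (r : 𝓞 k) ∈ p.asIdeal := by
  have h0 : Ideal.absNorm p.asIdeal ≠ 0 := by
    rw [Ne, Ideal.absNorm_eq_zero_iff]
    exact p.ne_bot
  have hmem : ((Ideal.absNorm p.asIdeal : ℕ) : 𝓞 k) ∈ p.asIdeal := Ideal.absNorm_mem p.asIdeal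
  by_contra hcon
  push Not at hcon
  have key : ∀ n : ℕ, n ≠ 0 → (n : 𝓞 k) ∉ p.asIdeal := by
    intro n
    induction n using Nat.recOnMul with
    | zero => intro h; exact absurd rfl h
    | one =>
      intro _ h
      rw [Nat.cast_one] at h
      exact p.isPrime.ne_top ((Ideal.eq_top_iff_one _).2 h)
    | prime q hq => intro _; exact hcon q hq
    | mul a b ha hb =>
      intro hab h
      rw [Nat.cast_mul] at h
      rcases p.isPrime.mem_or_mem h with h | h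
      · exact ha (left_ne_zero_of_mul hab) h
      · exact hb (right_ne_zero_of_mul hab) h
  exact key _ h0 hmem

open scoped Classical in
theorem an30_count_small (M : ℕ) (α : 𝓞 k) (T Q : ℕ) {r : ℕ} (hr : r.Prime) (hrM : ¬ r ∣ M)
    (hrQ : r ^ 2 ≤ Q) (p : HeightOneSpectrum (𝓞 k)) (hp : (r : 𝓞 k) ∈ p.asIdeal) :
    (((box k Q).filter (fun y => boxElt k M α T y ∈ p.asIdeal ^ 2)).card : ℝ) ≤
      (2 * (Q : ℝ)) ^ Module.finrank ℚ k * ((r : ℝ) ^ 2)⁻¹ := by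
  have hcop : Nat.Coprime M (r ^ 2) :=
    Nat.Coprime.pow_right 2 ((Nat.Prime.coprime_iff_not_dvd hr).2 hrM).symm
  have hmem : ((r ^ 2 : ℕ) : 𝓞 k) ∈ p.asIdeal ^ 2 := by
    push_cast
    exact Ideal.pow_mem_pow hp 2
  have h := box_count k M (r ^ 2) hcop (pow_pos hr.pos 2) (p.asIdeal ^ 2) hmem α T Q
  set c := ((box k Q).filter (fun y => boxElt k M α T y ∈ p.asIdeal ^ 2)).card with hc
  have h1 : c * r ^ 2 ≤ (2 * Q) ^ Module.finrank ℚ k := by
    calc c * r ^ 2 ≤ c * Ideal.absNorm (p.asIdeal ^ 2) := by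
          refine Nat.mul_le_mul_left _ ?_
          rw [map_pow]
          exact Nat.pow_le_pow_left (an30_le_absNorm k hr p hp) 2
      _ ≤ (r ^ 2) ^ Module.finrank ℚ k * (Q / r ^ 2 + 1) ^ Module.finrank ℚ k := h
      _ = (r ^ 2 * (Q / r ^ 2 + 1)) ^ Module.finrank ℚ k := by rw [mul_pow]
      _ ≤ (2 * Q) ^ Module.finrank ℚ k := by
          refine Nat.pow_le_pow_left ?_ _
          have h3 : r ^ 2 * (Q / r ^ 2) ≤ Q := Nat.mul_div_le _ _
          rw [mul_add, mul_one]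
          omega
  have h2 : (c : ℝ) * (r : ℝ) ^ 2 ≤ (2 * (Q : ℝ)) ^ Module.finrank ℚ k := by exact_mod_cast h1
  have hr2 : (0 : ℝ) < (r : ℝ) ^ 2 := by
    have : (0 : ℝ) < (r : ℝ) := by exact_mod_cast hr.pos
    positivity
  rw [← div_eq_mul_inv, le_div_iff₀ hr2]
  exact h2

open scoped Classical in
theorem an30_count_big {M : ℕ} (hM : 0 < M) (α : 𝓞 k) (T Q : ℕ) {C lam : ℝ} (hC : 0 < C)
    (hcount : ∀ (T : ℝ), 1 ≤ T →
      ∀ I : Ideal (𝓞 k), I ≠ ⊥ → Set.Finite {a : 𝓞 k | Balanced lam T a ∧ a ∈ I} ∧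
      (Set.ncard {a : 𝓞 k | Balanced lam T a ∧ a ∈ I} : ℝ) ≤
        C * T ^ Module.finrank ℚ k / Ideal.absNorm I)
    (hT : 1 ≤ T) (hbal : ∀ y ∈ box k Q, Balanced lam T (boxElt k M α T y))
    {r : ℕ} (hr : r.Prime) (p : HeightOneSpectrum (𝓞 k)) (hp : (r : 𝓞 k) ∈ p.asIdeal) :
    (((box k Q).filter (fun y => boxElt k M α T y ∈ p.asIdeal ^ 2)).card : ℝ) ≤
      C * (T : ℝ) ^ Module.finrank ℚ k * ((r : ℝ) ^ 2)⁻¹ := by
  have hI : p.asIdeal ^ 2 ≠ ⊥ := by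
    rw [← Ideal.zero_eq_bot]
    exact pow_ne_zero 2 (by rw [Ideal.zero_eq_bot]; exact p.ne_bot)
  obtain ⟨hfin, hle⟩ := hcount (T : ℝ) (by exact_mod_cast hT) (p.asIdeal ^ 2) hI
  have h1 : ((box k Q).filter (fun y => boxElt k M α T y ∈ p.asIdeal ^ 2)).card ≤
      Set.ncard {a : 𝓞 k | Balanced lam T a ∧ a ∈ p.asIdeal ^ 2} := by
    rw [← Finset.card_image_of_injective _ (boxElt_inj k hM α T), ← Set.ncard_coe_finset]
    refine Set.ncard_le_ncard ?_ hfin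
    intro a ha
    rw [Finset.mem_coe, Finset.mem_image] at ha
    obtain ⟨y, hy, rfl⟩ := ha
    rw [Finset.mem_filter] at hy
    exact ⟨hbal y hy.1, hy.2⟩
  have hr2 : (0 : ℝ) < (r : ℝ) ^ 2 := by
    have : (0 : ℝ) < (r : ℝ) := by exact_mod_cast hr.pos
    positivity
  have hN : (r : ℝ) ^ 2 ≤ (Ideal.absNorm (p.asIdeal ^ 2) : ℝ) := by
    rw [map_pow]
    exact_mod_cast Nat.pow_le_pow_left (an30_le_absNorm k hr p hp) 2
  calc (((box k Q).filter (fun y => boxElt k M α T y ∈ p.asIdeal ^ 2)).card : ℝ)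
      ≤ (Set.ncard {a : 𝓞 k | Balanced lam T a ∧ a ∈ p.asIdeal ^ 2} : ℝ) := by exact_mod_cast h1
    _ ≤ C * (T : ℝ) ^ Module.finrank ℚ k / Ideal.absNorm (p.asIdeal ^ 2) := hle
    _ ≤ C * (T : ℝ) ^ Module.finrank ℚ k / (r : ℝ) ^ 2 := by
        refine div_le_div_of_nonneg_left ?_ hr2 hN
        positivity
    _ = C * (T : ℝ) ^ Module.finrank ℚ k * ((r : ℝ) ^ 2)⁻¹ := by rw [div_eq_mul_inv]

/-- `Σ_(k0 < r ≤ R) 1/r² ≤ 1/k0` -/
theorem an30_sum_le {k0 : ℕ} (hk : k0 ≠ 0) (R : ℕ) :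
    ∑ i ∈ Finset.Ioc k0 R, ((i : ℝ) ^ 2)⁻¹ ≤ (k0 : ℝ)⁻¹ := by
  rcases le_or_gt k0 R with h | h
  · have h1 := sum_Ioc_inv_sq_le_sub (α := ℝ) hk h
    have h2 : (0 : ℝ) ≤ (R : ℝ)⁻¹ := by positivity
    linarith
  · rw [Finset.Ioc_eq_empty (by omega), Finset.sum_empty]
    positivity

open scoped Classical in
theorem sieve_sqfree (D0 : ℕ) (hD0 : 1 ≤ D0) (η : ℝ) (hη : 0 < η) : ∃ Y : ℕ, ∀ M : ℕ, 0 < M →
    (∀ r : ℕ, r.Prime → r ≤ Y → r ∣ M) → ∀ (α : 𝓞 k) (lam : ℝ), 1 ≤ lam → ∀ T1 : ℕ,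
    (∀ T : ℕ, T1 ≤ T → ∀ y ∈ box k (T / D0),
      Balanced lam T (boxElt k M α T y) ∧ boxElt k M α T y ≠ 0) →
    ∃ T0 : ℕ, ∀ T : ℕ, T0 ≤ T →
      (((box k (T / D0)).filter (fun y => ¬ SqfreeOff M (boxElt k M α T y))).card : ℝ) ≤
        η * ((T / D0 : ℕ) : ℝ) ^ Module.finrank ℚ k := by
  set m := Module.finrank ℚ k with hm
  obtain ⟨Y, hY⟩ := exists_nat_gt (2 * ((m : ℝ) * 2 ^ m) / η)
  refine ⟨Y + 1, ?_⟩
  intro M hM hYM α lam hlam T1 hbal
  obtain ⟨C, hC, hcount⟩ := balanced_mem_count k lam hlam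
  obtain ⟨N, hN⟩ := exists_nat_gt (2 * ((m : ℝ) * (C * (2 * D0) ^ m)) / η)
  refine ⟨max T1 (D0 * (N + 1) ^ 2), ?_⟩
  intro T hT
  have hT1 : T1 ≤ T := le_trans (le_max_left _ _) hT
  have hT2 : D0 * (N + 1) ^ 2 ≤ T := le_trans (le_max_right _ _) hT
  set Q := T / D0 with hQ
  have hQN : (N + 1) ^ 2 ≤ Q := by
    rw [hQ, Nat.le_div_iff_mul_le (by omega), mul_comm]
    exact hT2
  have hQ1 : 1 ≤ Q := le_trans (Nat.one_le_pow _ _ (by omega)) hQN
  have hTpos : 1 ≤ T := by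
    refine le_trans ?_ hT2
    exact Nat.one_le_iff_ne_zero.2 (Nat.mul_ne_zero (by omega) (by positivity))
  have hsq : N + 1 ≤ Nat.sqrt Q := by
    rw [Nat.le_sqrt]
    calc (N + 1) * (N + 1) = (N + 1) ^ 2 := by ring
      _ ≤ Q := hQN
  have hTQ : (T : ℝ) ≤ 2 * D0 * Q := by
    have h1 : T < D0 * (Q + 1) := by
      have := Nat.lt_mul_div_succ T (show 0 < D0 by omega)
      rw [hQ]
      exact this
    have h2 : D0 * (Q + 1) ≤ 2 * D0 * Q := by nlinarith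
    have h3 : T ≤ 2 * D0 * Q := by omega
    exact_mod_cast h3
  -- the primes
  choose s hs1 hs2 using fun (r : {r : ℕ // r.Prime}) => an30_primes_over k r.2
  let S : ℕ → Finset (HeightOneSpectrum (𝓞 k)) := fun r => if h : r.Prime then s ⟨r, h⟩ else ∅
  have hS1 : ∀ r, (S r).card ≤ m := by
    intro r
    by_cases h : r.Prime
    · simp only [S, h, dif_pos]; exact hs1 ⟨r, h⟩
    · simp only [S, h, dif_neg, not_false_iff, Finset.card_empty]; exact Nat.zero_le _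
  let S' : ℕ → Finset (HeightOneSpectrum (𝓞 k)) := fun r =>
    (S r).filter (fun p => (r : 𝓞 k) ∈ p.asIdeal)
  have hS'1 : ∀ r, (S' r).card ≤ m := fun r => le_trans (Finset.card_filter_le _ _) (hS1 r)
  let W : HeightOneSpectrum (𝓞 k) → Finset (Idx k → ℕ) := fun p =>
    (box k Q).filter (fun y => boxElt k M α T y ∈ p.asIdeal ^ 2)
  let R : ℕ := ∑ y ∈ box k Q, Ideal.absNorm (Ideal.span {boxElt k M α T y})
  let J : Finset ℕ := (Finset.Ioc (Y + 1) R).filter (fun r => r.Prime ∧ ¬ r ∣ M)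
  have hcover : (box k Q).filter (fun y => ¬ SqfreeOff M (boxElt k M α T y)) ⊆
      J.biUnion (fun r => (S' r).biUnion W) := by
    intro y hy
    rw [Finset.mem_filter] at hy
    obtain ⟨hyb, hy2⟩ := hy
    unfold SqfreeOff at hy2
    push Not at hy2
    obtain ⟨p, hpM, hpa⟩ := hy2
    obtain ⟨r, hr, hrp⟩ := an30_exists_rat k p
    have hrM : ¬ r ∣ M := by
      rintro ⟨c, rfl⟩
      apply hpM
      push_cast
      exact p.asIdeal.mul_mem_right _ hrp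
    have hrY : Y + 1 < r := by
      by_contra hcon
      exact hrM (hYM r hr (by omega))
    have hrR : r ≤ R := by
      have ha0 := (hbal T hT1 y hyb).2
      have hdv : p.asIdeal ∣ Ideal.span {boxElt k M α T y} := by
        rw [Ideal.dvd_span_singleton]
        exact Ideal.pow_le_self (by norm_num) hpa
      have h1 := map_dvd Ideal.absNorm hdv
      have h2 : Ideal.absNorm (Ideal.span {boxElt k M α T y}) ≠ 0 := by
        rw [Ne, Ideal.absNorm_eq_zero_iff, Ideal.span_singleton_eq_bot]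
        exact ha0
      have h3 := Nat.le_of_dvd (Nat.pos_of_ne_zero h2) h1
      have h4 : Ideal.absNorm (Ideal.span {boxElt k M α T y}) ≤ R :=
        Finset.single_le_sum (f := fun y => Ideal.absNorm (Ideal.span {boxElt k M α T y}))
          (fun _ _ => Nat.zero_le _) hyb
      exact le_trans (an30_le_absNorm k hr p hrp) (le_trans h3 h4)
    refine Finset.mem_biUnion.2 ⟨r, ?_, ?_⟩
    · exact Finset.mem_filter.2 ⟨Finset.mem_Ioc.2 ⟨hrY, hrR⟩, hr, hrM⟩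
    · refine Finset.mem_biUnion.2 ⟨p, ?_, ?_⟩
      · refine Finset.mem_filter.2 ⟨?_, hrp⟩
        simp only [S, hr, dif_pos]
        exact hs2 ⟨r, hr⟩ p hrp
      · exact Finset.mem_filter.2 ⟨hyb, hpa⟩
  have hmpos : (0 : ℝ) ≤ (m : ℝ) := Nat.cast_nonneg _
  -- the bound for one rational prime
  have hone : ∀ r ∈ J, (((S' r).biUnion W).card : ℝ) ≤
      (m : ℝ) * (2 * (Q : ℝ)) ^ m * ((r : ℝ) ^ 2)⁻¹ +
        (if Nat.sqrt Q < r then (m : ℝ) * (C * (T : ℝ) ^ m) * ((r : ℝ) ^ 2)⁻¹ else 0) := by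
    intro r hr
    obtain ⟨hr1, hr2, hr3⟩ := Finset.mem_filter.1 hr
    have hr0 : (0 : ℝ) ≤ ((r : ℝ) ^ 2)⁻¹ := by positivity
    have hA : (((S' r).biUnion W).card : ℝ) ≤ ∑ p ∈ S' r, ((W p).card : ℝ) := by
      exact_mod_cast Finset.card_biUnion_le
    by_cases hc : Nat.sqrt Q < r
    · rw [if_pos hc]
      have hB : ∑ p ∈ S' r, ((W p).card : ℝ) ≤
          ∑ p ∈ S' r, (C * (T : ℝ) ^ m * ((r : ℝ) ^ 2)⁻¹) := by
        refine Finset.sum_le_sum ?_
        intro p hp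
        obtain ⟨-, hp2⟩ := Finset.mem_filter.1 hp
        exact an30_count_big k hM α T Q hC hcount hTpos (fun y hy => (hbal T hT1 y hy).1) hr2 p hp2
      rw [Finset.sum_const, nsmul_eq_mul] at hB
      have hD : ((S' r).card : ℝ) * (C * (T : ℝ) ^ m * ((r : ℝ) ^ 2)⁻¹) ≤
          (m : ℝ) * (C * (T : ℝ) ^ m * ((r : ℝ) ^ 2)⁻¹) := by
        refine mul_le_mul_of_nonneg_right (by exact_mod_cast hS'1 r) (by positivity)
      have hE : 0 ≤ (m : ℝ) * (2 * (Q : ℝ)) ^ m * ((r : ℝ) ^ 2)⁻¹ := by positivity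
      calc (((S' r).biUnion W).card : ℝ) ≤ _ := hA
        _ ≤ _ := hB
        _ ≤ _ := hD
        _ = (m : ℝ) * (C * (T : ℝ) ^ m) * ((r : ℝ) ^ 2)⁻¹ := by ring
        _ ≤ _ := by linarith
    · rw [if_neg hc, add_zero]
      have hrQ : r ^ 2 ≤ Q := by
        rw [pow_two, ← Nat.le_sqrt]
        omega
      have hB : ∑ p ∈ S' r, ((W p).card : ℝ) ≤
          ∑ p ∈ S' r, ((2 * (Q : ℝ)) ^ m * ((r : ℝ) ^ 2)⁻¹) := by
        refine Finset.sum_le_sum ?_
        intro p hp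
        obtain ⟨-, hp2⟩ := Finset.mem_filter.1 hp
        exact an30_count_small k M α T Q hr2 hr3 hrQ p hp2
      rw [Finset.sum_const, nsmul_eq_mul] at hB
      have hD : ((S' r).card : ℝ) * ((2 * (Q : ℝ)) ^ m * ((r : ℝ) ^ 2)⁻¹) ≤
          (m : ℝ) * ((2 * (Q : ℝ)) ^ m * ((r : ℝ) ^ 2)⁻¹) := by
        refine mul_le_mul_of_nonneg_right (by exact_mod_cast hS'1 r) (by positivity)
      calc (((S' r).biUnion W).card : ℝ) ≤ _ := hA
        _ ≤ _ := hB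
        _ ≤ _ := hD
        _ = _ := by ring
  have hsum1 : ∑ r ∈ J, ((r : ℝ) ^ 2)⁻¹ ≤ ((Y + 1 : ℕ) : ℝ)⁻¹ := by
    refine le_trans ?_ (an30_sum_le (show Y + 1 ≠ 0 by omega) R)
    refine Finset.sum_le_sum_of_subset_of_nonneg (Finset.filter_subset _ _) ?_
    intro i _ _
    positivity
  have hsum2 : ∑ r ∈ J, (if Nat.sqrt Q < r then ((r : ℝ) ^ 2)⁻¹ else 0) ≤
      ((Nat.sqrt Q : ℕ) : ℝ)⁻¹ := by
    refine le_trans ?_ (an30_sum_le (show Nat.sqrt Q ≠ 0 by omega) R)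
    rw [← Finset.sum_filter]
    refine Finset.sum_le_sum_of_subset_of_nonneg ?_ ?_
    · intro r hr
      obtain ⟨h1, h2⟩ := Finset.mem_filter.1 hr
      obtain ⟨h3, -⟩ := Finset.mem_filter.1 h1
      exact Finset.mem_Ioc.2 ⟨h2, (Finset.mem_Ioc.1 h3).2⟩
    · intro i _ _
      positivity
  have htot : (((box k Q).filter (fun y => ¬ SqfreeOff M (boxElt k M α T y))).card : ℝ) ≤
      (m : ℝ) * (2 * (Q : ℝ)) ^ m * ((Y + 1 : ℕ) : ℝ)⁻¹ +
        (m : ℝ) * (C * (T : ℝ) ^ m) * ((Nat.sqrt Q : ℕ) : ℝ)⁻¹ := by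
    have h1 : (((box k Q).filter (fun y => ¬ SqfreeOff M (boxElt k M α T y))).card : ℝ) ≤
        ∑ r ∈ J, (((S' r).biUnion W).card : ℝ) := by
      have := le_trans (Finset.card_le_card hcover) Finset.card_biUnion_le
      exact_mod_cast this
    refine h1.trans ((Finset.sum_le_sum hone).trans ?_)
    rw [Finset.sum_add_distrib, ← Finset.mul_sum]
    have h2 : ∑ r ∈ J, (if Nat.sqrt Q < r then (m : ℝ) * (C * (T : ℝ) ^ m) * ((r : ℝ) ^ 2)⁻¹
        else 0) = (m : ℝ) * (C * (T : ℝ) ^ m) *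
          ∑ r ∈ J, (if Nat.sqrt Q < r then ((r : ℝ) ^ 2)⁻¹ else 0) := by
      rw [Finset.mul_sum]
      refine Finset.sum_congr rfl ?_
      intro r _
      split_ifs <;> simp
    rw [h2]
    refine add_le_add (mul_le_mul_of_nonneg_left hsum1 (by positivity))
      (mul_le_mul_of_nonneg_left hsum2 (by positivity))
  refine htot.trans ?_
  have hQ0 : (0 : ℝ) < (Q : ℝ) ^ m := by
    have : (0 : ℝ) < (Q : ℝ) := by exact_mod_cast hQ1
    positivity
  have hpart1 : (m : ℝ) * (2 * (Q : ℝ)) ^ m * ((Y + 1 : ℕ) : ℝ)⁻¹ ≤ η / 2 * (Q : ℝ) ^ m := by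
    have hY1 : (0 : ℝ) < ((Y + 1 : ℕ) : ℝ) := by positivity
    rw [← div_eq_mul_inv, div_le_iff₀ hY1, mul_pow]
    have h3 : (m : ℝ) * 2 ^ m ≤ η / 2 * ((Y + 1 : ℕ) : ℝ) := by
      have h4 : 2 * ((m : ℝ) * 2 ^ m) < (Y : ℝ) * η := by
        rw [div_lt_iff₀ hη] at hY
        exact hY
      push_cast
      nlinarith
    nlinarith [mul_le_mul_of_nonneg_right h3 hQ0.le]
  have hpart2 : (m : ℝ) * (C * (T : ℝ) ^ m) * ((Nat.sqrt Q : ℕ) : ℝ)⁻¹ ≤
      η / 2 * (Q : ℝ) ^ m := by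
    have hs0 : (0 : ℝ) < ((Nat.sqrt Q : ℕ) : ℝ) := by
      have : 0 < Nat.sqrt Q := by omega
      exact_mod_cast this
    rw [← div_eq_mul_inv, div_le_iff₀ hs0]
    have h5 : (T : ℝ) ^ m ≤ (2 * D0) ^ m * (Q : ℝ) ^ m := by
      rw [← mul_pow]
      exact pow_le_pow_left₀ (by positivity) hTQ m
    have h6 : (N : ℝ) ≤ ((Nat.sqrt Q : ℕ) : ℝ) := by
      exact_mod_cast le_trans (Nat.le_succ N) hsq
    have h7 : 2 * ((m : ℝ) * (C * (2 * D0) ^ m)) < (N : ℝ) * η := by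
      rw [div_lt_iff₀ hη] at hN
      exact hN
    have h8 : (m : ℝ) * (C * (2 * D0) ^ m) ≤ η / 2 * ((Nat.sqrt Q : ℕ) : ℝ) := by
      nlinarith
    calc (m : ℝ) * (C * (T : ℝ) ^ m) ≤ (m : ℝ) * (C * ((2 * D0) ^ m * (Q : ℝ) ^ m)) := by
          refine mul_le_mul_of_nonneg_left (mul_le_mul_of_nonneg_left h5 hC.le) hmpos
      _ = ((m : ℝ) * (C * (2 * D0) ^ m)) * (Q : ℝ) ^ m := by ring
      _ ≤ (η / 2 * ((Nat.sqrt Q : ℕ) : ℝ)) * (Q : ℝ) ^ m :=
          mul_le_mul_of_nonneg_right h8 hQ0.le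
      _ = _ := by ring
  have := add_le_add hpart1 hpart2
  refine this.trans (le_of_eq (by ring))

end BoxS
end Pool.Agent.H35.AN
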