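import Pool.Agent.H35.AN.Val
import Pool.Agent.H35.AN.Box
import Pool.Agent.H35.AN.BoxCount
import Pool.Agent.H35.AN.Ideals

/-! MP_a3214d_nt, project AN, row AN-31: the sieve for common prime divisors -/

set_option autoImplicit false

open Polynomial IsDedekindDomain NumberField

namespace Pool.Agent.H35.AN

section BoxS

variable (k : Type) [Field k] [NumberField k]

theorem an31_norm_ge {r : ℕ} (hr : r.Prime) (p : HeightOneSpectrum (𝓞 k))
    (hp : (r : 𝓞 k) ∈ p.asIdeal) : r ≤ Ideal.absNorm p.asIdeal := by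
  have h1 : Ideal.absNorm p.asIdeal ∣ r ^ Module.finrank ℤ (𝓞 k) := by
    rw [← Ideal.absNorm_span_natCast]
    apply Ideal.absNorm_dvd_absNorm_of_le
    rwa [Ideal.span_singleton_le_iff_mem]
  obtain ⟨j, _, hj⟩ := (Nat.dvd_prime_pow hr).1 h1
  have hj0 : j ≠ 0 := by
    rintro rfl
    rw [pow_zero, Ideal.absNorm_eq_one_iff] at hj
    exact p.isPrime.ne_top hj
  rw [hj]
  exact Nat.le_self_pow hj0 r

theorem an31_card_over {r : ℕ} (hr : r.Prime) (S : Finset (HeightOneSpectrum (𝓞 k)))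
    (hS : ∀ p ∈ S, (r : 𝓞 k) ∈ p.asIdeal) : S.card ≤ Module.finrank ℚ k := by
  classical
  have h1 : ∏ p ∈ S, p.asIdeal ∣ Ideal.span {(r : 𝓞 k)} := by
    have h2 := Finset.prod_primes_dvd (M₀ := Ideal (𝓞 k)) (s := S.image (fun p => p.asIdeal))
      (Ideal.span {(r : 𝓞 k)}) ?_ ?_
    · rwa [Finset.prod_image] at h2
      intro a _ b _ hab
      exact HeightOneSpectrum.ext hab
    · intro a ha
      obtain ⟨p, hp, rfl⟩ := Finset.mem_image.1 ha
      exact p.prime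
    · intro a ha
      obtain ⟨p, hp, rfl⟩ := Finset.mem_image.1 ha
      rw [Ideal.dvd_iff_le, Ideal.span_singleton_le_iff_mem]
      exact hS p hp
  have h3 : ∏ p ∈ S, Ideal.absNorm p.asIdeal ∣ r ^ Module.finrank ℤ (𝓞 k) := by
    rw [← Ideal.absNorm_span_natCast, ← map_prod]
    exact Ideal.absNorm_dvd_absNorm_of_le (Ideal.dvd_iff_le.1 h1)
  have h4 : r ^ S.card ≤ ∏ p ∈ S, Ideal.absNorm p.asIdeal := by
    rw [← Finset.prod_const]
    exact Finset.prod_le_prod' (fun p hp => an31_norm_ge k hr p (hS p hp))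
  have h5 : r ^ S.card ≤ r ^ Module.finrank ℤ (𝓞 k) :=
    h4.trans (Nat.le_of_dvd (pow_pos hr.pos _) h3)
  rw [RingOfIntegers.rank] at h5
  exact (Nat.pow_le_pow_iff_right hr.one_lt).1 h5

/-- sum over primes of the inverse squares of the rational primes below -/
theorem an31_sum_le (R : HeightOneSpectrum (𝓞 k) → ℕ) (hR : ∀ p, (R p).Prime)
    (hRp : ∀ p, ((R p : ℕ) : 𝓞 k) ∈ p.asIdeal) (S : Finset (HeightOneSpectrum (𝓞 k))) (Y : ℕ)
    (hY : ∀ p ∈ S, Y < R p) :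
    ∑ p ∈ S, (((R p : ℕ) : ℝ) ^ 2)⁻¹ ≤ Module.finrank ℚ k * (2 / (Y + 1)) := by
  classical
  obtain ⟨n, hn⟩ : ∃ n, ∀ p ∈ S, R p < n := by
    obtain ⟨n, hn⟩ := (S.image R).finite_toSet.bddAbove
    refine ⟨n + 1, fun p hp => ?_⟩
    have := hn (Finset.mem_coe.2 (Finset.mem_image_of_mem R hp))
    omega
  have hmaps : ∀ p ∈ S, R p ∈ Finset.Ioo Y n := fun p hp => Finset.mem_Ioo.2 ⟨hY p hp, hn p hp⟩
  rw [← Finset.sum_fiberwise_of_maps_to hmaps]
  calc ∑ j ∈ Finset.Ioo Y n, ∑ p ∈ S with R p = j, (((R p : ℕ) : ℝ) ^ 2)⁻¹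
      ≤ ∑ j ∈ Finset.Ioo Y n, (Module.finrank ℚ k : ℝ) * ((j : ℝ) ^ 2)⁻¹ := by
        refine Finset.sum_le_sum fun j _ => ?_
        have h1 : ∑ p ∈ S with R p = j, (((R p : ℕ) : ℝ) ^ 2)⁻¹ =
            ((S.filter (fun p => R p = j)).card : ℝ) * ((j : ℝ) ^ 2)⁻¹ := by
          rw [← nsmul_eq_mul, ← Finset.sum_const]
          refine Finset.sum_congr rfl fun p hp => ?_
          rw [(Finset.mem_filter.1 hp).2]
        rw [h1]
        have h2 : (S.filter (fun p => R p = j)).card ≤ Module.finrank ℚ k := by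
          rcases (S.filter (fun p => R p = j)).eq_empty_or_nonempty with h | ⟨p0, hp0⟩
          · rw [h]; simp
          · have hj : j.Prime := by
              rw [← (Finset.mem_filter.1 hp0).2]; exact hR p0
            refine an31_card_over k hj _ (fun p hp => ?_)
            have := hRp p
            rwa [(Finset.mem_filter.1 hp).2] at this
        have h3 : ((S.filter (fun p => R p = j)).card : ℝ) ≤ Module.finrank ℚ k := by
          exact_mod_cast h2
        gcongr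
    _ = Module.finrank ℚ k * ∑ j ∈ Finset.Ioo Y n, ((j : ℝ) ^ 2)⁻¹ := by rw [Finset.mul_sum]
    _ ≤ _ := by
        gcongr
        exact sum_Ioo_inv_sq_le Y n

open scoped Classical in
theorem an31_small (M r Q T : ℕ) (hr : r.Prime) (hMr : Nat.Coprime M r) (hrQ : r ≤ Q)
    (p : HeightOneSpectrum (𝓞 k)) (hp : (r : 𝓞 k) ∈ p.asIdeal) (α : 𝓞 k) :
    (((box k Q).filter (fun y => boxElt k M α T y ∈ p.asIdeal)).card : ℝ) ≤
      (2 * (Q : ℝ)) ^ Module.finrank ℚ k / r := by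
  have h1 := box_count k M r hMr hr.pos p.asIdeal hp α T Q
  have h2 := an31_norm_ge k hr p hp
  have h3 : r ^ Module.finrank ℚ k * (Q / r + 1) ^ Module.finrank ℚ k ≤
      (2 * Q) ^ Module.finrank ℚ k := by
    rw [← mul_pow]
    apply Nat.pow_le_pow_left
    have := Nat.mul_div_le Q r
    calc r * (Q / r + 1) = r * (Q / r) + r := by ring
      _ ≤ Q + Q := add_le_add this hrQ
      _ = 2 * Q := by ring
  have h4 : ((box k Q).filter (fun y => boxElt k M α T y ∈ p.asIdeal)).card * r ≤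
      (2 * Q) ^ Module.finrank ℚ k :=
    (Nat.mul_le_mul_left _ h2).trans (h1.trans h3)
  have hr0 : (0 : ℝ) < r := by exact_mod_cast hr.pos
  rw [le_div_iff₀ hr0]
  exact_mod_cast h4

open scoped Classical in
theorem an31_large {M r Q T : ℕ} (hM : 0 < M) (hr : r.Prime)
    (p : HeightOneSpectrum (𝓞 k)) (hp : (r : 𝓞 k) ∈ p.asIdeal) (α : 𝓞 k) {lam C : ℝ} (hC : 0 < C)
    (hc : Set.Finite {a : 𝓞 k | Balanced lam T a ∧ a ∈ p.asIdeal} ∧
      (Set.ncard {a : 𝓞 k | Balanced lam T a ∧ a ∈ p.asIdeal} : ℝ) ≤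
        C * (T : ℝ) ^ Module.finrank ℚ k / Ideal.absNorm p.asIdeal)
    (hb : ∀ y ∈ box k Q, Balanced lam T (boxElt k M α T y)) :
    (((box k Q).filter (fun y => boxElt k M α T y ∈ p.asIdeal)).card : ℝ) ≤
      C * (T : ℝ) ^ Module.finrank ℚ k / r := by
  have h1 : ((box k Q).filter (fun y => boxElt k M α T y ∈ p.asIdeal)).card ≤
      Set.ncard {a : 𝓞 k | Balanced lam T a ∧ a ∈ p.asIdeal} := by
    rw [← Finset.card_image_of_injective _ (boxElt_inj k hM α T), ← Set.ncard_coe_finset]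
    refine Set.ncard_le_ncard ?_ hc.1
    intro a ha
    rw [Finset.mem_coe, Finset.mem_image] at ha
    obtain ⟨y, hy, rfl⟩ := ha
    rw [Finset.mem_filter] at hy
    exact ⟨hb y hy.1, hy.2⟩
  have h2 := an31_norm_ge k hr p hp
  have hr0 : (0 : ℝ) < r := by exact_mod_cast hr.pos
  have h3 : (((box k Q).filter (fun y => boxElt k M α T y ∈ p.asIdeal)).card : ℝ) ≤
      Set.ncard {a : 𝓞 k | Balanced lam T a ∧ a ∈ p.asIdeal} := by exact_mod_cast h1
  refine h3.trans (hc.2.trans ?_)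
  have h4 : (r : ℝ) ≤ Ideal.absNorm p.asIdeal := by exact_mod_cast h2
  gcongr

open scoped Classical in
theorem sieve_coprime (D0 : ℕ) (hD0 : 1 ≤ D0) (η : ℝ) (hη : 0 < η) : ∃ Y : ℕ, ∀ M : ℕ, 0 < M →
    (∀ r : ℕ, r.Prime → r ≤ Y → r ∣ M) → ∀ (α β : 𝓞 k) (lam : ℝ), 1 ≤ lam → ∀ T1 : ℕ,
    (∀ T : ℕ, T1 ≤ T → ∀ y ∈ box k (T / D0),
      Balanced lam T (boxElt k M α T y) ∧ boxElt k M α T y ≠ 0) →
    (∀ T : ℕ, T1 ≤ T → ∀ y ∈ box k (T / D0),
      Balanced lam T (boxElt k M β T y) ∧ boxElt k M β T y ≠ 0) →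
    ∃ T0 : ℕ, ∀ T : ℕ, T0 ≤ T →
      (((box k (T / D0) ×ˢ box k (T / D0)).filter
        (fun z => ¬ CoprimeOff M (boxElt k M α T z.1) (boxElt k M β T z.2))).card : ℝ) ≤
        η * ((T / D0 : ℕ) : ℝ) ^ (2 * Module.finrank ℚ k) := by
  set m := Module.finrank ℚ k with hm
  obtain ⟨R, hR⟩ : ∃ R : HeightOneSpectrum (𝓞 k) → ℕ, ∀ p, (R p).Prime ∧
      ((R p : ℕ) : 𝓞 k) ∈ p.asIdeal := by
    choose R hR using fun p : HeightOneSpectrum (𝓞 k) => exists_rat_prime p
    exact ⟨R, hR⟩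
  obtain ⟨p0, -⟩ := exists_prime_over k Nat.prime_two
  obtain ⟨Y, hY⟩ := exists_nat_ge (4 ^ (m + 1) * m / η)
  refine ⟨Y, fun M hM hMY α β lam hlam T1 hα hβ => ?_⟩
  obtain ⟨C, hC, hcount⟩ := balanced_mem_count k lam hlam
  obtain ⟨Q0, hQ0⟩ := exists_nat_ge (4 * m * C ^ 2 * (2 * (D0 : ℝ)) ^ (2 * m) / η)
  refine ⟨T1 + D0 * (Q0 + 1), fun T hT => ?_⟩
  set Q := T / D0 with hQ
  have hQ1 : Q0 + 1 ≤ Q := by
    rw [hQ, Nat.le_div_iff_mul_le (by omega)]
    nlinarith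
  have hT1 : T1 ≤ T := by omega
  have hTpos : 1 ≤ T := by nlinarith
  have hTle : T ≤ 2 * D0 * Q := by
    have h1 := Nat.lt_mul_div_succ T (show 0 < D0 by omega)
    rw [← hQ] at h1
    nlinarith
  have hmem : ∀ z ∈ (box k Q ×ˢ box k Q).filter
        (fun z => ¬ CoprimeOff M (boxElt k M α T z.1) (boxElt k M β T z.2)),
      ∃ p : HeightOneSpectrum (𝓞 k), (M : 𝓞 k) ∉ p.asIdeal ∧
        boxElt k M α T z.1 ∈ p.asIdeal ∧ boxElt k M β T z.2 ∈ p.asIdeal := by
    intro z hz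
    have h1 := (Finset.mem_filter.1 hz).2
    unfold CoprimeOff at h1
    push Not at h1
    exact h1
  have : Nonempty (HeightOneSpectrum (𝓞 k)) := ⟨p0⟩
  choose! P hP using hmem
  set bad := (box k Q ×ˢ box k Q).filter
        (fun z => ¬ CoprimeOff M (boxElt k M α T z.1) (boxElt k M β T z.2)) with hbad
  set S := bad.image P with hS
  have hSM : ∀ p ∈ S, (M : 𝓞 k) ∉ p.asIdeal := by
    intro p hp
    obtain ⟨z, hz, rfl⟩ := Finset.mem_image.1 hp
    exact (hP z hz).1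
  have hSr : ∀ p ∈ S, ¬ (R p ∣ M) := by
    intro p hp hd
    apply hSM p hp
    obtain ⟨c, hc⟩ := hd
    rw [hc, Nat.cast_mul]
    exact Ideal.mul_mem_right _ _ (hR p).2
  have hSY : ∀ p ∈ S, Y < R p := by
    intro p hp
    by_contra hle
    exact hSr p hp (hMY _ (hR p).1 (by omega))
  have hcop : ∀ p ∈ S, Nat.Coprime M (R p) := by
    intro p hp
    exact (((hR p).1.coprime_iff_not_dvd).2 (hSr p hp)).symm
  have hcard : (bad.card : ℝ) ≤ ∑ p ∈ S,
      (((box k Q).filter (fun y => boxElt k M α T y ∈ p.asIdeal)).card : ℝ) *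
      (((box k Q).filter (fun y => boxElt k M β T y ∈ p.asIdeal)).card : ℝ) := by
    rw [Finset.card_eq_sum_card_image P bad, ← hS]
    push_cast
    refine Finset.sum_le_sum fun p hp => ?_
    have h1 : (bad.filter (fun z => P z = p)) ⊆
        ((box k Q).filter (fun y => boxElt k M α T y ∈ p.asIdeal)) ×ˢ
        ((box k Q).filter (fun y => boxElt k M β T y ∈ p.asIdeal)) := by
      intro z hz
      obtain ⟨hz1, hz2⟩ := Finset.mem_filter.1 hz
      have h2 := hP z hz1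
      rw [hz2] at h2
      have h3 := Finset.mem_product.1 (Finset.mem_filter.1 (hbad ▸ hz1)).1
      exact Finset.mem_product.2 ⟨Finset.mem_filter.2 ⟨h3.1, h2.2.1⟩,
        Finset.mem_filter.2 ⟨h3.2, h2.2.2⟩⟩
    have h2 := Finset.card_le_card h1
    rw [Finset.card_product] at h2
    exact_mod_cast h2
  refine hcard.trans ?_
  rw [← Finset.sum_filter_add_sum_filter_not S (fun p => R p ≤ Q)]
  have hQR : (1 : ℝ) ≤ Q := by exact_mod_cast (by omega : 1 ≤ Q)
  have hs1 : ∑ p ∈ S with R p ≤ Q,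
      (((box k Q).filter (fun y => boxElt k M α T y ∈ p.asIdeal)).card : ℝ) *
      (((box k Q).filter (fun y => boxElt k M β T y ∈ p.asIdeal)).card : ℝ) ≤
      η / 2 * (Q : ℝ) ^ (2 * m) := by
    calc _ ≤ ∑ p ∈ S with R p ≤ Q, (2 * (Q : ℝ)) ^ (2 * m) * (((R p : ℕ) : ℝ) ^ 2)⁻¹ := by
          refine Finset.sum_le_sum fun p hp => ?_
          obtain ⟨hp1, hp2⟩ := Finset.mem_filter.1 hp
          have h1 := an31_small k M (R p) Q T (hR p).1 (hcop p hp1) hp2 p (hR p).2 α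
          have h2 := an31_small k M (R p) Q T (hR p).1 (hcop p hp1) hp2 p (hR p).2 β
          rw [← hm] at h1 h2
          calc _ ≤ (2 * (Q : ℝ)) ^ m / (R p : ℝ) * ((2 * (Q : ℝ)) ^ m / (R p : ℝ)) := by
                gcongr
            _ = _ := by ring
      _ = (2 * (Q : ℝ)) ^ (2 * m) * ∑ p ∈ S with R p ≤ Q, (((R p : ℕ) : ℝ) ^ 2)⁻¹ := by
          rw [Finset.mul_sum]
      _ ≤ (2 * (Q : ℝ)) ^ (2 * m) * (m * (2 / (Y + 1))) := by
          gcongr
          exact an31_sum_le k R (fun p => (hR p).1) (fun p => (hR p).2) _ Y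
            (fun p hp => hSY p (Finset.mem_filter.1 hp).1)
      _ ≤ η / 2 * (Q : ℝ) ^ (2 * m) := by
          rw [mul_pow, pow_mul (2 : ℝ) 2 m]
          have h1 : (m : ℝ) * (2 / (Y + 1)) * (2 ^ 2) ^ m ≤ η / 2 := by
            rw [div_le_iff₀ hη] at hY
            rw [mul_div_assoc', div_mul_eq_mul_div, div_le_iff₀ (by positivity)]
            have h4 : (4 : ℝ) ^ (m + 1) = 4 * (2 ^ 2) ^ m := by norm_num [pow_succ]; ring
            rw [h4] at hY
            generalize ((2 : ℝ) ^ 2) ^ m = X at hY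
            nlinarith
          have h2 : 0 ≤ (Q : ℝ) ^ (2 * m) := by positivity
          nlinarith [mul_le_mul_of_nonneg_right h1 h2]
  have hs2 : ∑ p ∈ S with ¬ (R p ≤ Q),
      (((box k Q).filter (fun y => boxElt k M α T y ∈ p.asIdeal)).card : ℝ) *
      (((box k Q).filter (fun y => boxElt k M β T y ∈ p.asIdeal)).card : ℝ) ≤
      η / 2 * (Q : ℝ) ^ (2 * m) := by
    calc _ ≤ ∑ p ∈ S with ¬ (R p ≤ Q), C ^ 2 * (T : ℝ) ^ (2 * m) * (((R p : ℕ) : ℝ) ^ 2)⁻¹ := by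
          refine Finset.sum_le_sum fun p hp => ?_
          obtain ⟨hp1, hp2⟩ := Finset.mem_filter.1 hp
          have hc := hcount (T : ℝ) (by exact_mod_cast hTpos) p.asIdeal p.ne_bot
          have h1 := an31_large k (Q := Q) hM (hR p).1 p (hR p).2 α hC hc
            (fun y hy => (hα T hT1 y hy).1)
          have h2 := an31_large k (Q := Q) hM (hR p).1 p (hR p).2 β hC hc
            (fun y hy => (hβ T hT1 y hy).1)
          rw [← hm] at h1 h2
          calc _ ≤ C * (T : ℝ) ^ m / (R p : ℝ) * (C * (T : ℝ) ^ m / (R p : ℝ)) := by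
                gcongr
            _ = _ := by ring
      _ = C ^ 2 * (T : ℝ) ^ (2 * m) * ∑ p ∈ S with ¬ (R p ≤ Q), (((R p : ℕ) : ℝ) ^ 2)⁻¹ := by
          rw [Finset.mul_sum]
      _ ≤ C ^ 2 * (T : ℝ) ^ (2 * m) * (m * (2 / (Q + 1))) := by
          gcongr
          exact an31_sum_le k R (fun p => (hR p).1) (fun p => (hR p).2) _ Q
            (fun p hp => by have := (Finset.mem_filter.1 hp).2; omega)
      _ ≤ C ^ 2 * (2 * (D0 : ℝ) * Q) ^ (2 * m) * (m * (2 / (Q + 1))) := by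
          have : (T : ℝ) ≤ 2 * (D0 : ℝ) * Q := by exact_mod_cast hTle
          gcongr
      _ ≤ η / 2 * (Q : ℝ) ^ (2 * m) := by
          rw [mul_pow _ (Q : ℝ)]
          have h1 : C ^ 2 * (2 * (D0 : ℝ)) ^ (2 * m) * (m * (2 / (Q + 1))) ≤ η / 2 := by
            rw [div_le_iff₀ hη] at hQ0
            rw [mul_div_assoc', mul_div_assoc', div_le_iff₀ (by positivity)]
            have h3 : (Q0 : ℝ) ≤ Q := by exact_mod_cast (by omega : Q0 ≤ Q)
            nlinarith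
          have h2 : 0 ≤ (Q : ℝ) ^ (2 * m) := by positivity
          nlinarith [mul_le_mul_of_nonneg_right h1 h2]
  calc _ ≤ η / 2 * (Q : ℝ) ^ (2 * m) + η / 2 * (Q : ℝ) ^ (2 * m) := add_le_add hs1 hs2
    _ = _ := by ring

end BoxS

end Pool.Agent.H35.AN
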