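import Pool.Agent.H35.AN.Defs
import Pool.Agent.H35.AN.Box
import Pool.Agent.H35.AN.Sieve1
import Pool.Agent.H35.AN.Sieve2

/-!
# Project AN, AN-34: many good pairs
-/

set_option autoImplicit false

open Polynomial IsDedekindDomain NumberField

namespace Pool.Agent.H35.AN

section Pairs

variable (k : Type) [Field k] [NumberField k]

variable {k} in
omit [NumberField k] in
theorem an34_balanced_mono {lam lam' : ℝ} (h : lam ≤ lam') {T : ℕ} {a : 𝓞 k}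
    (ha : Balanced lam T a) : Balanced lam' T a := by
  intro φ
  obtain ⟨h1, h2⟩ := ha φ
  refine ⟨h1.trans ?_, h2.trans ?_⟩
  · exact mul_le_mul_of_nonneg_right h (norm_nonneg _)
  · exact mul_le_mul_of_nonneg_right h (Nat.cast_nonneg T)

variable {k} in
theorem an34_dvd (M : ℕ) (α : 𝓞 k) (T : ℕ) (y : Idx k → ℕ) :
    (M : 𝓞 k) ∣ boxElt k M α T y - α := by
  unfold boxElt
  rw [add_sub_cancel_right]
  exact dvd_mul_right _ _

open scoped Classical in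
/-- Counting: three bad sets leave more than half of the pairs. -/
theorem an34_count {ι : Type*} (A : Finset ι) (p q : ι → Prop) (r : ι × ι → Prop) {N : ℝ}
    (hN : (A.card : ℝ) = N)
    (h1 : ((A.filter (fun y => ¬ p y)).card : ℝ) ≤ 1 / 8 * N)
    (h2 : ((A.filter (fun y => ¬ q y)).card : ℝ) ≤ 1 / 8 * N)
    (h3 : (((A ×ˢ A).filter (fun z => ¬ r z)).card : ℝ) ≤ 1 / 8 * N ^ 2) :
    N ^ 2 / 2 ≤ (((A ×ˢ A).filter (fun z => p z.1 ∧ q z.2 ∧ r z)).card : ℝ) := by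
  have hN0 : 0 ≤ N := by rw [← hN]; positivity
  have hsub : A ×ˢ A ⊆ (A ×ˢ A).filter (fun z => p z.1 ∧ q z.2 ∧ r z) ∪
      ((A.filter (fun y => ¬ p y)) ×ˢ A ∪ (A ×ˢ (A.filter (fun y => ¬ q y)) ∪
        (A ×ˢ A).filter (fun z => ¬ r z))) := by
    intro z hz
    simp only [Finset.mem_union, Finset.mem_filter, Finset.mem_product] at hz ⊢
    by_cases hp : p z.1
    · by_cases hq : q z.2
      · by_cases hr : r z
        · exact Or.inl ⟨hz, hp, hq, hr⟩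
        · exact Or.inr (Or.inr (Or.inr ⟨hz, hr⟩))
      · exact Or.inr (Or.inr (Or.inl ⟨hz.1, hz.2, hq⟩))
    · exact Or.inr (Or.inl ⟨⟨hz.1, hp⟩, hz.2⟩)
  have hc := Finset.card_le_card hsub
  have hc1 := hc.trans ((Finset.card_union_le _ _).trans (Nat.add_le_add_left
    ((Finset.card_union_le _ _).trans (Nat.add_le_add_left (Finset.card_union_le _ _) _)) _))
  have hc2 : (((A ×ˢ A).card : ℕ) : ℝ) ≤
      (((A ×ˢ A).filter (fun z => p z.1 ∧ q z.2 ∧ r z)).card : ℝ) +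
      ((((A.filter (fun y => ¬ p y)) ×ˢ A).card : ℝ) +
        (((A ×ˢ (A.filter (fun y => ¬ q y))).card : ℝ) +
        (((A ×ˢ A).filter (fun z => ¬ r z)).card : ℝ))) := by
    exact_mod_cast hc1
  rw [Finset.card_product, Finset.card_product, Finset.card_product] at hc2
  push_cast at hc2
  rw [hN] at hc2
  have e1 := mul_le_mul_of_nonneg_right h1 hN0
  have e2 := mul_le_mul_of_nonneg_left h2 hN0
  nlinarith

open scoped Classical in
theorem many_pairs {n : ℕ} (hk : KeyK k n) :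
    ∃ (M : ℕ) (α β : 𝓞 k) (D0 : ℕ) (lam C : ℝ) (T0 : ℕ), 0 < M ∧ 1 ≤ D0 ∧ 1 ≤ lam ∧ 0 < C ∧
      (∀ a : 𝓞 k, (M : 𝓞 k) ∣ a - α → ∀ r : HeightOneSpectrum (𝓞 k), (M : 𝓞 k) ∈ r.asIdeal →
        a ≠ 0 ∧ ord r (a : k) = ord r (α : k)) ∧
      (∀ b : 𝓞 k, (M : 𝓞 k) ∣ b - β → ∀ r : HeightOneSpectrum (𝓞 k), (M : 𝓞 k) ∈ r.asIdeal →
        b ≠ 0 ∧ ord r (b : k) = ord r (β : k)) ∧
      ∀ T : ℕ, T0 ≤ T → ∃ S : Finset (𝓞 k × 𝓞 k),
        ((T / D0 : ℕ) : ℝ) ^ (2 * Module.finrank ℚ k) / 2 ≤ (S.card : ℝ) ∧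
        ∀ z ∈ S, z.1 ≠ 0 ∧ z.2 ≠ 0 ∧ (M : 𝓞 k) ∣ z.1 - α ∧ (M : 𝓞 k) ∣ z.2 - β ∧
          Balanced lam T z.1 ∧ Balanced lam T z.2 ∧ SqfreeOff M z.1 ∧ SqfreeOff M z.2 ∧
          ∃ (K : IntermediateField k (AlgebraicClosure k)) (_ : NumberField K),
            IsAltField k n K ∧
            |(NumberField.discr K : ℝ)| ≤ C * (T : ℝ) ^ (Module.finrank ℚ k * (2 * n - 2)) ∧
            ∀ (r : ℕ), r.Prime → ∀ p : HeightOneSpectrum (𝓞 k), (r : 𝓞 k) ∈ p.asIdeal →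
              (M : 𝓞 k) ∉ p.asIdeal → (z.1 ∈ p.asIdeal ∨ z.2 ∈ p.asIdeal) →
              (r : ℤ) ∣ NumberField.discr K := by
  obtain ⟨D0, hD0, hbox⟩ := exists_box k
  obtain ⟨Y1, h1⟩ := sieve_sqfree k D0 hD0 (1 / 8) (by norm_num)
  obtain ⟨Y2, h2⟩ := sieve_coprime k D0 hD0 (1 / 8) (by norm_num)
  obtain ⟨M, α, β, hM, hMY, -, -, hα, hβ, hK⟩ := hk (max Y1 Y2)
  have hM1 : ∀ r : ℕ, r.Prime → r ≤ Y1 → r ∣ M :=
    fun r hr hrY => hMY r hr (hrY.trans (le_max_left _ _))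
  have hM2 : ∀ r : ℕ, r.Prime → r ≤ Y2 → r ∣ M :=
    fun r hr hrY => hMY r hr (hrY.trans (le_max_right _ _))
  obtain ⟨lama, Ta, hlama, hba⟩ := hbox M hM α
  obtain ⟨lamb, Tb, hlamb, hbb⟩ := hbox M hM β
  set lam := max lama lamb with hlam
  have hlam1 : 1 ≤ lam := hlama.trans (le_max_left _ _)
  set T1 := max Ta Tb with hT1
  have hba' : ∀ T : ℕ, T1 ≤ T → ∀ y ∈ box k (T / D0),
      Balanced lam T (boxElt k M α T y) ∧ boxElt k M α T y ≠ 0 := by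
    intro T hT y hy
    obtain ⟨hb, h0⟩ := hba T ((le_max_left _ _).trans hT) y hy
    exact ⟨an34_balanced_mono (le_max_left _ _) hb, h0⟩
  have hbb' : ∀ T : ℕ, T1 ≤ T → ∀ y ∈ box k (T / D0),
      Balanced lam T (boxElt k M β T y) ∧ boxElt k M β T y ≠ 0 := by
    intro T hT y hy
    obtain ⟨hb, h0⟩ := hbb T ((le_max_right _ _).trans hT) y hy
    exact ⟨an34_balanced_mono (le_max_right _ _) hb, h0⟩
  obtain ⟨Sa, hSa⟩ := h1 M hM hM1 α lam hlam1 T1 hba'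
  obtain ⟨Sb, hSb⟩ := h1 M hM hM1 β lam hlam1 T1 hbb'
  obtain ⟨Sc, hSc⟩ := h2 M hM hM2 α β lam hlam1 T1 hba' hbb'
  obtain ⟨C, TK, hC, hKT⟩ := hK lam hlam1
  refine ⟨M, α, β, D0, lam, C, max T1 (max (max Sa Sb) (max Sc TK)), hM, hD0, hlam1, hC, hα, hβ,
    ?_⟩
  intro T hT
  have hTT1 : T1 ≤ T := (le_max_left _ _).trans hT
  have hT2 : max (max Sa Sb) (max Sc TK) ≤ T := (le_max_right _ _).trans hT
  have hTa : Sa ≤ T := (le_max_left _ _).trans ((le_max_left _ _).trans hT2)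
  have hTb : Sb ≤ T := (le_max_right _ _).trans ((le_max_left _ _).trans hT2)
  have hTc : Sc ≤ T := (le_max_left _ _).trans ((le_max_right _ _).trans hT2)
  have hTK : TK ≤ T := (le_max_right _ _).trans ((le_max_right _ _).trans hT2)
  have hinj : Function.Injective (fun z : (Idx k → ℕ) × (Idx k → ℕ) =>
      (boxElt k M α T z.1, boxElt k M β T z.2)) := by
    intro z w hzw
    simp only [Prod.mk.injEq] at hzw
    exact Prod.ext (boxElt_inj k hM α T hzw.1) (boxElt_inj k hM β T hzw.2)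
  refine ⟨((box k (T / D0) ×ˢ box k (T / D0)).filter (fun z =>
    SqfreeOff M (boxElt k M α T z.1) ∧ SqfreeOff M (boxElt k M β T z.2) ∧
      CoprimeOff M (boxElt k M α T z.1) (boxElt k M β T z.2))).image
      (fun z => (boxElt k M α T z.1, boxElt k M β T z.2)), ?_, ?_⟩
  · rw [Finset.card_image_of_injective _ hinj]
    have hcount := an34_count (box k (T / D0)) (fun y => SqfreeOff M (boxElt k M α T y))
      (fun y => SqfreeOff M (boxElt k M β T y))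
      (fun z => CoprimeOff M (boxElt k M α T z.1) (boxElt k M β T z.2))
      (N := ((T / D0 : ℕ) : ℝ) ^ Module.finrank ℚ k)
      (by rw [card_box]; push_cast; rfl) (hSa T hTa) (hSb T hTb)
      (by rw [← pow_mul, mul_comm (Module.finrank ℚ k) 2]; exact hSc T hTc)
    rw [← pow_mul, mul_comm (Module.finrank ℚ k) 2] at hcount
    exact hcount
  · intro z hz
    obtain ⟨y, hy, rfl⟩ := Finset.mem_image.mp hz
    rw [Finset.mem_filter, Finset.mem_product] at hy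
    obtain ⟨⟨hy1, hy2⟩, hs1, hs2, hc⟩ := hy
    obtain ⟨hb1, h01⟩ := hba' T hTT1 y.1 hy1
    obtain ⟨hb2, h02⟩ := hbb' T hTT1 y.2 hy2
    exact ⟨h01, h02, an34_dvd M α T y.1, an34_dvd M β T y.2, hb1, hb2, hs1, hs2,
      hKT T hTK _ _ (an34_dvd M α T y.1) (an34_dvd M β T y.2) hb1 hb2 hs1 hs2 hc⟩

end Pairs

end Pool.Agent.H35.AN
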