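import Pool.Agent.H35.AN.Defs
import Pool.Agent.H35.AN.Ideals
import Pool.Agent.H35.AN.Choices
import Pool.Agent.H35.AN.Omega
import Pool.Agent.H35.AN.Pairs

/-!
# Project AN, AN-35: the final count
-/

set_option autoImplicit false

open Polynomial IsDedekindDomain NumberField

namespace Pool.Agent.H35.AN

variable (k : Type) [Field k] [NumberField k]

theorem finite_fields (n : ℕ) (B : ℝ) :
    Set.Finite {M : IntermediateField k (AlgebraicClosure k) | Module.finrank k M = n ∧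
      ∃ h : NumberField M, ((|@NumberField.discr M _ h| : ℤ) : ℝ) ≤ B} := by
  have h1 := NumberField.finite_of_discr_bdd (AlgebraicClosure k) ⌊B⌋₊
  refine Set.Finite.of_finite_image (f := fun M : IntermediateField k (AlgebraicClosure k) =>
    (M.restrictScalars ℚ : IntermediateField ℚ (AlgebraicClosure k)))
    (Set.Finite.subset (h1.image Subtype.val) ?_) ?_
  · rintro _ ⟨M, ⟨hM1, hM2, hM3⟩, rfl⟩
    have h2 : FiniteDimensional ℚ M := hM2.to_finiteDimensional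
    have h2' : FiniteDimensional ℚ (M.restrictScalars ℚ) := h2
    refine ⟨⟨M.restrictScalars ℚ, h2'⟩, ?_, rfl⟩
    have h6 : NumberField (M.restrictScalars ℚ) := @NumberField.mk _ _ inferInstance h2'
    have h3 : @NumberField.discr (M.restrictScalars ℚ) _ h6 = @NumberField.discr M _ hM2 :=
      NumberField.discr_eq_discr_of_ringEquiv (K := (M.restrictScalars ℚ)) (L := M)
        (RingEquiv.refl M)
    have h4 : |@NumberField.discr (M.restrictScalars ℚ) _ h6| ≤ ⌊B⌋₊ := by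
      rw [h3]
      have h5 : (0 : ℝ) ≤ B := le_trans (by positivity) hM3
      rw [← Int.le_floor] at hM3
      rw [Int.natCast_floor_eq_floor h5]
      exact hM3
    exact h4
  · exact (IntermediateField.restrictScalars_injective ℚ).injOn

/-- few elements for a given discriminant -/
theorem an35_elts (M : ℕ) (hM : 0 < M) (α : 𝓞 k)
    (hα : ∀ a : 𝓞 k, (M : 𝓞 k) ∣ a - α → ∀ r : HeightOneSpectrum (𝓞 k),
      (M : 𝓞 k) ∈ r.asIdeal → a ≠ 0 ∧ ord r (a : k) = ord r (α : k)) {lam : ℝ} {Cg : ℕ}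
    (hg : ∀ (T : ℝ), 0 < T → ∀ I : Ideal (𝓞 k),
      Set.Finite {a : 𝓞 k | Balanced lam T a ∧ Ideal.span {a} = I} ∧
      Set.ncard {a : 𝓞 k | Balanced lam T a ∧ Ideal.span {a} = I} ≤ Cg) (T : ℝ) (hT : 0 < T)
    (Δ : ℤ) (hΔ : Δ ≠ 0) :
    ∃ A : Finset (𝓞 k), A.card ≤ 2 ^ (Module.finrank ℚ k * Δ.natAbs.primeFactors.card) * Cg ∧
      ∀ a : 𝓞 k, a ≠ 0 → Balanced lam T a → (M : 𝓞 k) ∣ a - α → SqfreeOff M a →
        (∀ (r : ℕ), r.Prime → ∀ p : HeightOneSpectrum (𝓞 k), (r : 𝓞 k) ∈ p.asIdeal →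
          (M : 𝓞 k) ∉ p.asIdeal → a ∈ p.asIdeal → (r : ℤ) ∣ Δ) → a ∈ A := by
  classical
  obtain ⟨h1, h2⟩ := ideal_choices k M hM α hα Δ hΔ
  refine ⟨h1.toFinset.biUnion fun I => (hg T hT I).1.toFinset, ?_, ?_⟩
  · refine (Finset.card_biUnion_le_card_mul _ _ Cg fun I _ => ?_).trans ?_
    · rw [← Set.ncard_eq_toFinset_card _ (hg T hT I).1]
      exact (hg T hT I).2
    · rw [← Set.ncard_eq_toFinset_card _ h1]
      exact Nat.mul_le_mul_right _ h2
  · intro a ha hb hM' hs hr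
    rw [Finset.mem_biUnion]
    refine ⟨Ideal.span {a}, ?_, ?_⟩
    · rw [Set.Finite.mem_toFinset]
      exact ⟨a, ha, rfl, hM', hs, hr⟩
    · rw [Set.Finite.mem_toFinset]
      exact ⟨hb, rfl⟩

/-- the index type of the count -/
abbrev an35_X (n : ℕ) (G : Subgroup (Equiv.Perm (Fin n))) (B : ℝ) : Type :=
  {M : IntermediateField k (AlgebraicClosure k) //
      Module.finrank k M = n ∧
      (∃ e : (M →ₐ[k] AlgebraicClosure k) ≃ Fin n, ∀ π : Equiv.Perm (Fin n),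
        π ∈ G ↔ ∃ σ : AlgebraicClosure k ≃ₐ[k] AlgebraicClosure k,
          ∀ φ : M →ₐ[k] AlgebraicClosure k, e (σ.toAlgHom.comp φ) = π (e φ)) ∧
      ∃ h : NumberField M,
        ((|@NumberField.discr M _ h| : ℤ) : ℝ) ≤ B * ((|NumberField.discr k| : ℤ) : ℝ) ^ n}

theorem an35_finite (n : ℕ) (G : Subgroup (Equiv.Perm (Fin n))) (B : ℝ) :
    Finite (an35_X k n G B) := by
  refine (Set.Finite.subset (finite_fields k n (B * ((|NumberField.discr k| : ℤ) : ℝ) ^ n))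
    (fun M hM => ?_) : Set.Finite {M : IntermediateField k (AlgebraicClosure k) |
      Module.finrank k M = n ∧
      (∃ e : (M →ₐ[k] AlgebraicClosure k) ≃ Fin n, ∀ π : Equiv.Perm (Fin n),
        π ∈ G ↔ ∃ σ : AlgebraicClosure k ≃ₐ[k] AlgebraicClosure k,
          ∀ φ : M →ₐ[k] AlgebraicClosure k, e (σ.toAlgHom.comp φ) = π (e φ)) ∧
      ∃ h : NumberField M,
        ((|@NumberField.discr M _ h| : ℤ) : ℝ) ≤ B * ((|NumberField.discr k| : ℤ) : ℝ) ^ n})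
  exact ⟨hM.1, hM.2.2⟩

/-- counting with fibres -/
theorem an35_fibres {ι X : Type} [Finite X] (r : X → X → Prop) (hr : Equivalence r)
    (S : Finset ι) (F : ι → X) (N : ℕ)
    (hN : ∀ z₀ ∈ S, ∀ S' : Finset ι, S' ⊆ S → (∀ z ∈ S', r (F z) (F z₀)) → S'.card ≤ N) :
    S.card ≤ N * Nat.card (Quot r) := by
  classical
  have : Finite (Quot r) := Quot.finite r
  let _ : Fintype (Quot r) := Fintype.ofFinite _
  have h1 := Finset.card_le_mul_card_image (f := fun z => Quot.mk r (F z)) S N (fun b hb => ?_)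
  · refine h1.trans (Nat.mul_le_mul_left _ ?_)
    rw [Nat.card_eq_fintype_card]
    exact Finset.card_le_univ _
  · obtain ⟨z₀, hz, rfl⟩ := Finset.mem_image.mp hb
    refine hN z₀ hz _ (Finset.filter_subset _ _) fun z hz' => ?_
    have h2 := (Finset.mem_filter.mp hz').2
    have h3 := Quot.eqvGen_exact h2
    rwa [hr.eqvGen_iff] at h3

/-- the count at one level -/
theorem an35_count {n M : ℕ} (hM : 0 < M) (α β : 𝓞 k) {lam C : ℝ} {T : ℕ} (hT : 0 < T)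
    (hα : ∀ a : 𝓞 k, (M : 𝓞 k) ∣ a - α → ∀ r : HeightOneSpectrum (𝓞 k),
      (M : 𝓞 k) ∈ r.asIdeal → a ≠ 0 ∧ ord r (a : k) = ord r (α : k))
    (hβ : ∀ a : 𝓞 k, (M : 𝓞 k) ∣ a - β → ∀ r : HeightOneSpectrum (𝓞 k),
      (M : 𝓞 k) ∈ r.asIdeal → a ≠ 0 ∧ ord r (a : k) = ord r (β : k)) {Cg : ℕ}
    (hg : ∀ (T : ℝ), 0 < T → ∀ I : Ideal (𝓞 k),
      Set.Finite {a : 𝓞 k | Balanced lam T a ∧ Ideal.span {a} = I} ∧
      Set.ncard {a : 𝓞 k | Balanced lam T a ∧ Ideal.span {a} = I} ≤ Cg)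
    {S : Finset (𝓞 k × 𝓞 k)}
    (hS : ∀ z ∈ S, z.1 ≠ 0 ∧ z.2 ≠ 0 ∧ (M : 𝓞 k) ∣ z.1 - α ∧ (M : 𝓞 k) ∣ z.2 - β ∧
          Balanced lam T z.1 ∧ Balanced lam T z.2 ∧ SqfreeOff M z.1 ∧ SqfreeOff M z.2 ∧
          ∃ (K : IntermediateField k (AlgebraicClosure k)) (_ : NumberField K),
            IsAltField k n K ∧
            |(NumberField.discr K : ℝ)| ≤ C * (T : ℝ) ^ (Module.finrank ℚ k * (2 * n - 2)) ∧
            ∀ (r : ℕ), r.Prime → ∀ p : HeightOneSpectrum (𝓞 k), (r : 𝓞 k) ∈ p.asIdeal →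
              (M : 𝓞 k) ∉ p.asIdeal → (z.1 ∈ p.asIdeal ∨ z.2 ∈ p.asIdeal) →
              (r : ℤ) ∣ NumberField.discr K)
    {B : ℝ} (hB : C * (T : ℝ) ^ (Module.finrank ℚ k * (2 * n - 2)) ≤ B) {N : ℕ}
    (hN : ∀ Δ : ℤ, Δ ≠ 0 → |(Δ : ℝ)| ≤ B →
      (2 ^ (Module.finrank ℚ k * Δ.natAbs.primeFactors.card) * Cg) ^ 2 ≤ N) :
    S.card ≤ N * malleCount k n (alternatingGroup (Fin n)) B := by
  classical
  have h0 : ∀ z ∈ S, ∃ (K : IntermediateField k (AlgebraicClosure k)) (_ : NumberField K),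
            IsAltField k n K ∧ |(NumberField.discr K : ℝ)| ≤ B ∧
            ∀ (r : ℕ), r.Prime → ∀ p : HeightOneSpectrum (𝓞 k), (r : 𝓞 k) ∈ p.asIdeal →
              (M : 𝓞 k) ∉ p.asIdeal → (z.1 ∈ p.asIdeal ∨ z.2 ∈ p.asIdeal) →
              (r : ℤ) ∣ NumberField.discr K := by
    intro z hz
    obtain ⟨K, hK, h1, h2, h3⟩ := (hS z hz).2.2.2.2.2.2.2.2
    exact ⟨K, hK, h1, h2.trans hB, h3⟩
  choose! K hK h1 h2 h3 using h0
  have hk1 : (1 : ℝ) ≤ ((|NumberField.discr k| : ℤ) : ℝ) ^ n := by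
    refine one_le_pow₀ ?_
    exact_mod_cast Int.one_le_abs (NumberField.discr_ne_zero k)
  have hX : ∀ z ∈ S, Module.finrank k (K z) = n ∧
      (∃ e : (K z →ₐ[k] AlgebraicClosure k) ≃ Fin n, ∀ π : Equiv.Perm (Fin n),
        π ∈ alternatingGroup (Fin n) ↔ ∃ σ : AlgebraicClosure k ≃ₐ[k] AlgebraicClosure k,
          ∀ φ : K z →ₐ[k] AlgebraicClosure k, e (σ.toAlgHom.comp φ) = π (e φ)) ∧
      ∃ h : NumberField (K z),
        ((|@NumberField.discr (K z) _ h| : ℤ) : ℝ) ≤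
          B * ((|NumberField.discr k| : ℤ) : ℝ) ^ n := by
    intro z hz
    refine ⟨(h1 z hz).1, (h1 z hz).2, hK z hz, ?_⟩
    have h4 := h2 z hz
    have h5 : 0 ≤ B := (abs_nonneg _).trans h4
    push_cast
    refine h4.trans ?_
    have h6 := mul_le_mul_of_nonneg_left hk1 h5
    push_cast at h6
    linarith
  let F : {z // z ∈ S} → an35_X k n (alternatingGroup (Fin n)) B := fun z => ⟨K z.1, hX z.1 z.2⟩
  have hfin := an35_finite k n (alternatingGroup (Fin n)) B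
  have hr : Equivalence (fun L L' : an35_X k n (alternatingGroup (Fin n)) B =>
      Nonempty (L.1 ≃ₐ[k] L'.1)) :=
    ⟨fun L => ⟨AlgEquiv.refl⟩, fun ⟨e⟩ => ⟨e.symm⟩, fun ⟨e⟩ ⟨f⟩ => ⟨e.trans f⟩⟩
  have key := an35_fibres (fun L L' : an35_X k n (alternatingGroup (Fin n)) B =>
      Nonempty (L.1 ≃ₐ[k] L'.1)) hr S.attach F N ?_
  · rw [Finset.card_attach] at key
    exact key
  · intro z₀ _ S' _ hS'
    have hz₀ := z₀.2
    have hK₀ := hK z₀.1 hz₀
    obtain ⟨A, hA, hA2⟩ := an35_elts k M hM α hα hg (T : ℝ) (by exact_mod_cast hT)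
      (NumberField.discr (K z₀.1)) (NumberField.discr_ne_zero _)
    obtain ⟨A', hA', hA2'⟩ := an35_elts k M hM β hβ hg (T : ℝ) (by exact_mod_cast hT)
      (NumberField.discr (K z₀.1)) (NumberField.discr_ne_zero _)
    have h4 : S'.card ≤ (A ×ˢ A').card := by
      refine Finset.card_le_card_of_injOn (fun z => z.1) ?_ (Subtype.val_injective.injOn)
      intro z hz
      obtain ⟨e⟩ := hS' z hz
      have hKz := hK z.1 z.2
      have h5 : NumberField.discr (K z.1) = NumberField.discr (K z₀.1) :=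
        NumberField.discr_eq_discr_of_ringEquiv (K z.1) (L := K z₀.1) (e : (F z).1 ≃+* (F z₀).1)
      have h6 := hS z.1 z.2
      have h7 := h3 z.1 z.2
      have h8 : z.1 ∈ A ×ˢ A' := by
        rw [Finset.mem_product]
        exact ⟨hA2 z.1.1 h6.1 h6.2.2.2.2.1 h6.2.2.1 h6.2.2.2.2.2.2.1 fun r hr p hp hMp hz =>
            h5 ▸ h7 r hr p hp hMp (Or.inl hz),
          hA2' z.1.2 h6.2.1 h6.2.2.2.2.2.1 h6.2.2.2.1 h6.2.2.2.2.2.2.2.1 fun r hr p hp hMp hz =>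
            h5 ▸ h7 r hr p hp hMp (Or.inr hz)⟩
      exact h8
    refine h4.trans ?_
    rw [Finset.card_product]
    refine le_trans ?_ (hN (NumberField.discr (K z₀.1)) (NumberField.discr_ne_zero _)
      (h2 z₀.1 hz₀))
    rw [pow_two]
    exact Nat.mul_le_mul hA hA'

theorem count_of_key {n : ℕ} (hn : 2 ≤ n) (hk : KeyK k n) (ε : ℝ) (hε : 0 < ε) :
    ∃ c : ℝ, 0 < c ∧ ∀ᶠ B : ℝ in Filter.atTop,
      c * B ^ (1 / ((n : ℝ) - 1) - ε) ≤ (malleCount k n (alternatingGroup (Fin n)) B : ℝ) := by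
  obtain ⟨M, α, β, D0, lam, C, T0, hM, hD0, hlam, hC, hα, hβ, hT⟩ := many_pairs k hk
  obtain ⟨Cg, hg⟩ := gens_count k lam hlam
  obtain ⟨C2, hC2, hC3⟩ := two_pow_omega (Module.finrank ℚ k) (ε / 2) (by positivity)
  have hg' : ∀ (T : ℝ), 0 < T → ∀ I : Ideal (𝓞 k),
      Set.Finite {a : 𝓞 k | Balanced lam T a ∧ Ideal.span {a} = I} ∧
      Set.ncard {a : 𝓞 k | Balanced lam T a ∧ Ideal.span {a} = I} ≤ Cg + 1 :=
    fun T hT I => ⟨(hg T hT I).1, (hg T hT I).2.trans (Nat.le_succ _)⟩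
  set m := Module.finrank ℚ k with hm
  have hm1 : 1 ≤ m := Module.finrank_pos
  have hn1 : (1 : ℝ) ≤ (n : ℝ) - 1 := by
    have : (2 : ℝ) ≤ n := by exact_mod_cast hn
    linarith
  have hD1 : 0 < m * (2 * n - 2) := Nat.mul_pos hm1 (by omega)
  have hD2 : ((m * (2 * n - 2) : ℕ) : ℝ) = m * (2 * ((n : ℝ) - 1)) := by
    rw [Nat.cast_mul, Nat.cast_sub (by omega)]
    push_cast
    ring
  set D := m * (2 * n - 2) with hD
  have hD3 : (0 : ℝ) < (D : ℝ) := by exact_mod_cast hD1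
  have hm2 : (0 : ℝ) < m := by exact_mod_cast hm1
  have hD4 : (0 : ℝ) < D0 := by exact_mod_cast hD0
  refine ⟨(1 / C) ^ (1 / ((n : ℝ) - 1)) / (2 * (4 * D0) ^ (2 * m) * (C2 * ((Cg : ℝ) + 1)) ^ 2),
    by positivity, ?_⟩
  -- the function `y`
  have hy : Filter.Tendsto (fun B : ℝ => (B / C) ^ (1 / (D : ℝ))) Filter.atTop Filter.atTop :=
    (tendsto_rpow_atTop (by positivity)).comp (Filter.tendsto_id.atTop_div_const hC)
  filter_upwards [Filter.eventually_ge_atTop 1,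
    hy.eventually_ge_atTop (4 * D0 + T0 + 2)] with B hB hyB
  have hB0 : 0 < B := by linarith
  set y : ℝ := (B / C) ^ (1 / (D : ℝ)) with hydef
  have hy0 : 0 ≤ y := by positivity
  set T : ℕ := ⌊y⌋₊ with hTdef
  have hT1 : (T : ℝ) ≤ y := Nat.floor_le hy0
  have hT2 : y < T + 1 := Nat.lt_floor_add_one y
  have hT3 : T0 ≤ T := by
    have : (T0 : ℝ) < T + 1 := by linarith
    exact_mod_cast (by exact_mod_cast this : T0 < T + 1) |> Nat.lt_succ_iff.mp
  have hT4 : 0 < T := by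
    have : (0 : ℝ) < T := by
      have := (Nat.cast_nonneg T0 : (0 : ℝ) ≤ T0)
      linarith
    exact_mod_cast this
  have hyD : y ^ D = B / C := by
    rw [hydef, ← Real.rpow_natCast, ← Real.rpow_mul (by positivity)]
    rw [one_div_mul_cancel hD3.ne', Real.rpow_one]
  have hTD : C * (T : ℝ) ^ D ≤ B := by
    have h1 : (T : ℝ) ^ D ≤ B / C := by
      rw [← hyD]
      exact pow_le_pow_left₀ (Nat.cast_nonneg _) hT1 D
    rw [le_div_iff₀ hC] at h1
    linarith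
  obtain ⟨S, hS1, hS2⟩ := hT T hT3
  have hcount := an35_count k hM α β hT4 hα hβ hg' hS2 hTD
    (N := ⌊(C2 * B ^ (ε / 2) * ((Cg : ℝ) + 1)) ^ 2⌋₊) (by
      intro Δ hΔ hΔB
      refine Nat.le_floor ?_
      push_cast
      have h1 := hC3 Δ.natAbs (Nat.one_le_iff_ne_zero.mpr (Int.natAbs_ne_zero.mpr hΔ))
      have h2 : ((Δ.natAbs : ℕ) : ℝ) ≤ B := by
        rw [Nat.cast_natAbs]
        push_cast
        exact hΔB
      have h3 : ((Δ.natAbs : ℕ) : ℝ) ^ (ε / 2) ≤ B ^ (ε / 2) :=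
        Real.rpow_le_rpow (Nat.cast_nonneg _) h2 (by positivity)
      have h4 : (2 : ℝ) ^ (m * Δ.natAbs.primeFactors.card) ≤ C2 * B ^ (ε / 2) :=
        h1.trans (mul_le_mul_of_nonneg_left h3 (by linarith))
      gcongr)
  -- real version
  have hcount' : (S.card : ℝ) ≤ (C2 * B ^ (ε / 2) * ((Cg : ℝ) + 1)) ^ 2 *
      (malleCount k n (alternatingGroup (Fin n)) B : ℝ) := by
    have h1 : (S.card : ℝ) ≤ (⌊(C2 * B ^ (ε / 2) * ((Cg : ℝ) + 1)) ^ 2⌋₊ : ℝ) *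
        (malleCount k n (alternatingGroup (Fin n)) B : ℝ) := by exact_mod_cast hcount
    refine h1.trans (mul_le_mul_of_nonneg_right (Nat.floor_le (by positivity)) (by positivity))
  have hBε : (C2 * B ^ (ε / 2) * ((Cg : ℝ) + 1)) ^ 2 = (C2 * ((Cg : ℝ) + 1)) ^ 2 * B ^ ε := by
    have h1 : B ^ ε = B ^ (ε / 2) * B ^ (ε / 2) := by
      rw [← Real.rpow_add hB0]
      congr 1
      ring
    rw [h1]
    ring
  -- lower bound for `T / D0`
  have hq : y / (4 * D0) ≤ ((T / D0 : ℕ) : ℝ) := by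
    have h1 : (T : ℝ) < D0 * ((T / D0 : ℕ) : ℝ) + D0 := by
      have h2 := Nat.div_add_mod T D0
      have h3 := Nat.mod_lt T hD0
      have h4 : T < D0 * (T / D0) + D0 := by omega
      exact_mod_cast h4
    rw [div_le_iff₀ (by positivity)]
    nlinarith [(Nat.cast_nonneg T0 : (0 : ℝ) ≤ T0),
      (Nat.cast_nonneg (T / D0) : (0 : ℝ) ≤ ((T / D0 : ℕ) : ℝ)),
      (show (1 : ℝ) ≤ D0 by exact_mod_cast hD0)]
  have hym : y ^ (2 * m) = (1 / C) ^ (1 / ((n : ℝ) - 1)) * B ^ (1 / ((n : ℝ) - 1)) := by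
    rw [← Real.mul_rpow (by positivity) hB0.le, hydef, ← Real.rpow_natCast,
      ← Real.rpow_mul (by positivity)]
    congr 1
    · ring
    · rw [hD2]
      push_cast
      field_simp
  have hlow : (1 / C) ^ (1 / ((n : ℝ) - 1)) * B ^ (1 / ((n : ℝ) - 1)) / (4 * D0) ^ (2 * m) / 2 ≤
      (S.card : ℝ) := by
    refine le_trans ?_ hS1
    rw [← hym, ← div_pow]
    gcongr
  rw [Real.rpow_sub hB0]
  rw [hBε] at hcount'
  have h5 := hlow.trans hcount'
  have h6 : 0 < B ^ ε := by positivity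
  have h7 : (0 : ℝ) < (C2 * ((Cg : ℝ) + 1)) ^ 2 := by positivity
  rw [← div_le_iff₀' (by positivity)] at h5
  refine le_trans (le_of_eq ?_) h5
  field_simp

end Pool.Agent.H35.AN
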