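import Pool.Agent.H35.AN.Defs

/-!
# Project AN (MP_a3214d), row AN-4: the inertia group
-/

set_option autoImplicit false

open Polynomial IsDedekindDomain NumberField

namespace Pool.Agent.H35.AN

section

variable {k L : Type} [Field k] [Field L] [NumberField L] [Algebra k L]
  (P : HeightOneSpectrum (𝓞 L))

omit [NumberField L] in
open scoped Pointwise in
theorem an4_mem {σ : L ≃ₐ[k] L} (hσ : σ • P.asIdeal = P.asIdeal) {y : 𝓞 L} {n : ℕ}
    (hy : y ∈ P.asIdeal ^ n) : σ • y ∈ P.asIdeal ^ n := by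
  have h1 : (P.asIdeal ^ n).map (MulSemiringAction.toRingHom (L ≃ₐ[k] L) (𝓞 L) σ) =
      P.asIdeal ^ n := by
    rw [Ideal.map_pow, ← Ideal.pointwise_smul_def, hσ]
  rw [← h1]
  exact Ideal.mem_map_of_mem (MulSemiringAction.toRingHom (L ≃ₐ[k] L) (𝓞 L) σ) hy

open scoped Pointwise in
theorem an4_int_le {σ : L ≃ₐ[k] L} (hσ : σ • P.asIdeal = P.asIdeal) (y : 𝓞 L) :
    P.intValuation (σ • y) ≤ P.intValuation y := by
  rcases eq_or_ne y 0 with h | h
  · rw [h, smul_zero]
  · have h1 := P.intValuation_eq_exp_neg_multiplicity h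
    rw [h1, P.intValuation_le_pow_iff_mem]
    apply an4_mem P hσ
    rw [← P.intValuation_le_pow_iff_mem, h1]

open scoped Pointwise in
theorem an4_int {σ : L ≃ₐ[k] L} (hσ : σ • P.asIdeal = P.asIdeal) (y : 𝓞 L) :
    P.intValuation (σ • y) = P.intValuation y := by
  refine le_antisymm (an4_int_le P hσ y) ?_
  have hσ' : σ⁻¹ • P.asIdeal = P.asIdeal := by
    rw [inv_smul_eq_iff, hσ]
  have h1 := an4_int_le P hσ' (σ • y)
  rwa [inv_smul_smul] at h1

open scoped Pointwise in
theorem an4_val {σ : L ≃ₐ[k] L} (hσ : σ • P.asIdeal = P.asIdeal) (x : L) :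
    P.valuation L (σ x) = P.valuation L x := by
  obtain ⟨y, z, hz, rfl⟩ := IsFractionRing.div_surjective (A := 𝓞 L) x
  have h1 : ∀ w : 𝓞 L, P.valuation L (σ (algebraMap (𝓞 L) L w)) =
      P.valuation L (algebraMap (𝓞 L) L w) := by
    intro w
    have h2 : σ (algebraMap (𝓞 L) L w) = algebraMap (𝓞 L) L (σ • w) := rfl
    rw [h2, P.valuation_of_algebraMap, P.valuation_of_algebraMap, an4_int P hσ]
  rw [map_div₀, map_div₀, map_div₀, h1, h1]

open scoped Pointwise in
theorem an4_val_inertia {σ : L ≃ₐ[k] L} (hσ : σ ∈ P.asIdeal.inertia (L ≃ₐ[k] L)) (x : L) :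
    P.valuation L (σ x) = P.valuation L x := by
  have h1 : σ ∈ MulAction.stabilizer (L ≃ₐ[k] L) P.asIdeal :=
    Ideal.inertia_le_stabilizer (M := L ≃ₐ[k] L) P.asIdeal hσ
  exact an4_val P (MulAction.mem_stabilizer_iff.mp h1) x

end

theorem exists_inertia {k L : Type} [Field k] [NumberField k] [Field L] [NumberField L]
    [Algebra k L] [IsGalois k L] (P : HeightOneSpectrum (𝓞 L)) :
    ∃ I : Subgroup (L ≃ₐ[k] L), Nat.card I = erel k P ∧
      (∀ σ ∈ I, ∀ x : L, ord P (σ x) = ord P x) ∧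
      ∀ σ ∈ I, ∀ x : L, Ge P 0 x → Ge P 1 (σ x - x) := by
  have hmax : P.asIdeal.IsMaximal := P.isMaximal
  have hpmax : (P.asIdeal.under (𝓞 k)).IsMaximal := Ideal.IsMaximal.under (𝓞 k) P.asIdeal
  have hpne : P.asIdeal.under (𝓞 k) ≠ ⊥ := Ideal.under_ne_bot (𝓞 k) P.ne_bot
  have hfin : Finite (𝓞 k ⧸ P.asIdeal.under (𝓞 k)) :=
    Ring.HasFiniteQuotients.finiteQuotient hpne
  refine ⟨P.asIdeal.inertia (L ≃ₐ[k] L), ?_, fun σ hσ x => ?_, fun σ hσ x hx => ?_⟩
  · rw [Ideal.card_inertia_eq_ramificationIdxIn (G := L ≃ₐ[k] L) (P.asIdeal.under (𝓞 k))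
      P.asIdeal, Ideal.ramificationIdxIn_eq_ramificationIdx (P.asIdeal.under (𝓞 k)) P.asIdeal
      (L ≃ₐ[k] L)]
    rfl
  · rw [ord, ord, an4_val_inertia P hσ]
  · have hval : ∀ w : L, P.valuation L (σ w) = P.valuation L w :=
      an4_val_inertia P hσ
    have hx' : P.valuation L x ≤ 1 := by
      have h1 := hx
      unfold Ge at h1
      simpa using h1
    obtain ⟨y, z, hyz⟩ := P.exists_primeCompl_mul_eq_of_integer x hx'
    have hz1 : P.valuation L (algebraMap (𝓞 L) L z) = 1 := by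
      rw [P.valuation_of_algebraMap]
      exact (P.intValuation_eq_one_iff_mem_primeCompl z).mpr z.2
    have hmem : ∀ w : 𝓞 L, P.valuation L (σ (algebraMap (𝓞 L) L w) -
        algebraMap (𝓞 L) L w) ≤ WithZero.exp (-1 : ℤ) := by
      intro w
      have h1 : σ • w - w ∈ P.asIdeal := hσ w
      have h2 : σ (algebraMap (𝓞 L) L w) - algebraMap (𝓞 L) L w =
          algebraMap (𝓞 L) L (σ • w - w) := by
        rw [map_sub]
        rfl
      rw [h2, P.valuation_of_algebraMap]
      have h3 := (P.intValuation_le_pow_iff_mem (σ • w - w) 1).mpr (by rwa [pow_one])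
      simpa using h3
    have hσz : P.valuation L (σ (algebraMap (𝓞 L) L z)) = 1 := by rw [hval, hz1]
    have hy1 : P.valuation L (algebraMap (𝓞 L) L y) ≤ 1 := by
      rw [← hyz, map_mul, hz1, mul_one]
      exact hx'
    have key : (σ x - x) * (σ (algebraMap (𝓞 L) L z) * algebraMap (𝓞 L) L z) =
        (σ (algebraMap (𝓞 L) L y) - algebraMap (𝓞 L) L y) * algebraMap (𝓞 L) L z -
        algebraMap (𝓞 L) L y * (σ (algebraMap (𝓞 L) L z) - algebraMap (𝓞 L) L z) := by
      rw [← hyz, map_mul]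
      ring
    have h1 := congrArg (P.valuation L) key
    rw [map_mul, map_mul, hσz, hz1, mul_one, mul_one] at h1
    unfold Ge
    rw [h1]
    refine (Valuation.map_sub _ _ _).trans (max_le ?_ ?_)
    · rw [map_mul, hz1, mul_one]
      exact hmem y
    · rw [map_mul]
      calc P.valuation L (algebraMap (𝓞 L) L y) * P.valuation L
            (σ (algebraMap (𝓞 L) L z) - algebraMap (𝓞 L) L z) ≤
            1 * WithZero.exp (-1 : ℤ) := mul_le_mul' hy1 (hmem z)
        _ = WithZero.exp (-1 : ℤ) := one_mul _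

end Pool.Agent.H35.AN
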