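import Pool.Agent.H35.AN.Defs

set_option autoImplicit false

open Polynomial IsDedekindDomain NumberField

namespace Pool.Agent.H35.AN

/-! ### AN-2 Tower.lean : extensions of number fields -/

section an2

variable {K : Type*} [Field K] [NumberField K] (P : HeightOneSpectrum (𝓞 K))

theorem an2_ge_iff {m : ℤ} {x : K} (hx : x ≠ 0) : Ge P m x ↔ m ≤ ord P x := by
  have h : P.valuation K x ≠ 0 := (Valuation.ne_zero_iff _).2 hx
  unfold Ge ord
  rw [← WithZero.log_le_iff_le_exp h]
  constructor <;> intro h <;> linarith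

theorem an2_ge_of_isIntegral {x : K} (hx : IsIntegral ℤ x) : Ge P 0 x := by
  have h := HeightOneSpectrum.valuation_le_one (K := K) P (⟨x, hx⟩ : 𝓞 K)
  unfold Ge
  rw [neg_zero, WithZero.exp_zero]
  exact h

theorem an2_mem_iff (x : 𝓞 K) : x ∈ P.asIdeal ↔ Ge P 1 (x : K) := by
  have h := HeightOneSpectrum.intValuation_le_pow_iff_mem P x 1
  rw [pow_one] at h
  rw [← h]
  unfold Ge
  rw [HeightOneSpectrum.valuation_of_algebraMap]
  norm_num

theorem an2_ge_mul {m n : ℤ} {x y : K} (hx : Ge P m x) (hy : Ge P n y) :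
    Ge P (m + n) (x * y) := by
  unfold Ge at *
  rw [map_mul, neg_add, WithZero.exp_add]
  exact mul_le_mul' hx hy

theorem an2_ord_mul {x y : K} (hx : x ≠ 0) (hy : y ≠ 0) :
    ord P (x * y) = ord P x + ord P y := by
  unfold ord
  rw [map_mul, WithZero.log_mul ((Valuation.ne_zero_iff _).2 hx)
    ((Valuation.ne_zero_iff _).2 hy), neg_add]

theorem an2_ord_pow (x : K) (n : ℕ) : ord P (x ^ n) = n * ord P x := by
  unfold ord
  rw [map_pow, WithZero.log_pow, nsmul_eq_mul, mul_neg]

theorem an2_isIntegral {x : K} (hx : ∀ P : HeightOneSpectrum (𝓞 K), Ge P 0 x) :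
    IsIntegral ℤ x := by
  obtain ⟨y, rfl⟩ := HeightOneSpectrum.mem_integers_of_valuation_le_one (R := 𝓞 K) K x
    (fun P => by
      have := hx P
      unfold Ge at this
      rwa [neg_zero, WithZero.exp_zero] at this)
  exact y.isIntegral_coe

end an2

section Tower

variable {k K : Type} [Field k] [NumberField k] [Field K] [NumberField K] [Algebra k K]

theorem an2_ram (P : HeightOneSpectrum (𝓞 K)) :
    (below k P).asIdeal.ramificationIdx' P.asIdeal = erel k P := by
  have : P.asIdeal.LiesOver (below k P).asIdeal := ⟨rfl⟩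
  exact Ideal.ramificationIdx'_eq_ramificationIdx _ _ (below k P).ne_bot

theorem erel_pos (P : HeightOneSpectrum (𝓞 K)) : 0 < erel k P := by
  have : P.asIdeal.LiesOver (below k P).asIdeal := ⟨rfl⟩
  rw [← an2_ram (k := k) P]
  exact Nat.pos_of_ne_zero
    (Ideal.IsDedekindDomain.ramificationIdx'_ne_zero_of_liesOver P.asIdeal (below k P).ne_bot)

theorem an2_val (P : HeightOneSpectrum (𝓞 K)) (x : k) :
    P.valuation K (algebraMap k K x) = ((below k P).valuation k x) ^ erel k P := by
  have : P.asIdeal.LiesOver (below k P).asIdeal := ⟨rfl⟩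
  rw [← an2_ram (k := k) P, HeightOneSpectrum.valuation_liesOver K (below k P) P]

theorem ord_algebraMap (P : HeightOneSpectrum (𝓞 K)) (x : k) :
    ord P (algebraMap k K x) = erel k P * ord (below k P) x := by
  unfold ord
  rw [an2_val, WithZero.log_pow, nsmul_eq_mul, mul_neg]

theorem ge_algebraMap (P : HeightOneSpectrum (𝓞 K)) {x : k} {m : ℤ} (hx : Ge (below k P) m x) :
    Ge P (erel k P * m) (algebraMap k K x) := by
  unfold Ge at *
  rw [an2_val]
  calc (HeightOneSpectrum.valuation k (below k P)) x ^ erel k P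
      ≤ (WithZero.exp (-m)) ^ erel k P := pow_le_pow_left₀ zero_le hx _
    _ = WithZero.exp (-(↑(erel k P) * m)) := by
        rw [← WithZero.exp_nsmul, nsmul_eq_mul, mul_neg]

theorem mem_below (P : HeightOneSpectrum (𝓞 K)) (r : ℕ) :
    ((r : ℕ) : 𝓞 k) ∈ (below k P).asIdeal ↔ ((r : ℕ) : 𝓞 K) ∈ P.asIdeal := by
  change algebraMap (𝓞 k) (𝓞 K) (r : 𝓞 k) ∈ P.asIdeal ↔ _
  rw [map_natCast]

theorem unitsUpTo_below (P : HeightOneSpectrum (𝓞 K)) {N : ℕ} (h : UnitsUpTo (below k P) N) :
    UnitsUpTo P N := by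
  intro m hm hmN
  have := ord_algebraMap (k := k) P (m : k)
  rw [map_natCast, h m hm hmN, mul_zero] at this
  exact this

theorem exists_above (K : Type) [Field K] [NumberField K] [Algebra k K]
    (p : HeightOneSpectrum (𝓞 k)) : ∃ P : HeightOneSpectrum (𝓞 K), below k P = p := by
  have : p.asIdeal.IsMaximal := p.isMaximal
  obtain ⟨Q, hQ, hQ2⟩ := Ideal.exists_maximal_ideal_liesOver_of_isIntegral (S := 𝓞 K) p.asIdeal
  have hp := p.ne_bot
  refine ⟨⟨Q, hQ.isPrime, ?_⟩, ?_⟩
  · exact Ideal.ne_bot_of_liesOver_of_ne_bot hp Q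
  · ext1
    exact hQ2.over.symm

/-- if every prime above `p` has `ord x ≥ 0` then so has the norm; contrapositive -/
theorem exists_ord_neg {x : K} (hx : x ≠ 0) (p : HeightOneSpectrum (𝓞 k))
    (hN : ord p (Algebra.norm k x) < 0) :
    ∃ P : HeightOneSpectrum (𝓞 K), below k P = p ∧ ord P x < 0 := by
  by_contra hcon
  push Not at hcon
  have halgk : IsAlgebraic k x := Algebra.IsAlgebraic.isAlgebraic x
  have halg : IsAlgebraic (𝓞 k) x := (IsFractionRing.isAlgebraic_iff (𝓞 k) k K).2 halgk
  obtain ⟨c0, hc0, hc0x⟩ := halg.exists_integral_multiple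
  have hsp : Ideal.span {c0} ≠ (⊥ : Ideal (𝓞 k)) := by simpa using hc0
  obtain ⟨𝔠, h𝔠, hp𝔠⟩ :=
    (FiniteMultiplicity.of_prime_left p.prime hsp).exists_eq_pow_mul_and_not_dvd
  set j := multiplicity p.asIdeal (Ideal.span {c0}) with hj
  rw [Ideal.dvd_iff_le, SetLike.not_le_iff_exists] at hp𝔠
  obtain ⟨c, hc, hcp⟩ := hp𝔠
  have hc_ne : c ≠ 0 := by
    rintro rfl
    exact hcp p.asIdeal.zero_mem
  have hck : (c : k) ≠ 0 := by simpa using hc_ne
  have hcord : ord p (c : k) = 0 := by
    have h1 : Ge p 0 (c : k) := an2_ge_of_isIntegral p c.isIntegral_coe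
    have h2 : ¬ Ge p 1 (c : k) := fun h => hcp ((an2_mem_iff p c).2 h)
    rw [an2_ge_iff p hck] at h1 h2
    omega
  have hint : IsIntegral ℤ (algebraMap k K (c : k) * x) := by
    apply an2_isIntegral
    intro P
    by_cases hP : below k P = p
    · have h1 : Ge P 0 (algebraMap k K (c : k)) := by
        have := ge_algebraMap (k := k) P (x := (c : k)) (m := 0)
          (an2_ge_of_isIntegral _ c.isIntegral_coe)
        simpa using this
      have h2 : Ge P 0 x := (an2_ge_iff P hx).2 (hcon P hP)
      simpa using an2_ge_mul P h1 h2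
    · have : ¬ p.asIdeal ≤ (below k P).asIdeal := by
        intro hle
        apply hP
        ext1
        exact (p.isMaximal.eq_of_le (below k P).isPrime.ne_top hle).symm
      rw [SetLike.not_le_iff_exists] at this
      obtain ⟨π, hπp, hπP⟩ := this
      have hπne : π ≠ 0 := by
        rintro rfl
        exact hπP (below k P).asIdeal.zero_mem
      have hπk : (π : k) ≠ 0 := by simpa using hπne
      have hπord : ord (below k P) (π : k) = 0 := by
        have h1 : Ge (below k P) 0 (π : k) := an2_ge_of_isIntegral _ π.isIntegral_coe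
        have h2 : ¬ Ge (below k P) 1 (π : k) := fun h => hπP ((an2_mem_iff _ π).2 h)
        rw [an2_ge_iff _ hπk] at h1 h2
        omega
      have hmem : π ^ j * c ∈ Ideal.span {c0} := by
        rw [h𝔠]
        exact Ideal.mul_mem_mul (Ideal.pow_mem_pow hπp j) hc
      rw [Ideal.mem_span_singleton] at hmem
      obtain ⟨d, hd⟩ := hmem
      have hd' : algebraMap k K ((π : k)) ^ j * (algebraMap k K (c : k) * x) =
          algebraMap k K (d : k) * (c0 • x) := by
        have h := congrArg (algebraMap (𝓞 k) k) hd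
        have h' := congrArg (algebraMap k K) h
        simp only [map_mul, map_pow] at h'
        rw [← mul_assoc, h', Algebra.smul_def, IsScalarTower.algebraMap_apply (𝓞 k) k K]
        ring
      have hge : Ge P 0 (algebraMap k K (d : k) * (c0 • x)) := by
        have h1 : Ge P 0 (algebraMap k K (d : k)) := by
          have := ge_algebraMap (k := k) P (x := (d : k)) (m := 0)
            (an2_ge_of_isIntegral _ d.isIntegral_coe)
          simpa using this
        have h2 : Ge P 0 (c0 • x) := an2_ge_of_isIntegral P (isIntegral_trans _ hc0x)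
        simpa using an2_ge_mul P h1 h2
      have hπK : algebraMap k K ((π : k)) ≠ 0 := by simpa using hπne
      have hcK : algebraMap k K ((c : k)) ≠ 0 := by simpa using hc_ne
      rw [← hd', an2_ge_iff P (mul_ne_zero (pow_ne_zero _ hπK) (mul_ne_zero hcK hx)),
        an2_ord_mul P (pow_ne_zero _ hπK) (mul_ne_zero hcK hx), an2_ord_pow, ord_algebraMap, hπord,
        mul_zero, mul_zero, zero_add] at hge
      rw [an2_ge_iff P (mul_ne_zero hcK hx)]
      exact hge
  have hnorm : IsIntegral ℤ (Algebra.norm k (algebraMap k K (c : k) * x)) :=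
    Algebra.isIntegral_norm k hint
  rw [map_mul, Algebra.norm_algebraMap] at hnorm
  have hNne : Algebra.norm k x ≠ 0 := Algebra.norm_ne_zero_iff.2 hx
  have hge := an2_ge_of_isIntegral p hnorm
  rw [an2_ge_iff p (mul_ne_zero (pow_ne_zero _ hck) hNne), an2_ord_mul p (pow_ne_zero _ hck) hNne,
    an2_ord_pow, hcord, mul_zero, zero_add] at hge
  omega

end Tower

end Pool.Agent.H35.AN
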