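import Mathlib

/-!
# Project AN (MP_a3214d): definitions

Lower bounds for Malle's counting function `N(k, A_n; B)` over every number field `k`.
Valuations of number fields (additive, `ord`), the roots of a polynomial over `k` in an extension,
the two families `F1` (degree `2h+1`) and `F2` (degree `2h+2`).
-/

set_option autoImplicit false

open Polynomial IsDedekindDomain NumberField

namespace Pool.Agent.H35.AN

section Valuations

variable {K : Type*} [Field K] [NumberField K]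

/-- The additive valuation of `x` at the prime `P`; the value at `0` is `0`. -/
noncomputable def ord (P : HeightOneSpectrum (𝓞 K)) (x : K) : ℤ :=
  -(WithZero.log (P.valuation K x))

/-- `Ge P m x`: either `x = 0` or `m ≤ ord P x`. -/
def Ge (P : HeightOneSpectrum (𝓞 K)) (m : ℤ) (x : K) : Prop :=
  P.valuation K x ≤ WithZero.exp (-m)

/-- All positive integers up to `N` are units at `P`. -/
def UnitsUpTo (P : HeightOneSpectrum (𝓞 K)) (N : ℕ) : Prop :=
  ∀ m : ℕ, 0 < m → m ≤ N → ord P (m : K) = 0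

end Valuations

section Rel

variable (k : Type*) {K : Type*} [Field k] [NumberField k] [Field K] [NumberField K] [Algebra k K]

/-- The relative ramification index of `P` over `k`. -/
noncomputable def erel (P : HeightOneSpectrum (𝓞 K)) : ℕ := P.asIdeal.ramificationIdx (𝓞 k)

/-- The prime of `k` below `P`. -/
noncomputable def below (P : HeightOneSpectrum (𝓞 K)) : HeightOneSpectrum (𝓞 k) where
  asIdeal := P.asIdeal.under (𝓞 k)
  isPrime := inferInstance
  ne_bot := Ideal.under_ne_bot (𝓞 k) P.ne_bot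

end Rel

/-- The `n` distinct roots in `L` of the polynomial `F` over `k`. -/
structure Roots (k L : Type*) [Field k] [Field L] [Algebra k L] (n : ℕ) (F : k[X]) where
  /-- the roots -/
  θ : Fin n → L
  inj : Function.Injective θ
  lc_ne : F.leadingCoeff ≠ 0
  fac : F.map (algebraMap k L) = C (algebraMap k L F.leadingCoeff) * ∏ i, (X - C (θ i))

namespace Roots

variable {k L : Type*} [Field k] [Field L] [Algebra k L] {n : ℕ} {F : k[X]} (R : Roots k L n F)

theorem eval_eq (x : L) :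
    (F.map (algebraMap k L)).eval x = algebraMap k L F.leadingCoeff * ∏ i, (x - R.θ i) := by
  rw [R.fac, eval_mul, eval_C, eval_prod]
  simp

theorem eval_root (i : Fin n) : (F.map (algebraMap k L)).eval (R.θ i) = 0 := by
  rw [R.eval_eq, Finset.prod_eq_zero (Finset.mem_univ i) (sub_self _), mul_zero]

theorem exists_of_eval {x : L} (hx : (F.map (algebraMap k L)).eval x = 0) :
    ∃ i, R.θ i = x := by
  rw [R.eval_eq, mul_eq_zero] at hx
  rcases hx with h | h
  · exact absurd ((map_eq_zero _).mp h) R.lc_ne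
  · obtain ⟨i, -, hi⟩ := Finset.prod_eq_zero_iff.mp h
    exact ⟨i, (sub_eq_zero.mp hi).symm⟩

theorem eval_map_algEquiv (σ : L ≃ₐ[k] L) (x : L) :
    (F.map (algebraMap k L)).eval (σ x) = σ ((F.map (algebraMap k L)).eval x) := by
  rw [eval_map_algebraMap, eval_map_algebraMap]
  exact aeval_algHom_apply σ.toAlgHom x F

theorem exists_idx (σ : L ≃ₐ[k] L) (i : Fin n) : ∃ j, σ (R.θ i) = R.θ j := by
  obtain ⟨j, hj⟩ := R.exists_of_eval (x := σ (R.θ i))
    (by rw [eval_map_algEquiv, R.eval_root, map_zero])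
  exact ⟨j, hj.symm⟩

/-- the index of the image of a root -/
noncomputable def idx (σ : L ≃ₐ[k] L) (i : Fin n) : Fin n := (R.exists_idx σ i).choose

theorem idx_spec (σ : L ≃ₐ[k] L) (i : Fin n) : σ (R.θ i) = R.θ (R.idx σ i) :=
  (R.exists_idx σ i).choose_spec

theorem idx_mul (σ τ : L ≃ₐ[k] L) (i : Fin n) : R.idx (σ * τ) i = R.idx σ (R.idx τ i) := by
  apply R.inj
  rw [← R.idx_spec, ← R.idx_spec, ← R.idx_spec, AlgEquiv.mul_apply]

theorem idx_one (i : Fin n) : R.idx 1 i = i := by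
  apply R.inj
  rw [← R.idx_spec, AlgEquiv.one_apply]

/-- The action of the automorphisms of `L` over `k` on the indices of the roots. -/
noncomputable def permHom : (L ≃ₐ[k] L) →* Equiv.Perm (Fin n) where
  toFun σ :=
    { toFun := R.idx σ
      invFun := R.idx σ⁻¹
      left_inv := fun i => by rw [← R.idx_mul, inv_mul_cancel, R.idx_one]
      right_inv := fun i => by rw [← R.idx_mul, mul_inv_cancel, R.idx_one] }
  map_one' := by ext i; simp [R.idx_one]
  map_mul' σ τ := by ext i; simp [R.idx_mul]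

theorem permHom_spec (σ : L ≃ₐ[k] L) (i : Fin n) : σ (R.θ i) = R.θ (R.permHom σ i) :=
  R.idx_spec σ i

end Roots

/-- The constant `d` of the first family. -/
def dd1 (h : ℕ) : ℤ := (-1) ^ h * ((2 * h + 1) * (2 * h - 1))

/-- The constant `d` of the second family. -/
def dd2 (h : ℕ) : ℤ := (-1) ^ h * (h * (2 * h + 1))

/-- First family, degree `2h+1`:
`b² x^(2h) ((2h-1) x - (2h+1)) + d a² ((2h+1) x - (2h-1))`. -/
noncomputable def F1 {R : Type*} [CommRing R] (h : ℕ) (a b : R) : R[X] :=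
  C (b ^ 2) * X ^ (2 * h) * (C (2 * (h : R) - 1) * X - C (2 * (h : R) + 1)) +
    C ((dd1 h : R) * a ^ 2) * (C (2 * (h : R) + 1) * X - C (2 * (h : R) - 1))

/-- Second family, degree `2h+2`:
`b² x^(2h) (h(2h+1) x² - 4h(h+1) x + (h+1)(2h+1)) - d a²`. -/
noncomputable def F2 {R : Type*} [CommRing R] (h : ℕ) (a b : R) : R[X] :=
  C (b ^ 2) * X ^ (2 * h) *
      (C ((h : R) * (2 * h + 1)) * X ^ 2 - C (4 * (h : R) * (h + 1)) * X +
        C (((h : R) + 1) * (2 * h + 1))) -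
    C ((dd2 h : R) * a ^ 2)

/-- The value of `F1 h a b` at `x`. -/
def ev1 {R : Type*} [CommRing R] (h : ℕ) (a b x : R) : R :=
  b ^ 2 * x ^ (2 * h) * ((2 * h - 1) * x - (2 * h + 1)) +
    (dd1 h : R) * a ^ 2 * ((2 * h + 1) * x - (2 * h - 1))

/-- The value of `F2 h a b` at `x`. -/
def ev2 {R : Type*} [CommRing R] (h : ℕ) (a b x : R) : R :=
  b ^ 2 * x ^ (2 * h) * (h * (2 * h + 1) * x ^ 2 - 4 * h * (h + 1) * x + (h + 1) * (2 * h + 1)) -
    (dd2 h : R) * a ^ 2

/-- `M` is a field of degree `n` over `k` whose Galois closure has the group `A_n` (on the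
embeddings), as in the frozen statement. -/
def IsAltField (k : Type*) [Field k] (n : ℕ) (M : IntermediateField k (AlgebraicClosure k)) :
    Prop :=
  Module.finrank k M = n ∧
    ∃ e : (M →ₐ[k] AlgebraicClosure k) ≃ Fin n, ∀ π : Equiv.Perm (Fin n),
      π ∈ alternatingGroup (Fin n) ↔
        ∃ σ : AlgebraicClosure k ≃ₐ[k] AlgebraicClosure k,
          ∀ φ : M →ₐ[k] AlgebraicClosure k, e (σ.toAlgHom.comp φ) = π (e φ)

/-- Malle's counting function `N(k, G; B)`, in exactly the form of the frozen statement. -/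
noncomputable def malleCount (k : Type) [Field k] [NumberField k] (n : ℕ)
    (G : Subgroup (Equiv.Perm (Fin n))) (B : ℝ) : ℕ :=
  Nat.card (Quot (fun L L' : {M : IntermediateField k (AlgebraicClosure k) //
      Module.finrank k M = n ∧
      (∃ e : (M →ₐ[k] AlgebraicClosure k) ≃ Fin n, ∀ π : Equiv.Perm (Fin n),
        π ∈ G ↔ ∃ σ : AlgebraicClosure k ≃ₐ[k] AlgebraicClosure k,
          ∀ φ : M →ₐ[k] AlgebraicClosure k, e (σ.toAlgHom.comp φ) = π (e φ)) ∧
      ∃ h : NumberField M,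
        ((|@NumberField.discr M _ h| : ℤ) : ℝ) ≤ B * ((|NumberField.discr k| : ℤ) : ℝ) ^ n}
    => Nonempty (L.1 ≃ₐ[k] L'.1)))

/-! ### Conditions on the parameters -/

/-- The local conditions at three primes `l`, `p`, `q` of `k`. -/
structure Cond (k : Type*) [Field k] [NumberField k] (h : ℕ) (d : ℤ) (a b : k)
    (l p q : HeightOneSpectrum (𝓞 k)) : Prop where
  ha : a ≠ 0
  hb : b ≠ 0
  l_pos : 0 < ord l ((2 * h + 1 : ℕ) : k)
  l_b : ord l b = 0
  l_a : 0 ≤ ord l a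
  l_cop : IsCoprime (ord l ((2 * h + 1 : ℕ) : k) + 2 * ord l a) (2 * (h : ℤ) + 1)
  l_lt : ord l ((2 * h + 1 : ℕ) : k) + 2 * ord l a < (2 * (h : ℤ) + 1) * ord l ((2 * h + 1 : ℕ) : k)
  p_units : UnitsUpTo p (2 * h + 2)
  p_a : ord p a = 0
  p_b : ord p b = 1
  q_units : UnitsUpTo q (2 * h + 2)
  q_a : ord q a = 0
  q_b : ord q b = 0
  q_ab : ord q (b ^ 2 - (d : k) * a ^ 2) = 1

section Box

variable (k : Type*) [Field k] [NumberField k]

variable {k} in
/-- All conjugates of `a` have size `T` up to the factor `lam`. -/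
def Balanced (lam T : ℝ) (a : 𝓞 k) : Prop :=
  ∀ φ : k →+* ℂ, T ≤ lam * ‖φ (a : k)‖ ∧ ‖φ (a : k)‖ ≤ lam * T

variable {k} in
/-- No prime outside `M` divides `a` twice. -/
def SqfreeOff (M : ℕ) (a : 𝓞 k) : Prop :=
  ∀ p : HeightOneSpectrum (𝓞 k), (M : 𝓞 k) ∉ p.asIdeal → a ∉ p.asIdeal ^ 2

variable {k} in
/-- No prime outside `M` divides both `a` and `b`. -/
def CoprimeOff (M : ℕ) (a b : 𝓞 k) : Prop :=
  ∀ p : HeightOneSpectrum (𝓞 k), (M : 𝓞 k) ∉ p.asIdeal → ¬ (a ∈ p.asIdeal ∧ b ∈ p.asIdeal)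

/-- index type of the integral basis -/
abbrev Idx : Type _ := Module.Free.ChooseBasisIndex ℤ (𝓞 k)

/-- The element `M (T + Σ y_i β_i) + α`. -/
noncomputable def boxElt (M : ℕ) (α : 𝓞 k) (T : ℕ) (y : Idx k → ℕ) : 𝓞 k :=
  (M : 𝓞 k) * ((T : 𝓞 k) + ∑ i, (y i : 𝓞 k) * RingOfIntegers.basis k i) + α

open scoped Classical in
/-- The index set `[0, Q)^m`. -/
noncomputable def box (Q : ℕ) : Finset (Idx k → ℕ) := Fintype.piFinset (fun _ => Finset.range Q)

end Box

/-- The key statement for degree `n` over `k`. -/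
def KeyK (k : Type) [Field k] [NumberField k] (n : ℕ) : Prop :=
  ∀ Y : ℕ, ∃ (M : ℕ) (α β : 𝓞 k), 0 < M ∧ (∀ r : ℕ, r.Prime → r ≤ Y → r ∣ M) ∧
    α ≠ 0 ∧ β ≠ 0 ∧
    (∀ a : 𝓞 k, (M : 𝓞 k) ∣ a - α → ∀ r : HeightOneSpectrum (𝓞 k), (M : 𝓞 k) ∈ r.asIdeal →
      a ≠ 0 ∧ ord r (a : k) = ord r (α : k)) ∧
    (∀ b : 𝓞 k, (M : 𝓞 k) ∣ b - β → ∀ r : HeightOneSpectrum (𝓞 k), (M : 𝓞 k) ∈ r.asIdeal →
      b ≠ 0 ∧ ord r (b : k) = ord r (β : k)) ∧
    ∀ lam : ℝ, 1 ≤ lam → ∃ (C : ℝ) (T0 : ℕ), 0 < C ∧ ∀ T : ℕ, T0 ≤ T → ∀ a b : 𝓞 k,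
      (M : 𝓞 k) ∣ a - α → (M : 𝓞 k) ∣ b - β → Balanced lam T a → Balanced lam T b →
      SqfreeOff M a → SqfreeOff M b → CoprimeOff M a b →
      ∃ (K : IntermediateField k (AlgebraicClosure k)) (_ : NumberField K), IsAltField k n K ∧
        |(NumberField.discr K : ℝ)| ≤ C * (T : ℝ) ^ (Module.finrank ℚ k * (2 * n - 2)) ∧
        ∀ (r : ℕ), r.Prime → ∀ p : HeightOneSpectrum (𝓞 k), (r : 𝓞 k) ∈ p.asIdeal →
          (M : 𝓞 k) ∉ p.asIdeal → (a ∈ p.asIdeal ∨ b ∈ p.asIdeal) →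
          (r : ℤ) ∣ NumberField.discr K

end Pool.Agent.H35.AN
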