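import Pool.Agent.H35.AN.Defs

set_option autoImplicit false

open Polynomial IsDedekindDomain NumberField

namespace Pool.Agent.H35.AN

/-! ### AN-5 Ram.lean : ramified primes divide the discriminant -/

theorem dvd_discr_of_erel {k K : Type} [Field k] [NumberField k] [Field K] [NumberField K]
    [Algebra k K] (P : HeightOneSpectrum (𝓞 K)) {r : ℕ} (hr : r.Prime)
    (hP : ((r : ℕ) : 𝓞 K) ∈ P.asIdeal) (h : 2 ≤ erel k P) :
    (r : ℤ) ∣ NumberField.discr K := by
  by_contra hnd
  have hrp : Prime (r : ℤ) := Nat.prime_iff_prime_int.1 hr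
  have h1 := (NumberField.not_dvd_discr_iff_forall_mem K (𝓞 K) hrp).1 hnd P.asIdeal P.isPrime
    (by simpa using hP)
  have h2 : P.asIdeal.ramificationIdx ℤ = 1 := Ideal.ramificationIdx_eq_one P.asIdeal ℤ
  have hPk : P.asIdeal.LiesOver (below k P).asIdeal := ⟨rfl⟩
  have h3 := Ideal.ramificationIdx_tower (R := ℤ) (below k P).asIdeal P.asIdeal
  rw [h2] at h3
  have h4 : P.asIdeal.ramificationIdx (𝓞 k) = 1 := Nat.eq_one_of_mul_eq_one_left h3.symm
  unfold erel at h
  omega

end Pool.Agent.H35.AN
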