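import Pool.Agent.H35.AN.Defs

/-!
# Project AN, row AN-8: degrees, leading coefficients, equations of the two families
-/

set_option autoImplicit false

open Polynomial IsDedekindDomain NumberField

namespace Pool.Agent.H35.AN

section Basic

variable {k : Type*} [Field k] [CharZero k]

theorem an8_ne1 {S : Type*} [Field S] [CharZero S] {h : ℕ} (hh : 2 ≤ h) :
    (2 * (h : S) - 1) ≠ 0 := by
  have h1 : (2 * (h : S) - 1) = ((2 * (h : ℤ) - 1 : ℤ) : S) := by push_cast; ring
  rw [h1, Int.cast_ne_zero]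
  omega

theorem an8_ne2 {S : Type*} [Field S] [CharZero S] (h : ℕ) : (2 * (h : S) + 1) ≠ 0 := by
  have h1 : (2 * (h : S) + 1) = ((2 * h + 1 : ℕ) : S) := by push_cast; ring
  rw [h1, Nat.cast_ne_zero]
  omega

theorem an8_ne3 {S : Type*} [Field S] [CharZero S] {h : ℕ} (hh : 2 ≤ h) : (h : S) ≠ 0 := by
  rw [Nat.cast_ne_zero]
  omega

theorem an8_ne4 {S : Type*} [Field S] [CharZero S] (h : ℕ) : ((h : S) + 1) ≠ 0 :=
  Nat.cast_add_one_ne_zero h

theorem an8_dd1 {S : Type*} [Field S] [CharZero S] {h : ℕ} (hh : 2 ≤ h) : (dd1 h : S) ≠ 0 := by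
  rw [Int.cast_ne_zero]
  unfold dd1
  refine mul_ne_zero (pow_ne_zero _ (by norm_num)) (mul_ne_zero (by omega) (by omega))

theorem an8_dd2 {S : Type*} [Field S] [CharZero S] {h : ℕ} (hh : 2 ≤ h) : (dd2 h : S) ≠ 0 := by
  rw [Int.cast_ne_zero]
  unfold dd2
  refine mul_ne_zero (pow_ne_zero _ (by norm_num)) (mul_ne_zero (by omega) (by omega))

theorem F1_natDegree {h : ℕ} (hh : 2 ≤ h) (a : k) {b : k} (hb : b ≠ 0) :
    (F1 h a b).natDegree = 2 * h + 1 ∧ (F1 h a b).leadingCoeff = (2 * h - 1) * b ^ 2 := by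
  have e : F1 h a b = C ((2 * h - 1) * b ^ 2) * X ^ (2 * h + 1) +
      (-(C ((2 * h + 1) * b ^ 2) * X ^ (2 * h)) + (C ((dd1 h : k) * a ^ 2 * (2 * h + 1)) * X -
        C ((dd1 h : k) * a ^ 2 * (2 * h - 1)))) := by
    unfold F1
    simp only [C_mul, C_sub, C_add]
    ring
  have hc : (2 * (h : k) - 1) * b ^ 2 ≠ 0 := mul_ne_zero (an8_ne1 hh) (pow_ne_zero _ hb)
  have hd : (C ((2 * (h : k) - 1) * b ^ 2) * X ^ (2 * h + 1)).natDegree = 2 * h + 1 :=
    natDegree_C_mul_X_pow _ _ hc
  have hl : (-(C ((2 * (h : k) + 1) * b ^ 2) * X ^ (2 * h)) +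
      (C ((dd1 h : k) * a ^ 2 * (2 * h + 1)) * X -
        C ((dd1 h : k) * a ^ 2 * (2 * h - 1)))).natDegree < 2 * h + 1 := by
    refine lt_of_le_of_lt (natDegree_add_le _ _) (max_lt ?_ ?_)
    · rw [natDegree_neg]
      exact lt_of_le_of_lt (natDegree_C_mul_X_pow_le _ _) (by omega)
    · refine lt_of_le_of_lt (natDegree_sub_le _ _) (max_lt ?_ ?_)
      · exact lt_of_le_of_lt (natDegree_C_mul_le _ _) (lt_of_le_of_lt natDegree_X_le (by omega))
      · rw [natDegree_C]; omega
  rw [e]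
  have hlt := hl
  rw [← hd] at hlt
  refine ⟨by rw [natDegree_add_eq_left_of_natDegree_lt hlt, hd], ?_⟩
  rw [leadingCoeff_add_of_degree_lt' (degree_lt_degree hlt), leadingCoeff_C_mul_X_pow]

theorem F2_natDegree {h : ℕ} (hh : 2 ≤ h) (a : k) {b : k} (hb : b ≠ 0) :
    (F2 h a b).natDegree = 2 * h + 2 ∧ (F2 h a b).leadingCoeff = h * (2 * h + 1) * b ^ 2 := by
  have e : F2 h a b = C (h * (2 * h + 1) * b ^ 2) * X ^ (2 * h + 2) +
      (-(C (4 * h * (h + 1) * b ^ 2) * X ^ (2 * h + 1)) +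
        (C ((h + 1) * (2 * h + 1) * b ^ 2) * X ^ (2 * h) - C ((dd2 h : k) * a ^ 2))) := by
    unfold F2
    simp only [C_mul, C_add]
    ring
  have hc : (h : k) * (2 * h + 1) * b ^ 2 ≠ 0 :=
    mul_ne_zero (mul_ne_zero (an8_ne3 hh) (an8_ne2 h)) (pow_ne_zero _ hb)
  have hd : (C ((h : k) * (2 * h + 1) * b ^ 2) * X ^ (2 * h + 2)).natDegree = 2 * h + 2 :=
    natDegree_C_mul_X_pow _ _ hc
  have hl : (-(C (4 * (h : k) * (h + 1) * b ^ 2) * X ^ (2 * h + 1)) +
        (C (((h : k) + 1) * (2 * h + 1) * b ^ 2) * X ^ (2 * h) -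
          C ((dd2 h : k) * a ^ 2))).natDegree < 2 * h + 2 := by
    refine lt_of_le_of_lt (natDegree_add_le _ _) (max_lt ?_ ?_)
    · rw [natDegree_neg]
      exact lt_of_le_of_lt (natDegree_C_mul_X_pow_le _ _) (by omega)
    · refine lt_of_le_of_lt (natDegree_sub_le _ _) (max_lt ?_ ?_)
      · exact lt_of_le_of_lt (natDegree_C_mul_X_pow_le _ _) (by omega)
      · rw [natDegree_C]; omega
  rw [e]
  have hlt := hl
  rw [← hd] at hlt
  refine ⟨by rw [natDegree_add_eq_left_of_natDegree_lt hlt, hd], ?_⟩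
  rw [leadingCoeff_add_of_degree_lt' (degree_lt_degree hlt), leadingCoeff_C_mul_X_pow]

theorem an8_two {R S : Type*} [CommRing R] [CommRing S] (f : R →+* S) : f 2 = 2 := map_ofNat f 2

theorem an8_four {R S : Type*} [CommRing R] [CommRing S] (f : R →+* S) : f 4 = 4 := map_ofNat f 4

theorem an8_der1 {R S : Type*} [CommRing R] [CommRing S] (f : R →+* S) (m : ℕ)
    (B D p q u v : R) (x : S) :
    ((C B * X ^ m * (C p * X - C q) + C D * (C u * X - C v)).derivative.map f).eval x =
      f B * (m * x ^ (m - 1) * (f p * x - f q) + x ^ m * f p) + f D * f u := by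
  simp [derivative_mul, derivative_X_pow]
  ring

theorem an8_der2 {R S : Type*} [CommRing R] [CommRing S] (f : R →+* S) (m : ℕ)
    (B D p q u : R) (x : S) :
    ((C B * X ^ m * (C p * X ^ 2 - C q * X + C u) - C D).derivative.map f).eval x =
      f B * (m * x ^ (m - 1) * (f p * x ^ 2 - f q * x + f u) +
        x ^ m * (f p * (2 * x) - f q)) := by
  simp [derivative_mul, derivative_X_pow]
  ring

theorem F1_eval {R S : Type*} [CommRing R] [CommRing S] (f : R →+* S) (h : ℕ) (a b : R) (x : S) :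
    ((F1 h a b).map f).eval x = ev1 h (f a) (f b) x := by
  unfold F1 ev1
  simp [an8_two f]

theorem F2_eval {R S : Type*} [CommRing R] [CommRing S] (f : R →+* S) (h : ℕ) (a b : R) (x : S) :
    ((F2 h a b).map f).eval x = ev2 h (f a) (f b) x := by
  unfold F2 ev2
  simp [an8_two f, an8_four f]

/-- `F' w = b² W` at the roots, first family. -/
theorem F1_deriv {R S : Type*} [CommRing R] [CommRing S] (f : R →+* S) {h : ℕ} (hh : 2 ≤ h)
    (a b : R) {x : S} (hx : ev1 h (f a) (f b) x = 0) :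
    ((F1 h a b).derivative.map f).eval x * ((2 * h - 1) - (2 * h + 1) * x) =
      -((f b) ^ 2 * ((2 * h + 1) * (2 * h) * (2 * h - 1)) * x ^ (2 * h - 1) * (x - 1) ^ 2) := by
  have hp : x ^ (2 * h) = x ^ (2 * h - 1) * x := by
    rw [← pow_succ]; congr 1; omega
  have hD : ((F1 h a b).derivative.map f).eval x =
      (f b) ^ 2 * (2 * h * x ^ (2 * h - 1) * ((2 * h - 1) * x - (2 * h + 1)) +
        x ^ (2 * h) * (2 * h - 1)) + (dd1 h : S) * (f a) ^ 2 * (2 * h + 1) := by
    unfold F1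
    rw [an8_der1]
    simp only [map_mul, map_add, map_sub, map_pow, map_one, map_natCast, map_intCast, an8_two f]
    push_cast
    ring
  rw [hD]
  unfold ev1 at hx
  rw [hp] at hx ⊢
  linear_combination (-(2 * (h : S) + 1)) * hx

theorem F2_deriv {R S : Type*} [CommRing R] [CommRing S] (f : R →+* S) {h : ℕ} (hh : 2 ≤ h)
    (a b : R) (x : S) :
    ((F2 h a b).derivative.map f).eval x =
      (f b) ^ 2 * (2 * h * (h + 1) * (2 * h + 1)) * x ^ (2 * h - 1) * (x - 1) ^ 2 := by
  have hp : x ^ (2 * h) = x ^ (2 * h - 1) * x := by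
    rw [← pow_succ]; congr 1; omega
  have hD : ((F2 h a b).derivative.map f).eval x =
      (f b) ^ 2 * (2 * h * x ^ (2 * h - 1) *
        (h * (2 * h + 1) * x ^ 2 - 4 * h * (h + 1) * x + (h + 1) * (2 * h + 1)) +
        x ^ (2 * h) * (h * (2 * h + 1) * (2 * x) - 4 * h * (h + 1))) := by
    unfold F2
    rw [an8_der2]
    simp only [map_mul, map_add, map_sub, map_pow, map_one, map_natCast, map_intCast, an8_two f,
      an8_four f]
    push_cast
    ring
  rw [hD, hp]
  ring

theorem an8_roots {k L : Type*} [Field k] [Field L] [Algebra k L] [IsAlgClosed L] {n : ℕ}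
    {F : k[X]} (hF : F.natDegree = n) (hlc : F.leadingCoeff ≠ 0)
    (hs : ∀ x : L, (F.map (algebraMap k L)).eval x = 0 →
      (F.derivative.map (algebraMap k L)).eval x ≠ 0) : Nonempty (Roots k L n F) := by
  classical
  set G := F.map (algebraMap k L) with hG
  have hG0 : G ≠ 0 := by
    rw [hG, Ne, Polynomial.map_eq_zero]
    exact leadingCoeff_ne_zero.1 hlc
  have hdeg : G.natDegree = n := by rw [hG, natDegree_map, hF]
  have hsp : G.Splits := IsAlgClosed.splits G
  have hcard : G.roots.card = G.natDegree := (splits_iff_card_roots).1 hsp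
  have hnd : G.roots.Nodup := by
    rw [Multiset.nodup_iff_count_le_one]
    intro x
    rw [count_roots]
    by_contra hlt
    have h1 := (one_lt_rootMultiplicity_iff_isRoot hG0).1 (not_le.1 hlt)
    refine hs x h1.1 ?_
    have h2 := h1.2
    rw [hG, derivative_map] at h2
    exact h2
  have hc : G.roots.toFinset.card = n := by
    rw [Multiset.toFinset_card_of_nodup hnd, hcard, hdeg]
  let e := Finset.equivFinOfCardEq hc
  refine ⟨⟨fun i => ((e.symm i : G.roots.toFinset) : L),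
    Subtype.val_injective.comp e.symm.injective, hlc, ?_⟩⟩
  have h1 := C_leadingCoeff_mul_prod_multiset_X_sub_C hcard
  have h2 : ∏ i, (X - C ((e.symm i : G.roots.toFinset) : L)) =
      (G.roots.map fun a => X - C a).prod := by
    rw [Equiv.prod_comp e.symm (fun y : G.roots.toFinset => X - C (y : L)),
      Finset.prod_coe_sort G.roots.toFinset (fun y : L => X - C y), Finset.prod_eq_multiset_prod,
      Multiset.toFinset_val, Multiset.dedup_eq_self.2 hnd]
  rw [h2]
  have h3 : algebraMap k L F.leadingCoeff = G.leadingCoeff := by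
    rw [hG, leadingCoeff_map]
  rw [h3]
  exact h1.symm

/-- distinct roots in an algebraically closed field -/
theorem exists_roots1 {L : Type*} [Field L] [Algebra k L] [IsAlgClosed L] {h : ℕ} (hh : 2 ≤ h)
    {a b : k} (ha : a ≠ 0) (hb : b ≠ 0) (hab : b ^ 2 ≠ (dd1 h : k) * a ^ 2) :
    Nonempty (Roots k L (2 * h + 1) (F1 h a b)) := by
  haveI : CharZero L := charZero_of_injective_algebraMap (algebraMap k L).injective
  obtain ⟨h1, h2⟩ := F1_natDegree hh a hb
  refine an8_roots h1 (by rw [h2]; exact mul_ne_zero (an8_ne1 hh) (pow_ne_zero _ hb)) ?_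
  intro x hx hx'
  rw [F1_eval] at hx
  have h3 := F1_deriv (algebraMap k L) hh a b hx
  rw [hx', zero_mul, eq_comm, neg_eq_zero] at h3
  have hA : algebraMap k L a ≠ 0 := (_root_.map_ne_zero _).2 ha
  have hB : algebraMap k L b ≠ 0 := (_root_.map_ne_zero _).2 hb
  have hx0 : x ≠ 0 := by
    rintro rfl
    unfold ev1 at hx
    rw [zero_pow (by omega)] at hx
    have h4 : (dd1 h : L) * (algebraMap k L a) ^ 2 * (2 * h - 1) = 0 := by linear_combination -hx
    exact mul_ne_zero (mul_ne_zero (an8_dd1 hh) (pow_ne_zero _ hA)) (an8_ne1 hh) h4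
  have hx1 : x - 1 ≠ 0 := by
    intro h4
    have h5 : x = 1 := by linear_combination h4
    rw [h5] at hx
    unfold ev1 at hx
    rw [one_pow] at hx
    have h6 : (2 : L) * ((algebraMap k L b) ^ 2 - (dd1 h : L) * (algebraMap k L a) ^ 2) = 0 := by
      linear_combination -hx
    rcases mul_eq_zero.1 h6 with h7 | h7
    · exact two_ne_zero h7
    · apply hab
      apply (algebraMap k L).injective
      rw [map_pow, map_mul, map_pow, map_intCast]
      linear_combination h7
  refine mul_ne_zero (mul_ne_zero (mul_ne_zero (pow_ne_zero _ hB) (mul_ne_zero (mul_ne_zero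
    (an8_ne2 h) (mul_ne_zero two_ne_zero (an8_ne3 hh))) (an8_ne1 hh))) (pow_ne_zero _ hx0))
    (pow_ne_zero _ hx1) h3

theorem exists_roots2 {L : Type*} [Field L] [Algebra k L] [IsAlgClosed L] {h : ℕ} (hh : 2 ≤ h)
    {a b : k} (ha : a ≠ 0) (hb : b ≠ 0) (hab : b ^ 2 ≠ (dd2 h : k) * a ^ 2) :
    Nonempty (Roots k L (2 * h + 2) (F2 h a b)) := by
  haveI : CharZero L := charZero_of_injective_algebraMap (algebraMap k L).injective
  obtain ⟨h1, h2⟩ := F2_natDegree hh a hb
  have h0 : (F2 h a b).leadingCoeff ≠ 0 := by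
    rw [h2]
    exact mul_ne_zero (mul_ne_zero (an8_ne3 hh) (an8_ne2 h)) (pow_ne_zero _ hb)
  refine an8_roots h1 h0 ?_
  intro x hx hx'
  rw [F2_eval] at hx
  have h3 := F2_deriv (algebraMap k L) hh a b x
  rw [hx', eq_comm] at h3
  have hA : algebraMap k L a ≠ 0 := (_root_.map_ne_zero _).2 ha
  have hB : algebraMap k L b ≠ 0 := (_root_.map_ne_zero _).2 hb
  have hx0 : x ≠ 0 := by
    rintro rfl
    unfold ev2 at hx
    rw [zero_pow (by omega)] at hx
    have h4 : (dd2 h : L) * (algebraMap k L a) ^ 2 = 0 := by linear_combination -hx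
    exact mul_ne_zero (an8_dd2 hh) (pow_ne_zero _ hA) h4
  have hx1 : x - 1 ≠ 0 := by
    intro h4
    have h5 : x = 1 := by linear_combination h4
    rw [h5] at hx
    unfold ev2 at hx
    rw [one_pow] at hx
    apply hab
    apply (algebraMap k L).injective
    rw [map_pow, map_mul, map_pow, map_intCast]
    linear_combination hx
  refine mul_ne_zero (mul_ne_zero (mul_ne_zero (pow_ne_zero _ hB) (mul_ne_zero (mul_ne_zero
    (mul_ne_zero two_ne_zero (an8_ne3 hh)) (an8_ne4 h)) (an8_ne2 h))) (pow_ne_zero _ hx0))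
    (pow_ne_zero _ hx1) h3

end Basic

end Pool.Agent.H35.AN
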