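import Pool.Agent.H35.AN.Defs

set_option autoImplicit false

open Polynomial IsDedekindDomain NumberField

namespace Pool.Agent.H35.AN

/-! ### AN-3 Decomp.lean : decomposition group and the orbit lemma -/

section an3

open scoped Pointwise

variable {k L : Type} [Field k] [NumberField k] [Field L] [NumberField L]
    [Algebra k L]

theorem an3_intVal_le (P : HeightOneSpectrum (𝓞 L)) (σ : L ≃ₐ[k] L)
    (hσ : σ • P.asIdeal = P.asIdeal) (y : 𝓞 L) :
    P.intValuation (σ • y) ≤ P.intValuation y := by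
  rcases eq_or_ne y 0 with rfl | hy
  · simp
  · rw [HeightOneSpectrum.intValuation_eq_exp_neg_multiplicity P hy,
      HeightOneSpectrum.intValuation_le_pow_iff_mem]
    have h1 : y ∈ P.asIdeal ^ (multiplicity P.asIdeal (Ideal.span {y})) := by
      rw [← HeightOneSpectrum.intValuation_le_pow_iff_mem,
        HeightOneSpectrum.intValuation_eq_exp_neg_multiplicity P hy]
    have h2 : σ • y ∈ σ • (P.asIdeal ^ (multiplicity P.asIdeal (Ideal.span {y}))) :=
      Ideal.smul_mem_pointwise_smul σ y _ h1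
    rw [smul_pow', hσ] at h2
    exact h2

theorem an3_intVal (P : HeightOneSpectrum (𝓞 L)) (σ : L ≃ₐ[k] L)
    (hσ : σ • P.asIdeal = P.asIdeal) (y : 𝓞 L) :
    P.intValuation (σ • y) = P.intValuation y := by
  refine le_antisymm (an3_intVal_le P σ hσ y) ?_
  have h := an3_intVal_le P σ⁻¹ (by rw [inv_smul_eq_iff, hσ]) (σ • y)
  rwa [inv_smul_smul] at h

theorem an3_val (P : HeightOneSpectrum (𝓞 L)) (σ : L ≃ₐ[k] L)
    (hσ : σ • P.asIdeal = P.asIdeal) (x : L) :
    P.valuation L (σ x) = P.valuation L x := by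
  obtain ⟨a, b, hb, rfl⟩ := IsFractionRing.div_surjective (A := 𝓞 L) x
  have h (c : 𝓞 L) : σ (algebraMap (𝓞 L) L c) = algebraMap (𝓞 L) L (σ • c) := rfl
  rw [map_div₀ σ, h, h, map_div₀, map_div₀]
  simp only [HeightOneSpectrum.valuation_of_algebraMap, an3_intVal P σ hσ]

theorem an3_ord (P : HeightOneSpectrum (𝓞 L)) (σ : L ≃ₐ[k] L)
    (hσ : σ • P.asIdeal = P.asIdeal) (x : L) : ord P (σ x) = ord P x := by
  unfold ord
  rw [an3_val P σ hσ x]

theorem an3_ord_prod (P : HeightOneSpectrum (𝓞 L)) (S : Finset L) (h0 : ∀ x ∈ S, x ≠ 0) (t : ℤ)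
    (ht : ∀ x ∈ S, ord P x = t) : ord P (∏ x ∈ S, x) = S.card * t := by
  classical
  induction S using Finset.induction_on with
  | empty => simp [ord]
  | insert a S ha ih =>
    have h1 : ∏ x ∈ S, x ≠ 0 := Finset.prod_ne_zero_iff.2 fun x hx =>
      h0 x (Finset.mem_insert_of_mem hx)
    have h2 : a ≠ 0 := h0 a (Finset.mem_insert_self _ _)
    have h3 := ih (fun x hx => h0 x (Finset.mem_insert_of_mem hx))
      (fun x hx => ht x (Finset.mem_insert_of_mem hx))
    have h4 := ht a (Finset.mem_insert_self _ _)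
    rw [Finset.prod_insert ha, Finset.card_insert_of_notMem ha]
    unfold ord at h3 h4 ⊢
    rw [map_mul, WithZero.log_mul ((Valuation.ne_zero_iff _).2 h2)
      ((Valuation.ne_zero_iff _).2 h1)]
    push_cast
    linarith

end an3

open scoped Pointwise in
theorem exists_decomp {k L : Type} [Field k] [NumberField k] [Field L] [NumberField L]
    [Algebra k L] [IsGalois k L] (P : HeightOneSpectrum (𝓞 L)) :
    ∃ D : Subgroup (L ≃ₐ[k] L),
      (∀ σ ∈ D, ∀ x : L, ord P (σ x) = ord P x) ∧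
      ∀ (S : Finset L), (∀ σ ∈ D, ∀ x ∈ S, σ x ∈ S) → (∀ x ∈ S, x ≠ 0) →
        ∀ t : ℤ, (∀ x ∈ S, ord P x = t) → (erel k P : ℤ) ∣ S.card * t := by
  classical
  refine ⟨MulAction.stabilizer (L ≃ₐ[k] L) P.asIdeal, fun σ hσ x => an3_ord P σ hσ x, ?_⟩
  intro S hS h0 t ht
  set E : IntermediateField k L :=
    FixedPoints.intermediateField (MulAction.stabilizer (L ≃ₐ[k] L) P.asIdeal) with hE
  have : NumberField E := inferInstance
  have hPE : P.asIdeal.LiesOver (below E P).asIdeal := ⟨rfl⟩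
  have hPk : P.asIdeal.LiesOver (below k P).asIdeal := ⟨rfl⟩
  have hEk : (below E P).asIdeal.LiesOver (below k P).asIdeal := ⟨by
    change P.asIdeal.under (𝓞 k) = (P.asIdeal.under (𝓞 E)).under (𝓞 k)
    rw [Ideal.under_under]⟩
  have : P.asIdeal.IsMaximal := P.isMaximal
  have : (below E P).asIdeal.IsMaximal := (below E P).isMaximal
  have hD : IsDecompositionField k L P.asIdeal E := by rw [hE]; infer_instance
  have h1 : (below E P).asIdeal.ramificationIdx (𝓞 k) = 1 :=
    IsDecompositionField.ramificationIdx_eq (𝓞 k) k L P.asIdeal E (𝓞 E) (below E P).asIdeal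
      (p := (below k P).asIdeal) (below k P).ne_bot
  have h2 : erel k P = P.asIdeal.ramificationIdx (𝓞 E) := by
    have := Ideal.ramificationIdx_tower (R := 𝓞 k) (below E P).asIdeal P.asIdeal
    unfold erel
    rw [this, h1, one_mul]
  have h3 : (below E P).asIdeal.ramificationIdx' P.asIdeal = erel k P := by
    rw [h2]
    exact Ideal.ramificationIdx'_eq_ramificationIdx _ _ (below E P).ne_bot
  have hy : (∏ x ∈ S, x) ∈ E := by
    rw [hE, FixedPoints.mem_intermediateField_iff]
    intro σ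
    change (σ : L ≃ₐ[k] L) (∏ x ∈ S, x) = ∏ x ∈ S, x
    rw [map_prod]
    have h : S.image (σ : L ≃ₐ[k] L) = S := by
      refine Finset.eq_of_subset_of_card_le ?_ ?_
      · intro z hz
        obtain ⟨x, hx, rfl⟩ := Finset.mem_image.1 hz
        exact hS _ σ.2 x hx
      · rw [Finset.card_image_of_injective _ (σ : L ≃ₐ[k] L).injective]
    conv_rhs => rw [← h]
    rw [Finset.prod_image fun x _ y _ hxy => (σ : L ≃ₐ[k] L).injective hxy]
  have h4 := HeightOneSpectrum.valuation_liesOver L (below E P) P (⟨_, hy⟩ : E)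
  rw [h3] at h4
  have h5 := an3_ord_prod P S h0 t ht
  refine ⟨ord (below E P) (⟨_, hy⟩ : E), ?_⟩
  rw [← h5]
  unfold ord
  have h6 : algebraMap E L (⟨∏ x ∈ S, x, hy⟩ : E) = ∏ x ∈ S, x := rfl
  rw [h6] at h4
  rw [← h4, WithZero.log_pow]
  simp

end Pool.Agent.H35.AN
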