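import Pool.Agent.H35.AN.Defs

/-!
# Project AN, row AN-6: permutation groups
-/

set_option autoImplicit false

namespace Pool.Agent.H35.AN

open scoped Pointwise

/-- erasing a fixed point keeps a stable set stable -/
theorem an6_erase {n : ℕ} (D : Subgroup (Equiv.Perm (Fin n))) (r : Fin n)
    (hr : ∀ σ ∈ D, σ r = r) (O : Finset (Fin n)) (hO : ∀ σ ∈ D, ∀ x ∈ O, σ x ∈ O) :
    ∀ σ ∈ D, ∀ x ∈ O.erase r, σ x ∈ O.erase r := by
  intro σ hσ x hx
  rw [Finset.mem_erase] at hx ⊢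
  refine ⟨fun h => hx.1 ?_, hO σ hσ x hx.2⟩
  apply σ.injective
  rw [h, hr σ hσ]

theorem isPreprimitive_of_orbits {n m : ℕ} (G D : Subgroup (Equiv.Perm (Fin n)))
    (htr : MulAction.IsPretransitive G (Fin n)) (hD : D ≤ G) (r : Fin n)
    (hr : ∀ σ ∈ D, σ r = r)
    (hor : ∀ S : Finset (Fin n), (∀ σ ∈ D, ∀ x ∈ S, σ x ∈ S) → r ∉ S → m ∣ S.card)
    (har : ∀ j : ℕ, j * m + 1 ∣ n → j * m = 0 ∨ j * m + 1 = n) :
    MulAction.IsPreprimitive G (Fin n) := by
  classical
  refine MulAction.IsPreprimitive.of_isTrivialBlock_base r ?_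
  intro B hrB hB
  have hst : ∀ σ ∈ D, ∀ x ∈ B.toFinset, σ x ∈ B.toFinset := by
    intro σ hσ x hx
    rw [Set.mem_toFinset] at hx ⊢
    have h1 : (⟨σ, hD hσ⟩ : G) • r = r := hr σ hσ
    have h2 : (⟨σ, hD hσ⟩ : G) • B = B := by
      apply hB.smul_eq_of_mem hrB
      rw [h1]
      exact hrB
    have h3 : (⟨σ, hD hσ⟩ : G) • x ∈ (⟨σ, hD hσ⟩ : G) • B := Set.smul_mem_smul_set hx
    rw [h2] at h3
    exact h3
  obtain ⟨j, hj⟩ := hor (B.toFinset.erase r) (an6_erase D r hr _ hst)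
    (Finset.notMem_erase r _)
  have hrB' : r ∈ B.toFinset := Set.mem_toFinset.mpr hrB
  have hc : j * m + 1 = B.toFinset.card := by
    rw [mul_comm, ← hj, Finset.card_erase_add_one hrB']
  have hn : B.toFinset.card ∣ n := by
    have h1 := hB.ncard_dvd_card ⟨r, hrB⟩
    rwa [Set.ncard_eq_toFinset_card', Nat.card_eq_fintype_card, Fintype.card_fin] at h1
  rcases har j (by rw [hc]; exact hn) with h | h
  · left
    rw [h, zero_add] at hc
    obtain ⟨a, ha⟩ := Finset.card_eq_one.mp hc.symm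
    intro x hx y hy
    have hx' : x ∈ B.toFinset := Set.mem_toFinset.mpr hx
    have hy' : y ∈ B.toFinset := Set.mem_toFinset.mpr hy
    rw [ha, Finset.mem_singleton] at hx' hy'
    rw [hx', hy']
  · right
    have h1 : B.toFinset.card = Fintype.card (Fin n) := by
      rw [← hc, h, Fintype.card_fin]
    have h2 := (Finset.card_eq_iff_eq_univ _).mp h1
    ext x
    constructor
    · intro _
      trivial
    · intro _
      rw [← Set.mem_toFinset, h2]
      exact Finset.mem_univ x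

/-- a group all whose stable sets containing a given point are everything is transitive -/
theorem an6_tr {n : ℕ} (G : Subgroup (Equiv.Perm (Fin n))) (r : Fin n)
    (h : ∀ S : Finset (Fin n), (∀ σ ∈ G, ∀ x ∈ S, σ x ∈ S) → r ∈ S → S = Finset.univ) :
    MulAction.IsPretransitive G (Fin n) := by
  classical
  have h1 := h (Finset.univ.filter fun x => x ∈ MulAction.orbit G r) (by
    intro σ hσ x hx
    rw [Finset.mem_filter] at hx ⊢
    refine ⟨Finset.mem_univ _, ?_⟩
    obtain ⟨g, hg⟩ := hx.2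
    refine ⟨⟨σ, hσ⟩ * g, ?_⟩
    show ((⟨σ, hσ⟩ : G) * g) • r = σ x
    rw [mul_smul]
    have hg' : g • r = x := hg
    rw [hg']
    rfl) (by
    rw [Finset.mem_filter]
    exact ⟨Finset.mem_univ _, MulAction.mem_orbit_self r⟩)
  have h2 : ∀ x, ∃ g : G, g • r = x := by
    intro x
    have : x ∈ Finset.univ.filter fun x => x ∈ MulAction.orbit G r := by
      rw [h1]
      exact Finset.mem_univ x
    exact (Finset.mem_filter.mp this).2
  refine ⟨fun x y => ?_⟩
  obtain ⟨g, hg⟩ := h2 x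
  obtain ⟨g', hg'⟩ := h2 y
  refine ⟨g' * g⁻¹, ?_⟩
  rw [mul_smul, ← hg, inv_smul_smul, hg']

theorem isPretransitive_of_dvd {n : ℕ} (hn : 0 < n) (G : Subgroup (Equiv.Perm (Fin n)))
    (h : ∀ S : Finset (Fin n), (∀ σ ∈ G, ∀ x ∈ S, σ x ∈ S) → n ∣ S.card) :
    MulAction.IsPretransitive G (Fin n) := by
  refine an6_tr G ⟨0, hn⟩ fun S hS h0 => ?_
  have h1 : S.card ≤ n := by
    have := Finset.card_le_univ S
    rwa [Fintype.card_fin] at this
  have h2 : 0 < S.card := Finset.card_pos.mpr ⟨_, h0⟩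
  have h3 := Nat.le_of_dvd h2 (h S hS)
  rw [← Finset.card_eq_iff_eq_univ, Fintype.card_fin]
  omega

/-- `n = m + 1`, `D` fixes `r` and is transitive outside `r`, and `G` does not fix `r`. -/
theorem isPretransitive_of_orbits {m : ℕ} (G D : Subgroup (Equiv.Perm (Fin (m + 1))))
    (hD : D ≤ G) (r : Fin (m + 1)) (hr : ∀ σ ∈ D, σ r = r)
    (hor : ∀ S : Finset (Fin (m + 1)), (∀ σ ∈ D, ∀ x ∈ S, σ x ∈ S) → r ∉ S → m ∣ S.card)
    (hone : ¬ ∀ σ ∈ G, σ r = r) :
    MulAction.IsPretransitive G (Fin (m + 1)) := by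
  refine an6_tr G r fun S hS h0 => ?_
  have hst := an6_erase D r hr S (fun σ hσ => hS σ (hD hσ))
  have h1 := hor (S.erase r) hst (Finset.notMem_erase r S)
  push Not at hone
  obtain ⟨σ, hσ, hσr⟩ := hone
  have h2 : 0 < (S.erase r).card :=
    Finset.card_pos.mpr ⟨σ r, Finset.mem_erase.mpr ⟨hσr, hS σ hσ r h0⟩⟩
  have h3 := Nat.le_of_dvd h2 h1
  have h4 : S.card ≤ m + 1 := by
    have := Finset.card_le_univ S
    rwa [Fintype.card_fin] at this
  have h5 := Finset.card_erase_add_one h0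
  rw [← Finset.card_eq_iff_eq_univ, Fintype.card_fin]
  omega

theorem eq_alternating {n : ℕ} (G : Subgroup (Equiv.Perm (Fin n)))
    (hG : MulAction.IsPreprimitive G (Fin n)) (h3 : ∃ g ∈ G, g.IsThreeCycle)
    (hA : G ≤ alternatingGroup (Fin n)) : G = alternatingGroup (Fin n) := by
  obtain ⟨g, hg, hg3⟩ := h3
  exact le_antisymm hA
    (Equiv.Perm.alternatingGroup_le_of_isPreprimitive_of_isThreeCycle_mem hG hg3 hg)

end Pool.Agent.H35.AN
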