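import Pool.Agent.H35.AN.Defs

/-!
# AN-24: from the splitting field to `IsAltField`

If every finite Galois extension `L / k` which contains the `n` roots of `F` and is generated by
them has the Galois group `A_n` (on the indices of the roots), then each field `k(θ_i)` inside the
algebraic closure is a field of degree `n` whose Galois closure has the group `A_n` on the
embeddings, in the sense of the frozen statement.
-/

set_option autoImplicit false

open Polynomial IsDedekindDomain NumberField

namespace Pool.Agent.H35.AN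

theorem an24_alt_trans {n : ℕ} (hn : 3 ≤ n) (i j : Fin n) :
    ∃ g ∈ alternatingGroup (Fin n), g i = j := by
  by_cases hij : i = j
  · exact ⟨1, one_mem _, by simpa using hij⟩
  · obtain ⟨l, hl⟩ : ∃ l : Fin n, l ∉ ({i, j} : Finset (Fin n)) := by
      by_contra hcon
      push Not at hcon
      have h1 : (Finset.univ : Finset (Fin n)) ⊆ {i, j} := fun x _ => hcon x
      have h2 := Finset.card_le_card h1
      have h3 : ({i, j} : Finset (Fin n)).card ≤ 2 := Finset.card_le_two
      rw [Finset.card_univ, Fintype.card_fin] at h2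
      omega
    rw [Finset.mem_insert, Finset.mem_singleton, not_or] at hl
    refine ⟨Equiv.swap i j * Equiv.swap j l, ?_, ?_⟩
    · rw [Equiv.Perm.mem_alternatingGroup, map_mul, Equiv.Perm.sign_swap hij,
        Equiv.Perm.sign_swap (Ne.symm hl.2)]
      decide
    · rw [Equiv.Perm.mul_apply, Equiv.swap_apply_of_ne_of_ne hij (Ne.symm hl.1),
        Equiv.swap_apply_left]

section

variable {k : Type} [Field k] [NumberField k] {n : ℕ} {F : k[X]}
  (R : Roots k (AlgebraicClosure k) n F)

set_option linter.unusedSectionVars false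

/-- the field generated by all the roots -/
noncomputable def an24_L : IntermediateField k (AlgebraicClosure k) :=
  IntermediateField.adjoin k (Set.range R.θ)

theorem an24_mem (i : Fin n) : R.θ i ∈ an24_L R :=
  IntermediateField.subset_adjoin _ _ ⟨i, rfl⟩

include R in
theorem an24_ne : F ≠ 0 := by
  intro h
  exact R.lc_ne (by rw [h, leadingCoeff_zero])

theorem an24_rootSet : F.rootSet (AlgebraicClosure k) = Set.range R.θ := by
  ext x
  rw [Polynomial.mem_rootSet, ← eval_map_algebraMap]
  constructor
  · rintro ⟨-, hx⟩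
    obtain ⟨i, hi⟩ := R.exists_of_eval hx
    exact ⟨i, hi⟩
  · rintro ⟨i, rfl⟩
    exact ⟨an24_ne R, R.eval_root i⟩

instance an24_fin : FiniteDimensional k (an24_L R) := by
  have : Finite (Set.range R.θ) := Set.finite_range _
  exact IntermediateField.finiteDimensional_adjoin
    (fun x _ => (Algebra.IsAlgebraic.isAlgebraic (R := k) x).isIntegral)

instance an24_nf : NumberField (an24_L R) where
  to_charZero := inferInstance
  to_finiteDimensional := Module.Finite.trans (R := ℚ) k (an24_L R)

instance an24_normal : Normal k (an24_L R) := by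
  have : F.IsSplittingField k (an24_L R) := by
    unfold an24_L
    rw [← an24_rootSet R]
    exact IntermediateField.adjoin_rootSet_isSplittingField (IsAlgClosed.splits _)
  exact Normal.of_isSplittingField F

instance an24_galois : IsGalois k (an24_L R) where
  to_isSeparable := inferInstance
  to_normal := inferInstance

/-- the roots in `L` -/
noncomputable def an24_R : Roots k (an24_L R) n F where
  θ i := ⟨R.θ i, an24_mem R i⟩
  inj i j hij := R.inj (congrArg Subtype.val hij)
  lc_ne := R.lc_ne
  fac := by
    apply Polynomial.map_injective (algebraMap (an24_L R) (AlgebraicClosure k))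
      (FaithfulSMul.algebraMap_injective _ _)
    rw [Polynomial.map_map, ← IsScalarTower.algebraMap_eq, R.fac, Polynomial.map_mul,
      Polynomial.map_C, ← IsScalarTower.algebraMap_apply, Polynomial.map_prod]
    congr 1
    refine Finset.prod_congr rfl fun i _ => ?_
    rw [Polynomial.map_sub, Polynomial.map_X, Polynomial.map_C]
    rfl

theorem an24_R_val (i : Fin n) : ((an24_R R).θ i : AlgebraicClosure k) = R.θ i := rfl

theorem an24_gen : IntermediateField.adjoin k (Set.range (an24_R R).θ) = ⊤ := by
  apply IntermediateField.lift_injective (an24_L R)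
  rw [IntermediateField.lift_adjoin, IntermediateField.lift_top]
  have : Subtype.val '' Set.range (an24_R R).θ = Set.range R.θ := by
    rw [← Set.range_comp]
    rfl
  rw [this]
  rfl

/-- the field of one root -/
noncomputable abbrev an24_M (i : Fin n) : IntermediateField k (AlgebraicClosure k) :=
  IntermediateField.adjoin k {R.θ i}

/-- the generator of the field of one root -/
noncomputable def an24_g (i : Fin n) : an24_M R i :=
  ⟨R.θ i, IntermediateField.mem_adjoin_simple_self k (R.θ i)⟩

theorem an24_exists_idx (i : Fin n) (φ : an24_M R i →ₐ[k] AlgebraicClosure k) :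
    ∃ j, R.θ j = φ (an24_g R i) := by
  apply R.exists_of_eval
  have h0 : (F.map (algebraMap k (an24_M R i))).eval (an24_g R i) = 0 := by
    apply FaithfulSMul.algebraMap_injective (an24_M R i) (AlgebraicClosure k)
    rw [map_zero, eval_map_algebraMap, ← Polynomial.aeval_algebraMap_apply,
      ← eval_map_algebraMap]
    exact R.eval_root i
  rw [eval_map_algebraMap] at h0 ⊢
  rw [Polynomial.aeval_algHom_apply, h0, map_zero]

theorem an24_ext (i : Fin n) {φ ψ : an24_M R i →ₐ[k] AlgebraicClosure k}
    (h : φ (an24_g R i) = ψ (an24_g R i)) : φ = ψ := by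
  apply IntermediateField.adjoin_algHom_ext
  intro x hx
  rw [Set.mem_singleton_iff] at hx
  subst hx
  exact h

/-- the index of an embedding -/
noncomputable def an24_e (i : Fin n) (φ : an24_M R i →ₐ[k] AlgebraicClosure k) : Fin n :=
  (an24_exists_idx R i φ).choose

theorem an24_e_spec (i : Fin n) (φ : an24_M R i →ₐ[k] AlgebraicClosure k) :
    R.θ (an24_e R i φ) = φ (an24_g R i) := (an24_exists_idx R i φ).choose_spec

theorem an24_e_inj (i : Fin n) : Function.Injective (an24_e R i) := by
  intro φ ψ h
  apply an24_ext R i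
  rw [← an24_e_spec, ← an24_e_spec, h]

/-- a lift of an automorphism of `L` to the algebraic closure -/
theorem an24_lift (τ : an24_L R ≃ₐ[k] an24_L R) :
    ∃ σ : AlgebraicClosure k ≃ₐ[k] AlgebraicClosure k,
      ∀ j, σ (R.θ j) = R.θ ((an24_R R).permHom τ j) := by
  refine ⟨τ.liftNormal (AlgebraicClosure k), fun j => ?_⟩
  have h := AlgEquiv.liftNormal_commutes τ (AlgebraicClosure k) ((an24_R R).θ j)
  rw [(an24_R R).permHom_spec] at h
  exact h

/-- the restriction of an automorphism of the algebraic closure to `L` -/
theorem an24_restrict (σ : AlgebraicClosure k ≃ₐ[k] AlgebraicClosure k) :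
    ∃ τ : an24_L R ≃ₐ[k] an24_L R, ∀ j, σ (R.θ j) = R.θ ((an24_R R).permHom τ j) := by
  refine ⟨σ.restrictNormal (an24_L R), fun j => ?_⟩
  have h := AlgEquiv.restrictNormal_commutes σ (an24_L R) ((an24_R R).θ j)
  rw [(an24_R R).permHom_spec] at h
  exact h.symm

end

theorem transport (k : Type) [Field k] [NumberField k] {n : ℕ} (hn : 3 ≤ n) {F : k[X]}
    (R : Roots k (AlgebraicClosure k) n F)
    (hG : ∀ (L : Type) [Field L] [NumberField L] [Algebra k L] [IsGalois k L]
      (R' : Roots k L n F), IntermediateField.adjoin k (Set.range R'.θ) = ⊤ →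
        R'.permHom.range = alternatingGroup (Fin n)) (i : Fin n) :
    IsAltField k n (IntermediateField.adjoin k {R.θ i}) := by
  classical
  have hA : (an24_R R).permHom.range = alternatingGroup (Fin n) :=
    hG (an24_L R) (an24_R R) (an24_gen R)
  have hsurj : Function.Surjective (an24_e R i) := by
    intro j
    obtain ⟨g, hg, hgi⟩ := an24_alt_trans hn i j
    rw [← hA] at hg
    obtain ⟨τ, rfl⟩ := hg
    obtain ⟨σ, hσ⟩ := an24_lift R τ
    refine ⟨σ.toAlgHom.comp (an24_M R i).val, R.inj ?_⟩
    rw [an24_e_spec, ← hgi, ← hσ]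
    rfl
  let e : (an24_M R i →ₐ[k] AlgebraicClosure k) ≃ Fin n :=
    Equiv.ofBijective (an24_e R i) ⟨an24_e_inj R i, hsurj⟩
  have he : ∀ φ, R.θ (e φ) = φ (an24_g R i) := fun φ => an24_e_spec R i φ
  have : FiniteDimensional k (an24_M R i) :=
    IntermediateField.adjoin.finiteDimensional
      (Algebra.IsAlgebraic.isAlgebraic (R := k) (R.θ i)).isIntegral
  refine ⟨?_, e, fun π => ⟨fun hπ => ?_, ?_⟩⟩
  · have h1 := AlgHom.card k (an24_M R i) (AlgebraicClosure k)
    rw [← h1, Fintype.card_congr e, Fintype.card_fin]
  · rw [← hA] at hπ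
    obtain ⟨τ, rfl⟩ := hπ
    obtain ⟨σ, hσ⟩ := an24_lift R τ
    refine ⟨σ, fun φ => R.inj ?_⟩
    rw [he, ← hσ, he]
    rfl
  · rintro ⟨σ, hσ⟩
    obtain ⟨τ, hτ⟩ := an24_restrict R σ
    rw [← hA]
    refine ⟨τ, Equiv.ext fun j => ?_⟩
    obtain ⟨φ, rfl⟩ := e.surjective j
    apply R.inj
    rw [← hσ φ, ← hτ, he, he]
    rfl

end Pool.Agent.H35.AN
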