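import Pool.Agent.H35.AN.Even
import Pool.Agent.H35.AN.Basic

/-!
# AN-9: the discriminant of the first family is a square
-/

set_option autoImplicit false

open Polynomial IsDedekindDomain NumberField

namespace Pool.Agent.H35.AN

variable {k : Type*} [Field k] [CharZero k]

/-- the final computation -/
theorem an9_alg {L : Type*} [Field L] [CharZero L] {h : ℕ} (hh : 2 ≤ h) {A B D W Θ P : L}
    (hB : B ≠ 0)
    (hW : W = -(8 * h * (2 * h - 1) ^ (2 * h - 1)))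
    (hΘ : Θ * B ^ 2 = (dd1 h : L) * A ^ 2)
    (hP : P * ((2 * h - 1) * B ^ 2) = 2 * (B ^ 2 - (dd1 h : L) * A ^ 2))
    (h1 : ((2 * h - 1) * B ^ 2) ^ (2 * h + 1) * (-1) ^ ((2 * h + 1) * (2 * h + 1 - 1) / 2) * D * W =
      -((B ^ 2 * ((2 * h + 1) * (2 * h) * (2 * h - 1))) ^ (2 * h + 1) * Θ ^ (2 * h - 1) * P ^ 2)) :
    D = ((2 * h + 1) ^ (2 * h) * (2 * h) ^ h * (A / B) ^ (2 * h - 1) *
      ((B ^ 2 - (dd1 h : L) * A ^ 2) / ((2 * h - 1) * B ^ 2))) ^ 2 := by
  have hs0 : (2 * (h : L) - 1) ≠ 0 := by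
    have : ((2 * h - 1 : ℕ) : L) ≠ 0 := by exact_mod_cast (by omega : 2 * h - 1 ≠ 0)
    rwa [Nat.cast_sub (by omega), Nat.cast_mul, Nat.cast_two, Nat.cast_one] at this
  have ht0 : (2 * (h : L) + 1) ≠ 0 := by exact_mod_cast (by omega : 2 * h + 1 ≠ 0)
  have hu0 : (2 * (h : L)) ≠ 0 := by exact_mod_cast (by omega : 2 * h ≠ 0)
  set s : L := 2 * (h : L) - 1 with hs
  set t : L := 2 * (h : L) + 1 with ht
  set u : L := 2 * (h : L) with hu
  set ε : L := (-1) ^ h with hε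
  have hε2 : ε * ε = 1 := by rw [hε, ← mul_pow]; simp
  have hd : (dd1 h : L) = ε * (t * s) := by
    unfold dd1
    push_cast
    rw [hε, ht, hs]
  have hsign : (-1 : L) ^ ((2 * h + 1) * (2 * h + 1 - 1) / 2) = ε := by
    have : (2 * h + 1) * (2 * h + 1 - 1) / 2 = h + 2 * (h * h) := by
      rw [Nat.add_sub_cancel]
      rw [show (2 * h + 1) * (2 * h) = 2 * (h + 2 * (h * h)) by ring]
      exact Nat.mul_div_cancel_left _ two_pos
    rw [this, pow_add, pow_mul]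
    simp [hε]
  have hPP : P = 2 * ((B ^ 2 - (dd1 h : L) * A ^ 2) / (s * B ^ 2)) := by
    rw [← mul_div_assoc, ← hP]
    field_simp
  have hΘ' : Θ = (dd1 h : L) * (A / B) ^ 2 := by
    rw [div_pow, ← mul_div_assoc, ← hΘ]
    field_simp
  set Y := (B ^ 2 - (dd1 h : L) * A ^ 2) / (s * B ^ 2) with hY
  set z := A / B with hz
  obtain ⟨m, rfl⟩ : ∃ m, h = m + 1 := ⟨h - 1, by omega⟩
  have e1 : 2 * (m + 1) - 1 = 2 * m + 1 := by omega
  rw [e1] at h1 hW ⊢
  rw [hsign, hW, hPP, hΘ', hd] at h1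
  have h8 : (8 * ((m + 1 : ℕ) : L)) = 4 * u := by rw [hu]; ring
  rw [h8] at h1
  have hne : (s * B ^ 2) ^ (2 * (m + 1) + 1) * ε * (-(4 * u * s ^ (2 * m + 1))) ≠ 0 := by
    have hε0 : ε ≠ 0 := left_ne_zero_of_mul_eq_one hε2
    have : (4 : L) ≠ 0 := by norm_num
    refine mul_ne_zero (mul_ne_zero (by positivity) hε0) (neg_ne_zero.2 ?_)
    exact mul_ne_zero (mul_ne_zero this hu0) (pow_ne_zero _ hs0)
  refine mul_left_cancel₀ hne ?_
  have hεp : ε ^ (2 * m + 1) = ε := by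
    rw [pow_succ, pow_mul, sq, hε2, one_pow, one_mul]
  calc _ = (s * B ^ 2) ^ (2 * (m + 1) + 1) * ε * D * (-(4 * u * s ^ (2 * m + 1))) := by ring
    _ = _ := h1
    _ = _ := by
      have e3 : (ε * (t * s) * z ^ 2) ^ (2 * m + 1) = ε * (t * s * z ^ 2) ^ (2 * m + 1) := by
        rw [mul_assoc, mul_pow, hεp]
      rw [e3]
      ring_nf

theorem disc_sq1 {L : Type*} [Field L] [Algebra k L] {h : ℕ} (hh : 2 ≤ h) {a b : k} (ha : a ≠ 0)
    (hb : b ≠ 0) (R : Roots k L (2 * h + 1) (F1 h a b)) :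
    ∃ q : k, (algebraMap k L) (q ^ 2) = ∏ i, ∏ j ∈ Finset.Ioi i, (R.θ j - R.θ i) ^ 2 := by
  have _ := ha
  have : CharZero L := charZero_of_injective_algebraMap (algebraMap k L).injective
  set A : L := algebraMap k L a with hA
  set B : L := algebraMap k L b with hB
  have hB0 : B ≠ 0 := by rw [hB, Ne, map_eq_zero]; exact hb
  have hlc : algebraMap k L (F1 h a b).leadingCoeff = (2 * h - 1) * B ^ 2 := by
    rw [(F1_natDegree hh a hb).2]
    simp [hB, map_ofNat]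
  have hs0 : (2 * (h : L) - 1) ≠ 0 := by
    have : ((2 * h - 1 : ℕ) : L) ≠ 0 := by exact_mod_cast (by omega : 2 * h - 1 ≠ 0)
    rwa [Nat.cast_sub (by omega), Nat.cast_mul, Nat.cast_two, Nat.cast_one] at this
  have ht0 : (2 * (h : L) + 1) ≠ 0 := by exact_mod_cast (by omega : 2 * h + 1 ≠ 0)
  have hlc0 : (2 * (h : L) - 1) * B ^ 2 ≠ 0 := mul_ne_zero hs0 (pow_ne_zero _ hB0)
  -- the value of the polynomial as a product
  have hev : ∀ x : L, ev1 h A B x = (2 * h - 1) * B ^ 2 * ∏ i, (x - R.θ i) := by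
    intro x
    rw [← hlc, ← R.eval_eq, F1_eval]
  have hone : (-1 : L) ^ (2 * h + 1) = -1 := by rw [pow_succ, pow_mul]; simp
  have hodd : ∀ x : L, (∏ i, (x - R.θ i)) = -∏ i, (R.θ i - x) := by
    intro x
    have : ∀ i, x - R.θ i = -1 * (R.θ i - x) := fun i => by ring
    simp only [this]
    rw [Finset.prod_mul_distrib, Finset.prod_const, Finset.card_univ, Fintype.card_fin,
      hone, neg_one_mul]
  set D := ∏ i, ∏ j ∈ Finset.Ioi i, (R.θ j - R.θ i) ^ 2 with hD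
  set W : L := ∏ i, ((2 * (h : L) - 1) - (2 * h + 1) * R.θ i) with hW
  set Θ : L := ∏ i, R.θ i with hΘ
  set P : L := ∏ i, (R.θ i - 1) with hP
  have hΘ1 : Θ * B ^ 2 = (dd1 h : L) * A ^ 2 := by
    have h1 := hev 0
    rw [hodd 0] at h1
    simp only [sub_zero] at h1
    have h2 : ev1 h A B 0 = -((2 * h - 1) * ((dd1 h : L) * A ^ 2)) := by
      have : (0 : L) ^ (2 * h) = 0 := zero_pow (by omega)
      simp only [ev1, this]
      ring
    rw [h2] at h1
    have h3 : (2 * (h : L) - 1) * (Θ * B ^ 2) = (2 * (h : L) - 1) * ((dd1 h : L) * A ^ 2) := by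
      rw [← hΘ] at h1
      linear_combination h1
    exact mul_left_cancel₀ hs0 h3
  have hP1 : P * ((2 * h - 1) * B ^ 2) = 2 * (B ^ 2 - (dd1 h : L) * A ^ 2) := by
    have h1 := hev 1
    rw [hodd 1] at h1
    have h2 : ev1 h A B 1 = -(2 * (B ^ 2 - (dd1 h : L) * A ^ 2)) := by
      simp only [ev1, one_pow]
      ring
    rw [h2, ← hP] at h1
    linear_combination h1
  have hW1 : W = -(8 * h * (2 * h - 1) ^ (2 * h - 1)) := by
    set ρ : L := (2 * h - 1) / (2 * h + 1) with hρ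
    have h1 := hev ρ
    have h2 : W = (2 * h + 1) ^ (2 * h + 1) * ∏ i, (ρ - R.θ i) := by
      have : ∀ i, (2 * (h : L) - 1) - (2 * h + 1) * R.θ i = (2 * h + 1) * (ρ - R.θ i) := fun i => by
        rw [hρ, mul_sub, mul_div_cancel₀ _ ht0]
      rw [hW]
      simp only [this]
      rw [Finset.prod_mul_distrib, Finset.prod_const, Finset.card_univ, Fintype.card_fin]
    have h3 : ev1 h A B ρ * (2 * h + 1) = -(8 * h * B ^ 2 * ρ ^ (2 * h)) := by
      have e1 : (2 * (h : L) + 1) * ρ = 2 * h - 1 := by rw [hρ, mul_div_cancel₀ _ ht0]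
      have e2 : ((2 * (h : L) - 1) * ρ - (2 * h + 1)) * (2 * h + 1) = -(8 * h) := by
        linear_combination (2 * (h : L) - 1) * e1
      simp only [ev1, e1, sub_self, mul_zero, add_zero]
      linear_combination (B ^ 2 * ρ ^ (2 * h)) * e2
    have h4 : (2 * (h : L) + 1) ^ (2 * h) * ρ ^ (2 * h) = (2 * h - 1) ^ (2 * h) := by
      rw [← mul_pow, hρ, mul_div_cancel₀ _ ht0]
    have h5 : (2 * (h : L) - 1) * B ^ 2 * W =
        (2 * (h : L) - 1) * B ^ 2 * -(8 * h * (2 * h - 1) ^ (2 * h - 1)) := by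
      have e3 : (2 * (h : L) - 1) ^ (2 * h) = (2 * h - 1) * (2 * h - 1) ^ (2 * h - 1) := by
        rw [← pow_succ', Nat.sub_add_cancel (by omega)]
      calc (2 * (h : L) - 1) * B ^ 2 * W = (2 * h + 1) ^ (2 * h) * (ev1 h A B ρ * (2 * h + 1)) := by
            rw [h2, h1]
            ring
        _ = -(8 * h * B ^ 2 * ((2 * (h : L) + 1) ^ (2 * h) * ρ ^ (2 * h))) := by rw [h3]; ring
        _ = _ := by rw [h4, e3]; ring
    exact mul_left_cancel₀ hlc0 h5
  -- the derivative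
  have hder : (∏ i, ((F1 h a b).derivative.map (algebraMap k L)).eval (R.θ i)) * W =
      -((B ^ 2 * ((2 * h + 1) * (2 * h) * (2 * h - 1))) ^ (2 * h + 1) * Θ ^ (2 * h - 1) * P ^ 2) := by
    rw [hW, ← Finset.prod_mul_distrib]
    have h1 : ∀ i, ((F1 h a b).derivative.map (algebraMap k L)).eval (R.θ i) *
        ((2 * (h : L) - 1) - (2 * h + 1) * R.θ i) =
        (-1 * (B ^ 2 * ((2 * h + 1) * (2 * h) * (2 * h - 1)))) *
          ((R.θ i) ^ (2 * h - 1) * (R.θ i - 1) ^ 2) := by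
      intro i
      have hx : ev1 h (algebraMap k L a) (algebraMap k L b) (R.θ i) = 0 := by
        rw [← F1_eval, R.eval_root]
      rw [F1_deriv (algebraMap k L) hh a b hx]
      ring
    simp only [h1]
    rw [Finset.prod_mul_distrib, Finset.prod_const, Finset.card_univ, Fintype.card_fin,
      Finset.prod_mul_distrib, Finset.prod_pow, Finset.prod_pow, mul_pow, ← hΘ, ← hP]
    rw [hone]
    ring
  have hpd := prod_deriv R
  rw [hlc, ← hD] at hpd
  rw [hpd] at hder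
  have hfin := an9_alg hh hB0 hW1 hΘ1 hP1 hder
  refine ⟨(2 * h + 1) ^ (2 * h) * (2 * h) ^ h * (a / b) ^ (2 * h - 1) *
      ((b ^ 2 - (dd1 h : k) * a ^ 2) / ((2 * h - 1) * b ^ 2)), ?_⟩
  rw [hfin]
  simp [hA, hB, map_ofNat]

end Pool.Agent.H35.AN
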