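import Pool.Agent.H35.AN.Even

/-!
# AN-10: the discriminant of the second family is a square (MP_a3214d_nt)
-/

set_option autoImplicit false

open Polynomial IsDedekindDomain NumberField

namespace Pool.Agent.H35.AN

theorem an10_eval {R S : Type*} [CommRing R] [CommRing S] (f : R →+* S) (h : ℕ) (a b : R) (x : S) :
    ((F2 h a b).map f).eval x = ev2 h (f a) (f b) x := by
  simp [F2, ev2, map_ofNat]

theorem an10_poly {R : Type*} [CommRing R] {h : ℕ} (hh : 2 ≤ h) (a b : R) :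
    (F2 h a b).derivative =
      C (b ^ 2 * (2 * h * (h + 1) * (2 * h + 1))) * X ^ (2 * h - 1) * (X - 1) ^ 2 := by
  obtain ⟨m, rfl⟩ : ∃ m, h = m + 1 := ⟨h - 1, by omega⟩
  rw [show 2 * (m + 1) - 1 = 2 * m + 1 from rfl]
  unfold F2
  rw [show 2 * (m + 1) = (2 * m + 1) + 1 by ring]
  simp only [derivative_sub, derivative_add, derivative_mul, derivative_C, derivative_X_pow,
    derivative_X, zero_mul, zero_add, mul_one, add_zero, sub_zero, Nat.add_sub_cancel]
  simp only [map_mul, map_add, map_pow, map_natCast, map_ofNat, map_one]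
  push_cast
  ring

theorem an10_deriv {R S : Type*} [CommRing R] [CommRing S] (f : R →+* S) {h : ℕ} (hh : 2 ≤ h)
    (a b : R) (x : S) :
    ((F2 h a b).derivative.map f).eval x =
      (f b) ^ 2 * (2 * h * (h + 1) * (2 * h + 1)) * x ^ (2 * h - 1) * (x - 1) ^ 2 := by
  rw [an10_poly hh]
  simp [map_ofNat]

theorem an10_lc {k : Type*} [Field k] [CharZero k] {h : ℕ} (hh : 2 ≤ h) (a : k) {b : k}
    (hb : b ≠ 0) : (F2 h a b).leadingCoeff = h * (2 * h + 1) * b ^ 2 := by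
  have hh0 : (h : k) ≠ 0 := Nat.cast_ne_zero.2 (by omega)
  have hh1 : (2 * (h : k) + 1) ≠ 0 := by exact_mod_cast Nat.succ_ne_zero (2 * h)
  have h0 : (h : k) * (2 * h + 1) * b ^ 2 ≠ 0 := mul_ne_zero (mul_ne_zero hh0 hh1) (pow_ne_zero 2 hb)
  have h1 : F2 h a b = (C (-(b ^ 2 * (4 * (h : k) * (h + 1)))) * X ^ (2 * h + 1) +
      C (b ^ 2 * (((h : k) + 1) * (2 * h + 1))) * X ^ (2 * h) - C ((dd2 h : k) * a ^ 2)) +
      C ((h : k) * (2 * h + 1) * b ^ 2) * X ^ (2 * h + 2) := by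
    unfold F2
    simp only [map_mul, map_add, map_pow, map_natCast, map_ofNat, map_one, map_neg]
    ring
  have h2 : (C (-(b ^ 2 * (4 * (h : k) * (h + 1)))) * X ^ (2 * h + 1) +
      C (b ^ 2 * (((h : k) + 1) * (2 * h + 1))) * X ^ (2 * h) - C ((dd2 h : k) * a ^ 2)).degree <
      (C ((h : k) * (2 * h + 1) * b ^ 2) * X ^ (2 * h + 2)).degree := by
    rw [degree_C_mul_X_pow _ h0]
    refine lt_of_le_of_lt (degree_sub_le _ _) (max_lt (lt_of_le_of_lt (degree_add_le _ _)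
      (max_lt ?_ ?_)) ?_)
    · refine lt_of_le_of_lt (degree_C_mul_X_pow_le _ _) ?_
      exact_mod_cast Nat.lt_succ_self (2 * h + 1)
    · refine lt_of_le_of_lt (degree_C_mul_X_pow_le _ _) ?_
      exact_mod_cast (by omega : 2 * h < 2 * h + 2)
    · refine lt_of_le_of_lt degree_C_le ?_
      exact_mod_cast (by omega : 0 < 2 * h + 2)
  rw [h1, leadingCoeff_add_of_degree_lt h2, leadingCoeff_C_mul_X_pow]

section Disc

variable {k : Type*} [Field k] [CharZero k]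

theorem an10_sign (h : ℕ) : (-1 : k) ^ ((2 * h + 2) * (2 * h + 2 - 1) / 2) = -(-1) ^ h := by
  have h1 : (2 * h + 2) * (2 * h + 2 - 1) / 2 = (h + 1) * (2 * h) + (h + 1) := by
    have h2 : (2 * h + 2) * (2 * h + 2 - 1) = 2 * ((h + 1) * (2 * h) + (h + 1)) := by
      rw [show 2 * h + 2 - 1 = 2 * h + 1 from rfl]
      ring
    rw [h2, Nat.mul_div_cancel_left _ (by norm_num)]
  rw [h1, pow_add, show (h + 1) * (2 * h) = 2 * ((h + 1) * h) by ring, pow_mul (-1 : k) 2]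
  rw [neg_one_sq, one_pow, one_mul, pow_succ]
  ring

theorem an10_even {L : Type*} [Field L] (h : ℕ) : (-1 : L) ^ (2 * h + 2) = 1 := by
  rw [show 2 * h + 2 = 2 * (h + 1) by ring, pow_mul, neg_one_sq, one_pow]

/-- the computation in the base field -/
theorem an10_square {h : ℕ} (hh : 2 ≤ h) {a b κ p1 lc : k} (hb : b ≠ 0) (hlc : lc ≠ 0) :
    ((b ^ 2 * κ) ^ (h + 1) * (-(-1) ^ h * (a / b) ^ 2) ^ (h - 1) * (a / b) * p1 /
        lc ^ (h + 1)) ^ 2 * (lc ^ (2 * h + 2) * -(-1) ^ h) =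
      (b ^ 2 * κ) ^ (2 * h + 2) * (-(-1) ^ h * (a / b) ^ 2) ^ (2 * h - 1) * p1 ^ 2 := by
  obtain ⟨m, rfl⟩ : ∃ m, h = m + 1 := ⟨h - 1, by omega⟩
  have h1 : ((-1 : k) ^ (m + 1)) * (-1) ^ (m + 1) = 1 := by
    rw [← mul_pow]; norm_num
  set s : k := (-1) ^ (m + 1) with hs
  set c : k := a / b with hc
  set g : k := b ^ 2 * κ with hg
  rw [show m + 1 - 1 = m from rfl, show 2 * (m + 1) - 1 = 2 * m + 1 from rfl]
  have h3 : lc ^ (2 * (m + 1) + 2) = (lc ^ (m + 1 + 1)) ^ 2 := by rw [← pow_mul]; congr 1; ring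
  have h4 : g ^ (2 * (m + 1) + 2) = (g ^ (m + 1 + 1)) ^ 2 := by rw [← pow_mul]; congr 1; ring
  have h5 : (-s * c ^ 2) ^ (2 * m + 1) = ((-s * c ^ 2) ^ m) ^ 2 * (-s * c ^ 2) := by
    rw [pow_succ, pow_mul']
  have h6 : lc ^ (m + 1 + 1) ≠ 0 := pow_ne_zero _ hlc
  rw [h3, h4, h5]
  field_simp

theorem disc_sq2 {L : Type*} [Field L] [Algebra k L] {h : ℕ} (hh : 2 ≤ h) {a b : k} (ha : a ≠ 0)
    (hb : b ≠ 0) (R : Roots k L (2 * h + 2) (F2 h a b)) :
    ∃ q : k, (algebraMap k L) (q ^ 2) = ∏ i, ∏ j ∈ Finset.Ioi i, (R.θ j - R.θ i) ^ 2 := by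
  haveI : CharZero L := charZero_of_injective_algebraMap (algebraMap k L).injective
  set f := algebraMap k L with hf
  have hlc := an10_lc hh a hb
  set lc : k := (F2 h a b).leadingCoeff with hlcdef
  have hlc0 : lc ≠ 0 := R.lc_ne
  have hh0 : (h : k) ≠ 0 := Nat.cast_ne_zero.2 (by omega)
  have hh1 : (2 * (h : k) + 1) ≠ 0 := by exact_mod_cast Nat.succ_ne_zero (2 * h)
  -- the value at `0`
  have e0 : f lc * ∏ i, R.θ i = f (-((dd2 h : ℤ) : k) * a ^ 2) := by
    have h1 := R.eval_eq 0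
    rw [an10_eval] at h1
    have h2 : ∏ i, (0 - R.θ i) = ∏ i, R.θ i := by
      rw [Finset.prod_congr rfl (fun i _ => show (0 - R.θ i) = (-1) * R.θ i by ring),
        Finset.prod_mul_distrib, Finset.prod_const, Finset.card_univ, Fintype.card_fin,
        an10_even, one_mul]
    rw [h2] at h1
    rw [← hf, ← hlcdef] at h1
    rw [← h1, ev2, zero_pow (by omega)]
    simp
  have e1 : ∏ i, R.θ i = f (-(-1) ^ h * (a / b) ^ 2) := by
    have h1 : f lc ≠ 0 := by rw [Ne, map_eq_zero]; exact hlc0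
    apply mul_left_cancel₀ h1
    rw [e0, ← map_mul]
    congr 1
    rw [hlc, dd2]
    push_cast
    field_simp
  -- the value at `1`
  obtain ⟨p1, e2⟩ : ∃ p1 : k, ∏ i, (R.θ i - 1) = f p1 := by
    refine ⟨ev2 h a b 1 / lc, ?_⟩
    have h1 := R.eval_eq 1
    rw [an10_eval] at h1
    have h2 : ∏ i, (1 - R.θ i) = ∏ i, (R.θ i - 1) := by
      rw [Finset.prod_congr rfl (fun i _ => show (1 - R.θ i) = (-1) * (R.θ i - 1) by ring),
        Finset.prod_mul_distrib, Finset.prod_const, Finset.card_univ, Fintype.card_fin,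
        an10_even, one_mul]
    rw [h2, ← hf, ← hlcdef] at h1
    have h3 : f lc ≠ 0 := by rw [Ne, map_eq_zero]; exact hlc0
    rw [map_div₀, eq_div_iff h3, mul_comm, ← h1]
    simp only [ev2, map_sub, map_mul, map_add, map_pow, map_one, map_natCast, map_intCast,
      map_ofNat]
  have h7 := prod_deriv R
  have h8 : ∏ i, (((F2 h a b).derivative.map f).eval (R.θ i)) =
      f ((b ^ 2 * (2 * h * (h + 1) * (2 * h + 1))) ^ (2 * h + 2) *
        (-(-1) ^ h * (a / b) ^ 2) ^ (2 * h - 1) * p1 ^ 2) := by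
    rw [Finset.prod_congr rfl (fun i _ => an10_deriv f hh a b (R.θ i)), Finset.prod_mul_distrib,
      Finset.prod_mul_distrib, Finset.prod_const, Finset.prod_pow, Finset.prod_pow, e1, e2,
      Finset.card_univ, Fintype.card_fin]
    simp only [map_mul, map_pow, map_add, map_one, map_natCast, map_ofNat]
  rw [← hf, ← hlcdef, h8] at h7
  refine ⟨(b ^ 2 * (2 * h * (h + 1) * (2 * h + 1))) ^ (h + 1) *
    (-(-1) ^ h * (a / b) ^ 2) ^ (h - 1) * (a / b) * p1 / lc ^ (h + 1), ?_⟩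
  have h9 : f (lc ^ (2 * h + 2) * -(-1) ^ h) ≠ 0 := by
    rw [Ne, map_eq_zero]
    exact mul_ne_zero (pow_ne_zero _ hlc0) (neg_ne_zero.2 (pow_ne_zero _ (by norm_num)))
  apply mul_right_cancel₀ h9
  rw [← map_mul, an10_square hh hb hlc0, h7]
  have h10 : (-1 : L) ^ ((2 * h + 2) * (2 * h + 2 - 1) / 2) = f (-(-1) ^ h) := by
    rw [← an10_sign, map_pow, map_neg, map_one]
  rw [h10, map_mul, map_pow]
  ring

end Disc

end Pool.Agent.H35.AN
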