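import Pool.Agent.H35.AN.Defs

/-!
# Project AN, row AN-7: a square discriminant gives even permutations
-/

set_option autoImplicit false

open Polynomial IsDedekindDomain NumberField

namespace Pool.Agent.H35.AN

section Even

variable {k L : Type*} [Field k] [Field L] [Algebra k L] [CharZero L] {n : ℕ} {F : k[X]}
  (R : Roots k L n F)

theorem even_of_sq (q : k)
    (hq : (algebraMap k L) (q ^ 2) = ∏ i, ∏ j ∈ Finset.Ioi i, (R.θ j - R.θ i) ^ 2) :
    R.permHom.range ≤ alternatingGroup (Fin n) := by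
  rintro π ⟨σ, rfl⟩
  rw [Equiv.Perm.mem_alternatingGroup]
  set δ : L := (Matrix.vandermonde R.θ).det with hδ
  have hδ0 : δ ≠ 0 := Matrix.det_vandermonde_ne_zero_iff.mpr R.inj
  have h1 : δ ^ 2 = (algebraMap k L q) ^ 2 := by
    rw [← map_pow, hq, hδ, Matrix.det_vandermonde, ← Finset.prod_pow]
    exact Finset.prod_congr rfl fun i _ => (Finset.prod_pow _ _ _).symm
  have h2 : σ δ = δ := by
    rcases sq_eq_sq_iff_eq_or_eq_neg.mp h1 with h | h
    · rw [h, AlgEquiv.commutes]
    · rw [h, map_neg, AlgEquiv.commutes]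
  have h3 : σ δ = ((Equiv.Perm.sign (R.permHom σ) : ℤ) : L) * δ := by
    rw [hδ, ← Matrix.det_permute, AlgEquiv.map_det]
    congr 1
    ext i j
    simp only [AlgEquiv.mapMatrix_apply, Matrix.map_apply, Matrix.vandermonde_apply,
      Matrix.submatrix_apply, map_pow, id_eq]
    congr 1
    exact R.permHom_spec σ i
  rw [h2] at h3
  have h4 : ((Equiv.Perm.sign (R.permHom σ) : ℤ) : L) = 1 := by
    have h5 : 1 * δ = ((Equiv.Perm.sign (R.permHom σ) : ℤ) : L) * δ := by rw [one_mul]; exact h3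
    exact (mul_right_cancel₀ hδ0 h5).symm
  have h6 : (Equiv.Perm.sign (R.permHom σ) : ℤ) = 1 := by exact_mod_cast h4
  exact Units.ext h6

/-- product of the derivative values -/
theorem prod_deriv :
    ∏ i, (F.derivative.map (algebraMap k L)).eval (R.θ i) =
      (algebraMap k L F.leadingCoeff) ^ n * (-1) ^ (n * (n - 1) / 2) *
        ∏ i, ∏ j ∈ Finset.Ioi i, (R.θ j - R.θ i) ^ 2 := by
  have h1 : ∀ i, (F.derivative.map (algebraMap k L)).eval (R.θ i) =
      algebraMap k L F.leadingCoeff * ∏ j ∈ ({i}ᶜ : Finset (Fin n)), (R.θ i - R.θ j) := by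
    intro i
    rw [← derivative_map, R.fac, derivative_C_mul, eval_mul, eval_C]
    congr 1
    have h2 := Lagrange.eval_nodal_derivative_eval_node_eq (v := R.θ) (Finset.mem_univ i)
    unfold Lagrange.nodal at h2
    rw [h2, eval_prod]
    rw [← Finset.compl_singleton i]
    exact Finset.prod_congr rfl fun j _ => by simp
  rw [Finset.prod_congr rfl fun i _ => h1 i, Finset.prod_mul_distrib, Finset.prod_const,
    Finset.card_univ, Fintype.card_fin, mul_assoc]
  congr 1
  have h3 := Finset.prod_prod_Ioi_mul_eq_prod_prod_off_diag (fun j i : Fin n => R.θ i - R.θ j)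
  rw [← h3]
  have h4 : ∀ i : Fin n, ∏ j ∈ Finset.Ioi i, (R.θ i - R.θ j) * (R.θ j - R.θ i) =
      (-1) ^ (n - 1 - (i : ℕ)) * ∏ j ∈ Finset.Ioi i, (R.θ j - R.θ i) ^ 2 := by
    intro i
    rw [← Fin.card_Ioi i, ← Finset.prod_const, ← Finset.prod_mul_distrib]
    exact Finset.prod_congr rfl fun j _ => by ring
  rw [Finset.prod_congr rfl fun i _ => h4 i, Finset.prod_mul_distrib]
  congr 1
  rw [Finset.prod_pow_eq_pow_sum]
  congr 1
  rw [← Finset.sum_range_id, ← Finset.sum_range_reflect,
    ← Fin.sum_univ_eq_sum_range (fun j => n - 1 - j) n]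

end Even

end Pool.Agent.H35.AN
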