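import Pool.Agent.H35.AN.DiscLe

/-!
# Project AN, row 21: the discriminant bound for the first family

The family `1`, `(2h-1)^h b x^j` (`1 ≤ j ≤ h`), `b² x^j ((2h-1) x - (2h+1)) / a`
(`h ≤ j ≤ 2h - 1`) is integral, independent over `k` and has small conjugates.
-/

set_option autoImplicit false

open Polynomial IsDedekindDomain NumberField

namespace Pool.Agent.H35.AN

/-- integrality from all the valuations -/
theorem an21_isIntegral {K : Type*} [Field K] [NumberField K] {x : K}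
    (hx : ∀ P : HeightOneSpectrum (𝓞 K), P.valuation K x ≤ 1) : IsIntegral ℤ x := by
  obtain ⟨y, rfl⟩ := HeightOneSpectrum.mem_integers_of_valuation_le_one K x hx
  exact y.2

/-- polynomials of degrees `0, 1, .., n - 1` in a primitive element are independent -/
theorem an21_linInd {k K : Type*} [Field k] [Field K] [Algebra k K] [FiniteDimensional k K]
    {n : ℕ} {x : K} (hn : Module.finrank k K = n)
    (hgen : IntermediateField.adjoin k {x} = ⊤) (p : Fin n → k[X])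
    (hp : ∀ i, (p i).degree = (i : ℕ)) :
    LinearIndependent k (fun i => aeval x (p i)) := by
  have hmin : (minpoly k x).natDegree = n := by
    rw [← hn]
    exact (Field.primitive_element_iff_minpoly_natDegree_eq (F := k) (E := K) x).mp hgen
  rw [Fintype.linearIndependent_iff]
  intro c hc
  -- the polynomial vanishes
  have h0 : ∑ i, C (c i) * p i = 0 := by
    by_contra hne
    have hroot : aeval x (∑ i, C (c i) * p i) = 0 := by
      rw [map_sum, ← hc]
      refine Finset.sum_congr rfl fun i _ => ?_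
      rw [map_mul, aeval_C, Algebra.smul_def]
    have h1 := minpoly.degree_le_of_ne_zero k x hne hroot
    have h2 : (∑ i, C (c i) * p i).degree < (n : ℕ) := by
      refine (degree_sum_le _ _).trans_lt ?_
      rw [Finset.sup_lt_iff (by exact WithBot.bot_lt_coe n)]
      intro i _
      refine (degree_mul_le _ _).trans_lt ?_
      rw [hp i]
      calc (C (c i)).degree + ((i : ℕ) : WithBot ℕ) ≤ 0 + ((i : ℕ) : WithBot ℕ) := by
            gcongr; exact degree_C_le
        _ = ((i : ℕ) : WithBot ℕ) := zero_add _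
        _ < (n : ℕ) := by exact_mod_cast i.2
    have h3 : (minpoly k x).degree = (n : ℕ) := by
      rw [degree_eq_natDegree (minpoly.ne_zero (IsIntegral.of_finite k x)), hmin]
    rw [h3] at h1
    exact absurd h2 (not_lt.mpr h1)
  -- downward induction on the coefficients
  classical
  by_contra hcon
  push_neg at hcon
  obtain ⟨i0, hi0⟩ := hcon
  obtain ⟨i, hi, hmax⟩ := Finset.exists_max_image (Finset.univ.filter fun i => c i ≠ 0)
    (fun i : Fin n => (i : ℕ)) ⟨i0, by simp [hi0]⟩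
  have hci : c i ≠ 0 := by simpa using hi
  have hcoef : (∑ j, C (c j) * p j).coeff i = c i * (p i).coeff i := by
    rw [finset_sum_coeff, Finset.sum_eq_single i]
    · rw [coeff_C_mul]
    · intro j _ hj
      rw [coeff_C_mul]
      by_cases hcj : c j = 0
      · rw [hcj, zero_mul]
      · have hle : (j : ℕ) ≤ i := hmax j (by simp [hcj])
        have hlt : (j : ℕ) < i := lt_of_le_of_ne hle (fun h => hj (Fin.ext h))
        rw [coeff_eq_zero_of_degree_lt, mul_zero]
        rw [hp j]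
        exact_mod_cast hlt
    · simp
  rw [h0, coeff_zero] at hcoef
  have hpi : (p i).coeff i ≠ 0 := by
    have hnd : (p i).natDegree = i := natDegree_eq_of_degree_eq_some (hp i)
    have : (p i).leadingCoeff ≠ 0 := by
      rw [Ne, leadingCoeff_eq_zero]
      intro h
      have := hp i
      rw [h, degree_zero] at this
      exact absurd this (WithBot.bot_ne_coe)
    rwa [leadingCoeff, hnd] at this
  exact mul_ne_zero hci hpi hcoef.symm

/-! ### valuations -/

section Val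

variable {K Γ : Type*} [Field K] [LinearOrderedCommGroupWithZero Γ] (v : Valuation K Γ)

theorem an21_val_of_le {h : ℕ} {a b x : K} (ha0 : a ≠ 0)
    (hb : v b ≤ 1) (hZ : ∀ m : ℤ, v (m : K) ≤ 1)
    (hx : ev1 h a b x = 0) (hx1 : v x ≤ 1) :
    (∀ j, v ((2 * h - 1) ^ h * b * x ^ j) ≤ 1) ∧
    ∀ j, h ≤ j → v (b ^ 2 / a * x ^ j * ((2 * h - 1) * x - (2 * h + 1))) ≤ 1 := by
  have hc : v ((2 * h - 1 : K)) ≤ 1 := by
    have := hZ (2 * h - 1); push_cast at this; exact this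
  have hc' : v ((2 * h + 1 : K)) ≤ 1 := by
    have := hZ (2 * h + 1); push_cast at this; exact this
  have hd : v ((dd1 h : ℤ) : K) ≤ 1 := hZ _
  have hu : v ((2 * h - 1) * x - (2 * h + 1)) ≤ 1 :=
    v.map_sub_le (by rw [map_mul]; exact mul_le_one' hc hx1) hc'
  have hB : v ((2 * h + 1) * x - (2 * h - 1)) ≤ 1 :=
    v.map_sub_le (by rw [map_mul]; exact mul_le_one' hc' hx1) hc
  refine ⟨fun j => ?_, fun j hj => ?_⟩
  · rw [map_mul, map_mul, map_pow, map_pow]
    exact mul_le_one' (mul_le_one' (pow_le_one' hc _) hb) (pow_le_one' hx1 _)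
  · rw [← pow_le_one_iff (two_ne_zero), ← map_pow]
    have hj2 : j + j = 2 * h + 2 * (j - h) := by omega
    have key : (b ^ 2 / a * x ^ j * ((2 * h - 1) * x - (2 * h + 1))) ^ 2 =
        -((dd1 h : K) * ((2 * h + 1) * x - (2 * h - 1)) * b ^ 2 * x ^ (2 * (j - h)) *
          ((2 * h - 1) * x - (2 * h + 1))) := by
      have e1 : x ^ j * x ^ j = x ^ (2 * h) * x ^ (2 * (j - h)) := by
        rw [← pow_add, ← pow_add, hj2]
      have e2 : b ^ 2 * x ^ (2 * h) * ((2 * h - 1) * x - (2 * h + 1)) =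
          -((dd1 h : K) * a ^ 2 * ((2 * h + 1) * x - (2 * h - 1))) := by
        rw [ev1] at hx; linear_combination hx
      field_simp
      linear_combination (b ^ 4 * ((2 * h - 1) * x - (2 * h + 1)) ^ 2) * e1 +
        (b ^ 2 * x ^ (2 * (j - h)) * ((2 * h - 1) * x - (2 * h + 1))) * e2
    rw [key, Valuation.map_neg, map_mul, map_mul, map_mul, map_mul, map_pow, map_pow]
    exact mul_le_one' (mul_le_one' (mul_le_one' (mul_le_one' hd hB) (pow_le_one' hb _))
      (pow_le_one' hx1 _)) hu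

theorem an21_val_of_lt {h : ℕ} {a b x : K} (ha0 : a ≠ 0) (hb0 : b ≠ 0)
    (ha : v a ≤ 1) (hb : v b ≤ 1) (hZ : ∀ m : ℤ, v (m : K) ≤ 1)
    (hx : ev1 h a b x = 0) (hx1 : 1 < v x) :
    (∀ j, j ≤ h → v ((2 * h - 1) ^ h * b * x ^ j) ≤ 1) ∧
    ∀ j, j + 1 ≤ 2 * h → v (b ^ 2 / a * x ^ j * ((2 * h - 1) * x - (2 * h + 1))) ≤ 1 := by
  have hc : v ((2 * h - 1 : K)) ≤ 1 := by
    have := hZ (2 * h - 1); push_cast at this; exact this
  have hc' : v ((2 * h + 1 : K)) ≤ 1 := by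
    have := hZ (2 * h + 1); push_cast at this; exact this
  have hd : v ((dd1 h : ℤ) : K) ≤ 1 := hZ _
  have hx0 : x ≠ 0 := by
    rintro rfl; rw [map_zero] at hx1; exact absurd hx1 (not_lt.mpr zero_le')
  have hvx : v x ≠ 0 := (Valuation.ne_zero_iff v).mpr hx0
  have hvx' : 0 < v x := zero_lt_iff.mpr hvx
  have hvb : v b ≠ 0 := (Valuation.ne_zero_iff v).mpr hb0
  have hB : v ((2 * h + 1) * x - (2 * h - 1)) ≤ v x :=
    v.map_sub_le (by rw [map_mul]; exact mul_le_of_le_one_left' hc') (hc.trans hx1.le)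
  refine ⟨fun j hj => ?_, fun j hj => ?_⟩
  · have e3 : (2 * h - 1) * b ^ 2 * x ^ (2 * h) * x = (2 * h + 1) * b ^ 2 * x ^ (2 * h) -
        (dd1 h : K) * a ^ 2 * ((2 * h + 1) * x - (2 * h - 1)) := by
      rw [ev1] at hx; linear_combination hx
    have hmax : v ((2 * h - 1) * b ^ 2 * x ^ (2 * h) * x) ≤
        max (v (b ^ 2 * x ^ (2 * h))) (v x) := by
      rw [e3]
      refine v.map_sub_le ?_ ?_
      · refine le_trans ?_ (le_max_left _ _)
        rw [mul_assoc, map_mul]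
        exact mul_le_of_le_one_left' hc'
      · refine le_trans ?_ (le_max_right _ _)
        rw [map_mul]
        refine (mul_le_mul' ?_ hB).trans (by rw [one_mul])
        rw [map_mul, map_pow]
        exact mul_le_one' hd (pow_le_one' ha _)
    rcases le_max_iff.mp hmax with hA | hA
    · -- `v c * v x ≤ 1`
      have h1 : v (2 * h - 1) * v x ≤ 1 := by
        have hne : v (b ^ 2 * x ^ (2 * h)) ≠ 0 := by
          rw [map_mul, map_pow, map_pow]
          exact mul_ne_zero (pow_ne_zero _ hvb) (pow_ne_zero _ hvx)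
        have h2 : v (b ^ 2 * x ^ (2 * h)) * (v (2 * h - 1) * v x) ≤
            v (b ^ 2 * x ^ (2 * h)) * 1 := by
          rw [mul_one]
          refine le_trans (le_of_eq ?_) hA
          rw [← map_mul, ← map_mul]
          congr 1
          ring
        exact le_of_mul_le_mul_left h2 (zero_lt_iff.mpr hne)
      have e4 : v ((2 * h - 1) ^ h * b * x ^ j) =
          v (2 * h - 1) ^ (h - j) * v b * (v (2 * h - 1) * v x) ^ j := by
        rw [← map_mul, ← map_pow, ← map_pow, ← map_mul, ← map_mul]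
        have e : ((2 * (h : K) - 1)) ^ h = (2 * h - 1) ^ (h - j) * (2 * h - 1) ^ j := by
          rw [← pow_add, Nat.sub_add_cancel hj]
        rw [e, mul_pow]
        congr 1
        ring
      rw [e4]
      exact mul_le_one' (mul_le_one' (pow_le_one' hc _) hb) (pow_le_one' h1 _)
    · have h1 : v (2 * h - 1) * v b ^ 2 * v x ^ (2 * h) ≤ 1 := by
        have h2 : v x * (v (2 * h - 1) * v b ^ 2 * v x ^ (2 * h)) ≤ v x * 1 := by
          rw [mul_one]
          refine le_trans (le_of_eq ?_) hA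
          rw [← map_pow, ← map_pow, ← map_mul, ← map_mul, ← map_mul]
          congr 1
          ring
        exact le_of_mul_le_mul_left h2 hvx'
      rcases Nat.eq_zero_or_pos h with rfl | hpos
      · have : j = 0 := by omega
        subst this
        simpa using hb
      rw [← pow_le_one_iff (two_ne_zero)]
      have e5 : v ((2 * h - 1) ^ h * b * x ^ j) ^ 2 =
          v (2 * h - 1) ^ (2 * h - 1) * (v (2 * h - 1) * v b ^ 2 * v x ^ (2 * j)) := by
        simp only [← map_pow, ← map_mul]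
        have e : ((2 * (h : K) - 1)) ^ (2 * h) = (2 * h - 1) ^ (2 * h - 1) * (2 * h - 1) := by
          rw [← pow_succ]; congr 1; omega
        congr 1
        linear_combination (b ^ 2 * x ^ (2 * j)) * e
      rw [e5]
      refine mul_le_one' (pow_le_one' hc _) (le_trans ?_ h1)
      gcongr
      · exact hx1.le
  · obtain ⟨m, hm⟩ : ∃ m, 2 * h = j + (m + 1) := ⟨2 * h - j - 1, by omega⟩
    have e6 : b ^ 2 / a * x ^ j * ((2 * h - 1) * x - (2 * h + 1)) * x ^ (m + 1) =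
        -((dd1 h : K) * a * ((2 * h + 1) * x - (2 * h - 1))) := by
      have e2 : b ^ 2 * (x ^ j * x ^ (m + 1)) * ((2 * h - 1) * x - (2 * h + 1)) =
          -((dd1 h : K) * a ^ 2 * ((2 * h + 1) * x - (2 * h - 1))) := by
        rw [ev1, hm, pow_add] at hx; linear_combination hx
      field_simp
      linear_combination e2
    have h1 : v (b ^ 2 / a * x ^ j * ((2 * h - 1) * x - (2 * h + 1))) * v x ^ m * v x ≤
        1 * v x := by
      rw [mul_assoc, ← pow_succ, ← map_pow, ← map_mul, e6, Valuation.map_neg, map_mul, map_mul]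
      exact mul_le_mul' (mul_le_one' hd ha) hB
    have h2 := le_of_mul_le_mul_right h1 hvx'
    exact le_trans (le_mul_of_one_le_right' (one_le_pow_of_one_le' hx1.le _)) h2

end Val

/-! ### the archimedean bound -/

theorem an21_bound {h : ℕ} (hh : 2 ≤ h) {lam : ℝ} {α β ξ : ℂ} (hβ : β ≠ 0)
    (hαβ : ‖α‖ ≤ lam ^ 2 * ‖β‖) (hξ : ev1 h α β ξ = 0) :
    ‖ξ‖ ≤ (2 * h + 1) + 4 * h * ‖((dd1 h : ℤ) : ℂ)‖ * lam ^ 4 := by
  have hnn : 0 ≤ 4 * h * ‖((dd1 h : ℤ) : ℂ)‖ * lam ^ 4 := by positivity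
  have hh' : (2 : ℝ) ≤ h := by exact_mod_cast hh
  rcases le_or_gt ‖ξ‖ 1 with h1 | h1
  · linarith
  · have hβ' : 0 < ‖β‖ := norm_pos_iff.mpr hβ
    have e1 : (2 * h - 1) * β ^ 2 * ξ ^ (2 * h) * ξ = (2 * h + 1) * β ^ 2 * ξ ^ (2 * h) -
        ((dd1 h : ℤ) : ℂ) * α ^ 2 * ((2 * h + 1) * ξ - (2 * h - 1)) := by
      rw [ev1] at hξ; linear_combination hξ
    have n1 : ‖(2 * h - 1 : ℂ)‖ = 2 * h - 1 := by
      rw [show (2 * h - 1 : ℂ) = ((2 * h - 1 : ℝ) : ℂ) by push_cast; ring, Complex.norm_real,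
        Real.norm_of_nonneg (by linarith)]
    have n2 : ‖(2 * h + 1 : ℂ)‖ = 2 * h + 1 := by
      rw [show (2 * h + 1 : ℂ) = ((2 * h + 1 : ℝ) : ℂ) by push_cast; ring, Complex.norm_real,
        Real.norm_of_nonneg (by linarith)]
    have n3 : ‖(2 * h + 1) * ξ - (2 * h - 1)‖ ≤ 4 * h * ‖ξ‖ ^ (2 * h) := by
      calc ‖(2 * h + 1) * ξ - (2 * h - 1)‖ ≤ ‖(2 * h + 1) * ξ‖ + ‖(2 * h - 1 : ℂ)‖ :=
            norm_sub_le _ _
        _ = (2 * h + 1) * ‖ξ‖ + (2 * h - 1) := by rw [norm_mul, n1, n2]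
        _ ≤ (2 * h + 1) * ‖ξ‖ + (2 * h - 1) * ‖ξ‖ := by
            have : (2 * h - 1) * 1 ≤ (2 * h - 1) * ‖ξ‖ :=
              mul_le_mul_of_nonneg_left h1.le (by linarith)
            linarith
        _ = 4 * h * ‖ξ‖ ^ 1 := by ring
        _ ≤ 4 * h * ‖ξ‖ ^ (2 * h) := by
            gcongr
            · exact h1.le
            · omega
    have n4 : ‖α‖ ^ 2 ≤ lam ^ 4 * ‖β‖ ^ 2 := by
      calc ‖α‖ ^ 2 ≤ (lam ^ 2 * ‖β‖) ^ 2 := by gcongr
        _ = _ := by ring
    have e2 : (2 * h - 1) * ‖β‖ ^ 2 * ‖ξ‖ ^ (2 * h) * ‖ξ‖ ≤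
        (2 * h + 1) * ‖β‖ ^ 2 * ‖ξ‖ ^ (2 * h) +
          ‖((dd1 h : ℤ) : ℂ)‖ * (lam ^ 4 * ‖β‖ ^ 2) * (4 * h * ‖ξ‖ ^ (2 * h)) := by
      calc (2 * h - 1) * ‖β‖ ^ 2 * ‖ξ‖ ^ (2 * h) * ‖ξ‖
          = ‖(2 * h - 1) * β ^ 2 * ξ ^ (2 * h) * ξ‖ := by
            rw [norm_mul, norm_mul, norm_mul, norm_pow, norm_pow, n1]
        _ = _ := by rw [e1]
        _ ≤ ‖(2 * h + 1) * β ^ 2 * ξ ^ (2 * h)‖ +
            ‖((dd1 h : ℤ) : ℂ) * α ^ 2 * ((2 * h + 1) * ξ - (2 * h - 1))‖ := norm_sub_le _ _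
        _ = (2 * h + 1) * ‖β‖ ^ 2 * ‖ξ‖ ^ (2 * h) +
            ‖((dd1 h : ℤ) : ℂ)‖ * ‖α‖ ^ 2 * ‖(2 * h + 1) * ξ - (2 * h - 1)‖ := by
            rw [norm_mul, norm_mul, norm_pow, norm_pow, n2, norm_mul, norm_mul, norm_pow]
        _ ≤ _ := by gcongr
    have hpos : 0 < ‖β‖ ^ 2 * ‖ξ‖ ^ (2 * h) := by positivity
    have e3 : (‖β‖ ^ 2 * ‖ξ‖ ^ (2 * h)) * ((2 * h - 1) * ‖ξ‖) ≤
        (‖β‖ ^ 2 * ‖ξ‖ ^ (2 * h)) * ((2 * h + 1) + 4 * h * ‖((dd1 h : ℤ) : ℂ)‖ * lam ^ 4) := by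
      linarith [e2]
    have e4 := le_of_mul_le_mul_left e3 hpos
    have e5 : ‖ξ‖ ≤ (2 * h - 1) * ‖ξ‖ := by nlinarith
    linarith

/-! ### the family -/

/-- the polynomials of the integral family -/
noncomputable def an21_poly {k : Type*} [Field k] (h : ℕ) (a b : k) (i : ℕ) : k[X] :=
  if i = 0 then 1
  else if i ≤ h then C ((2 * (h : k) - 1) ^ h * b) * X ^ i
  else C (b ^ 2 / a) * X ^ (i - 1) * (C (2 * (h : k) - 1) * X - C (2 * (h : k) + 1))

theorem an21_poly_degree {k : Type*} [Field k] [CharZero k] {h : ℕ} (hh : 2 ≤ h) {a b : k}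
    (ha : a ≠ 0) (hb : b ≠ 0) (i : ℕ) : (an21_poly h a b i).degree = (i : ℕ) := by
  have hc : (2 * h - 1 : k) ≠ 0 := by
    have : ((2 * h - 1 : ℕ) : k) ≠ 0 := Nat.cast_ne_zero.mpr (by omega)
    rwa [Nat.cast_sub (by omega), Nat.cast_mul, Nat.cast_ofNat, Nat.cast_one] at this
  unfold an21_poly
  split_ifs with h1 h2
  · rw [h1, degree_one]; rfl
  · rw [degree_C_mul_X_pow _ (mul_ne_zero (pow_ne_zero _ hc) hb)]
  · have e1 : (C (2 * (h : k) - 1) * X - C (2 * (h : k) + 1)).degree = 1 := by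
      rw [sub_eq_add_neg, ← C_neg]
      exact degree_linear hc
    rw [degree_mul, e1, degree_C_mul_X_pow _ (div_ne_zero (pow_ne_zero _ hb) ha)]
    have : i = (i - 1) + 1 := by omega
    conv_rhs => rw [this]
    push_cast
    rfl

theorem an21_aeval {k K : Type*} [Field k] [Field K] [Algebra k K] (h : ℕ) (a b : k) (x : K)
    (i : ℕ) : aeval x (an21_poly h a b i) =
      if i = 0 then 1
      else if i ≤ h then (2 * (h : K) - 1) ^ h * algebraMap k K b * x ^ i
      else algebraMap k K b ^ 2 / algebraMap k K a * x ^ (i - 1) *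
        ((2 * (h : K) - 1) * x - (2 * (h : K) + 1)) := by
  have h2 : algebraMap k K 2 = 2 := map_ofNat _ 2
  unfold an21_poly
  split_ifs
  · simp
  · simp [h2]
  · simp [h2]

theorem an21_balanced {k : Type*} [Field k] [NumberField k] {lam T : ℝ} (hT : 1 ≤ T) {a : 𝓞 k}
    (ha : Balanced lam T a) : (a : k) ≠ 0 := by
  intro h0
  obtain ⟨φ⟩ : Nonempty (k →+* ℂ) := inferInstance
  have := (ha φ).1
  rw [h0, map_zero, norm_zero, mul_zero] at this
  linarith

theorem an21_val_le {K : Type*} [Field K] [NumberField K] (P : HeightOneSpectrum (𝓞 K)) {x : K}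
    (hx : IsIntegral ℤ x) : P.valuation K x ≤ 1 :=
  P.valuation_le_one (K := K) (⟨x, hx⟩ : 𝓞 K)

theorem an21_int {k K : Type*} [Field k] [Field K] [Algebra k K] (a : 𝓞 k) :
    IsIntegral ℤ (algebraMap k K (a : k)) :=
  a.2.map (algebraMap k K).toIntAlgHom

theorem discr_le1 (k : Type) [Field k] [NumberField k] {h : ℕ} (hh : 2 ≤ h) (lam : ℝ)
    (hlam : 1 ≤ lam) : ∃ C : ℝ, 0 < C ∧
    ∀ (K : Type) [Field K] [NumberField K] [Algebra k K] (a b : 𝓞 k) (x : K) (T : ℝ), 1 ≤ T →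
      Balanced lam T a → Balanced lam T b → Module.finrank k K = 2 * h + 1 →
      IntermediateField.adjoin k {x} = ⊤ →
      ev1 h (algebraMap k K a) (algebraMap k K b) x = 0 →
      |(NumberField.discr K : ℝ)| ≤ C * T ^ (Module.finrank ℚ k * (4 * h)) := by
  obtain ⟨C0, hC0, hrel⟩ := discr_le_rel k (2 * h + 1)
  have hh' : (2 : ℝ) ≤ h := by exact_mod_cast hh
  set X0 : ℝ := (2 * h + 1) + 4 * h * ‖((dd1 h : ℤ) : ℂ)‖ * lam ^ 4 with hX0def
  have hX0 : 1 ≤ X0 := by
    have : 0 ≤ 4 * h * ‖((dd1 h : ℤ) : ℂ)‖ * lam ^ 4 := by positivity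
    rw [hX0def]; linarith
  set D : ℝ := (2 * h - 1) ^ h * lam ^ 3 * X0 ^ (2 * h) * ((2 * h - 1) * X0 + (2 * h + 1))
    with hDdef
  have hl0 : 0 < lam := by linarith
  have hc0 : (1 : ℝ) ≤ 2 * h - 1 := by linarith
  have hch : (1 : ℝ) ≤ (2 * h - 1) ^ h := one_le_pow₀ hc0
  have hl3 : (1 : ℝ) ≤ lam ^ 3 := one_le_pow₀ hlam
  have hX2 : (1 : ℝ) ≤ X0 ^ (2 * h) := one_le_pow₀ hX0
  have hD0 : 0 < D := by
    have : 0 < (2 * h - 1) * X0 + (2 * h + 1) := by nlinarith
    rw [hDdef]; positivity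
  refine ⟨C0 * (D ^ (2 * h)) ^ (2 * Module.finrank ℚ k), by positivity, ?_⟩
  intro K _ _ _ a b x T hT ha hb hn hgen hx
  have ha0 := an21_balanced hT ha
  have hb0 := an21_balanced hT hb
  have hfin : FiniteDimensional k K := Module.finite_of_finrank_pos (by omega)
  have hak : algebraMap k K (a : k) ≠ 0 := (_root_.map_ne_zero _).mpr ha0
  have hbk : algebraMap k K (b : k) ≠ 0 := (_root_.map_ne_zero _).mpr hb0
  have hint : ∀ i : Fin (2 * h + 1), IsIntegral ℤ (aeval x (an21_poly h (a : k) (b : k) i)) := by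
    intro i
    refine an21_isIntegral fun P => ?_
    have hva := an21_val_le P (an21_int (K := K) a)
    have hvb := an21_val_le P (an21_int (K := K) b)
    have hvZ : ∀ m : ℤ, P.valuation K (m : K) ≤ 1 := fun m =>
      an21_val_le P (isIntegral_algebraMap (R := ℤ) (A := K) (x := m))
    rw [an21_aeval]
    rcases le_or_gt (P.valuation K x) 1 with h1 | h1
    · obtain ⟨H1, H2⟩ := an21_val_of_le (P.valuation K) hak hvb hvZ hx h1
      split_ifs with h2 h3
      · rw [map_one]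
      · exact H1 _
      · exact H2 _ (by omega)
    · obtain ⟨H1, H2⟩ := an21_val_of_lt (P.valuation K) hak hbk hva hvb hvZ hx h1
      split_ifs with h2 h3
      · rw [map_one]
      · exact H1 _ h3
      · exact H2 _ (by omega)
  have hli : LinearIndependent k
      (fun i : Fin (2 * h + 1) => aeval x (an21_poly h (a : k) (b : k) i)) :=
    an21_linInd hn hgen _ fun i => an21_poly_degree hh ha0 hb0 i
  have hbound : ∀ (φ : K →+* ℂ) (i : Fin (2 * h + 1)),
      ‖φ (aeval x (an21_poly h (a : k) (b : k) i))‖ ≤ if (i : ℕ) = 0 then 1 else D * T := by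
    intro φ i
    have hA := ha (φ.comp (algebraMap k K))
    have hB := hb (φ.comp (algebraMap k K))
    rw [RingHom.comp_apply] at hA hB
    set α := φ (algebraMap k K (a : k)) with hα
    set β := φ (algebraMap k K (b : k)) with hβ
    set ξ := φ x with hξ
    have hβ0 : β ≠ 0 := (_root_.map_ne_zero _).mpr hbk
    have hα0 : α ≠ 0 := (_root_.map_ne_zero _).mpr hak
    have hαn : 0 < ‖α‖ := norm_pos_iff.mpr hα0
    have hαβ : ‖α‖ ≤ lam ^ 2 * ‖β‖ := by
      calc ‖α‖ ≤ lam * T := hA.2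
        _ ≤ lam * (lam * ‖β‖) := by gcongr; exact hB.1
        _ = _ := by ring
    have hev : ev1 h α β ξ = 0 := by
      have := congrArg φ hx
      rw [map_zero] at this
      rw [← this]
      have h2 : φ 2 = 2 := map_ofNat _ 2
      simp [ev1, hα, hβ, hξ, h2]
    have hξ0 := an21_bound hh hβ0 hαβ hev
    rw [← hX0def] at hξ0
    rw [an21_aeval]
    have hn1 : ‖(2 * h - 1 : ℂ)‖ = 2 * h - 1 := by
      rw [show (2 * h - 1 : ℂ) = ((2 * h - 1 : ℝ) : ℂ) by push_cast; ring, Complex.norm_real,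
        Real.norm_of_nonneg (by linarith)]
    have hn2 : ‖(2 * h + 1 : ℂ)‖ = 2 * h + 1 := by
      rw [show (2 * h + 1 : ℂ) = ((2 * h + 1 : ℝ) : ℂ) by push_cast; ring, Complex.norm_real,
        Real.norm_of_nonneg (by linarith)]
    have hi := i.2
    split_ifs with h2 h3
    · rw [map_one, norm_one]
    · rw [map_mul, map_mul, map_pow, map_pow]
      have e1 : φ (2 * (h : K) - 1) = 2 * (h : ℂ) - 1 := by
        have h2 : φ 2 = 2 := map_ofNat _ 2
        simp [h2]
      rw [e1, norm_mul, norm_mul, norm_pow, norm_pow, hn1]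
      calc (2 * (h : ℝ) - 1) ^ h * ‖β‖ * ‖ξ‖ ^ (i : ℕ)
          ≤ (2 * (h : ℝ) - 1) ^ h * (lam * T) * X0 ^ (2 * h) := by
            gcongr
            · exact hB.2
            · calc ‖ξ‖ ^ (i : ℕ) ≤ X0 ^ (i : ℕ) := by gcongr
                _ ≤ X0 ^ (2 * h) := pow_le_pow_right₀ hX0 (by omega)
        _ = (2 * (h : ℝ) - 1) ^ h * (lam * 1) * X0 ^ (2 * h) * 1 * T := by ring
        _ ≤ (2 * (h : ℝ) - 1) ^ h * (lam * lam ^ 2) * X0 ^ (2 * h) *
            ((2 * h - 1) * X0 + (2 * h + 1)) * T := by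
            gcongr
            · exact one_le_pow₀ hlam
            · nlinarith
        _ = D * T := by rw [hDdef]; ring
    · rw [map_mul, map_mul, map_div₀, map_pow, map_pow]
      have e1 : φ ((2 * (h : K) - 1) * x - (2 * (h : K) + 1)) =
          (2 * (h : ℂ) - 1) * ξ - (2 * (h : ℂ) + 1) := by
        have h2 : φ 2 = 2 := map_ofNat _ 2
        simp [hξ, h2]
      rw [e1, norm_mul, norm_mul, norm_div, norm_pow, norm_pow]
      have e2 : ‖β‖ ^ 2 / ‖α‖ ≤ lam ^ 3 * T := by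
        rw [div_le_iff₀ hαn]
        calc ‖β‖ ^ 2 ≤ (lam * T) ^ 2 := by gcongr; exact hB.2
          _ = lam ^ 2 * T * T := by ring
          _ ≤ lam ^ 2 * T * (lam * ‖α‖) := by gcongr; exact hA.1
          _ = _ := by ring
      have e3 : ‖ξ‖ ^ ((i : ℕ) - 1) ≤ X0 ^ (2 * h) := by
        calc ‖ξ‖ ^ ((i : ℕ) - 1) ≤ X0 ^ ((i : ℕ) - 1) := by gcongr
          _ ≤ X0 ^ (2 * h) := pow_le_pow_right₀ hX0 (by omega)
      have e4 : ‖(2 * (h : ℂ) - 1) * ξ - (2 * (h : ℂ) + 1)‖ ≤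
          (2 * h - 1) * X0 + (2 * h + 1) := by
        calc _ ≤ ‖(2 * (h : ℂ) - 1) * ξ‖ + ‖(2 * (h : ℂ) + 1)‖ := norm_sub_le _ _
          _ = (2 * h - 1) * ‖ξ‖ + (2 * h + 1) := by rw [norm_mul, hn1, hn2]
          _ ≤ _ := by gcongr
      calc ‖β‖ ^ 2 / ‖α‖ * ‖ξ‖ ^ ((i : ℕ) - 1) * ‖(2 * (h : ℂ) - 1) * ξ - (2 * (h : ℂ) + 1)‖
          ≤ lam ^ 3 * T * X0 ^ (2 * h) * ((2 * h - 1) * X0 + (2 * h + 1)) := by gcongr
        _ = 1 * (lam ^ 3 * X0 ^ (2 * h) * ((2 * h - 1) * X0 + (2 * h + 1)) * T) := by ring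
        _ ≤ (2 * h - 1) ^ h * (lam ^ 3 * X0 ^ (2 * h) * ((2 * h - 1) * X0 + (2 * h + 1)) * T) := by
            have : 0 ≤ lam ^ 3 * X0 ^ (2 * h) * ((2 * h - 1) * X0 + (2 * h + 1)) * T := by
              have : 0 < (2 * h - 1) * X0 + (2 * h + 1) := by nlinarith
              positivity
            gcongr
        _ = D * T := by rw [hDdef]; ring
  have hmain := hrel K hn _ hint hli _ hbound
  refine hmain.trans (le_of_eq ?_)
  have hprod : (∏ i : Fin (2 * h + 1), if (i : ℕ) = 0 then (1 : ℝ) else D * T) =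
      (D * T) ^ (2 * h) := by
    rw [Fin.prod_univ_succ]
    simp
  rw [hprod, mul_pow D T, mul_pow, mul_assoc, ← pow_mul T]
  congr 3
  ring

end Pool.Agent.H35.AN
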