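import Pool.Agent.H35.AN.Defs
import Pool.Agent.H35.AN.Val
import Pool.Agent.H35.AN.DiscLe

/-!
# AN-22: the discriminant bound for the second family
-/

set_option autoImplicit false

open Polynomial IsDedekindDomain NumberField

namespace Pool.Agent.H35.AN

section Int

variable {K : Type*} [Field K] [NumberField K] (P : HeightOneSpectrum (𝓞 K))

theorem an22_u_int (h : ℕ) {x : K} (hx : Ge P 0 x) :
    Ge P 0 ((h : K) * (2 * h + 1) * x ^ 2 - 4 * h * (h + 1) * x + (h + 1) * (2 * h + 1)) := by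
  have e : (h : K) * (2 * h + 1) * x ^ 2 - 4 * h * (h + 1) * x + (h + 1) * (2 * h + 1) =
      ((h * (2 * h + 1) : ℕ) : K) * x ^ 2 - ((4 * h * (h + 1) : ℕ) : K) * x +
        (((h + 1) * (2 * h + 1) : ℕ) : K) := by
    push_cast; ring
  rw [e]
  refine ge_add P (ge_sub P ?_ ?_) (ge_nat P _)
  · have := ge_mul P (ge_nat P (h * (2 * h + 1))) (ge_pow P hx 2)
    simpa using this
  · have := ge_mul P (ge_nat P (4 * h * (h + 1))) hx
    simpa using this

theorem an22_int1 {h : ℕ} (hh : 2 ≤ h) {a b x : K} (ha : Ge P 0 a) (hb : Ge P 0 b)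
    (hb0 : b ≠ 0) (hx0 : x ≠ 0) (hx : ev2 h a b x = 0) {j : ℕ} (hj : j ≤ h + 1) :
    Ge P 0 (((h * (2 * h + 1) : ℕ) : K) ^ (h + 1) * b * x ^ j) := by
  set c : K := ((h * (2 * h + 1) : ℕ) : K) with hc
  have hc0 : c ≠ 0 := by
    rw [hc, Nat.cast_ne_zero]; positivity
  have hcpow : c ^ (h + 1) ≠ 0 := pow_ne_zero _ hc0
  have hxj : x ^ j ≠ 0 := pow_ne_zero _ hx0
  have hcb : c ^ (h + 1) * b ≠ 0 := mul_ne_zero hcpow hb0
  rw [ge_iff P (mul_ne_zero hcb hxj), ord_mul P hcb hxj, ord_mul P hcpow hb0, ord_pow, ord_pow]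
  have hγ : 0 ≤ ord P c := (ge_iff P hc0).1 (ge_nat P _)
  have hβ : 0 ≤ ord P b := (ge_iff P hb0).1 hb
  set γ := ord P c
  set β := ord P b
  set t := ord P x with ht
  have hj' : (j : ℤ) ≤ h + 1 := by exact_mod_cast hj
  have hh' : (2 : ℤ) ≤ h := by exact_mod_cast hh
  push_cast
  rcases le_or_gt 0 t with h0 | h0
  · have : 0 ≤ (j : ℤ) * t := mul_nonneg (by positivity) h0
    have : 0 ≤ ((h : ℤ) + 1) * γ := mul_nonneg (by positivity) hγ
    linarith
  have hbx (n : ℕ) : b ^ 2 * x ^ n ≠ 0 := mul_ne_zero (pow_ne_zero _ hb0) (pow_ne_zero _ hx0)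
  have hob (n : ℕ) : ord P (b ^ 2 * x ^ n) = 2 * β + n * t := by
    rw [ord_mul P (pow_ne_zero _ hb0) (pow_ne_zero _ hx0), ord_pow, ord_pow]
    push_cast; ring
  set m : ℤ := min (2 * β + (2 * h + 1) * t) 0 with hm
  have key : c * (b ^ 2 * x ^ (2 * h + 2)) =
      (((4 * h * (h + 1) : ℕ) : K) * (b ^ 2 * x ^ (2 * h + 1)) -
        (((h + 1) * (2 * h + 1) : ℕ) : K) * (b ^ 2 * x ^ (2 * h))) + ((dd2 h : ℤ) : K) * a ^ 2 := by
    have h1 : ev2 h a b x = 0 := hx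
    unfold ev2 at h1
    rw [hc]
    push_cast
    linear_combination h1
  have g1 : Ge P m (((4 * h * (h + 1) : ℕ) : K) * (b ^ 2 * x ^ (2 * h + 1))) := by
    have h2 : Ge P (2 * β + (2 * h + 1) * t) (b ^ 2 * x ^ (2 * h + 1)) := by
      rw [ge_iff P (hbx _), hob]; push_cast; exact le_refl _
    have := ge_mul P (ge_nat P (4 * h * (h + 1))) h2
    rw [zero_add] at this
    exact ge_mono P (min_le_left _ _) this
  have g2 : Ge P m ((((h + 1) * (2 * h + 1) : ℕ) : K) * (b ^ 2 * x ^ (2 * h))) := by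
    have h2 : Ge P (2 * β + (2 * h + 1) * t) (b ^ 2 * x ^ (2 * h)) := by
      rw [ge_iff P (hbx _), hob]; push_cast; nlinarith
    have := ge_mul P (ge_nat P ((h + 1) * (2 * h + 1))) h2
    rw [zero_add] at this
    exact ge_mono P (min_le_left _ _) this
  have g3 : Ge P m (((dd2 h : ℤ) : K) * a ^ 2) := by
    have := ge_mul P (ge_int P (dd2 h)) (ge_pow P ha 2)
    rw [zero_add, mul_zero] at this
    exact ge_mono P (min_le_right _ _) this
  have g := ge_add P (ge_sub P g1 g2) g3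
  rw [← key, ge_iff P (mul_ne_zero hc0 (hbx _)), ord_mul P hc0 (hbx _), hob] at g
  push_cast at g
  have hjt : ((h : ℤ) + 1) * t ≤ j * t := mul_le_mul_of_nonpos_right hj' h0.le
  rcases min_choice (2 * β + (2 * (h : ℤ) + 1) * t) 0 with h1 | h1
  · rw [hm, h1] at g
    have h3 : -γ ≤ t := by nlinarith
    have : -(((h : ℤ) + 1) * γ) ≤ ((h : ℤ) + 1) * t := by nlinarith
    linarith
  · rw [hm, h1] at g
    have : 0 ≤ (h : ℤ) * γ := by positivity
    nlinarith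

theorem an22_int2 {h : ℕ} (hh : 2 ≤ h) {a b x : K} (ha : Ge P 0 a) (hb : Ge P 0 b)
    (ha0 : a ≠ 0) (hb0 : b ≠ 0) (hx0 : x ≠ 0) (hx : ev2 h a b x = 0) {j : ℕ} (hj1 : h ≤ j)
    (hj2 : j ≤ 2 * h) :
    Ge P 0 (b ^ 2 * x ^ j * ((h : K) * (2 * h + 1) * x ^ 2 - 4 * h * (h + 1) * x +
      (h + 1) * (2 * h + 1)) / a) := by
  set u : K := (h : K) * (2 * h + 1) * x ^ 2 - 4 * h * (h + 1) * x + (h + 1) * (2 * h + 1) with hu
  have hd0 : ((dd2 h : ℤ) : K) ≠ 0 := by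
    rw [Int.cast_ne_zero]; unfold dd2; positivity
  have hX : b ^ 2 * x ^ (2 * h) * u = ((dd2 h : ℤ) : K) * a ^ 2 := by
    have h1 : ev2 h a b x = 0 := hx
    unfold ev2 at h1
    rw [← sub_eq_zero]
    exact h1
  have hX0 : b ^ 2 * x ^ (2 * h) * u ≠ 0 := by
    rw [hX]; exact mul_ne_zero hd0 (pow_ne_zero _ ha0)
  have hu0 : u ≠ 0 := right_ne_zero_of_mul hX0
  have hbx (n : ℕ) : b ^ 2 * x ^ n ≠ 0 := mul_ne_zero (pow_ne_zero _ hb0) (pow_ne_zero _ hx0)
  have hob (n : ℕ) : ord P (b ^ 2 * x ^ n) = 2 * ord P b + n * ord P x := by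
    rw [ord_mul P (pow_ne_zero _ hb0) (pow_ne_zero _ hx0), ord_pow, ord_pow]
    push_cast; ring
  have hoX : 2 * ord P b + (2 * h) * ord P x + ord P u = ord P ((dd2 h : ℤ) : K) + 2 * ord P a := by
    have := congrArg (ord P) hX
    rw [ord_mul P (hbx _) hu0, hob, ord_mul P hd0 (pow_ne_zero _ ha0), ord_pow] at this
    push_cast at this
    exact this
  have hz0 : b ^ 2 * x ^ j * u ≠ 0 := mul_ne_zero (hbx _) hu0
  rw [ge_iff P (div_ne_zero hz0 ha0), ord_div P hz0 ha0, ord_mul P (hbx _) hu0, hob]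
  have hα : 0 ≤ ord P a := (ge_iff P ha0).1 ha
  have hβ : 0 ≤ ord P b := (ge_iff P hb0).1 hb
  have hδ : 0 ≤ ord P ((dd2 h : ℤ) : K) := (ge_iff P hd0).1 (ge_int P _)
  have hj1' : (h : ℤ) ≤ j := by exact_mod_cast hj1
  have hj2' : (j : ℤ) ≤ 2 * h := by exact_mod_cast hj2
  rcases le_or_gt 0 (ord P x) with h0 | h0
  · have hu1 : 0 ≤ ord P u := (ge_iff P hu0).1 (an22_u_int P h ((ge_iff P hx0).2 h0))
    nlinarith [mul_nonneg (sub_nonneg.2 hj1') h0]
  · nlinarith [mul_nonneg (sub_nonneg.2 hj2') (neg_nonneg.2 h0.le)]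

end Int


theorem an22_ne_zero {K : Type*} [Field K] [CharZero K] {h : ℕ} (hh : 2 ≤ h) {a b x : K} (ha0 : a ≠ 0)
    (hx : ev2 h a b x = 0) : x ≠ 0 := by
  rintro rfl
  unfold ev2 at hx
  rw [zero_pow (by omega : 2 * h ≠ 0), mul_zero, zero_mul, zero_sub, neg_eq_zero] at hx
  have hd0 : ((dd2 h : ℤ) : K) ≠ 0 := by
    rw [Int.cast_ne_zero]; unfold dd2; positivity
  exact mul_ne_zero hd0 (pow_ne_zero _ ha0) hx

/-- the bound for the roots -/
noncomputable def an22_X (h : ℕ) (lam : ℝ) : ℝ := 10 + |(dd2 h : ℝ)| * lam ^ 4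

noncomputable def an22_U (h : ℕ) (lam : ℝ) : ℝ :=
  (h * (2 * h + 1)) * an22_X h lam ^ 2 + 4 * h * (h + 1) * an22_X h lam + (h + 1) * (2 * h + 1)

theorem an22_norm_x {h : ℕ} (hh : 2 ≤ h) {lam T : ℝ} (hlam : 1 ≤ lam) (hT : 1 ≤ T) {a b x : ℂ}
    (ha : ‖a‖ ≤ lam * T) (hb : T ≤ lam * ‖b‖) (hx : ev2 h a b x = 0) :
    ‖x‖ ≤ an22_X h lam := by
  have hlam0 : 0 < lam := by linarith
  have hT0 : 0 < T := by linarith
  have hb0 : 0 < ‖b‖ := by
    by_contra hc
    have : ‖b‖ = 0 := le_antisymm (not_lt.1 hc) (norm_nonneg _)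
    rw [this] at hb; linarith
  have hh' : (2 : ℝ) ≤ h := by exact_mod_cast hh
  by_contra hc
  push Not at hc
  have hX10 : 10 ≤ an22_X h lam := by
    unfold an22_X
    have : 0 ≤ |(dd2 h : ℝ)| * lam ^ 4 := by positivity
    linarith
  have hx10 : 10 < ‖x‖ := lt_of_le_of_lt hX10 hc
  set u : ℂ := (h : ℂ) * (2 * h + 1) * x ^ 2 - 4 * h * (h + 1) * x + (h + 1) * (2 * h + 1) with hu
  have hX : b ^ 2 * x ^ (2 * h) * u = ((dd2 h : ℤ) : ℂ) * a ^ 2 := by
    have h1 : ev2 h a b x = 0 := hx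
    unfold ev2 at h1
    rw [← sub_eq_zero]
    exact h1
  have hu1 : 1 ≤ ‖u‖ := by
    have e1 : ‖(h : ℂ) * (2 * h + 1) * x ^ 2‖ = (h : ℝ) * (2 * h + 1) * ‖x‖ ^ 2 := by
      have : (h : ℂ) * (2 * h + 1) = ((h * (2 * h + 1) : ℕ) : ℂ) := by push_cast; ring
      rw [this, norm_mul, norm_pow, Complex.norm_natCast]; push_cast; ring
    have e2 : ‖4 * (h : ℂ) * (h + 1) * x‖ = 4 * (h : ℝ) * (h + 1) * ‖x‖ := by
      have : 4 * (h : ℂ) * (h + 1) = ((4 * h * (h + 1) : ℕ) : ℂ) := by push_cast; ring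
      rw [this, norm_mul, Complex.norm_natCast]; push_cast; ring
    have e3 : ‖((h : ℂ) + 1) * (2 * h + 1)‖ = ((h : ℝ) + 1) * (2 * h + 1) := by
      have : ((h : ℂ) + 1) * (2 * h + 1) = (((h + 1) * (2 * h + 1) : ℕ) : ℂ) := by push_cast; ring
      rw [this, Complex.norm_natCast]; push_cast; ring
    have e4 : (h : ℂ) * (2 * h + 1) * x ^ 2 = u + (4 * (h : ℂ) * (h + 1) * x -
        ((h : ℂ) + 1) * (2 * h + 1)) := by rw [hu]; ring
    have e5 : ‖(h : ℂ) * (2 * h + 1) * x ^ 2‖ ≤ ‖u‖ + (‖4 * (h : ℂ) * (h + 1) * x‖ +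
        ‖((h : ℂ) + 1) * (2 * h + 1)‖) := by
      rw [e4]
      exact (norm_add_le _ _).trans (add_le_add le_rfl (norm_sub_le _ _))
    rw [e1, e2, e3] at e5
    have e6 : 10 * ((h : ℝ) * (2 * h + 1) * ‖x‖) ≤ (h : ℝ) * (2 * h + 1) * ‖x‖ ^ 2 := by
      have : (h : ℝ) * (2 * h + 1) * ‖x‖ ^ 2 = ‖x‖ * ((h : ℝ) * (2 * h + 1) * ‖x‖) := by ring
      rw [this]
      exact mul_le_mul_of_nonneg_right hx10.le (by positivity)
    have e7 : (h : ℝ) * (16 * h + 6) * 10 ≤ (h : ℝ) * (16 * h + 6) * ‖x‖ :=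
      mul_le_mul_of_nonneg_left hx10.le (by positivity)
    nlinarith
  have hn : ‖b‖ ^ 2 * ‖x‖ ^ (2 * h) * ‖u‖ = |(dd2 h : ℝ)| * ‖a‖ ^ 2 := by
    have := congrArg norm hX
    rw [norm_mul, norm_mul, norm_pow, norm_pow, norm_mul, norm_pow, Complex.norm_intCast] at this
    exact this
  have hxp : ‖x‖ ≤ ‖x‖ ^ (2 * h) := by
    calc ‖x‖ = ‖x‖ ^ 1 := (pow_one _).symm
      _ ≤ ‖x‖ ^ (2 * h) := pow_le_pow_right₀ (by linarith) (by omega)
  have h1 : ‖b‖ ^ 2 * ‖x‖ ≤ ‖b‖ ^ 2 * ‖x‖ ^ (2 * h) * ‖u‖ := by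
    calc ‖b‖ ^ 2 * ‖x‖ ≤ ‖b‖ ^ 2 * ‖x‖ ^ (2 * h) := mul_le_mul_of_nonneg_left hxp (by positivity)
      _ = ‖b‖ ^ 2 * ‖x‖ ^ (2 * h) * 1 := (mul_one _).symm
      _ ≤ _ := mul_le_mul_of_nonneg_left hu1 (by positivity)
  have h2 : ‖a‖ ≤ lam ^ 2 * ‖b‖ := by
    calc ‖a‖ ≤ lam * T := ha
      _ ≤ lam * (lam * ‖b‖) := mul_le_mul_of_nonneg_left hb hlam0.le
      _ = lam ^ 2 * ‖b‖ := by ring
  have h3 : ‖a‖ ^ 2 ≤ lam ^ 4 * ‖b‖ ^ 2 := by
    calc ‖a‖ ^ 2 ≤ (lam ^ 2 * ‖b‖) ^ 2 := pow_le_pow_left₀ (norm_nonneg _) h2 2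
      _ = _ := by ring
  have h4 : ‖b‖ ^ 2 * ‖x‖ ≤ ‖b‖ ^ 2 * (|(dd2 h : ℝ)| * lam ^ 4) := by
    rw [hn] at h1
    calc ‖b‖ ^ 2 * ‖x‖ ≤ |(dd2 h : ℝ)| * ‖a‖ ^ 2 := h1
      _ ≤ |(dd2 h : ℝ)| * (lam ^ 4 * ‖b‖ ^ 2) := mul_le_mul_of_nonneg_left h3 (abs_nonneg _)
      _ = _ := by ring
  have h5 : ‖x‖ ≤ |(dd2 h : ℝ)| * lam ^ 4 := le_of_mul_le_mul_left h4 (by positivity)
  unfold an22_X at hc
  linarith

theorem an22_norm_u {h : ℕ} {lam : ℝ} {x : ℂ} (hx : ‖x‖ ≤ an22_X h lam) :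
    ‖(h : ℂ) * (2 * h + 1) * x ^ 2 - 4 * h * (h + 1) * x + (h + 1) * (2 * h + 1)‖ ≤
      an22_U h lam := by
  have e1 : ‖(h : ℂ) * (2 * h + 1) * x ^ 2‖ = (h : ℝ) * (2 * h + 1) * ‖x‖ ^ 2 := by
    have : (h : ℂ) * (2 * h + 1) = ((h * (2 * h + 1) : ℕ) : ℂ) := by push_cast; ring
    rw [this, norm_mul, norm_pow, Complex.norm_natCast]; push_cast; ring
  have e2 : ‖4 * (h : ℂ) * (h + 1) * x‖ = 4 * (h : ℝ) * (h + 1) * ‖x‖ := by
    have : 4 * (h : ℂ) * (h + 1) = ((4 * h * (h + 1) : ℕ) : ℂ) := by push_cast; ring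
    rw [this, norm_mul, Complex.norm_natCast]; push_cast; ring
  have e3 : ‖((h : ℂ) + 1) * (2 * h + 1)‖ = ((h : ℝ) + 1) * (2 * h + 1) := by
    have : ((h : ℂ) + 1) * (2 * h + 1) = (((h + 1) * (2 * h + 1) : ℕ) : ℂ) := by push_cast; ring
    rw [this, Complex.norm_natCast]; push_cast; ring
  have e5 : ‖(h : ℂ) * (2 * h + 1) * x ^ 2 - 4 * h * (h + 1) * x + (h + 1) * (2 * h + 1)‖ ≤
      ‖(h : ℂ) * (2 * h + 1) * x ^ 2‖ + ‖4 * (h : ℂ) * (h + 1) * x‖ +
        ‖((h : ℂ) + 1) * (2 * h + 1)‖ :=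
    (norm_add_le _ _).trans (add_le_add (norm_sub_le _ _) le_rfl)
  rw [e1, e2, e3] at e5
  refine e5.trans ?_
  unfold an22_U
  have := norm_nonneg x
  gcongr

/-- the polynomials behind the integral family -/
noncomputable def an22_poly {k : Type*} [Field k] (h : ℕ) (a b : k) (j : ℕ) : k[X] :=
  if j = 0 then 1 else if j ≤ h + 1 then C (((h * (2 * h + 1) : ℕ) : k) ^ (h + 1) * b) * X ^ j
  else C (b ^ 2 / a) * X ^ (j - 2) * (C ((h : k) * (2 * h + 1)) * X ^ 2 +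
    C (-(4 * (h : k) * (h + 1))) * X + C (((h : k) + 1) * (2 * h + 1)))

theorem an22_poly_degree {k : Type*} [Field k] [CharZero k] {h : ℕ} (hh : 2 ≤ h) {a b : k}
    (ha : a ≠ 0) (hb : b ≠ 0) (j : ℕ) : (an22_poly h a b j).degree = j := by
  have hc : (h : k) * (2 * h + 1) ≠ 0 := by
    have : (h : k) * (2 * h + 1) = ((h * (2 * h + 1) : ℕ) : k) := by push_cast; ring
    rw [this, Nat.cast_ne_zero]; positivity
  unfold an22_poly
  split_ifs with h1 h2
  · rw [h1]; simp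
  · rw [degree_C_mul_X_pow]
    refine mul_ne_zero (pow_ne_zero _ ?_) hb
    rw [Nat.cast_ne_zero]; positivity
  · rw [degree_mul, degree_quadratic hc, degree_C_mul_X_pow]
    · have : j - 2 + 2 = j := by omega
      exact_mod_cast this
    · exact div_ne_zero (pow_ne_zero _ hb) ha

theorem an22_linInd {k K : Type*} [Field k] [CharZero k] [Field K] [Algebra k K]
    {h : ℕ} (hh : 2 ≤ h) {a b : k} (ha : a ≠ 0) (hb : b ≠ 0) {x : K} [FiniteDimensional k K]
    (hn : Module.finrank k K = 2 * h + 2) (hgen : IntermediateField.adjoin k {x} = ⊤) :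
    LinearIndependent k (fun j : Fin (2 * h + 2) => aeval x (an22_poly h a b j)) := by
  have hxi : IsIntegral k x := IsIntegral.of_finite k x
  have hdeg : (minpoly k x).natDegree = 2 * h + 2 := by
    rw [← IntermediateField.adjoin.finrank hxi, hgen, IntermediateField.finrank_top', hn]
  have hseq : LinearIndependent k (fun j : ℕ => an22_poly h a b j) := by
    let S : Polynomial.Sequence k := ⟨an22_poly h a b, an22_poly_degree hh ha hb⟩
    exact S.linearIndependent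
  have hfin : LinearIndependent k (fun j : Fin (2 * h + 2) => an22_poly h a b j) :=
    hseq.comp (fun j : Fin (2 * h + 2) => (j : ℕ)) Fin.val_injective
  rw [Fintype.linearIndependent_iff] at hfin ⊢
  intro g hg
  apply hfin g
  have h1 : aeval x (∑ j : Fin (2 * h + 2), g j • an22_poly h a b j) = 0 := by
    rw [map_sum, ← hg]
    exact Finset.sum_congr rfl fun j _ => by rw [map_smul]
  by_contra hne
  have h2 := minpoly.degree_le_of_ne_zero k x hne h1
  rw [degree_eq_natDegree (minpoly.ne_zero hxi), hdeg] at h2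
  have h3 : (∑ j : Fin (2 * h + 2), g j • an22_poly h a b j).degree ≤ ((2 * h + 1 : ℕ) : WithBot ℕ) := by
    refine (degree_sum_le _ _).trans (Finset.sup_le fun j _ => ?_)
    refine (degree_smul_le _ _).trans ?_
    rw [an22_poly_degree hh ha hb]
    have := j.2
    exact_mod_cast (by omega : (j : ℕ) ≤ 2 * h + 1)
  have h4 := h2.trans h3
  have h5 : 2 * h + 2 ≤ 2 * h + 1 := by exact_mod_cast h4
  omega

theorem an22_aeval {k K : Type*} [Field k] [Field K] [Algebra k K] (h : ℕ) (a b : k) (x : K)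
    (j : ℕ) : aeval x (an22_poly h a b j) = if j = 0 then 1 else if j ≤ h + 1 then
      ((h * (2 * h + 1) : ℕ) : K) ^ (h + 1) * algebraMap k K b * x ^ j
      else (algebraMap k K b) ^ 2 * x ^ (j - 2) * ((h : K) * (2 * h + 1) * x ^ 2 -
        4 * h * (h + 1) * x + (h + 1) * (2 * h + 1)) / algebraMap k K a := by
  unfold an22_poly
  split_ifs with h1 h2
  · rw [map_one]
  · simp only [map_mul, aeval_C, aeval_X, map_pow, map_natCast]
  · simp only [map_mul, map_add, aeval_C, aeval_X, map_pow, map_div₀, map_neg, map_natCast,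
      map_one, map_ofNat]
    ring

theorem discr_le2 (k : Type) [Field k] [NumberField k] {h : ℕ} (hh : 2 ≤ h) (lam : ℝ)
    (hlam : 1 ≤ lam) : ∃ C : ℝ, 0 < C ∧
    ∀ (K : Type) [Field K] [NumberField K] [Algebra k K] (a b : 𝓞 k) (x : K) (T : ℝ), 1 ≤ T →
      Balanced lam T a → Balanced lam T b → Module.finrank k K = 2 * h + 2 →
      IntermediateField.adjoin k {x} = ⊤ →
      ev2 h (algebraMap k K a) (algebraMap k K b) x = 0 →
      |(NumberField.discr K : ℝ)| ≤ C * T ^ (Module.finrank ℚ k * (4 * h + 2)) := by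
  obtain ⟨C0, hC0, hC⟩ := discr_le_rel k (2 * h + 2)
  have hlam0 : 0 < lam := by linarith
  set X := an22_X h lam with hXdef
  set U := an22_U h lam with hUdef
  have hX1 : 1 ≤ X := by
    rw [hXdef]; unfold an22_X
    have : 0 ≤ |(dd2 h : ℝ)| * lam ^ 4 := by positivity
    linarith
  have hX0 : 0 < X := by linarith
  have hU0 : 0 < U := by
    rw [hUdef]; unfold an22_U; rw [← hXdef]; positivity
  set E : ℝ := ((h * (2 * h + 1) : ℕ) : ℝ) ^ (h + 1) * lam * X ^ (2 * h + 2) +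
    lam ^ 3 * X ^ (2 * h + 2) * U with hE
  have hE0 : 0 < E := by positivity
  refine ⟨C0 * E ^ ((2 * h + 1) * (2 * Module.finrank ℚ k)), by positivity, ?_⟩
  intro K _ _ _ a b x T hT hBa hBb hn hgen hx
  have hT0 : 0 < T := by linarith
  -- a and b are nonzero
  have hnz : ∀ c : 𝓞 k, Balanced lam T c → (c : k) ≠ 0 := by
    intro c hc h0
    obtain ⟨φ⟩ : Nonempty (k →+* ℂ) := inferInstance
    have := (hc φ).1
    rw [h0, map_zero, norm_zero, mul_zero] at this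
    linarith
  have ha0 : (a : k) ≠ 0 := hnz a hBa
  have hb0 : (b : k) ≠ 0 := hnz b hBb
  have hA0 : algebraMap k K a ≠ 0 := by simpa using ha0
  have hB0 : algebraMap k K b ≠ 0 := by simpa using hb0
  have hx0 : x ≠ 0 := an22_ne_zero hh hA0 hx
  have : FiniteDimensional k K := Module.finite_of_finrank_pos (by rw [hn]; omega)
  set ω : Fin (2 * h + 2) → K := fun j => aeval x (an22_poly h (a : k) (b : k) j) with hω
  have hint : ∀ c : 𝓞 k, IsIntegral ℤ (algebraMap k K c) := fun c =>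
    (RingOfIntegers.isIntegral_coe c).map (IsScalarTower.toAlgHom ℤ k K)
  have hωint : ∀ j, IsIntegral ℤ (ω j) := by
    intro j
    refine isIntegral_of_forall_ge fun P => ?_
    have hgA : Ge P 0 (algebraMap k K a) := ge_of_isIntegral P (hint a)
    have hgB : Ge P 0 (algebraMap k K b) := ge_of_isIntegral P (hint b)
    rw [hω]
    simp only [an22_aeval]
    split_ifs with h1 h2
    · have := ge_nat P (K := K) 1
      simpa using this
    · exact an22_int1 P hh hgA hgB hB0 hx0 hx h2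
    · have := j.2
      exact an22_int2 P hh hgA hgB hA0 hB0 hx0 hx (by omega) (by omega)
  have hli : LinearIndependent k ω := an22_linInd hh ha0 hb0 hn hgen
  have hbd : ∀ (φ : K →+* ℂ) (j : Fin (2 * h + 2)), ‖φ (ω j)‖ ≤
      (if (j : ℕ) = 0 then (1 : ℝ) else E * T) := by
    intro φ j
    have hφa := hBa (φ.comp (algebraMap k K))
    have hφb := hBb (φ.comp (algebraMap k K))
    rw [RingHom.comp_apply] at hφa hφb
    have hφx : ev2 h (φ (algebraMap k K a)) (φ (algebraMap k K b)) (φ x) = 0 := by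
      have := congrArg φ hx
      unfold ev2 at this ⊢
      simp only [map_sub, map_add, map_mul, map_pow, map_natCast, map_intCast, map_ofNat, map_one,
        map_zero] at this
      exact this
    have hxn : ‖φ x‖ ≤ X := an22_norm_x hh hlam hT hφa.2 hφb.1 hφx
    have hxpow : ∀ n : ℕ, n ≤ 2 * h + 2 → ‖φ x‖ ^ n ≤ X ^ (2 * h + 2) := fun n hn' =>
      (pow_le_pow_left₀ (norm_nonneg _) hxn n).trans (pow_le_pow_right₀ hX1 hn')
    have hj := j.2
    rw [hω]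
    simp only [an22_aeval]
    split_ifs with h1 h2
    · rw [map_one, norm_one]
    · rw [map_mul, map_mul, map_pow, map_pow, map_natCast, norm_mul, norm_mul, norm_pow, norm_pow,
        Complex.norm_natCast]
      calc ((h * (2 * h + 1) : ℕ) : ℝ) ^ (h + 1) * ‖φ (algebraMap k K b)‖ * ‖φ x‖ ^ (j : ℕ)
          ≤ ((h * (2 * h + 1) : ℕ) : ℝ) ^ (h + 1) * (lam * T) * X ^ (2 * h + 2) := by
            gcongr
            · exact hφb.2
            · exact hxpow _ (by omega)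
        _ = ((h * (2 * h + 1) : ℕ) : ℝ) ^ (h + 1) * lam * X ^ (2 * h + 2) * T := by ring
        _ ≤ E * T := by
            refine mul_le_mul_of_nonneg_right ?_ hT0.le
            rw [hE]
            have : 0 ≤ lam ^ 3 * X ^ (2 * h + 2) * U := by positivity
            linarith
    · have hu := an22_norm_u (h := h) hxn
      rw [← hUdef] at hu
      have hφ : φ ((h : K) * (2 * h + 1) * x ^ 2 - 4 * h * (h + 1) * x + (h + 1) * (2 * h + 1)) =
          (h : ℂ) * (2 * h + 1) * φ x ^ 2 - 4 * h * (h + 1) * φ x + (h + 1) * (2 * h + 1) := by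
        simp only [map_sub, map_add, map_mul, map_pow, map_natCast, map_ofNat, map_one]
      rw [map_div₀, map_mul, map_mul, map_pow, map_pow, hφ, norm_div, norm_mul, norm_mul, norm_pow,
        norm_pow]
      have hφa0 : 0 < ‖φ (algebraMap k K a)‖ := norm_pos_iff.2 (by simpa using hA0)
      rw [div_le_iff₀ hφa0]
      calc ‖φ (algebraMap k K b)‖ ^ 2 * ‖φ x‖ ^ ((j : ℕ) - 2) *
            ‖(h : ℂ) * (2 * h + 1) * φ x ^ 2 - 4 * h * (h + 1) * φ x + (h + 1) * (2 * h + 1)‖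
          ≤ (lam * T) ^ 2 * X ^ (2 * h + 2) * U := by
            gcongr
            · exact hφb.2
            · exact hxpow _ (by omega)
        _ = lam ^ 2 * X ^ (2 * h + 2) * U * T * T := by ring
        _ ≤ lam ^ 2 * X ^ (2 * h + 2) * U * T * (lam * ‖φ (algebraMap k K a)‖) :=
            mul_le_mul_of_nonneg_left hφa.1 (by positivity)
        _ = lam ^ 3 * X ^ (2 * h + 2) * U * T * ‖φ (algebraMap k K a)‖ := by ring
        _ ≤ E * T * ‖φ (algebraMap k K a)‖ := by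
            refine mul_le_mul_of_nonneg_right (mul_le_mul_of_nonneg_right ?_ hT0.le) hφa0.le
            rw [hE]
            have : 0 ≤ ((h * (2 * h + 1) : ℕ) : ℝ) ^ (h + 1) * lam * X ^ (2 * h + 2) := by
              positivity
            linarith
  have hfin := hC K hn ω hωint hli (fun j => if (j : ℕ) = 0 then (1 : ℝ) else E * T) hbd
  have hprod : (∏ j : Fin (2 * h + 2), (if (j : ℕ) = 0 then (1 : ℝ) else E * T)) =
      (E * T) ^ (2 * h + 1) := by
    rw [show (2 * h + 2) = (2 * h + 1) + 1 by ring, Fin.prod_univ_succ]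
    simp
  rw [hprod] at hfin
  refine hfin.trans (le_of_eq ?_)
  rw [← pow_mul, mul_pow]
  rw [show Module.finrank ℚ k * (4 * h + 2) = (2 * h + 1) * (2 * Module.finrank ℚ k) by ring]
  ring

end Pool.Agent.H35.AN
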