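import Pool.Agent.H35.AN.Defs
import Pool.Agent.H35.AN.Val
import Pool.Agent.H35.AN.Basic

/-!
# Project AN, row AN-11: the first family at primes dividing `a` or `b`
-/

set_option autoImplicit false

open Polynomial IsDedekindDomain NumberField

namespace Pool.Agent.H35.AN

section Loc

variable {K : Type*} [Field K] [NumberField K] (P : HeightOneSpectrum (𝓞 K))

theorem an11_c1 {h : ℕ} (hh : 2 ≤ h) (hu : UnitsUpTo P (2 * h + 2)) :
    (2 * (h : K) - 1) ≠ 0 ∧ ord P (2 * (h : K) - 1) = 0 := by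
  have h1 : (2 * (h : K) - 1) = ((2 * h - 1 : ℕ) : K) := by
    rw [Nat.cast_sub (by omega)]
    push_cast
    ring
  rw [h1]
  exact ⟨Nat.cast_ne_zero.mpr (by omega), hu _ (by omega) (by omega)⟩

theorem an11_c2 {h : ℕ} (hu : UnitsUpTo P (2 * h + 2)) :
    (2 * (h : K) + 1) ≠ 0 ∧ ord P (2 * (h : K) + 1) = 0 := by
  have h1 : (2 * (h : K) + 1) = ((2 * h + 1 : ℕ) : K) := by
    push_cast
    ring
  rw [h1]
  exact ⟨Nat.cast_ne_zero.mpr (by omega), hu _ (by omega) (by omega)⟩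

theorem an11_d {h : ℕ} (hh : 2 ≤ h) (hu : UnitsUpTo P (2 * h + 2)) :
    ((dd1 h : ℤ) : K) ≠ 0 ∧ ord P ((dd1 h : ℤ) : K) = 0 := by
  obtain ⟨h1, h2⟩ := an11_c1 P hh hu
  obtain ⟨h3, h4⟩ := an11_c2 P hu
  have h5 : ((dd1 h : ℤ) : K) = (-1) ^ h * ((2 * (h : K) + 1) * (2 * (h : K) - 1)) := by
    unfold dd1
    push_cast
    ring
  have h6 : ((-1 : K)) ^ h ≠ 0 := pow_ne_zero _ (by simp)
  have h7 : ord P ((-1 : K)) = 0 := by rw [ord_neg, ord_one]
  rw [h5]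
  refine ⟨mul_ne_zero h6 (mul_ne_zero h3 h1), ?_⟩
  rw [ord_mul P h6 (mul_ne_zero h3 h1), ord_mul P h3 h1, ord_pow, h7, h2, h4]
  ring

theorem an11_lin_pos {c c' x : K} (hc0 : c ≠ 0) (hc : ord P c = 0) (hc0' : c' ≠ 0)
    (hc' : ord P c' = 0) (hx : x ≠ 0) (ht : 0 < ord P x) :
    c * x - c' ≠ 0 ∧ ord P (c * x - c') = 0 := by
  have h1 : c * x - c' = -c' + c * x := by ring
  have h2 : ord P (-c') = 0 := by rw [ord_neg, hc']
  have h3 : Ge P (ord P (-c') + 1) (c * x) := by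
    rw [ge_iff P (mul_ne_zero hc0 hx), ord_mul P hc0 hx, h2, hc]
    omega
  have h4 := ord_add_eq P (neg_ne_zero.mpr hc0') h3
  rw [h1]
  exact ⟨h4.1, h4.2.trans h2⟩

theorem an11_lin_neg {c c' x : K} (hc0 : c ≠ 0) (hc : ord P c = 0) (hc0' : c' ≠ 0)
    (hc' : ord P c' = 0) (hx : x ≠ 0) (ht : ord P x < 0) :
    c * x - c' ≠ 0 ∧ ord P (c * x - c') = ord P x := by
  have h1 : c * x - c' = c * x + -c' := by ring
  have h2 : ord P (c * x) = ord P x := by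
    rw [ord_mul P hc0 hx, hc, zero_add]
  have h3 : Ge P (ord P (c * x) + 1) (-c') := by
    rw [ge_iff P (neg_ne_zero.mpr hc0'), ord_neg, hc', h2]
    omega
  have h4 := ord_add_eq P (mul_ne_zero hc0 hx) h3
  rw [h1]
  exact ⟨h4.1, h4.2.trans h2⟩

theorem an11_eq {h : ℕ} {d a b x u v : K} (hd0 : d ≠ 0) (hd : ord P d = 0) (ha : a ≠ 0)
    (hb : b ≠ 0) (hx : x ≠ 0) (hu : u ≠ 0) (hv : v ≠ 0)
    (he : b ^ 2 * x ^ (2 * h) * u + d * a ^ 2 * v = 0) :
    2 * ord P b + 2 * (h : ℤ) * ord P x + ord P u = 2 * ord P a + ord P v := by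
  have h1 : b ^ 2 * x ^ (2 * h) * u = -(d * a ^ 2 * v) := eq_neg_of_add_eq_zero_left he
  have h2 := congrArg (ord P) h1
  rw [ord_neg, ord_mul P (mul_ne_zero (pow_ne_zero _ hb) (pow_ne_zero _ hx)) hu,
    ord_mul P (pow_ne_zero _ hb) (pow_ne_zero _ hx), ord_pow, ord_pow,
    ord_mul P (mul_ne_zero hd0 (pow_ne_zero _ ha)) hv, ord_mul P hd0 (pow_ne_zero _ ha), ord_pow,
    hd] at h2
  push_cast at h2
  linarith

theorem an11_ne {h : ℕ} (hh : 2 ≤ h) (hu : UnitsUpTo P (2 * h + 2)) {a b x : K} (ha : a ≠ 0)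
    (hx : ev1 h a b x = 0) : x ≠ 0 := by
  rintro rfl
  obtain ⟨h1, -⟩ := an11_c1 P hh hu
  obtain ⟨h2, -⟩ := an11_d P hh hu
  unfold ev1 at hx
  rw [zero_pow (by omega), mul_zero, zero_mul, zero_add, mul_zero, zero_sub] at hx
  have h3 := mul_ne_zero (mul_ne_zero h2 (pow_ne_zero 2 ha)) (neg_ne_zero.mpr h1)
  exact h3 hx

theorem loc1_neg {h : ℕ} (hh : 2 ≤ h) (hu : UnitsUpTo P (2 * h + 2)) {a b x : K} {E : ℤ}
    (hE : 0 < E) (ha : a ≠ 0) (hb : b ≠ 0) (hoa : ord P a = 0) (hob : ord P b = E)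
    (hx : ev1 h a b x = 0) : x ≠ 0 ∧ (ord P x = 0 ∨ (h : ℤ) * ord P x = -E) := by
  have hx0 : x ≠ 0 := an11_ne P hh hu ha hx
  obtain ⟨h1, h2⟩ := an11_c1 P hh hu
  obtain ⟨h3, h4⟩ := an11_c2 P hu
  obtain ⟨h5, h6⟩ := an11_d P hh hu
  have hh' : (2 : ℤ) ≤ (h : ℤ) := by exact_mod_cast hh
  refine ⟨hx0, ?_⟩
  rcases lt_trichotomy (ord P x) 0 with ht | ht | ht
  · right
    obtain ⟨h7, h8⟩ := an11_lin_neg P h1 h2 h3 h4 hx0 ht
    obtain ⟨h9, h10⟩ := an11_lin_neg P h3 h4 h1 h2 hx0 ht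
    have h11 := an11_eq P h5 h6 ha hb hx0 h7 h9 hx
    rw [h8, h10, hoa, hob] at h11
    linarith
  · left
    exact ht
  · exfalso
    obtain ⟨h7, h8⟩ := an11_lin_pos P h1 h2 h3 h4 hx0 ht
    obtain ⟨h9, h10⟩ := an11_lin_pos P h3 h4 h1 h2 hx0 ht
    have h11 := an11_eq P h5 h6 ha hb hx0 h7 h9 hx
    rw [h8, h10, hoa, hob] at h11
    nlinarith

theorem loc1_pos {h : ℕ} (hh : 2 ≤ h) (hu : UnitsUpTo P (2 * h + 2)) {a b x : K} {E : ℤ}
    (hE : 0 < E) (ha : a ≠ 0) (hb : b ≠ 0) (hoa : ord P a = E) (hob : ord P b = 0)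
    (hx : ev1 h a b x = 0) : x ≠ 0 ∧ (ord P x = 0 ∨ (h : ℤ) * ord P x = E) := by
  have hx0 : x ≠ 0 := an11_ne P hh hu ha hx
  obtain ⟨h1, h2⟩ := an11_c1 P hh hu
  obtain ⟨h3, h4⟩ := an11_c2 P hu
  obtain ⟨h5, h6⟩ := an11_d P hh hu
  have hh' : (2 : ℤ) ≤ (h : ℤ) := by exact_mod_cast hh
  refine ⟨hx0, ?_⟩
  rcases lt_trichotomy (ord P x) 0 with ht | ht | ht
  · exfalso
    obtain ⟨h7, h8⟩ := an11_lin_neg P h1 h2 h3 h4 hx0 ht
    obtain ⟨h9, h10⟩ := an11_lin_neg P h3 h4 h1 h2 hx0 ht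
    have h11 := an11_eq P h5 h6 ha hb hx0 h7 h9 hx
    rw [h8, h10, hoa, hob] at h11
    nlinarith
  · left
    exact ht
  · right
    obtain ⟨h7, h8⟩ := an11_lin_pos P h1 h2 h3 h4 hx0 ht
    obtain ⟨h9, h10⟩ := an11_lin_pos P h3 h4 h1 h2 hx0 ht
    have h11 := an11_eq P h5 h6 ha hb hx0 h7 h9 hx
    rw [h8, h10, hoa, hob] at h11
    linarith

/-- exactly one root is a unit at `P` -/
theorem loc1_inf {k : Type*} [Field k] [Algebra k K] {h : ℕ} (hh : 2 ≤ h)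
    (hu : UnitsUpTo P (2 * h + 2)) {a b : k} {E : ℤ} (hE : 0 < E) (ha : a ≠ 0) (hb : b ≠ 0)
    (hoa : ord P (algebraMap k K a) = 0) (hob : ord P (algebraMap k K b) = E)
    (R : Roots k K (2 * h + 1) (F1 h a b)) :
    ∃ r, ord P (R.θ r) = 0 ∧ ∀ i, i ≠ r → (h : ℤ) * ord P (R.θ i) = -E := by
  have : CharZero k := (algebraMap k K).charZero
  have ha' : algebraMap k K a ≠ 0 := (_root_.map_ne_zero _).mpr ha
  have hb' : algebraMap k K b ≠ 0 := (_root_.map_ne_zero _).mpr hb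
  have hh' : (2 : ℤ) ≤ (h : ℤ) := by exact_mod_cast hh
  have hroot : ∀ i, ev1 h (algebraMap k K a) (algebraMap k K b) (R.θ i) = 0 := by
    intro i
    rw [← F1_eval]
    exact R.eval_root i
  have hi : ∀ i, R.θ i ≠ 0 ∧ (ord P (R.θ i) = 0 ∨ (h : ℤ) * ord P (R.θ i) = -E) := fun i =>
    loc1_neg P hh hu hE ha' hb' hoa hob (hroot i)
  obtain ⟨h1, h2⟩ := an11_c1 P hh hu
  obtain ⟨h5, h6⟩ := an11_d P hh hu
  -- the sum of the orders of the roots
  have hsum : ∑ i, ord P (R.θ i) = -(2 * E) := by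
    have e1 : ev1 h (algebraMap k K a) (algebraMap k K b) 0 =
        algebraMap k K (F1 h a b).leadingCoeff * ∏ i, (0 - R.θ i) := by
      rw [← F1_eval]
      exact R.eval_eq 0
    have e2 : ev1 h (algebraMap k K a) (algebraMap k K b) 0 =
        -((dd1 h : K) * (algebraMap k K a) ^ 2 * (2 * (h : K) - 1)) := by
      unfold ev1
      rw [zero_pow (by omega)]
      ring
    have e3 : algebraMap k K (F1 h a b).leadingCoeff =
        (2 * (h : K) - 1) * (algebraMap k K b) ^ 2 := by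
      rw [(F1_natDegree hh a hb).2, map_mul, map_sub, map_mul, map_ofNat, map_natCast, map_one,
        map_pow]
    have e4 : ∏ i, (0 - R.θ i) ≠ 0 := by
      rw [Finset.prod_ne_zero_iff]
      intro i _
      rw [zero_sub]
      exact neg_ne_zero.mpr (hi i).1
    have e5 : ord P (∏ i, (0 - R.θ i)) = ∑ i, ord P (R.θ i) := by
      rw [ord_prod P _ _ (fun i _ => by rw [zero_sub]; exact neg_ne_zero.mpr (hi i).1)]
      refine Finset.sum_congr rfl fun i _ => ?_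
      rw [zero_sub, ord_neg]
    have e6 := congrArg (ord P) (e2.symm.trans e1)
    rw [e3, ord_neg, ord_mul P (mul_ne_zero h5 (pow_ne_zero _ ha')) h1,
      ord_mul P h5 (pow_ne_zero _ ha'), ord_pow, h6, hoa, h2,
      ord_mul P (mul_ne_zero h1 (pow_ne_zero _ hb')) e4, ord_mul P h1 (pow_ne_zero _ hb'),
      ord_pow, h2, hob, e5] at e6
    push_cast at e6
    linarith
  classical
  set S : Finset (Fin (2 * h + 1)) := Finset.univ.filter fun i => ord P (R.θ i) ≠ 0 with hS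
  have hcard : S.card = 2 * h := by
    have e1 : ∑ i, (h : ℤ) * ord P (R.θ i) = ∑ i ∈ S, (-E) := by
      rw [hS, Finset.sum_filter]
      refine Finset.sum_congr rfl fun i _ => ?_
      by_cases h0 : ord P (R.θ i) = 0
      · rw [if_neg (by simpa using h0), h0, mul_zero]
      · rw [if_pos h0]
        exact (hi i).2.resolve_left h0
    rw [← Finset.mul_sum, hsum, Finset.sum_const, nsmul_eq_mul] at e1
    have e2 : E * ((S.card : ℤ) - 2 * (h : ℤ)) = 0 := by linarith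
    rcases mul_eq_zero.mp e2 with e3 | e3
    · omega
    · omega
  have hcompl : Sᶜ.card = 1 := by
    rw [Finset.card_compl, Fintype.card_fin, hcard]
    omega
  obtain ⟨r, hr⟩ := Finset.card_eq_one.mp hcompl
  refine ⟨r, ?_, ?_⟩
  · have e1 : r ∈ Sᶜ := by rw [hr]; exact Finset.mem_singleton_self r
    rw [Finset.mem_compl, hS, Finset.mem_filter] at e1
    by_contra h0
    exact e1 ⟨Finset.mem_univ r, h0⟩
  · intro i hir
    have e1 : i ∉ Sᶜ := by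
      rw [hr, Finset.mem_singleton]
      exact hir
    rw [Finset.mem_compl, not_not, hS, Finset.mem_filter] at e1
    exact (hi i).2.resolve_left e1.2

end Loc

end Pool.Agent.H35.AN
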