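import Pool.Agent.H35.AN.Defs
import Pool.Agent.H35.AN.Val

/-!
# Project AN, AN-13: Newton polygon of the first family at a prime dividing `2h+1`
-/

set_option autoImplicit false

open Polynomial IsDedekindDomain NumberField

namespace Pool.Agent.H35.AN

section Loc

variable {K : Type*} [Field K] [NumberField K] (P : HeightOneSpectrum (𝓞 K))

theorem small1 {h : ℕ} (hh : 2 ≤ h) {a b x : K} {V J : ℤ} (hV : 0 < V) (hJ : 0 ≤ J)
    (hV1 : ord P ((2 * h + 1 : ℕ) : K) = V) (ha : a ≠ 0) (hb : b ≠ 0) (hoa : ord P a = J)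
    (hob : ord P b = 0) (hlt : V + 2 * J < (2 * (h : ℤ) + 1) * V) (hx : ev1 h a b x = 0) :
    x ≠ 0 ∧ (2 * (h : ℤ) + 1) * ord P x = V + 2 * J := by
  -- the constants
  obtain ⟨r, hr, hrP⟩ := exists_rat_prime P
  have hrc : (r : ℤ) ∣ ((2 * h + 1 : ℕ) : ℤ) := by
    by_contra hcon
    have h1 := ord_int_unit P hr hrP hcon
    rw [Int.cast_natCast, hV1] at h1
    omega
  have hr2 : ¬ (r : ℤ) ∣ 2 := by
    intro h2
    have h3 : r ∣ 2 := by exact_mod_cast h2
    have h4 : r = 2 := (Nat.prime_dvd_prime_iff_eq hr Nat.prime_two).1 h3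
    rw [h4] at hrc
    have h5 : (2 : ℕ) ∣ 2 * h + 1 := by exact_mod_cast hrc
    omega
  have hre : ¬ (r : ℤ) ∣ (2 * (h : ℤ) - 1) := by
    intro h2
    apply hr2
    have h3 := dvd_sub hrc h2
    push_cast at h3
    have h4 : 2 * (h : ℤ) + 1 - (2 * (h : ℤ) - 1) = 2 := by ring
    rwa [h4] at h3
  have hoe : ord P ((2 : K) * h - 1) = 0 := by
    have h1 := ord_int_unit P hr hrP hre
    push_cast at h1
    exact h1
  set c : K := (2 : K) * h + 1 with hc
  set e : K := (2 : K) * h - 1 with he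
  have hoc : ord P c = V := by
    rw [← hV1]; push_cast; rfl
  have hc0 : c ≠ 0 := by
    intro h0
    rw [h0, ord_zero] at hoc
    omega
  have he0 : e ≠ 0 := by
    have h1 : ((2 * (h : ℤ) - 1 : ℤ) : K) ≠ 0 := by
      exact_mod_cast (show 2 * (h : ℤ) - 1 ≠ 0 by omega)
    push_cast at h1
    exact h1
  set s : K := (-1 : K) ^ h with hs
  have hs0 : s ≠ 0 := pow_ne_zero _ (by norm_num)
  have hos : ord P s = 0 := by
    rw [hs, ord_pow, ord_neg, ord_one, mul_zero]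
  have heq : b ^ 2 * e * x ^ (2 * h + 1) - c * b ^ 2 * x ^ (2 * h) + s * c ^ 2 * e * a ^ 2 * x -
      s * c * e ^ 2 * a ^ 2 = 0 := by
    rw [← hx]
    unfold ev1 dd1
    push_cast
    rw [← hc, ← he, ← hs]
    ring
  clear_value s c e
  have hx0 : x ≠ 0 := by
    intro h0
    rw [h0, zero_pow (by omega), zero_pow (by omega)] at heq
    have h1 : s * c * e ^ 2 * a ^ 2 = 0 := by linear_combination -heq
    exact mul_ne_zero (mul_ne_zero (mul_ne_zero hs0 hc0) (pow_ne_zero 2 he0)) (pow_ne_zero 2 ha) h1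
  refine ⟨hx0, ?_⟩
  set t := ord P x with ht
  -- the four terms
  set A1 := b ^ 2 * e * x ^ (2 * h + 1) with hA1
  set A2 := c * b ^ 2 * x ^ (2 * h) with hA2
  set A3 := s * c ^ 2 * e * a ^ 2 * x with hA3
  set A4 := s * c * e ^ 2 * a ^ 2 with hA4
  have n1 : A1 ≠ 0 := mul_ne_zero (mul_ne_zero (pow_ne_zero 2 hb) he0) (pow_ne_zero _ hx0)
  have n2 : A2 ≠ 0 := mul_ne_zero (mul_ne_zero hc0 (pow_ne_zero 2 hb)) (pow_ne_zero _ hx0)
  have n3 : A3 ≠ 0 := mul_ne_zero (mul_ne_zero (mul_ne_zero (mul_ne_zero hs0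
    (pow_ne_zero 2 hc0)) he0) (pow_ne_zero 2 ha)) hx0
  have n4 : A4 ≠ 0 := mul_ne_zero (mul_ne_zero (mul_ne_zero hs0 hc0) (pow_ne_zero 2 he0))
    (pow_ne_zero 2 ha)
  have o1 : ord P A1 = (2 * (h : ℤ) + 1) * t := by
    rw [hA1, ord_mul P (mul_ne_zero (pow_ne_zero 2 hb) he0) (pow_ne_zero _ hx0),
      ord_mul P (pow_ne_zero 2 hb) he0, ord_pow, ord_pow, hob, hoe]
    push_cast; ring
  have o2 : ord P A2 = V + 2 * (h : ℤ) * t := by
    rw [hA2, ord_mul P (mul_ne_zero hc0 (pow_ne_zero 2 hb)) (pow_ne_zero _ hx0),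
      ord_mul P hc0 (pow_ne_zero 2 hb), ord_pow, ord_pow, hob, hoc]
    push_cast; ring
  have o3 : ord P A3 = 2 * V + 2 * J + t := by
    rw [hA3, ord_mul P (mul_ne_zero (mul_ne_zero (mul_ne_zero hs0
      (pow_ne_zero 2 hc0)) he0) (pow_ne_zero 2 ha)) hx0,
      ord_mul P (mul_ne_zero (mul_ne_zero hs0 (pow_ne_zero 2 hc0)) he0) (pow_ne_zero 2 ha),
      ord_mul P (mul_ne_zero hs0 (pow_ne_zero 2 hc0)) he0,
      ord_mul P hs0 (pow_ne_zero 2 hc0), ord_pow, ord_pow, hos, hoc, hoe, hoa]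
    push_cast; ring
  have o4 : ord P A4 = V + 2 * J := by
    rw [hA4, ord_mul P (mul_ne_zero (mul_ne_zero hs0 hc0) (pow_ne_zero 2 he0)) (pow_ne_zero 2 ha),
      ord_mul P (mul_ne_zero hs0 hc0) (pow_ne_zero 2 he0),
      ord_mul P hs0 hc0, ord_pow, ord_pow, hos, hoc, hoe, hoa]
    push_cast; ring
  -- the first term cannot be alone minimal
  have hc1 : ¬ ((2 * (h : ℤ) + 1) * t < V + 2 * (h : ℤ) * t ∧
      (2 * (h : ℤ) + 1) * t < 2 * V + 2 * J + t ∧ (2 * (h : ℤ) + 1) * t < V + 2 * J) := by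
    rintro ⟨g2, g3, g4⟩
    refine ord_not_cancel P n1 (y := A2 - A3 + A4) (by linear_combination heq) ?_
    refine ge_add P (ge_sub P ?_ ?_) ?_
    · rw [ge_iff P n2, o1, o2]; omega
    · rw [ge_iff P n3, o1, o3]; omega
    · rw [ge_iff P n4, o1, o4]; omega
  have hc4 : ¬ (V + 2 * J < (2 * (h : ℤ) + 1) * t ∧ V + 2 * J < V + 2 * (h : ℤ) * t ∧
      V + 2 * J < 2 * V + 2 * J + t) := by
    rintro ⟨g1, g2, g3⟩
    refine ord_not_cancel P n4 (y := A1 - A2 + A3) (by linear_combination -heq) ?_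
    refine ge_add P (ge_sub P ?_ ?_) ?_
    · rw [ge_iff P n1, o4, o1]; omega
    · rw [ge_iff P n2, o4, o2]; omega
    · rw [ge_iff P n3, o4, o3]; omega
  have hh' : (2 : ℤ) ≤ (h : ℤ) := by exact_mod_cast hh
  rcases le_or_gt t 0 with h0 | h0
  · exfalso
    apply hc1
    refine ⟨by linarith, ?_, ?_⟩
    · nlinarith
    · nlinarith
  · rcases le_or_gt V t with hVt | hVt
    · exfalso
      apply hc4
      have h3 : (2 * (h : ℤ) + 1) * V ≤ (2 * (h : ℤ) + 1) * t :=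
        mul_le_mul_of_nonneg_left hVt (by positivity)
      have h4 : (2 * (h : ℤ)) * V ≤ (2 * (h : ℤ)) * t :=
        mul_le_mul_of_nonneg_left hVt (by positivity)
      refine ⟨by linarith, by linarith, by linarith⟩
    · rcases lt_trichotomy ((2 * (h : ℤ) + 1) * t) (V + 2 * J) with h1 | h1 | h1
      · exfalso
        exact hc1 ⟨by linarith, by linarith, h1⟩
      · exact h1
      · exfalso
        exact hc4 ⟨h1, by linarith, by linarith⟩

end Loc
end Pool.Agent.H35.AN
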