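import Pool.Agent.H35.AN.Defs

/-!
# Project AN, AN-16: Taylor coefficients of the two families at 1
-/

set_option autoImplicit false

open Polynomial IsDedekindDomain NumberField

namespace Pool.Agent.H35.AN

theorem an16_c2 (g : ℕ) : (2 * (g + 2)).choose 2 = (g + 2) * (2 * g + 3) := by
  rw [Nat.choose_two_right]
  refine Nat.div_eq_of_eq_mul_left (by norm_num) ?_
  have : 2 * (g + 2) - 1 = 2 * g + 3 := by omega
  rw [this]; ring

theorem an16_c2' (g : ℕ) : (2 * (g + 2) + 1).choose 2 = (2 * g + 5) * (g + 2) := by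
  rw [Nat.choose_two_right]
  refine Nat.div_eq_of_eq_mul_left (by norm_num) ?_
  have : 2 * (g + 2) + 1 - 1 = 2 * (g + 2) := by omega
  rw [this]; ring

theorem an16_c2'' (g : ℕ) : (2 * (g + 2) + 2).choose 2 = (g + 3) * (2 * g + 5) := by
  rw [Nat.choose_two_right]
  refine Nat.div_eq_of_eq_mul_left (by norm_num) ?_
  have : 2 * (g + 2) + 2 - 1 = 2 * g + 5 := by omega
  rw [this]; ring

theorem an16_c3 (g : ℕ) : (2 * (g + 2)).choose 3 * 3 = (2 * (g + 2)) * ((2 * g + 3) * (g + 1)) := by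
  have h := Nat.add_one_mul_choose_eq (2 * g + 3) 2
  have h2 : (2 * g + 3).choose 2 = (2 * g + 3) * (g + 1) := by
    rw [Nat.choose_two_right]
    refine Nat.div_eq_of_eq_mul_left (by norm_num) ?_
    have : 2 * g + 3 - 1 = 2 * (g + 1) := by omega
    rw [this]; ring
  rw [h2] at h
  have h3 : 2 * (g + 2) = 2 * g + 3 + 1 := by ring
  rw [h3]
  exact h.symm

theorem an16_c3' (g : ℕ) : (2 * (g + 2) + 1).choose 3 * 3 =
    (2 * g + 5) * ((g + 2) * (2 * g + 3)) := by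
  have h := Nat.add_one_mul_choose_eq (2 * (g + 2)) 2
  rw [an16_c2] at h
  rw [← h]
  ring

theorem an16_c3'' (g : ℕ) : (2 * (g + 2) + 2).choose 3 * 3 =
    (2 * (g + 2) + 2) * ((2 * g + 5) * (g + 2)) := by
  have h := Nat.add_one_mul_choose_eq (2 * (g + 2) + 1) 2
  rw [an16_c2'] at h
  rw [← h]

theorem an16_coeff {R : Type*} [CommRing R] (c : R) (n j : ℕ) :
    (taylor 1 (C c * X ^ n)).coeff j = c * (n.choose j : R) := by
  rw [taylor_mul, taylor_C, taylor_pow, taylor_X, coeff_C_mul, map_one, coeff_X_add_one_pow]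

theorem an16_F1 {R : Type*} [CommRing R] (h : ℕ) (a b : R) :
    F1 h a b = C (b ^ 2 * (2 * (h : R) - 1)) * X ^ (2 * h + 1) -
      C (b ^ 2 * (2 * (h : R) + 1)) * X ^ (2 * h) +
      C ((dd1 h : R) * a ^ 2 * (2 * (h : R) + 1)) * X ^ 1 -
      C ((dd1 h : R) * a ^ 2 * (2 * (h : R) - 1)) * X ^ 0 := by
  unfold F1
  simp only [map_mul, pow_succ, pow_zero, mul_one]
  ring

theorem an16_F2 {R : Type*} [CommRing R] (h : ℕ) (a b : R) :
    F2 h a b = C (b ^ 2 * ((h : R) * (2 * h + 1))) * X ^ (2 * h + 2) -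
      C (b ^ 2 * (4 * (h : R) * (h + 1))) * X ^ (2 * h + 1) +
      C (b ^ 2 * (((h : R) + 1) * (2 * h + 1))) * X ^ (2 * h) -
      C ((dd2 h : R) * a ^ 2) * X ^ 0 := by
  unfold F2
  rw [C_mul (a := b ^ 2), C_mul (a := b ^ 2), C_mul (a := b ^ 2)]
  ring

theorem taylor1 {R : Type*} [CommRing R] {h : ℕ} (hh : 2 ≤ h) (a b : R) :
    (taylor 1 (F1 h a b)).coeff 0 = -2 * (b ^ 2 - (dd1 h : R) * a ^ 2) ∧
    (taylor 1 (F1 h a b)).coeff 1 = -(2 * h + 1) * (b ^ 2 - (dd1 h : R) * a ^ 2) ∧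
    (taylor 1 (F1 h a b)).coeff 2 = 0 ∧
    3 * (taylor 1 (F1 h a b)).coeff 3 = b ^ 2 * ((2 * h + 1) * h * (2 * h - 1)) := by
  obtain ⟨g, rfl⟩ := Nat.exists_eq_add_of_le' hh
  rw [an16_F1]
  simp only [map_add, map_sub, coeff_add, coeff_sub, an16_coeff]
  have e2 := congrArg (Nat.cast : ℕ → R) (an16_c2 g)
  have e2' := congrArg (Nat.cast : ℕ → R) (an16_c2' g)
  have e3 := congrArg (Nat.cast : ℕ → R) (an16_c3 g)
  have e3' := congrArg (Nat.cast : ℕ → R) (an16_c3' g)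
  push_cast at e2 e2' e3 e3'
  refine ⟨?_, ?_, ?_, ?_⟩
  · simp only [Nat.choose_zero_right]; push_cast; ring
  · simp only [Nat.choose_one_right]; push_cast; ring
  · rw [e2, e2', Nat.choose_eq_zero_of_lt (show 1 < 2 by norm_num),
      Nat.choose_eq_zero_of_lt (show 0 < 2 by norm_num)]
    push_cast; ring
  · rw [Nat.choose_eq_zero_of_lt (show 1 < 3 by norm_num),
      Nat.choose_eq_zero_of_lt (show 0 < 3 by norm_num)]
    push_cast
    linear_combination (b ^ 2 * (2 * ((g : R) + 2) - 1)) * e3' - (b ^ 2 * (2 * ((g : R) + 2) + 1)) * e3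

theorem taylor2 {R : Type*} [CommRing R] {h : ℕ} (hh : 2 ≤ h) (a b : R) :
    (taylor 1 (F2 h a b)).coeff 0 = b ^ 2 - (dd2 h : R) * a ^ 2 ∧
    (taylor 1 (F2 h a b)).coeff 1 = 0 ∧
    (taylor 1 (F2 h a b)).coeff 2 = 0 ∧
    3 * (taylor 1 (F2 h a b)).coeff 3 = b ^ 2 * (2 * h * (h + 1) * (2 * h + 1)) := by
  obtain ⟨g, rfl⟩ := Nat.exists_eq_add_of_le' hh
  rw [an16_F2]
  simp only [map_add, map_sub, coeff_add, coeff_sub, an16_coeff]
  have e2 := congrArg (Nat.cast : ℕ → R) (an16_c2 g)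
  have e2' := congrArg (Nat.cast : ℕ → R) (an16_c2' g)
  have e2'' := congrArg (Nat.cast : ℕ → R) (an16_c2'' g)
  have e3 := congrArg (Nat.cast : ℕ → R) (an16_c3 g)
  have e3' := congrArg (Nat.cast : ℕ → R) (an16_c3' g)
  have e3'' := congrArg (Nat.cast : ℕ → R) (an16_c3'' g)
  push_cast at e2 e2' e2'' e3 e3' e3''
  refine ⟨?_, ?_, ?_, ?_⟩
  · simp only [Nat.choose_zero_right]; push_cast; ring
  · rw [Nat.choose_eq_zero_of_lt (show 0 < 1 by norm_num)]
    simp only [Nat.choose_one_right]; push_cast; ring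
  · rw [e2, e2', e2'', Nat.choose_eq_zero_of_lt (show 0 < 2 by norm_num)]
    push_cast; ring
  · rw [Nat.choose_eq_zero_of_lt (show 0 < 3 by norm_num)]
    push_cast
    linear_combination (b ^ 2 * (((g : R) + 2) * (2 * ((g : R) + 2) + 1))) * e3'' -
      (b ^ 2 * (4 * ((g : R) + 2) * ((g : R) + 2 + 1))) * e3' +
      (b ^ 2 * (((g : R) + 2 + 1) * (2 * ((g : R) + 2) + 1))) * e3

end Pool.Agent.H35.AN
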