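import Pool.Agent.H35.AN.Defs
import Pool.Agent.H35.AN.Val
import Pool.Agent.H35.AN.Tower
import Pool.Agent.H35.AN.Basic
import Pool.Agent.H35.AN.ThreeCycle
import Pool.Agent.H35.AN.Taylor

/-!
# Project AN (MP_a3214d), row AN-17: three-cycles in the Galois groups of the two families
-/

set_option autoImplicit false

open Polynomial IsDedekindDomain NumberField

namespace Pool.Agent.H35.AN

section Sub

variable {K : Type*} [Field K] [NumberField K] (P : HeightOneSpectrum (𝓞 K))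

theorem an17_ge_one : Ge P 0 (1 : K) := by
  have := ge_int (K := K) P 1
  simpa using this

theorem an17_mul {x y : K} (hx : Ge P 0 x) (hy : Ge P 0 y) : Ge P 0 (x * y) := by
  have := ge_mul P hx hy
  simpa using this

/-- the local ring at `P` as a subring -/
def an17_sub : Subring K where
  carrier := {x | Ge P 0 x}
  mul_mem' := fun {_ _} hx hy => an17_mul P hx hy
  one_mem' := an17_ge_one P
  add_mem' := fun {_ _} hx hy => ge_add P hx hy
  zero_mem' := ge_zero P 0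
  neg_mem' := fun {_} hx => ge_neg P hx

theorem an17_mem {x : K} : x ∈ an17_sub P ↔ Ge P 0 x := Iff.rfl

theorem an17_ge_of_ord {x : K} (hx : ord P x = 0) : Ge P 0 x := by
  by_cases h : x = 0
  · rw [h]; exact ge_zero P 0
  · rw [ge_iff P h, hx]

theorem an17_unit {N m : ℕ} (hu : UnitsUpTo P N) (h0 : 0 < m) (hm : m ≤ N) :
    (m : K) ≠ 0 ∧ ord P (m : K) = 0 :=
  ⟨Nat.cast_ne_zero.2 h0.ne', hu m h0 hm⟩

theorem an17_ord_sign (n : ℕ) : ord P ((-1 : K) ^ n) = 0 := by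
  rw [ord_pow, ord_neg, ord_one, mul_zero]

theorem an17_umul {x y : K} (hx : x ≠ 0 ∧ ord P x = 0) (hy : y ≠ 0 ∧ ord P y = 0) :
    x * y ≠ 0 ∧ ord P (x * y) = 0 :=
  ⟨mul_ne_zero hx.1 hy.1, by rw [ord_mul P hx.1 hy.1, hx.2, hy.2]; norm_num⟩

theorem an17_upow {x : K} (hx : x ≠ 0 ∧ ord P x = 0) (n : ℕ) :
    x ^ n ≠ 0 ∧ ord P (x ^ n) = 0 :=
  ⟨pow_ne_zero _ hx.1, by rw [ord_pow, hx.2, mul_zero]⟩

theorem an17_uneg {x : K} (hx : x ≠ 0 ∧ ord P x = 0) :
    -x ≠ 0 ∧ ord P (-x) = 0 :=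
  ⟨neg_ne_zero.2 hx.1, by rw [ord_neg, hx.2]⟩

/-- the constants of the two families are units at `P` -/
theorem an17_consts {h : ℕ} (hh : 2 ≤ h) (hu : UnitsUpTo P (2 * h + 2)) :
    ((2 * (h : K) - 1) ≠ 0 ∧ ord P (2 * (h : K) - 1) = 0) ∧
    ((2 * (h : K) + 1) ≠ 0 ∧ ord P (2 * (h : K) + 1) = 0) ∧
    ((h : K) ≠ 0 ∧ ord P (h : K) = 0) ∧
    (((h : K) + 1) ≠ 0 ∧ ord P ((h : K) + 1) = 0) ∧
    ((2 : K) ≠ 0 ∧ ord P (2 : K) = 0) ∧ ((3 : K) ≠ 0 ∧ ord P (3 : K) = 0) ∧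
    (((dd1 h : ℤ) : K) ≠ 0 ∧ ord P ((dd1 h : ℤ) : K) = 0) ∧
    (((dd2 h : ℤ) : K) ≠ 0 ∧ ord P ((dd2 h : ℤ) : K) = 0) := by
  have h1 := an17_unit P hu (m := 2 * h - 1) (by omega) (by omega)
  have h2 := an17_unit P hu (m := 2 * h + 1) (by omega) (by omega)
  have h3 := an17_unit P hu (m := h) (by omega) (by omega)
  have h4 := an17_unit P hu (m := h + 1) (by omega) (by omega)
  have h5 := an17_unit P hu (m := 2) (by omega) (by omega)
  have h6 := an17_unit P hu (m := 3) (by omega) (by omega)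
  have e1 : ((2 * h - 1 : ℕ) : K) = 2 * (h : K) - 1 := by
    rw [Nat.cast_sub (by omega)]; push_cast; ring
  have e2 : ((2 * h + 1 : ℕ) : K) = 2 * (h : K) + 1 := by push_cast; ring
  have e4 : ((h + 1 : ℕ) : K) = (h : K) + 1 := by push_cast; ring
  rw [e1] at h1
  rw [e2] at h2
  rw [e4] at h4
  have hs : ((-1 : K) ^ h) ≠ 0 ∧ ord P ((-1 : K) ^ h) = 0 :=
    ⟨pow_ne_zero _ (neg_ne_zero.2 one_ne_zero), an17_ord_sign P h⟩
  refine ⟨h1, h2, h3, h4, by simpa using h5, by simpa using h6, ?_, ?_⟩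
  · have e : ((dd1 h : ℤ) : K) = (-1) ^ h * ((2 * h + 1) * (2 * h - 1)) := by
      rw [dd1]; push_cast; ring
    rw [e]
    exact an17_umul P hs (an17_umul P h2 h1)
  · have e : ((dd2 h : ℤ) : K) = (-1) ^ h * (h * (2 * h + 1)) := by
      rw [dd2]; push_cast; ring
    rw [e]
    exact an17_umul P hs (an17_umul P h3 h2)

theorem an17_not_ge {x : K} (hx : x ≠ 0 ∧ ord P x = 0) : ¬ Ge P 1 x := by
  rw [ge_iff P hx.1, hx.2]; norm_num

end Sub

theorem an17_map1 {R S : Type*} [CommRing R] [CommRing S] (f : R →+* S) (h : ℕ) (a b : R) :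
    (F1 h a b).map f = F1 h (f a) (f b) := by
  have h2 : f 2 = 2 := map_ofNat f 2
  simp [F1, h2]

theorem an17_map2 {R S : Type*} [CommRing R] [CommRing S] (f : R →+* S) (h : ℕ) (a b : R) :
    (F2 h a b).map f = F2 h (f a) (f b) := by
  have h2 : f 2 = 2 := map_ofNat f 2
  have h4 : f 4 = 4 := map_ofNat f 4
  simp [F2, h2, h4]

theorem an17_coeff1 {K : Type*} [Field K] [NumberField K] (P : HeightOneSpectrum (𝓞 K)) (h : ℕ)
    {a b : K} (ha : Ge P 0 a) (hb : Ge P 0 b) (i : ℕ) : Ge P 0 ((F1 h a b).coeff i) := by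
  have e : F1 h a b = (F1 h (⟨a, ha⟩ : an17_sub P) ⟨b, hb⟩).map (an17_sub P).subtype := by
    rw [an17_map1]; rfl
  rw [e, coeff_map]
  exact ((F1 h (⟨a, ha⟩ : an17_sub P) ⟨b, hb⟩).coeff i).2

theorem an17_coeff2 {K : Type*} [Field K] [NumberField K] (P : HeightOneSpectrum (𝓞 K)) (h : ℕ)
    {a b : K} (ha : Ge P 0 a) (hb : Ge P 0 b) (i : ℕ) : Ge P 0 ((F2 h a b).coeff i) := by
  have e : F2 h a b = (F2 h (⟨a, ha⟩ : an17_sub P) ⟨b, hb⟩).map (an17_sub P).subtype := by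
    rw [an17_map2]; rfl
  rw [e, coeff_map]
  exact ((F2 h (⟨a, ha⟩ : an17_sub P) ⟨b, hb⟩).coeff i).2

/-- roots of the first family are units at `P` if the parameters are -/
theorem an17_root1 {K : Type*} [Field K] [NumberField K] (P : HeightOneSpectrum (𝓞 K)) {h : ℕ}
    (hh : 2 ≤ h) (hu : UnitsUpTo P (2 * h + 2)) {a b x : K} (ha : a ≠ 0 ∧ ord P a = 0)
    (hb : b ≠ 0 ∧ ord P b = 0) (hx : ev1 h a b x = 0) : x ≠ 0 ∧ ord P x = 0 := by
  obtain ⟨c1, c2, c3, c4, c5, c6, d1, d2⟩ := an17_consts P hh hu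
  have hx0 : x ≠ 0 := by
    rintro rfl
    have h2 : (2 * h) ≠ 0 := by omega
    rw [ev1, zero_pow h2] at hx
    have h3 : ((dd1 h : ℤ) : K) * a ^ 2 * (2 * h - 1) ≠ 0 :=
      mul_ne_zero (mul_ne_zero d1.1 (pow_ne_zero _ ha.1)) c1.1
    apply h3
    linear_combination -hx
  refine ⟨hx0, ?_⟩
  have hda := an17_umul P d1 (an17_upow P ha 2)
  have hb2 := an17_upow P hb 2
  -- the equation
  have heq : b ^ 2 * x ^ (2 * h) * ((2 * h - 1) * x - (2 * h + 1)) =
      -((dd1 h : K) * a ^ 2 * ((2 * h + 1) * x - (2 * h - 1))) := by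
    rw [ev1] at hx; linear_combination hx
  by_contra hne
  rcases lt_or_gt_of_ne hne with ht | ht
  · -- `x` has a pole
    have h1 : (2 * (h : K) - 1) * x ≠ 0 := mul_ne_zero c1.1 hx0
    have o1 : ord P ((2 * (h : K) - 1) * x) = ord P x := by
      rw [ord_mul P c1.1 hx0, c1.2, zero_add]
    have h2 := ord_add_eq P (x := (2 * (h : K) - 1) * x) (y := -(2 * (h : K) + 1)) h1 (by
      rw [ge_iff P (neg_ne_zero.2 c2.1), ord_neg, c2.2, o1]; omega)
    rw [← sub_eq_add_neg, o1] at h2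
    have h3 : b ^ 2 * x ^ (2 * h) ≠ 0 := mul_ne_zero hb2.1 (pow_ne_zero _ hx0)
    have hL : ord P (b ^ 2 * x ^ (2 * h) * ((2 * h - 1) * x - (2 * h + 1))) =
        (2 * (h : ℤ) + 1) * ord P x := by
      rw [ord_mul P h3 h2.1, ord_mul P hb2.1 (pow_ne_zero _ hx0), hb2.2, ord_pow, h2.2]
      push_cast; ring
    have hL0 : b ^ 2 * x ^ (2 * h) * ((2 * h - 1) * x - (2 * h + 1)) ≠ 0 := mul_ne_zero h3 h2.1
    have hR : Ge P (ord P x) (-((dd1 h : K) * a ^ 2 * ((2 * h + 1) * x - (2 * h - 1)))) := by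
      apply ge_neg
      have g1 : Ge P (ord P x) ((2 * (h : K) + 1) * x - (2 * h - 1)) := by
        apply ge_sub
        · rw [ge_iff P (mul_ne_zero c2.1 hx0), ord_mul P c2.1 hx0, c2.2, zero_add]
        · rw [ge_iff P c1.1, c1.2]; exact ht.le
      have g2 := ge_mul P (an17_ge_of_ord P hda.2) g1
      rwa [zero_add] at g2
    rw [← heq, ge_iff P hL0, hL] at hR
    have hh' : (2 : ℤ) ≤ h := by exact_mod_cast hh
    nlinarith
  · -- `x` has a zero
    have h2 := ord_add_eq P (x := -(2 * (h : K) - 1)) (y := (2 * (h : K) + 1) * x)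
      (neg_ne_zero.2 c1.1) (by
      rw [ge_iff P (mul_ne_zero c2.1 hx0), ord_neg, c1.2, ord_mul P c2.1 hx0, c2.2]; omega)
    rw [neg_add_eq_sub, ord_neg, c1.2] at h2
    have hR := an17_umul P hda h2
    have hR' := an17_uneg P hR
    have hL : Ge P 1 (b ^ 2 * x ^ (2 * h) * ((2 * h - 1) * x - (2 * h + 1))) := by
      have g1 : Ge P 1 (x ^ (2 * h)) := by
        rw [ge_iff P (pow_ne_zero _ hx0), ord_pow]
        push_cast
        have hh' : (2 : ℤ) ≤ h := by exact_mod_cast hh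
        nlinarith
      have g2 : Ge P 0 ((2 * (h : K) - 1) * x - (2 * h + 1)) := by
        apply ge_sub
        · rw [ge_iff P (mul_ne_zero c1.1 hx0), ord_mul P c1.1 hx0, c1.2]; omega
        · exact an17_ge_of_ord P c2.2
      have g3 := ge_mul P (ge_mul P (an17_ge_of_ord P hb2.2) g1) g2
      simpa using g3
    rw [heq] at hL
    exact an17_not_ge P hR' hL

/-- roots of the second family are units at `P` if the parameters are -/
theorem an17_root2 {K : Type*} [Field K] [NumberField K] (P : HeightOneSpectrum (𝓞 K)) {h : ℕ}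
    (hh : 2 ≤ h) (hu : UnitsUpTo P (2 * h + 2)) {a b x : K} (ha : a ≠ 0 ∧ ord P a = 0)
    (hb : b ≠ 0 ∧ ord P b = 0) (hx : ev2 h a b x = 0) : x ≠ 0 ∧ ord P x = 0 := by
  obtain ⟨c1, c2, c3, c4, c5, c6, d1, d2⟩ := an17_consts P hh hu
  have hx0 : x ≠ 0 := by
    rintro rfl
    have h2 : (2 * h) ≠ 0 := by omega
    rw [ev2, zero_pow h2] at hx
    have h3 : ((dd2 h : ℤ) : K) * a ^ 2 ≠ 0 := mul_ne_zero d2.1 (pow_ne_zero _ ha.1)
    apply h3
    linear_combination -hx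
  refine ⟨hx0, ?_⟩
  have hda := an17_umul P d2 (an17_upow P ha 2)
  have hb2 := an17_upow P hb 2
  have hc := an17_umul P c3 c2
  have hc4 := an17_umul P c4 c2
  have h4 : (4 : K) ≠ 0 ∧ ord P (4 : K) = 0 := by
    have := an17_unit P hu (m := 4) (by omega) (by omega)
    simpa using this
  have hm := an17_umul P (an17_umul P h4 c3) c4
  have heq : b ^ 2 * x ^ (2 * h) * (h * (2 * h + 1) * x ^ 2 - 4 * h * (h + 1) * x +
      (h + 1) * (2 * h + 1)) = (dd2 h : K) * a ^ 2 := by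
    rw [ev2] at hx; linear_combination hx
  by_contra hne
  rcases lt_or_gt_of_ne hne with ht | ht
  · have h1 : (h * (2 * h + 1) : K) * x ^ 2 ≠ 0 := mul_ne_zero hc.1 (pow_ne_zero _ hx0)
    have o1 : ord P ((h * (2 * h + 1) : K) * x ^ 2) = 2 * ord P x := by
      rw [ord_mul P hc.1 (pow_ne_zero _ hx0), hc.2, ord_pow]; push_cast; ring
    have h2 := ord_add_eq P (x := (h * (2 * h + 1) : K) * x ^ 2)
      (y := -(4 * (h : K) * (h + 1) * x) + (h + 1) * (2 * h + 1)) h1 (by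
      rw [o1]
      apply ge_add
      · apply ge_neg
        rw [ge_iff P (mul_ne_zero hm.1 hx0), ord_mul P hm.1 hx0, hm.2]; omega
      · rw [ge_iff P hc4.1, hc4.2]; omega)
    rw [o1] at h2
    have e2 : (h * (2 * h + 1) : K) * x ^ 2 + (-(4 * (h : K) * (h + 1) * x) + (h + 1) * (2 * h + 1))
        = h * (2 * h + 1) * x ^ 2 - 4 * h * (h + 1) * x + (h + 1) * (2 * h + 1) := by ring
    rw [e2] at h2
    have h3 : b ^ 2 * x ^ (2 * h) ≠ 0 := mul_ne_zero hb2.1 (pow_ne_zero _ hx0)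
    have hL : ord P (b ^ 2 * x ^ (2 * h) * (h * (2 * h + 1) * x ^ 2 - 4 * h * (h + 1) * x +
        (h + 1) * (2 * h + 1))) = (2 * (h : ℤ) + 2) * ord P x := by
      rw [ord_mul P h3 h2.1, ord_mul P hb2.1 (pow_ne_zero _ hx0), hb2.2, ord_pow, h2.2]
      push_cast; ring
    rw [heq, hda.2] at hL
    have hh' : (2 : ℤ) ≤ h := by exact_mod_cast hh
    nlinarith
  · have hL : Ge P 1 (b ^ 2 * x ^ (2 * h) * (h * (2 * h + 1) * x ^ 2 - 4 * h * (h + 1) * x +
        (h + 1) * (2 * h + 1))) := by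
      have g1 : Ge P 1 (x ^ (2 * h)) := by
        rw [ge_iff P (pow_ne_zero _ hx0), ord_pow]
        push_cast
        have hh' : (2 : ℤ) ≤ h := by exact_mod_cast hh
        nlinarith
      have gx : Ge P 0 x := by rw [ge_iff P hx0]; exact ht.le
      have g2 : Ge P 0 (h * (2 * h + 1) * x ^ 2 - 4 * h * (h + 1) * x +
          (h + 1) * (2 * h + 1) : K) := by
        apply ge_add
        · apply ge_sub
          · exact an17_mul P (an17_ge_of_ord P hc.2) (by rw [sq]; exact an17_mul P gx gx)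
          · exact an17_mul P (an17_ge_of_ord P hm.2) gx
        · exact an17_ge_of_ord P hc4.2
      have g3 := ge_mul P (ge_mul P (an17_ge_of_ord P hb2.2) g1) g2
      simpa using g3
    rw [heq] at hL
    exact an17_not_ge P hda hL

section Main

variable {k L : Type} [Field k] [NumberField k] [Field L] [NumberField L] [Algebra k L]
  [IsGalois k L]

omit [IsGalois k L] in
theorem an17_above {a : k} {q : HeightOneSpectrum (𝓞 k)} (ha : a ≠ 0 ∧ ord q a = 0)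
    {P : HeightOneSpectrum (𝓞 L)} (hP : below k P = q) :
    algebraMap k L a ≠ 0 ∧ ord P (algebraMap k L a) = 0 :=
  ⟨(_root_.map_ne_zero _).2 ha.1, by rw [ord_algebraMap, hP, ha.2, mul_zero]⟩

theorem three_cycle1 {h : ℕ} (hh : 2 ≤ h) {a b : k} (ha : a ≠ 0) (hb : b ≠ 0)
    (R : Roots k L (2 * h + 1) (F1 h a b))
    (hgen : IntermediateField.adjoin k (Set.range R.θ) = ⊤) (q : HeightOneSpectrum (𝓞 k))
    (hu : UnitsUpTo q (2 * h + 2)) (hqa : ord q a = 0) (hqb : ord q b = 0)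
    (hab : ord q (b ^ 2 - (dd1 h : k) * a ^ 2) = 1) :
    ∃ σ : L ≃ₐ[k] L, (R.permHom σ).IsThreeCycle := by
  obtain ⟨c1, c2, c3, c4, c5, c6, d1, d2⟩ := an17_consts q hh hu
  obtain ⟨-, hlc⟩ := F1_natDegree hh a hb
  obtain ⟨t0, t1, t2, t3⟩ := taylor1 (R := k) hh a b
  have hb2 := an17_upow q ⟨hb, hqb⟩ 2
  have hne : b ^ 2 - (dd1 h : k) * a ^ 2 ≠ 0 := by
    intro h0; rw [h0, ord_zero] at hab; norm_num at hab
  have h3 : (taylor 1 (F1 h a b)).coeff 3 ≠ 0 ∧ ord q ((taylor 1 (F1 h a b)).coeff 3) = 0 := by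
    have hr := an17_umul q hb2 (an17_umul q (an17_umul q c2 c3) c1)
    rw [← t3] at hr
    have hz : (taylor 1 (F1 h a b)).coeff 3 ≠ 0 := right_ne_zero_of_mul hr.1
    refine ⟨hz, ?_⟩
    have := hr.2
    rw [ord_mul q c6.1 hz, c6.2, zero_add] at this
    exact this
  refine exists_three_cycle R hgen q
    (an17_coeff1 q h (an17_ge_of_ord q hqa) (an17_ge_of_ord q hqb)) ?_ ?_ ?_ t2 h3.1 h3.2 ?_
  · rw [hlc]; exact (an17_umul q c1 hb2).2
  · rw [t0, ord_mul q (neg_ne_zero.2 c5.1) hne, ord_neg, c5.2, hab, zero_add]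
  · rw [t1]
    have h5 := neg_ne_zero.2 c2.1
    have e : ((-(2 * (h : k) + 1)) * (b ^ 2 - (dd1 h : k) * a ^ 2)) ≠ 0 := mul_ne_zero h5 hne
    rw [ge_iff q e, ord_mul q h5 hne, ord_neg, c2.2, hab]
    norm_num
  · intro P hP i hi1 hi2 hge
    have hP' : UnitsUpTo P (2 * h + 2) := unitsUpTo_below P (hP ▸ hu)
    have hA := an17_above (L := L) ⟨ha, hqa⟩ hP
    have hB := an17_above (L := L) ⟨hb, hqb⟩ hP
    have hev : ev1 h (algebraMap k L a) (algebraMap k L b) (R.θ i) = 0 := by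
      rw [← F1_eval]; exact R.eval_root i
    have hx := an17_root1 P hh hP' hA hB hev
    obtain ⟨e1, e2, e3, e4, e5, e6, -, -⟩ := an17_consts P hh hP'
    have hd := F1_deriv (algebraMap k L) hh a b hev
    have hx1 : (R.θ i - 1) ≠ 0 ∧ ord P (R.θ i - 1) = 0 := ⟨sub_ne_zero.2 hi1, hi2⟩
    have hW := an17_uneg P (an17_umul P (an17_umul P (an17_umul P (an17_upow P hB 2)
      (an17_umul P (an17_umul P e2 (an17_umul P e5 e3)) e1)) (an17_upow P hx (2 * h - 1)))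
      (an17_upow P hx1 2))
    rw [← hd] at hW
    refine an17_not_ge P hW ?_
    have g1 : Ge P 0 ((2 * (h : L) - 1) - (2 * h + 1) * R.θ i) := by
      apply ge_sub
      · exact an17_ge_of_ord P e1.2
      · exact an17_ge_of_ord P (an17_umul P e2 hx).2
    have g2 := ge_mul P hge g1
    simpa using g2

theorem three_cycle2 {h : ℕ} (hh : 2 ≤ h) {a b : k} (ha : a ≠ 0) (hb : b ≠ 0)
    (R : Roots k L (2 * h + 2) (F2 h a b))
    (hgen : IntermediateField.adjoin k (Set.range R.θ) = ⊤) (q : HeightOneSpectrum (𝓞 k))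
    (hu : UnitsUpTo q (2 * h + 2)) (hqa : ord q a = 0) (hqb : ord q b = 0)
    (hab : ord q (b ^ 2 - (dd2 h : k) * a ^ 2) = 1) :
    ∃ σ : L ≃ₐ[k] L, (R.permHom σ).IsThreeCycle := by
  obtain ⟨c1, c2, c3, c4, c5, c6, d1, d2⟩ := an17_consts q hh hu
  obtain ⟨-, hlc⟩ := F2_natDegree hh a hb
  obtain ⟨t0, t1, t2, t3⟩ := taylor2 (R := k) hh a b
  have hb2 := an17_upow q ⟨hb, hqb⟩ 2
  have h3 : (taylor 1 (F2 h a b)).coeff 3 ≠ 0 ∧ ord q ((taylor 1 (F2 h a b)).coeff 3) = 0 := by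
    have hr := an17_umul q hb2 (an17_umul q (an17_umul q (an17_umul q c5 c3) c4) c2)
    rw [← t3] at hr
    have hz : (taylor 1 (F2 h a b)).coeff 3 ≠ 0 := right_ne_zero_of_mul hr.1
    refine ⟨hz, ?_⟩
    have := hr.2
    rw [ord_mul q c6.1 hz, c6.2, zero_add] at this
    exact this
  refine exists_three_cycle R hgen q
    (an17_coeff2 q h (an17_ge_of_ord q hqa) (an17_ge_of_ord q hqb)) ?_ ?_ ?_ t2 h3.1 h3.2 ?_
  · rw [hlc]; exact (an17_umul q (an17_umul q c3 c2) hb2).2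
  · rw [t0, hab]
  · rw [t1]; exact ge_zero q 1
  · intro P hP i hi1 hi2 hge
    have hP' : UnitsUpTo P (2 * h + 2) := unitsUpTo_below P (hP ▸ hu)
    have hA := an17_above (L := L) ⟨ha, hqa⟩ hP
    have hB := an17_above (L := L) ⟨hb, hqb⟩ hP
    have hev : ev2 h (algebraMap k L a) (algebraMap k L b) (R.θ i) = 0 := by
      rw [← F2_eval]; exact R.eval_root i
    have hx := an17_root2 P hh hP' hA hB hev
    obtain ⟨e1, e2, e3, e4, e5, e6, -, -⟩ := an17_consts P hh hP'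
    have hd := F2_deriv (algebraMap k L) hh a b (R.θ i)
    have hx1 : (R.θ i - 1) ≠ 0 ∧ ord P (R.θ i - 1) = 0 := ⟨sub_ne_zero.2 hi1, hi2⟩
    have hW := an17_umul P (an17_umul P (an17_umul P (an17_upow P hB 2)
      (an17_umul P (an17_umul P (an17_umul P e5 e3) e4) e2)) (an17_upow P hx (2 * h - 1)))
      (an17_upow P hx1 2)
    rw [hd] at hge
    exact an17_not_ge P hW hge

end Main

end Pool.Agent.H35.AN
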