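import Pool.Agent.H35.AN.Defs
import Pool.Agent.H35.AN.Val
import Pool.Agent.H35.AN.Tower
import Pool.Agent.H35.AN.Decomp
import Pool.Agent.H35.AN.Prim
import Pool.Agent.H35.AN.Even
import Pool.Agent.H35.AN.Basic
import Pool.Agent.H35.AN.Disc1
import Pool.Agent.H35.AN.Loc1
import Pool.Agent.H35.AN.Small1
import Pool.Agent.H35.AN.Tri

/-!
# Project AN, row 18: the Galois group of the first family
-/

set_option autoImplicit false

open Polynomial IsDedekindDomain NumberField

namespace Pool.Agent.H35.AN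

section Gal

variable {k L : Type} [Field k] [NumberField k] [Field L] [NumberField L] [Algebra k L]
  [IsGalois k L]

omit [NumberField k] [NumberField L] [IsGalois k L] in
/-- the image of a stable set of indices is a stable set of roots -/
theorem an18_stable_image {n : ℕ} {F : k[X]} (R : Roots k L n F) (D : Subgroup (L ≃ₐ[k] L))
    {S : Finset (Fin n)} [DecidableEq L] (hS : ∀ σ ∈ D, ∀ x ∈ S, R.permHom σ x ∈ S) :
    ∀ σ ∈ D, ∀ x ∈ S.image R.θ, σ x ∈ S.image R.θ := by
  intro σ hσ x hx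
  obtain ⟨i, hi, rfl⟩ := Finset.mem_image.mp hx
  exact Finset.mem_image.mpr ⟨R.permHom σ i, hS σ hσ i hi, (R.permHom_spec σ i).symm⟩

/-- If the decomposition group of `P` stabilises a set of roots of equal valuation `t`, then
`e(P/k)` divides `|S| t`. -/
theorem an18_orbit {n : ℕ} {F : k[X]} (R : Roots k L n F) (P : HeightOneSpectrum (𝓞 L)) :
    ∃ D : Subgroup (L ≃ₐ[k] L), (∀ σ ∈ D, ∀ x : L, ord P (σ x) = ord P x) ∧
      ∀ (S : Finset (Fin n)), (∀ σ ∈ D, ∀ x ∈ S, R.permHom σ x ∈ S) →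
        (∀ x ∈ S, R.θ x ≠ 0) → ∀ t : ℤ, (∀ x ∈ S, ord P (R.θ x) = t) →
          (erel k P : ℤ) ∣ S.card * t := by
  classical
  obtain ⟨D, hD, hD2⟩ := exists_decomp (k := k) P
  refine ⟨D, hD, fun S hS h0 t ht => ?_⟩
  have h := hD2 (S.image R.θ) (an18_stable_image R D hS) (by
    intro x hx
    obtain ⟨i, hi, rfl⟩ := Finset.mem_image.mp hx
    exact h0 i hi) t (by
    intro x hx
    obtain ⟨i, hi, rfl⟩ := Finset.mem_image.mp hx
    exact ht i hi)
  rwa [Finset.card_image_of_injective _ R.inj] at h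

/-- `m ∣ c` if `m t = e s` with `s` prime to `m` and `e ∣ c t`. -/
theorem an18_dvd {m e s t : ℤ} {c : ℕ} {m' : ℕ} (hm' : (m' : ℤ) = m) (he : e ≠ 0)
    (hcop : IsCoprime s m) (ht : m * t = e * s) (hdvd : e ∣ c * t) : m' ∣ c := by
  obtain ⟨w, hw⟩ := hdvd
  have h1 : e * (c * s) = e * (m * w) := by
    calc e * (c * s) = c * (e * s) := by ring
      _ = c * (m * t) := by rw [ht]
      _ = m * (c * t) := by ring
      _ = m * (e * w) := by rw [hw]
      _ = e * (m * w) := by ring
  have h2 : (c : ℤ) * s = m * w := mul_left_cancel₀ he h1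
  have h3 : m ∣ (c : ℤ) := hcop.symm.dvd_of_dvd_mul_right ⟨w, h2⟩
  rw [← hm'] at h3
  exact_mod_cast h3

theorem gal1 {h : ℕ} (hh : 2 ≤ h) {a b : k} (R : Roots k L (2 * h + 1) (F1 h a b))
    (hgen : IntermediateField.adjoin k (Set.range R.θ) = ⊤)
    {l p q : HeightOneSpectrum (𝓞 k)} (H : Cond k h (dd1 h) a b l p q) :
    R.permHom.range = alternatingGroup (Fin (2 * h + 1)) := by
  have haL : algebraMap k L a ≠ 0 := (_root_.map_ne_zero _).mpr H.ha
  have hbL : algebraMap k L b ≠ 0 := (_root_.map_ne_zero _).mpr H.hb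
  have hroot : ∀ i, ev1 h (algebraMap k L a) (algebraMap k L b) (R.θ i) = 0 := fun i => by
    rw [← F1_eval (algebraMap k L) h a b]
    exact R.eval_root i
  -- transitivity
  have htr : MulAction.IsPretransitive R.permHom.range (Fin (2 * h + 1)) := by
    obtain ⟨P, hP⟩ := exists_above L l
    obtain ⟨D, hD, hD2⟩ := an18_orbit R P
    have he : (0 : ℤ) < erel k P := by exact_mod_cast erel_pos P
    have hV : ord P ((2 * h + 1 : ℕ) : L) = erel k P * ord l ((2 * h + 1 : ℕ) : k) := by
      rw [← hP, ← ord_algebraMap P, map_natCast]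
    have hJ : ord P (algebraMap k L a) = erel k P * ord l a := by
      rw [← hP, ← ord_algebraMap P]
    have hB : ord P (algebraMap k L b) = 0 := by
      rw [ord_algebraMap P, hP, H.l_b, mul_zero]
    have hs : ∀ i, R.θ i ≠ 0 ∧ (2 * (h : ℤ) + 1) * ord P (R.θ i) =
        erel k P * (ord l ((2 * h + 1 : ℕ) : k) + 2 * ord l a) := by
      intro i
      have h1 := small1 P hh (x := R.θ i) (mul_pos he H.l_pos) (mul_nonneg he.le H.l_a) hV haL hbL
        hJ hB (by
          have := mul_lt_mul_of_pos_left H.l_lt he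
          linarith) (hroot i)
      exact ⟨h1.1, by rw [h1.2]; ring⟩
    refine isPretransitive_of_dvd (by omega) _ fun S hS => ?_
    rcases S.eq_empty_or_nonempty with rfl | ⟨i0, hi0⟩
    · simp
    refine an18_dvd (m := 2 * (h : ℤ) + 1) (by push_cast; ring) he.ne' H.l_cop (hs i0).2
      (hD2 S (fun σ _ x hx => hS _ ⟨σ, rfl⟩ x hx) (fun i _ => (hs i).1) (ord P (R.θ i0)) ?_)
    intro x _
    have h1 := (hs x).2
    rw [← (hs i0).2] at h1
    exact mul_left_cancel₀ (by positivity) h1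
  -- primitivity
  have hpr : MulAction.IsPreprimitive R.permHom.range (Fin (2 * h + 1)) := by
    obtain ⟨P, hP⟩ := exists_above L p
    obtain ⟨D, hD, hD2⟩ := an18_orbit R P
    have he : (0 : ℤ) < erel k P := by exact_mod_cast erel_pos P
    obtain ⟨r, hr0, hr⟩ := loc1_inf P hh (unitsUpTo_below P (hP ▸ H.p_units)) (E := erel k P) he
      H.ha H.hb (by rw [ord_algebraMap P, hP, H.p_a, mul_zero])
      (by rw [ord_algebraMap P, hP, H.p_b, mul_one]) R
    have hne : ∀ i, i ≠ r → ord P (R.θ i) ≠ 0 := by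
      intro i hi h0
      have := hr i hi
      rw [h0, mul_zero] at this
      omega
    refine isPreprimitive_of_orbits (m := h) R.permHom.range (D.map R.permHom) htr ?_ r ?_ ?_ ?_
    · rintro _ ⟨σ, -, rfl⟩
      exact ⟨σ, rfl⟩
    · rintro _ ⟨σ, hσ, rfl⟩
      by_contra hne'
      refine hne _ hne' ?_
      change ord P (R.θ (R.permHom σ r)) = 0
      rw [← R.permHom_spec, hD σ hσ, hr0]
    · intro S hS hrS
      rcases S.eq_empty_or_nonempty with rfl | ⟨i0, hi0⟩
      · simp
      have hmem : ∀ i ∈ S, i ≠ r := fun i hi h' => hrS (h' ▸ hi)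
      refine an18_dvd (m := (h : ℤ)) (s := -1) rfl he.ne'
        (isCoprime_one_left.neg_left) (t := ord P (R.θ i0))
        (by rw [hr i0 (hmem i0 hi0)]; ring)
        (hD2 S (fun σ hσ x hx => hS _ ⟨σ, hσ, rfl⟩ x hx) ?_ _ ?_)
      · intro i hi h0
        exact hne i (hmem i hi) (by rw [h0, ord_zero])
      · intro i hi
        have h1 := hr i (hmem i hi)
        rw [← hr i0 (hmem i0 hi0)] at h1
        exact mul_left_cancel₀ (by positivity) h1
    · intro j hj
      have hle : j * h + 1 ≤ 2 * h + 1 := Nat.le_of_dvd (by omega) hj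
      have hj2 : j ≤ 2 := by
        by_contra hc
        have : 3 * h ≤ j * h := Nat.mul_le_mul_right h (by omega)
        omega
      interval_cases j
      · left; simp
      · exfalso
        have h1 : (1 * h + 1) ∣ 2 * (1 * h + 1) := Dvd.intro_left 2 rfl
        have h2 : (1 * h + 1) ∣ 2 * (1 * h + 1) - (2 * h + 1) := Nat.dvd_sub h1 hj
        rw [show 2 * (1 * h + 1) - (2 * h + 1) = 1 by omega] at h2
        have := Nat.le_of_dvd one_pos h2
        omega
      · right; rfl
  obtain ⟨σ, hσ⟩ := three_cycle1 hh H.ha H.hb R hgen q H.q_units H.q_a H.q_b H.q_ab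
  obtain ⟨d, hd⟩ := disc_sq1 hh H.ha H.hb R
  exact eq_alternating _ hpr ⟨_, ⟨σ, rfl⟩, hσ⟩ (even_of_sq R d hd)

end Gal

end Pool.Agent.H35.AN
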