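import Pool.Agent.H35.AN.Defs
import Pool.Agent.H35.AN.Val

/-!
# Project AN, AN-12: Newton polygons of the second family at a prime dividing `b` or `a`
-/

set_option autoImplicit false

open Polynomial IsDedekindDomain NumberField

namespace Pool.Agent.H35.AN

section Loc

variable {K : Type*} [Field K] [NumberField K] (P : HeightOneSpectrum (𝓞 K))

/-- The constants of the second family are units at `P`. -/
theorem an12_units {h : ℕ} (hh : 2 ≤ h) (hu : UnitsUpTo P (2 * h + 2)) :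
    (((h : K) * (2 * h + 1)) ≠ 0 ∧ ord P ((h : K) * (2 * h + 1)) = 0) ∧
    ((4 * (h : K) * (h + 1)) ≠ 0 ∧ ord P (4 * (h : K) * (h + 1)) = 0) ∧
    ((((h : K) + 1) * (2 * h + 1)) ≠ 0 ∧ ord P (((h : K) + 1) * (2 * h + 1)) = 0) ∧
    (((dd2 h : ℤ) : K) ≠ 0 ∧ ord P ((dd2 h : ℤ) : K) = 0) := by
  have o1 : ord P (h : K) = 0 := hu h (by omega) (by omega)
  have o2 : ord P ((h : K) + 1) = 0 := by
    have h1 := hu (h + 1) (by omega) (by omega)
    push_cast at h1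
    exact h1
  have o3 : ord P (2 * (h : K) + 1) = 0 := by
    have h1 := hu (2 * h + 1) (by omega) (by omega)
    push_cast at h1
    exact h1
  have o4 : ord P (4 : K) = 0 := by
    have h1 := hu 4 (by omega) (by omega)
    push_cast at h1
    exact h1
  have n1 : (h : K) ≠ 0 := Nat.cast_ne_zero.mpr (by omega)
  have n2 : (h : K) + 1 ≠ 0 := by exact_mod_cast (show h + 1 ≠ 0 by omega)
  have n3 : 2 * (h : K) + 1 ≠ 0 := by exact_mod_cast (show 2 * h + 1 ≠ 0 by omega)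
  have n4 : (4 : K) ≠ 0 := by norm_num
  have n5 : ((-1 : K) ^ h) ≠ 0 := pow_ne_zero _ (by norm_num)
  have o5 : ord P ((-1 : K) ^ h) = 0 := by rw [ord_pow, ord_neg, ord_one, mul_zero]
  have hd : ((dd2 h : ℤ) : K) = (-1 : K) ^ h * ((h : K) * (2 * h + 1)) := by
    unfold dd2
    push_cast
    ring
  refine ⟨⟨mul_ne_zero n1 n3, ?_⟩, ⟨mul_ne_zero (mul_ne_zero n4 n1) n2, ?_⟩,
    ⟨mul_ne_zero n2 n3, ?_⟩, ?_⟩
  · rw [ord_mul P n1 n3, o1, o3, add_zero]
  · rw [ord_mul P (mul_ne_zero n4 n1) n2, ord_mul P n4 n1, o1, o2, o4, add_zero, add_zero]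
  · rw [ord_mul P n2 n3, o2, o3, add_zero]
  · rw [hd]
    refine ⟨mul_ne_zero n5 (mul_ne_zero n1 n3), ?_⟩
    rw [ord_mul P n5 (mul_ne_zero n1 n3), ord_mul P n1 n3, o5, o1, o3, add_zero, add_zero]

/-- The three cases for the valuation of a root of the second family. -/
theorem an12_cases {h : ℕ} (hh : 2 ≤ h) (hu : UnitsUpTo P (2 * h + 2)) {a b x : K}
    (ha : a ≠ 0) (hb : b ≠ 0) (hx : ev2 h a b x = 0) :
    x ≠ 0 ∧ (ord P x < 0 → 2 * ord P b + (2 * (h : ℤ) + 2) * ord P x = 2 * ord P a) ∧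
      (ord P x = 0 → 2 * ord P b ≤ 2 * ord P a) ∧
      (0 < ord P x → 2 * ord P b + 2 * (h : ℤ) * ord P x = 2 * ord P a) := by
  obtain ⟨⟨nA, oA⟩, ⟨nB, oB⟩, ⟨nC, oC⟩, ⟨nD, oD⟩⟩ := an12_units P hh hu
  have hx' : b ^ 2 * x ^ (2 * h) * ((h : K) * (2 * h + 1) * x ^ 2 - 4 * (h : K) * (h + 1) * x +
      ((h : K) + 1) * (2 * h + 1)) - ((dd2 h : ℤ) : K) * a ^ 2 = 0 := hx
  set A : K := (h : K) * (2 * h + 1) with hA
  set B : K := 4 * (h : K) * (h + 1) with hB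
  set C' : K := ((h : K) + 1) * (2 * h + 1) with hC
  set D : K := ((dd2 h : ℤ) : K) with hD
  clear_value A B C' D
  have hx0 : x ≠ 0 := by
    intro h0
    rw [h0, zero_pow (by omega : 2 * h ≠ 0)] at hx'
    have h1 : D * a ^ 2 = 0 := by linear_combination -hx'
    exact mul_ne_zero nD (pow_ne_zero 2 ha) h1
  have nDa : D * a ^ 2 ≠ 0 := mul_ne_zero nD (pow_ne_zero 2 ha)
  have oDa : ord P (D * a ^ 2) = 2 * ord P a := by
    rw [ord_mul P nD (pow_ne_zero 2 ha), ord_pow, oD]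
    push_cast; ring
  have nbx : b ^ 2 * x ^ (2 * h) ≠ 0 := mul_ne_zero (pow_ne_zero 2 hb) (pow_ne_zero _ hx0)
  have obx : ord P (b ^ 2 * x ^ (2 * h)) = 2 * ord P b + 2 * (h : ℤ) * ord P x := by
    rw [ord_mul P (pow_ne_zero 2 hb) (pow_ne_zero _ hx0), ord_pow, ord_pow]
    push_cast; ring
  have nAx : A * x ^ 2 ≠ 0 := mul_ne_zero nA (pow_ne_zero 2 hx0)
  have oAx : ord P (A * x ^ 2) = 2 * ord P x := by
    rw [ord_mul P nA (pow_ne_zero 2 hx0), ord_pow, oA]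
    push_cast; ring
  have nBx : B * x ≠ 0 := mul_ne_zero nB hx0
  have oBx : ord P (B * x) = ord P x := by
    rw [ord_mul P nB hx0, oB, zero_add]
  have heq : b ^ 2 * x ^ (2 * h) * (A * x ^ 2 - B * x + C') = D * a ^ 2 := by
    linear_combination hx'
  refine ⟨hx0, ?_, ?_, ?_⟩
  · intro ht
    have h1 : Ge P (ord P (A * x ^ 2) + 1) (-(B * x) + C') := by
      rw [oAx]
      refine ge_add P (ge_neg P ?_) ?_
      · rw [ge_iff P nBx, oBx]; omega
      · rw [ge_iff P nC, oC]; omega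
    obtain ⟨nu, ou⟩ := ord_add_eq P nAx h1
    have h2 : A * x ^ 2 - B * x + C' = A * x ^ 2 + (-(B * x) + C') := by ring
    rw [h2] at heq
    have h3 := ord_mul P nbx nu
    rw [heq, oDa, obx, ou, oAx] at h3
    rw [h3]; ring
  · intro ht
    have h1 : Ge P (2 * ord P b + 0) (D * a ^ 2) := by
      rw [← heq]
      refine ge_mul P ?_ ?_
      · rw [ge_iff P nbx, obx, ht]; omega
      · refine ge_add P (ge_sub P ?_ ?_) ?_
        · rw [ge_iff P nAx, oAx, ht]; omega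
        · rw [ge_iff P nBx, oBx, ht]
        · rw [ge_iff P nC, oC]
    rw [ge_iff P nDa, oDa] at h1
    omega
  · intro ht
    have h1 : Ge P (ord P C' + 1) (A * x ^ 2 - B * x) := by
      rw [oC]
      refine ge_sub P ?_ ?_
      · rw [ge_iff P nAx, oAx]; omega
      · rw [ge_iff P nBx, oBx]; omega
    obtain ⟨nu, ou⟩ := ord_add_eq P nC h1
    have h2 : A * x ^ 2 - B * x + C' = C' + (A * x ^ 2 - B * x) := by ring
    rw [h2] at heq
    have h3 := ord_mul P nbx nu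
    rw [heq, oDa, obx, ou, oC] at h3
    rw [h3]; ring

theorem loc2_neg {h : ℕ} (hh : 2 ≤ h) (hu : UnitsUpTo P (2 * h + 2)) {a b x : K} {E : ℤ}
    (hE : 0 < E) (ha : a ≠ 0) (hb : b ≠ 0) (hoa : ord P a = 0) (hob : ord P b = E)
    (hx : ev2 h a b x = 0) : x ≠ 0 ∧ ((h : ℤ) + 1) * ord P x = -E := by
  obtain ⟨hx0, h1, h2, h3⟩ := an12_cases P hh hu ha hb hx
  refine ⟨hx0, ?_⟩
  rw [hoa, hob] at h1 h2 h3
  rcases lt_trichotomy (ord P x) 0 with ht | ht | ht
  · linarith [h1 ht]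
  · exfalso
    have := h2 ht
    omega
  · exfalso
    have h4 := h3 ht
    have h5 : 0 ≤ 2 * (h : ℤ) * ord P x := by positivity
    omega

theorem loc2_pos {h : ℕ} (hh : 2 ≤ h) (hu : UnitsUpTo P (2 * h + 2)) {a b x : K} {E : ℤ}
    (hE : 0 < E) (ha : a ≠ 0) (hb : b ≠ 0) (hoa : ord P a = E) (hob : ord P b = 0)
    (hx : ev2 h a b x = 0) : x ≠ 0 ∧ (ord P x = 0 ∨ (h : ℤ) * ord P x = E) := by
  obtain ⟨hx0, h1, h2, h3⟩ := an12_cases P hh hu ha hb hx
  refine ⟨hx0, ?_⟩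
  rw [hoa, hob] at h1 h2 h3
  rcases lt_trichotomy (ord P x) 0 with ht | ht | ht
  · exfalso
    have h4 := h1 ht
    have h5 : (2 * (h : ℤ) + 2) * ord P x < 0 := mul_neg_of_pos_of_neg (by positivity) ht
    omega
  · exact Or.inl ht
  · right
    linarith [h3 ht]

end Loc
end Pool.Agent.H35.AN
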