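import Pool.Agent.H35.AN.Val
import Pool.Agent.H35.AN.Basic

/-! AN-14: the second family at a prime which divides `2h+1`. -/

set_option autoImplicit false

open Polynomial IsDedekindDomain NumberField

namespace Pool.Agent.H35.AN

section

variable {K : Type*} [Field K] [NumberField K] (P : HeightOneSpectrum (𝓞 K))

/-- a lower bound for the valuation, zero allowed -/
private theorem s2_ge {x : K} {m : ℤ} (h : x ≠ 0 → m ≤ ord P x) : Ge P m x := by
  by_cases hx : x = 0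
  · rw [hx]; exact ge_zero P m
  · exact (ge_iff P hx).2 (h hx)

/-- one of four terms with sum zero cannot be alone minimal -/
private theorem s2_min {x y z w : K} (hx : x ≠ 0) (h : x + y + z + w = 0)
    (hy : Ge P (ord P x + 1) y) (hz : Ge P (ord P x + 1) z) (hw : Ge P (ord P x + 1) w) :
    False := by
  have h1 : x = -(y + z + w) := by linear_combination h
  exact ord_not_cancel P hx h1 (ge_neg P (ge_add P (ge_add P hy hz) hw))

/-- `2`, `h`, `h+1` are units at a prime which divides `2h+1` -/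
private theorem s2_units {h : ℕ} (hh : 2 ≤ h) {V : ℤ} (hV : 0 < V)
    (hV1 : ord P ((2 * h + 1 : ℕ) : K) = V) :
    ord P (h : K) = 0 ∧ ord P ((h : K) + 1) = 0 ∧ ord P ((4 : K) * h * (h + 1)) = 0 := by
  obtain ⟨r, hr, hrP⟩ := exists_rat_prime P
  have hd : r ∣ 2 * h + 1 := by
    by_contra hn
    have h1 := ord_int_unit P hr hrP (m := ((2 * h + 1 : ℕ) : ℤ))
      (fun h2 => hn (Int.natCast_dvd_natCast.1 h2))
    rw [Int.cast_natCast, hV1] at h1
    omega
  have key : ∀ m : ℕ, m ≠ 0 → (∀ s : ℕ, s.Prime → s ∣ m → ¬ s ∣ 2 * h + 1) →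
      ord P (m : K) = 0 := by
    intro m _ hm
    have h1 := ord_int_unit P hr hrP (m := (m : ℤ)) (fun h2 =>
      hm r hr (Int.natCast_dvd_natCast.1 h2) hd)
    rwa [Int.cast_natCast] at h1
  have c1 : ∀ s : ℕ, s.Prime → s ∣ h → ¬ s ∣ 2 * h + 1 := by
    intro s hs h1 h2
    have h3 : s ∣ 1 := (Nat.dvd_add_right (h1.mul_left 2)).1 h2
    exact hs.one_lt.ne' (Nat.dvd_one.1 h3)
  have c2 : ∀ s : ℕ, s.Prime → s ∣ h + 1 → ¬ s ∣ 2 * h + 1 := by
    intro s hs h1 h2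
    have h3 : s ∣ 2 * h + 1 + 1 := by
      have := h1.mul_left 2
      rwa [show 2 * (h + 1) = 2 * h + 1 + 1 by ring] at this
    have h4 : s ∣ 1 := (Nat.dvd_add_right h2).1 h3
    exact hs.one_lt.ne' (Nat.dvd_one.1 h4)
  have c3 : ∀ s : ℕ, s.Prime → s ∣ 4 → ¬ s ∣ 2 * h + 1 := by
    intro s hs h1 h2
    have h3 : s ∣ 2 := by
      have : s ∣ 2 ^ 2 := h1
      exact hs.dvd_of_dvd_pow this
    have h4 : s ∣ 1 := (Nat.dvd_add_right (h3.mul_right h)).1 h2
    exact hs.one_lt.ne' (Nat.dvd_one.1 h4)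
  have e1 : ord P (h : K) = 0 := key h (by omega) c1
  have e2 : ord P ((h : K) + 1) = 0 := by
    have := key (h + 1) (by omega) c2
    rwa [Nat.cast_succ] at this
  have e3 : ord P (4 : K) = 0 := by
    have := key 4 (by norm_num) c3
    rwa [show ((4 : ℕ) : K) = 4 by norm_num] at this
  refine ⟨e1, e2, ?_⟩
  have n1 : (h : K) ≠ 0 := Nat.cast_ne_zero.2 (by omega)
  have n2 : (h : K) + 1 ≠ 0 := by
    have : ((h + 1 : ℕ) : K) ≠ 0 := Nat.cast_ne_zero.2 (by omega)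
    rwa [Nat.cast_succ] at this
  rw [ord_mul P (mul_ne_zero (by norm_num) n1) n2, ord_mul P (by norm_num) n1, e1, e2, e3]
  rfl

/-- the valuations of one root -/
private theorem s2_root {h : ℕ} (hh : 2 ≤ h) {a b x : K} {V J : ℤ} (hV : 0 < V) (hJ : 0 ≤ J)
    (hV1 : ord P ((2 * h + 1 : ℕ) : K) = V) (ha : a ≠ 0) (hb : b ≠ 0) (hoa : ord P a = J)
    (hob : ord P b = 0) (hlt : V + 2 * J < (2 * (h : ℤ) + 1) * V) (hx : ev2 h a b x = 0) :
    x ≠ 0 ∧ (ord P x = -V ∨ (0 < ord P x ∧ (2 * (h : ℤ) + 1) * ord P x = V + 2 * J)) := by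
  obtain ⟨u1, u2, u3⟩ := s2_units P hh hV hV1
  have n0 : ((2 * h + 1 : ℕ) : K) ≠ 0 := Nat.cast_ne_zero.2 (by omega)
  have n1 : (h : K) ≠ 0 := Nat.cast_ne_zero.2 (by omega)
  have n2 : (h : K) + 1 ≠ 0 := by
    have : ((h + 1 : ℕ) : K) ≠ 0 := Nat.cast_ne_zero.2 (by omega)
    rwa [Nat.cast_succ] at this
  have n3 : (4 : K) * h * (h + 1) ≠ 0 := mul_ne_zero (mul_ne_zero (by norm_num) n1) n2
  have n5 : ((dd2 h : ℤ) : K) ≠ 0 := by
    unfold dd2
    push_cast at n0 ⊢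
    exact mul_ne_zero (pow_ne_zero _ (by norm_num)) (mul_ne_zero n1 n0)
  have o5 : ord P ((dd2 h : ℤ) : K) = V := by
    have h1 : ((dd2 h : ℤ) : K) = (-1) ^ h * ((h : K) * ((2 * h + 1 : ℕ) : K)) := by
      unfold dd2
      push_cast
      ring
    rw [h1, ord_mul P (pow_ne_zero _ (by norm_num)) (mul_ne_zero n1 n0), ord_pow, ord_neg, ord_one,
      ord_mul P n1 n0, u1, hV1]
    ring
  have n4 : -((dd2 h : ℤ) : K) * a ^ 2 ≠ 0 := mul_ne_zero (neg_ne_zero.2 n5) (pow_ne_zero _ ha)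
  have x0 : x ≠ 0 := by
    rintro rfl
    apply n4
    unfold ev2 at hx
    rw [zero_pow (by omega : 2 * h ≠ 0)] at hx
    linear_combination hx
  refine ⟨x0, ?_⟩
  obtain ⟨t, ht⟩ : ∃ t, t = ord P x := ⟨_, rfl⟩
  rw [← ht]
  -- the four terms
  obtain ⟨T1, hT1⟩ : ∃ T1 : K, T1 = ((h : K) * ((2 * h + 1 : ℕ) : K)) * b ^ 2 * x ^ (2 * h + 2) :=
    ⟨_, rfl⟩
  obtain ⟨T2, hT2⟩ : ∃ T2 : K, T2 = -((4 : K) * h * (h + 1)) * b ^ 2 * x ^ (2 * h + 1) := ⟨_, rfl⟩
  obtain ⟨T3, hT3⟩ : ∃ T3 : K, T3 = (((h : K) + 1) * ((2 * h + 1 : ℕ) : K)) * b ^ 2 * x ^ (2 * h) :=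
    ⟨_, rfl⟩
  obtain ⟨T4, hT4⟩ : ∃ T4 : K, T4 = -((dd2 h : ℤ) : K) * a ^ 2 := ⟨_, rfl⟩
  have hsum : T1 + T2 + T3 + T4 = 0 := by
    rw [hT1, hT2, hT3, hT4, ← hx]
    unfold ev2
    push_cast
    ring
  have hb2 : b ^ 2 ≠ 0 := pow_ne_zero _ hb
  have m1 : T1 ≠ 0 := by
    rw [hT1]; exact mul_ne_zero (mul_ne_zero (mul_ne_zero n1 n0) hb2) (pow_ne_zero _ x0)
  have m2 : T2 ≠ 0 := by
    rw [hT2]; exact mul_ne_zero (mul_ne_zero (neg_ne_zero.2 n3) hb2) (pow_ne_zero _ x0)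
  have m3 : T3 ≠ 0 := by
    rw [hT3]; exact mul_ne_zero (mul_ne_zero (mul_ne_zero n2 n0) hb2) (pow_ne_zero _ x0)
  have m4 : T4 ≠ 0 := by rw [hT4]; exact n4
  have k1 : ord P T1 = V + (2 * (h : ℤ) + 2) * t := by
    rw [hT1, ord_mul P (mul_ne_zero (mul_ne_zero n1 n0) hb2) (pow_ne_zero _ x0),
      ord_mul P (mul_ne_zero n1 n0) hb2, ord_mul P n1 n0, ord_pow, ord_pow, u1, hV1, hob, ht]
    push_cast
    ring
  have k2 : ord P T2 = (2 * (h : ℤ) + 1) * t := by
    rw [hT2, ord_mul P (mul_ne_zero (neg_ne_zero.2 n3) hb2) (pow_ne_zero _ x0),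
      ord_mul P (neg_ne_zero.2 n3) hb2, ord_neg, ord_pow, ord_pow, u3, hob, ht]
    push_cast
    ring
  have k3 : ord P T3 = V + 2 * (h : ℤ) * t := by
    rw [hT3, ord_mul P (mul_ne_zero (mul_ne_zero n2 n0) hb2) (pow_ne_zero _ x0),
      ord_mul P (mul_ne_zero n2 n0) hb2, ord_mul P n2 n0, ord_pow, ord_pow, u2, hV1, hob, ht]
    push_cast
    ring
  have k4 : ord P T4 = V + 2 * J := by
    rw [hT4, ord_mul P (neg_ne_zero.2 n5) (pow_ne_zero _ ha), ord_neg, ord_pow, o5, hoa]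
    push_cast
    ring
  have g : ∀ {y z : K}, y ≠ 0 → ord P z + 1 ≤ ord P y → Ge P (ord P z + 1) y := fun hy h1 =>
    (ge_iff P hy).2 h1
  have hh' : (2 : ℤ) ≤ h := by exact_mod_cast hh
  rcases lt_trichotomy t 0 with h0 | h0 | h0
  · left
    have q1 : (h : ℤ) * t ≤ 2 * t := mul_le_mul_of_nonpos_right hh' h0.le
    by_contra hne
    rcases lt_or_gt_of_ne hne with h1 | h1
    · -- the first term is minimal
      refine s2_min P m1 hsum (g m2 ?_) (g m3 ?_) (g m4 ?_)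
      · rw [k1, k2]; linarith
      · rw [k1, k3]; linarith
      · rw [k1, k4]; linarith
    · have hsum' : T2 + T1 + T3 + T4 = 0 := by rw [← hsum]; ring
      refine s2_min P m2 hsum' (g m1 ?_) (g m3 ?_) (g m4 ?_)
      · rw [k1, k2]; linarith
      · rw [k2, k3]; linarith
      · rw [k2, k4]; linarith
  · exfalso
    subst h0
    have hsum' : T2 + T1 + T3 + T4 = 0 := by rw [← hsum]; ring
    refine s2_min P m2 hsum' (g m1 ?_) (g m3 ?_) (g m4 ?_)
    · rw [k1, k2]; linarith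
    · rw [k2, k3]; linarith
    · rw [k2, k4]; linarith
  · right
    refine ⟨h0, ?_⟩
    by_contra hne
    rcases lt_or_ge t V with h1 | h1
    · rcases lt_or_gt_of_ne hne with h2 | h2
      · have hsum' : T2 + T1 + T3 + T4 = 0 := by rw [← hsum]; ring
        refine s2_min P m2 hsum' (g m1 ?_) (g m3 ?_) (g m4 ?_)
        · rw [k1, k2]; linarith
        · rw [k2, k3]; linarith
        · rw [k2, k4]; linarith
      · have hsum' : T4 + T1 + T2 + T3 = 0 := by rw [← hsum]; ring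
        refine s2_min P m4 hsum' (g m1 ?_) (g m2 ?_) (g m3 ?_)
        · rw [k1, k4]; linarith
        · rw [k2, k4]; linarith
        · rw [k3, k4]; linarith
    · have hsum' : T4 + T1 + T2 + T3 = 0 := by rw [← hsum]; ring
      have h3 : (h : ℤ) * V ≤ (h : ℤ) * t := mul_le_mul_of_nonneg_left h1 (by linarith)
      refine s2_min P m4 hsum' (g m1 ?_) (g m2 ?_) (g m3 ?_)
      · rw [k1, k4]; linarith
      · rw [k2, k4]; linarith
      · rw [k3, k4]; linarith

end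

section

variable {K : Type*} [Field K] [NumberField K] (P : HeightOneSpectrum (𝓞 K))

theorem small2 {k : Type*} [Field k] [Algebra k K] {h : ℕ} (hh : 2 ≤ h) {a b : k} {V J : ℤ}
    (hV : 0 < V) (hJ : 0 ≤ J)
    (hV1 : ord P ((2 * h + 1 : ℕ) : K) = V) (ha : a ≠ 0) (hb : b ≠ 0)
    (hoa : ord P (algebraMap k K a) = J) (hob : ord P (algebraMap k K b) = 0)
    (hlt : V + 2 * J < (2 * (h : ℤ) + 1) * V) (R : Roots k K (2 * h + 2) (F2 h a b)) :
    ∃ r, ord P (R.θ r) < 0 ∧ ∀ i, i ≠ r → (2 * (h : ℤ) + 1) * ord P (R.θ i) = V + 2 * J := by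
  classical
  have hck : CharZero k := (algebraMap k K).charZero
  have ha' : algebraMap k K a ≠ 0 := (_root_.map_ne_zero _).2 ha
  have hb' : algebraMap k K b ≠ 0 := (_root_.map_ne_zero _).2 hb
  have hroot : ∀ i, R.θ i ≠ 0 ∧ (ord P (R.θ i) = -V ∨
      (0 < ord P (R.θ i) ∧ (2 * (h : ℤ) + 1) * ord P (R.θ i) = V + 2 * J)) := fun i =>
    s2_root P hh hV hJ hV1 ha' hb' hoa hob hlt (by
      rw [← F2_eval (algebraMap k K) h a b, R.eval_root])
  obtain ⟨u1, u2, u3⟩ := s2_units P hh hV hV1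
  have n0 : ((2 * h + 1 : ℕ) : K) ≠ 0 := Nat.cast_ne_zero.2 (by omega)
  have n1 : (h : K) ≠ 0 := Nat.cast_ne_zero.2 (by omega)
  have n5 : ((dd2 h : ℤ) : K) ≠ 0 := by
    unfold dd2
    push_cast at n0 ⊢
    exact mul_ne_zero (pow_ne_zero _ (by norm_num)) (mul_ne_zero n1 n0)
  have o5 : ord P ((dd2 h : ℤ) : K) = V := by
    have h1 : ((dd2 h : ℤ) : K) = (-1) ^ h * ((h : K) * ((2 * h + 1 : ℕ) : K)) := by
      unfold dd2
      push_cast
      ring
    rw [h1, ord_mul P (pow_ne_zero _ (by norm_num)) (mul_ne_zero n1 n0), ord_pow, ord_neg, ord_one,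
      ord_mul P n1 n0, u1, hV1]
    ring
  -- the product of the roots
  have hprod : ((h : K) * ((2 * h + 1 : ℕ) : K)) * algebraMap k K b ^ 2 * ∏ i, R.θ i =
      -(((dd2 h : ℤ) : K) * algebraMap k K a ^ 2) := by
    have h1 := R.eval_eq 0
    rw [F2_eval, (F2_natDegree hh a hb).2] at h1
    have h2 : ∏ i, (0 - R.θ i) = ∏ i, R.θ i := by
      have h3 : ∀ i, 0 - R.θ i = (-1) * R.θ i := fun i => by ring
      simp only [h3]
      rw [Finset.prod_mul_distrib, Finset.prod_const, Finset.card_univ, Fintype.card_fin,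
        Even.neg_one_pow ⟨h + 1, by ring⟩, one_mul]
    rw [h2] at h1
    unfold ev2 at h1
    rw [zero_pow (by omega : 2 * h ≠ 0)] at h1
    push_cast at h1 ⊢
    simp only [_root_.map_mul, _root_.map_add, _root_.map_pow, _root_.map_natCast, _root_.map_one,
      _root_.map_ofNat] at h1
    linear_combination -h1
  have hord : ∑ i, ord P (R.θ i) = 2 * J := by
    have h1 := congrArg (ord P) hprod
    have h2 : ∏ i, R.θ i ≠ 0 := Finset.prod_ne_zero_iff.2 fun i _ => (hroot i).1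
    rw [ord_mul P (mul_ne_zero (mul_ne_zero n1 n0) (pow_ne_zero _ hb')) h2,
      ord_mul P (mul_ne_zero n1 n0) (pow_ne_zero _ hb'), ord_mul P n1 n0, ord_neg,
      ord_mul P n5 (pow_ne_zero _ ha'), ord_pow, ord_pow, u1, hV1, hob, hoa, o5,
      ord_prod P _ _ (fun i _ => (hroot i).1)] at h1
    push_cast at h1
    linarith
  -- counting
  obtain ⟨S, hS⟩ : ∃ S : Finset (Fin (2 * h + 2)), S = Finset.univ.filter fun i => ord P (R.θ i) < 0 :=
    ⟨_, rfl⟩
  have hin : ∀ i ∈ S, ord P (R.θ i) = -V := by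
    intro i hi
    rw [hS, Finset.mem_filter] at hi
    rcases (hroot i).2 with h1 | ⟨h1, -⟩
    · exact h1
    · exact absurd hi.2 (by linarith)
  have hout : ∀ i, i ∉ S → (2 * (h : ℤ) + 1) * ord P (R.θ i) = V + 2 * J := by
    intro i hi
    rw [hS, Finset.mem_filter] at hi
    rcases (hroot i).2 with h1 | ⟨-, h1⟩
    · exact absurd ⟨Finset.mem_univ _, by linarith⟩ hi
    · exact h1
  have hcard : (S.card : ℤ) * ((2 * (h : ℤ) + 1) * V + (V + 2 * J)) =
      1 * ((2 * (h : ℤ) + 1) * V + (V + 2 * J)) := by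
    have h1 : (2 * (h : ℤ) + 1) * (2 * J) = ∑ i, (2 * (h : ℤ) + 1) * ord P (R.θ i) := by
      rw [← Finset.mul_sum, hord]
    rw [← Finset.sum_add_sum_compl S, Finset.sum_congr rfl (fun i hi => by rw [hin i hi]),
      Finset.sum_congr (s₁ := Sᶜ) rfl (fun i hi => hout i (Finset.mem_compl.1 hi)),
      Finset.sum_const, Finset.sum_const, Finset.card_compl, Fintype.card_fin, nsmul_eq_mul,
      nsmul_eq_mul, Nat.cast_sub (by
        have := Finset.card_le_univ S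
        rwa [Fintype.card_fin] at this)] at h1
    push_cast at h1
    linear_combination h1
  have hpos : (2 * (h : ℤ) + 1) * V + (V + 2 * J) ≠ 0 := by
    have : 0 < (2 * (h : ℤ) + 1) * V := by positivity
    linarith
  have hone : S.card = 1 := by exact_mod_cast mul_right_cancel₀ hpos hcard
  obtain ⟨r, hr⟩ := Finset.card_eq_one.1 hone
  refine ⟨r, ?_, fun i hi => hout i (by rw [hr]; simpa using hi)⟩
  have h1 : r ∈ S := by rw [hr]; exact Finset.mem_singleton_self r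
  rw [hin r h1]
  linarith

end

end Pool.Agent.H35.AN
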