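import Pool.Agent.H35.AN.Defs
import Pool.Agent.H35.AN.Val
import Pool.Agent.H35.AN.Tower
import Pool.Agent.H35.AN.Decomp
import Pool.Agent.H35.AN.Prim
import Pool.Agent.H35.AN.Even
import Pool.Agent.H35.AN.Basic
import Pool.Agent.H35.AN.Disc2
import Pool.Agent.H35.AN.Loc2
import Pool.Agent.H35.AN.Small2
import Pool.Agent.H35.AN.Tri
import Pool.Agent.H35.AN.Gal1

/-!
# Project AN, row 19: the Galois group of the second family
-/

set_option autoImplicit false

open Polynomial IsDedekindDomain NumberField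

namespace Pool.Agent.H35.AN

section Gal

variable {k L : Type} [Field k] [NumberField k] [Field L] [NumberField L] [Algebra k L]
  [IsGalois k L]

/-- The group does not fix an index: at a prime over `p` all roots have valuation
`-e / (h + 1)`. -/
theorem an19_not_fixed {h : ℕ} (hh : 2 ≤ h) {a b : k} (R : Roots k L (2 * h + 2) (F2 h a b))
    (ha : a ≠ 0) (hb : b ≠ 0) (p : HeightOneSpectrum (𝓞 k)) (hu : UnitsUpTo p (2 * h + 2))
    (hpa : ord p a = 0) (hpb : ord p b = 1) (r : Fin (2 * h + 2)) :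
    ¬ ∀ σ ∈ R.permHom.range, σ r = r := by
  intro hfix
  have haL : algebraMap k L a ≠ 0 := (_root_.map_ne_zero _).mpr ha
  have hbL : algebraMap k L b ≠ 0 := (_root_.map_ne_zero _).mpr hb
  obtain ⟨P, hP⟩ := exists_above L p
  obtain ⟨D, hD, hD2⟩ := an18_orbit R P
  have he : (0 : ℤ) < erel k P := by exact_mod_cast erel_pos P
  have h1 := loc2_neg P hh (unitsUpTo_below P (hP ▸ hu)) (x := R.θ r) (E := erel k P) he haL hbL
    (by rw [ord_algebraMap P, hP, hpa, mul_zero])
    (by rw [ord_algebraMap P, hP, hpb, mul_one])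
    (by rw [← F2_eval (algebraMap k L) h a b]; exact R.eval_root r)
  obtain ⟨w, hw⟩ := hD2 {r} (by
    intro σ _ x hx
    rw [Finset.mem_singleton] at hx ⊢
    rw [hx]
    exact hfix _ ⟨σ, rfl⟩) (by
    intro x hx
    rw [Finset.mem_singleton.mp hx]
    exact h1.1) (ord P (R.θ r)) (by
    intro x hx
    rw [Finset.mem_singleton.mp hx])
  rw [Finset.card_singleton, Nat.cast_one, one_mul] at hw
  have h2 := h1.2
  rw [hw] at h2
  have h3 : (erel k P : ℤ) * (((h : ℤ) + 1) * w) = erel k P * (-1) := by linarith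
  have h4 : ((h : ℤ) + 1) * w = -1 := mul_left_cancel₀ he.ne' h3
  have h5 : ((h : ℤ) + 1) ∣ 1 := ⟨-w, by linarith⟩
  have h6 := Int.le_of_dvd one_pos h5
  have h7 : (2 : ℤ) ≤ h := by exact_mod_cast hh
  linarith

theorem gal2 {h : ℕ} (hh : 2 ≤ h) {a b : k} (R : Roots k L (2 * h + 2) (F2 h a b))
    (hgen : IntermediateField.adjoin k (Set.range R.θ) = ⊤)
    {l p q : HeightOneSpectrum (𝓞 k)} (H : Cond k h (dd2 h) a b l p q) :
    R.permHom.range = alternatingGroup (Fin (2 * h + 2)) := by
  -- primitivity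
  have hpr : MulAction.IsPreprimitive R.permHom.range (Fin (2 * h + 2)) := by
    obtain ⟨P, hP⟩ := exists_above L l
    obtain ⟨D, hD, hD2⟩ := an18_orbit R P
    have he : (0 : ℤ) < erel k P := by exact_mod_cast erel_pos P
    have hV : ord P ((2 * h + 1 : ℕ) : L) = erel k P * ord l ((2 * h + 1 : ℕ) : k) := by
      rw [← hP, ← ord_algebraMap P, map_natCast]
    have hJ : ord P (algebraMap k L a) = erel k P * ord l a := by
      rw [← hP, ← ord_algebraMap P]
    have hB : ord P (algebraMap k L b) = 0 := by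
      rw [ord_algebraMap P, hP, H.l_b, mul_zero]
    obtain ⟨r, hr0, hr1⟩ := small2 P hh (mul_pos he H.l_pos) (mul_nonneg he.le H.l_a) hV H.ha H.hb
        hJ hB (by
          have := mul_lt_mul_of_pos_left H.l_lt he
          linarith) R
    have hr : ∀ i, i ≠ r → (2 * (h : ℤ) + 1) * ord P (R.θ i) =
        erel k P * (ord l ((2 * h + 1 : ℕ) : k) + 2 * ord l a) := by
      intro i hi
      rw [hr1 i hi]
      ring
    have hpos : ∀ i, i ≠ r → 0 < ord P (R.θ i) := by
      intro i hi
      have h1 := hr i hi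
      have h2 : 0 < (2 * (h : ℤ) + 1) * ord P (R.θ i) := by
        rw [h1]
        exact mul_pos he (by linarith [H.l_pos, H.l_a])
      exact (mul_pos_iff_of_pos_left (by positivity)).mp h2
    have hDG : D.map R.permHom ≤ R.permHom.range := by
      rintro _ ⟨σ, -, rfl⟩
      exact ⟨σ, rfl⟩
    have hDr : ∀ σ ∈ D.map R.permHom, σ r = r := by
      rintro _ ⟨σ, hσ, rfl⟩
      by_contra hne'
      have h1 := hpos _ hne'
      have h2 : ord P (R.θ (R.permHom σ r)) = ord P (R.θ r) := by
        rw [← R.permHom_spec, hD σ hσ]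
      change 0 < ord P (R.θ (R.permHom σ r)) at h1
      rw [h2] at h1
      linarith
    have hor : ∀ S : Finset (Fin (2 * h + 2)),
        (∀ σ ∈ D.map R.permHom, ∀ x ∈ S, σ x ∈ S) → r ∉ S → (2 * h + 1) ∣ S.card := by
      intro S hS hrS
      rcases S.eq_empty_or_nonempty with rfl | ⟨i0, hi0⟩
      · simp
      have hmem : ∀ i ∈ S, i ≠ r := fun i hi h' => hrS (h' ▸ hi)
      refine an18_dvd (m := 2 * (h : ℤ) + 1) (by push_cast; ring) he.ne' H.l_cop
        (hr i0 (hmem i0 hi0))
        (hD2 S (fun σ hσ x hx => hS _ ⟨σ, hσ, rfl⟩ x hx) ?_ _ ?_)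
      · intro i hi h0
        exact (hpos i (hmem i hi)).ne' (by rw [h0, ord_zero])
      · intro i hi
        have h1 := hr i (hmem i hi)
        rw [← hr i0 (hmem i0 hi0)] at h1
        exact mul_left_cancel₀ (by positivity) h1
    have htr : MulAction.IsPretransitive R.permHom.range (Fin (2 * h + 2)) :=
      isPretransitive_of_orbits (m := 2 * h + 1) R.permHom.range (D.map R.permHom) hDG r hDr hor
        (an19_not_fixed hh R H.ha H.hb p H.p_units H.p_a H.p_b r)
    refine isPreprimitive_of_orbits (m := 2 * h + 1) R.permHom.range (D.map R.permHom) htr hDG r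
      hDr hor ?_
    intro j hj
    have hle : j * (2 * h + 1) + 1 ≤ 2 * h + 2 := Nat.le_of_dvd (by omega) hj
    have hj2 : j ≤ 1 := by
      by_contra hc
      have : 2 * (2 * h + 1) ≤ j * (2 * h + 1) := Nat.mul_le_mul_right _ (by omega)
      omega
    interval_cases j
    · left; simp
    · right; ring
  obtain ⟨σ, hσ⟩ := three_cycle2 hh H.ha H.hb R hgen q H.q_units H.q_a H.q_b H.q_ab
  obtain ⟨d, hd⟩ := disc_sq2 hh H.ha H.hb R
  exact eq_alternating _ hpr ⟨_, ⟨σ, rfl⟩, hσ⟩ (even_of_sq R d hd)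

end Gal

end Pool.Agent.H35.AN
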