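import Pool.Agent.H35.AN.Defs
import Pool.Agent.H35.AN.Val

/-!
# Project AN (MP_a3214d), row AN-25: choice of the congruence classes
-/

set_option autoImplicit false

open Polynomial IsDedekindDomain NumberField

namespace Pool.Agent.H35.AN

theorem exists_J {N V : ℕ} (hN : 5 ≤ N) (hodd : Odd N) (hV : 0 < V) :
    ∃ J : ℕ, Nat.Coprime (V + 2 * J) N ∧ V + 2 * J < N * V := by
  obtain ⟨m, hm⟩ := hodd
  rcases Nat.lt_or_ge V 3 with h | h
  · rcases (by omega : V = 1 ∨ V = 2) with h1 | h1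
    · exact ⟨0, by rw [h1]; simp, by rw [h1]; omega⟩
    · refine ⟨m, ?_, by rw [h1]; omega⟩
      have h2 : V + 2 * m = N + 1 := by omega
      rw [h2]
      simp
  · -- the residue class of `(1 - V) / 2`
    have hex : ∃ J, J < N ∧ (V + 2 * J) % N = 1 := by
      refine ⟨((m + 1) * (1 + (N - 1) * V)) % N, Nat.mod_lt _ (by omega), ?_⟩
      have h1 : (V + 2 * (((m + 1) * (1 + (N - 1) * V)) % N)) % N =
          (V + 2 * ((m + 1) * (1 + (N - 1) * V))) % N := by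
        rw [Nat.add_mod, Nat.mul_mod, Nat.mod_mod, ← Nat.mul_mod, ← Nat.add_mod]
      rw [h1]
      have h2 : V + 2 * ((m + 1) * (1 + (N - 1) * V)) = 1 + N * (V + 1 + (N - 1) * V) := by
        obtain ⟨e, he⟩ : ∃ e, N = e + 1 := ⟨N - 1, by omega⟩
        have h3 : 2 * (m + 1) = N + 1 := by omega
        have h4 : N - 1 = e := by omega
        calc V + 2 * ((m + 1) * (1 + (N - 1) * V)) = V + (2 * (m + 1)) * (1 + (N - 1) * V) := by
              ring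
          _ = 1 + N * (V + 1 + (N - 1) * V) := by
              rw [h3, h4, he]
              ring
      rw [h2, Nat.add_mul_mod_self_left, Nat.mod_eq_of_lt (by omega)]
    obtain ⟨J, hJ, hmod⟩ := hex
    refine ⟨J, ?_, ?_⟩
    · have h1 := Nat.mod_add_div (V + 2 * J) N
      rw [hmod] at h1
      rw [← h1]
      simp
    · nlinarith

section

variable {k : Type} [Field k] [NumberField k]

/-- elements of exact order `n` -/
theorem an25_ord (P : HeightOneSpectrum (𝓞 k)) {x : 𝓞 k} {n : ℕ} (h1 : x ∈ P.asIdeal ^ n)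
    (h2 : x ∉ P.asIdeal ^ (n + 1)) : x ≠ 0 ∧ ord P (x : k) = n := by
  have hx : x ≠ 0 := fun h => h2 (h ▸ (P.asIdeal ^ (n + 1)).zero_mem)
  have hx' : (x : k) ≠ 0 := by
    rw [Ne, NumberField.RingOfIntegers.coe_eq_zero_iff]
    exact hx
  refine ⟨hx, le_antisymm ?_ ?_⟩
  · by_contra hcon
    push Not at hcon
    apply h2
    rw [mem_pow_iff, ge_iff P hx']
    push_cast
    omega
  · exact (ge_iff P hx').mp ((mem_pow_iff P x n).mp h1)

theorem an25_ord_zero (P : HeightOneSpectrum (𝓞 k)) {x : 𝓞 k} (h2 : x ∉ P.asIdeal) :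
    x ≠ 0 ∧ ord P (x : k) = 0 := by
  have h1 := an25_ord P (x := x) (n := 0) (by simp) (by simpa using h2)
  simpa using h1

omit [NumberField k] in
/-- a rational integer prime to `r` is not in a prime above `r` -/
theorem an25_int_notMem (P : HeightOneSpectrum (𝓞 k)) {r : ℕ} (hr : r.Prime)
    (hP : (r : 𝓞 k) ∈ P.asIdeal) {m : ℤ} (hm : ¬ (r : ℤ) ∣ m) : ((m : ℤ) : 𝓞 k) ∉ P.asIdeal := by
  intro h
  obtain ⟨u, v, huv⟩ := (Int.prime_iff_natAbs_prime.mpr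
    (by simpa using hr)).coprime_iff_not_dvd.mpr hm
  apply P.isPrime.ne_top
  rw [Ideal.eq_top_iff_one]
  have h1 : (1 : 𝓞 k) = (u : 𝓞 k) * (r : 𝓞 k) + (v : 𝓞 k) * ((m : ℤ) : 𝓞 k) := by
    have h2 := congrArg (Int.cast : ℤ → 𝓞 k) huv
    push_cast at h2
    exact h2.symm
  rw [h1]
  exact P.asIdeal.add_mem (P.asIdeal.mul_mem_left _ hP) (P.asIdeal.mul_mem_left _ h)

end

/-- `exists_tri` with `α = 1` and the additional information that `β` is a unit at `q`. -/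
theorem an25_tri (k : Type) [Field k] [NumberField k] (d : ℤ) (hd : d ≠ 0) (N : ℕ) :
    ∃ (q : HeightOneSpectrum (𝓞 k)) (r : ℕ) (β : 𝓞 k), r.Prime ∧ N < r ∧
      (r : 𝓞 k) ∈ q.asIdeal ∧ β ∉ q.asIdeal ∧
      β ^ 2 - (d : 𝓞 k) ∈ q.asIdeal ∧ β ^ 2 - (d : 𝓞 k) ∉ q.asIdeal ^ 2 := by
  set c : ℕ := (N + d.natAbs + 3).factorial with hc
  have hc6 : 6 ≤ c := by
    have h1 : (3).factorial ≤ (N + d.natAbs + 3).factorial := Nat.factorial_le (by omega)
    exact h1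
  set m : ℤ := d * (c : ℤ) ^ 2 - 1 with hm
  have hmne : m.natAbs ≠ 1 := by
    intro h
    have h1 : m = 1 ∨ m = -1 := Int.natAbs_eq_iff.mp (by simpa using h)
    have h2 : (36 : ℤ) ≤ (c : ℤ) ^ 2 := by
      have : (6 : ℤ) ≤ c := by exact_mod_cast hc6
      nlinarith
    rcases lt_or_gt_of_ne hd with h3 | h3
    · have h4 : d * (c : ℤ) ^ 2 ≤ -36 := by nlinarith
      omega
    · have h4 : 36 ≤ d * (c : ℤ) ^ 2 := by nlinarith
      omega
  obtain ⟨r, hr, hrm⟩ := Nat.exists_prime_and_dvd hmne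
  have hrm' : (r : ℤ) ∣ m := Int.natCast_dvd.mpr hrm
  have hrdc : ¬ (r : ℤ) ∣ d * c := by
    intro h
    have h1 : (r : ℤ) ∣ 1 := by
      have h2 : (1 : ℤ) = d * c * c - m := by rw [hm]; ring
      rw [h2]
      exact dvd_sub (Dvd.dvd.mul_right h _) hrm'
    have h2 := Int.natCast_dvd.mp h1
    exact hr.one_lt.ne' (Nat.dvd_one.mp (by simpa using h2))
  have hrN : N + d.natAbs + 3 < r := by
    by_contra hcon
    push Not at hcon
    apply hrdc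
    refine Dvd.dvd.mul_left ?_ _
    exact_mod_cast (hr.dvd_factorial.mpr hcon)
  obtain ⟨q, hq⟩ := exists_prime_over k hr
  have hβ0 : ((d * c : ℤ) : 𝓞 k) ∉ q.asIdeal := an25_int_notMem q hr hq hrdc
  have h2β0 : ((2 * (d * c) : ℤ) : 𝓞 k) ∉ q.asIdeal := by
    refine an25_int_notMem q hr hq ?_
    intro h
    rcases (Int.prime_iff_natAbs_prime.mpr (by simpa using hr)).dvd_or_dvd h with h1 | h1
    · have h2 := Int.le_of_dvd (by norm_num) h1
      omega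
    · exact hrdc h1
  have hmem : (((d * c : ℤ) : 𝓞 k)) ^ 2 - (d : 𝓞 k) ∈ q.asIdeal := by
    obtain ⟨e, he⟩ := hrm'
    have h1 : (((d * c : ℤ) : 𝓞 k)) ^ 2 - (d : 𝓞 k) = ((d * e : ℤ) : 𝓞 k) * (r : 𝓞 k) := by
      have h2 : (d * c) ^ 2 - d = (d * e) * (r : ℤ) := by
        have h3 : (d * (c : ℤ)) ^ 2 - d = d * m := by rw [hm]; ring
        rw [h3, he]
        ring
      have h3 := congrArg (Int.cast : ℤ → 𝓞 k) h2
      push_cast at h3 ⊢
      exact h3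
    rw [h1]
    exact q.asIdeal.mul_mem_left _ hq
  by_cases hsq : (((d * c : ℤ) : 𝓞 k)) ^ 2 - (d : 𝓞 k) ∈ q.asIdeal ^ 2
  · -- change by a uniformizer
    have hlt : q.asIdeal ^ 2 < q.asIdeal := by
      have h1 := Ideal.pow_right_strictAnti q.asIdeal q.ne_bot q.isPrime.ne_top
        (by norm_num : 1 < 2)
      simpa using h1
    obtain ⟨t, ht, ht2⟩ := Set.exists_of_ssubset hlt
    have ht' : t ∈ q.asIdeal := ht
    have ht2' : t ∉ q.asIdeal ^ 2 := ht2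
    refine ⟨q, r, ((d * c : ℤ) : 𝓞 k) + t, hr, by omega, hq, ?_, ?_, ?_⟩
    · intro h
      apply hβ0
      have h1 := q.asIdeal.sub_mem h ht'
      rwa [add_sub_cancel_right] at h1
    · have h1 : (((d * c : ℤ) : 𝓞 k) + t) ^ 2 - (d : 𝓞 k) =
          ((((d * c : ℤ) : 𝓞 k)) ^ 2 - (d : 𝓞 k)) + (2 * ((d * c : ℤ) : 𝓞 k) + t) * t := by
        ring
      rw [h1]
      exact q.asIdeal.add_mem hmem (q.asIdeal.mul_mem_left _ ht')
    · intro h
      have h1 : ((2 * (d * c) : ℤ) : 𝓞 k) * t ∈ q.asIdeal ^ 2 := by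
        have h2 : ((2 * (d * c) : ℤ) : 𝓞 k) * t =
            ((((d * c : ℤ) : 𝓞 k) + t) ^ 2 - (d : 𝓞 k)) -
            ((((d * c : ℤ) : 𝓞 k)) ^ 2 - (d : 𝓞 k)) - t * t := by
          push_cast
          ring
        rw [h2]
        refine (q.asIdeal ^ 2).sub_mem ((q.asIdeal ^ 2).sub_mem h hsq) ?_
        rw [pow_two]
        exact Ideal.mul_mem_mul ht' ht'
      have h2 : ((2 * (d * c) : ℤ) : 𝓞 k) ≠ 0 := fun h => h2β0 (h ▸ q.asIdeal.zero_mem)
      have htne : t ≠ 0 := fun h => ht2' (h ▸ (q.asIdeal ^ 2).zero_mem)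
      have h3 := an25_ord_zero q h2β0
      have h4 := an25_ord q (x := t) (n := 1) (by simpa using ht') (by simpa using ht2')
      have h5 := (mem_pow_iff q _ 2).mp h1
      have hne1 : (((2 * (d * c) : ℤ) : 𝓞 k) : k) ≠ 0 := by
        rw [Ne, NumberField.RingOfIntegers.coe_eq_zero_iff]
        exact h2
      have hne2 : (t : k) ≠ 0 := by
        rw [Ne, NumberField.RingOfIntegers.coe_eq_zero_iff]
        exact htne
      have h6 : ((((2 * (d * c) : ℤ) : 𝓞 k) * t : 𝓞 k) : k) =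
          (((2 * (d * c) : ℤ) : 𝓞 k) : k) * (t : k) := map_mul _ _ _
      rw [h6, ge_iff q (mul_ne_zero hne1 hne2), ord_mul q hne1 hne2, h3.2, h4.2] at h5
      norm_num at h5
  · exact ⟨q, r, ((d * c : ℤ) : 𝓞 k), hr, by omega, hq, hβ0, hmem, hsq⟩

/-- the consequence for congruent elements -/
theorem an25_tri_use {k : Type} [Field k] [NumberField k] (d : ℤ)
    (q : HeightOneSpectrum (𝓞 k)) (β : 𝓞 k) (hβ : β ∉ q.asIdeal)
    (h1 : β ^ 2 - (d : 𝓞 k) ∈ q.asIdeal) (h2 : β ^ 2 - (d : 𝓞 k) ∉ q.asIdeal ^ 2) (a b : 𝓞 k)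
    (ha : a - 1 ∈ q.asIdeal ^ 2) (hb : b - β ∈ q.asIdeal ^ 2) :
    a ≠ 0 ∧ b ≠ 0 ∧ ord q (a : k) = 0 ∧ ord q (b : k) = 0 ∧
      ord q ((b : k) ^ 2 - (d : k) * (a : k) ^ 2) = 1 := by
  have hle : q.asIdeal ^ 2 ≤ q.asIdeal := Ideal.pow_le_self (by norm_num)
  have hanot : a ∉ q.asIdeal := by
    intro h
    apply q.isPrime.ne_top
    rw [Ideal.eq_top_iff_one]
    have h3 := q.asIdeal.sub_mem h (hle ha)
    rwa [sub_sub_cancel] at h3
  have hbnot : b ∉ q.asIdeal := by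
    intro h
    apply hβ
    have h3 := q.asIdeal.sub_mem h (hle hb)
    rwa [sub_sub_cancel] at h3
  have hdiff : (b ^ 2 - (d : 𝓞 k) * a ^ 2) - (β ^ 2 - (d : 𝓞 k)) ∈ q.asIdeal ^ 2 := by
    have h3 : (b ^ 2 - (d : 𝓞 k) * a ^ 2) - (β ^ 2 - (d : 𝓞 k)) =
        (b + β) * (b - β) - ((d : 𝓞 k) * (a + 1)) * (a - 1) := by ring
    rw [h3]
    exact (q.asIdeal ^ 2).sub_mem ((q.asIdeal ^ 2).mul_mem_left _ hb)
      ((q.asIdeal ^ 2).mul_mem_left _ ha)
  have hm1 : b ^ 2 - (d : 𝓞 k) * a ^ 2 ∈ q.asIdeal := by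
    have h3 := q.asIdeal.add_mem (hle hdiff) h1
    rwa [sub_add_cancel] at h3
  have hm2 : b ^ 2 - (d : 𝓞 k) * a ^ 2 ∉ q.asIdeal ^ 2 := by
    intro h
    apply h2
    have h3 := (q.asIdeal ^ 2).sub_mem h hdiff
    rwa [sub_sub_cancel] at h3
  have ha' := an25_ord_zero q hanot
  have hb' := an25_ord_zero q hbnot
  have h3 := an25_ord q (x := b ^ 2 - (d : 𝓞 k) * a ^ 2) (n := 1) (by simpa using hm1)
    (by simpa using hm2)
  refine ⟨ha'.1, hb'.1, ha'.2, hb'.2, ?_⟩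
  have h4 : ((b ^ 2 - (d : 𝓞 k) * a ^ 2 : 𝓞 k) : k) = (b : k) ^ 2 - (d : k) * (a : k) ^ 2 := by
    simp
  rw [← h4, h3.2]
  norm_num

theorem exists_tri (k : Type) [Field k] [NumberField k] (d : ℤ) (hd : d ≠ 0) (N : ℕ) :
    ∃ (q : HeightOneSpectrum (𝓞 k)) (r : ℕ) (α β : 𝓞 k), r.Prime ∧ N < r ∧
      (r : 𝓞 k) ∈ q.asIdeal ∧
      ∀ a b : 𝓞 k, a - α ∈ q.asIdeal ^ 2 → b - β ∈ q.asIdeal ^ 2 →
        ord q (a : k) = 0 ∧ ord q (b : k) = 0 ∧
          ord q ((b : k) ^ 2 - (d : k) * (a : k) ^ 2) = 1 := by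
  obtain ⟨q, r, β, hr, hN, hq, hβ, h1, h2⟩ := an25_tri k d hd N
  refine ⟨q, r, 1, β, hr, hN, hq, fun a b ha hb => ?_⟩
  obtain ⟨-, -, h3, h4, h5⟩ := an25_tri_use d q β hβ h1 h2 a b ha hb
  exact ⟨h3, h4, h5⟩

/-- Elements with prescribed residues at all the primes that contain `m`. -/
theorem an25_crt (k : Type) [Field k] [NumberField k] {m : ℕ} (hm : 0 < m) (e : ℕ)
    (x : HeightOneSpectrum (𝓞 k) → 𝓞 k) :
    ∃ y : 𝓞 k, ∀ a : 𝓞 k, ((m ^ e : ℕ) : 𝓞 k) ∣ a - y → ∀ v : HeightOneSpectrum (𝓞 k),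
      (m : 𝓞 k) ∈ v.asIdeal → a - x v ∈ v.asIdeal ^ e := by
  classical
  have hm0 : Ideal.span {(m : 𝓞 k)} ≠ 0 := by
    rw [Ne, Ideal.zero_eq_bot, Ideal.span_singleton_eq_bot]
    exact_mod_cast hm.ne'
  have hfin := Ideal.finite_factors hm0
  obtain ⟨y, hy⟩ := IsDedekindDomain.exists_forall_sub_mem_ideal (s := hfin.toFinset)
    (fun v : HeightOneSpectrum (𝓞 k) => v.asIdeal) (fun _ => e)
    (fun v _ => v.prime) (fun v _ w _ hvw h => hvw (HeightOneSpectrum.ext h))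
    (fun v => x v.1)
  refine ⟨y, fun a ha v hv => ?_⟩
  have hvs : v ∈ hfin.toFinset := by
    rw [Set.Finite.mem_toFinset]
    exact Ideal.dvd_iff_le.mpr ((Ideal.span_singleton_le_iff_mem _).mpr hv)
  have h1 := hy v hvs
  have h2 : a - y ∈ v.asIdeal ^ e := by
    obtain ⟨z, hz⟩ := ha
    rw [hz, Nat.cast_pow]
    exact (v.asIdeal ^ e).mul_mem_right _ (Ideal.pow_mem_pow hv e)
  have h3 := (v.asIdeal ^ e).add_mem h2 h1
  rwa [sub_add_sub_cancel] at h3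

/-- the combined statement: a modulus `M` and classes `α`, `β` -/
theorem exists_param (k : Type) [Field k] [NumberField k] {h : ℕ} (hh : 2 ≤ h) (d : ℤ)
    (hd : d ≠ 0) (Y : ℕ) :
    ∃ (M : ℕ) (l q : HeightOneSpectrum (𝓞 k)) (α β : 𝓞 k), 0 < M ∧
      (∀ r : ℕ, r.Prime → r ≤ Y → r ∣ M) ∧ UnitsUpTo q (2 * h + 2) ∧ α ≠ 0 ∧ β ≠ 0 ∧
      (∀ a : 𝓞 k, (M : 𝓞 k) ∣ a - α → ∀ r : HeightOneSpectrum (𝓞 k), (M : 𝓞 k) ∈ r.asIdeal →
        a ≠ 0 ∧ ord r (a : k) = ord r (α : k)) ∧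
      (∀ b : 𝓞 k, (M : 𝓞 k) ∣ b - β → ∀ r : HeightOneSpectrum (𝓞 k), (M : 𝓞 k) ∈ r.asIdeal →
        b ≠ 0 ∧ ord r (b : k) = ord r (β : k)) ∧
      ∀ a b : 𝓞 k, (M : 𝓞 k) ∣ a - α → (M : 𝓞 k) ∣ b - β →
        0 < ord l ((2 * h + 1 : ℕ) : k) ∧ ord l (b : k) = 0 ∧ 0 ≤ ord l (a : k) ∧
        IsCoprime (ord l ((2 * h + 1 : ℕ) : k) + 2 * ord l (a : k)) (2 * (h : ℤ) + 1) ∧
        ord l ((2 * h + 1 : ℕ) : k) + 2 * ord l (a : k) <
          (2 * (h : ℤ) + 1) * ord l ((2 * h + 1 : ℕ) : k) ∧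
        ord q (a : k) = 0 ∧ ord q (b : k) = 0 ∧
        ord q ((b : k) ^ 2 - (d : k) * (a : k) ^ 2) = 1 := by
  classical
  -- the small prime
  obtain ⟨l0, hl0, hl0h⟩ := Nat.exists_prime_and_dvd (n := 2 * h + 1) (by omega)
  obtain ⟨l, hl⟩ := exists_prime_over k hl0
  have hV : 0 < ord l ((2 * h + 1 : ℕ) : k) := by
    have h1 := ord_int_pos l hl0 hl (m := ((2 * h + 1 : ℕ) : ℤ)) (by omega) (by exact_mod_cast hl0h)
    simpa using h1
  obtain ⟨V, hVV⟩ : ∃ V : ℕ, (V : ℤ) = ord l ((2 * h + 1 : ℕ) : k) :=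
    ⟨(ord l ((2 * h + 1 : ℕ) : k)).toNat, Int.toNat_of_nonneg hV.le⟩
  have hVpos : 0 < V := by omega
  obtain ⟨J, hJc, hJlt⟩ := exists_J (N := 2 * h + 1) (by omega) ⟨h, rfl⟩ hVpos
  -- the prime with a triple root
  obtain ⟨q, r, βq, hr, hrN, hrq, hβq, hβ1, hβ2⟩ := an25_tri k d hd (2 * h + 2 + Y)
  have hql : q ≠ l := by
    intro hql
    have h1 : ¬ (r : ℤ) ∣ (l0 : ℤ) := by
      intro hdv
      have h2 := Nat.le_of_dvd hl0.pos (by exact_mod_cast hdv)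
      have h3 := Nat.le_of_dvd (by omega) hl0h
      omega
    have h2 := an25_int_notMem q hr hrq h1
    apply h2
    rw [hql]
    simpa using hl
  set m : ℕ := r * (2 * h + 1 + Y).factorial with hm
  have hmpos : 0 < m := Nat.mul_pos hr.pos (Nat.factorial_pos _)
  have hml : (m : 𝓞 k) ∈ l.asIdeal := by
    have h1 : l0 ∣ m := Dvd.dvd.mul_left (hl0.dvd_factorial.mpr (by
      have := Nat.le_of_dvd (by omega) hl0h
      omega)) _
    obtain ⟨z, hz⟩ := h1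
    rw [hz, Nat.cast_mul]
    exact l.asIdeal.mul_mem_right _ hl
  have hmq : (m : 𝓞 k) ∈ q.asIdeal := by
    rw [hm, Nat.cast_mul]
    exact q.asIdeal.mul_mem_right _ hrq
  -- an element of order `J` at `l`
  have hlt : l.asIdeal ^ (J + 1) < l.asIdeal ^ J :=
    Ideal.pow_right_strictAnti l.asIdeal l.ne_bot l.isPrime.ne_top (Nat.lt_succ_self J)
  obtain ⟨xl, hxl, hxl'⟩ := Set.exists_of_ssubset hlt
  have hxl1 : xl ∈ l.asIdeal ^ J := hxl
  have hxl2 : xl ∉ l.asIdeal ^ (J + 1) := hxl'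
  obtain ⟨α, hα⟩ := an25_crt k hmpos (J + 2) (fun v => if v = l then xl else 1)
  obtain ⟨β, hβ⟩ := an25_crt k hmpos (J + 2) (fun v => if v = q then βq else 1)
  have hM : ∀ v : HeightOneSpectrum (𝓞 k), (((m ^ (J + 2) : ℕ)) : 𝓞 k) ∈ v.asIdeal →
      (m : 𝓞 k) ∈ v.asIdeal := by
    intro v hv
    rw [Nat.cast_pow] at hv
    exact v.isPrime.mem_of_pow_mem _ hv
  -- orders of `a`
  have ha_l : ∀ a : 𝓞 k, ((m ^ (J + 2) : ℕ) : 𝓞 k) ∣ a - α → a ≠ 0 ∧ ord l (a : k) = J := by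
    intro a ha
    have h1 := hα a ha l hml
    rw [if_pos rfl] at h1
    have h2 : a - xl ∈ l.asIdeal ^ (J + 1) := Ideal.pow_le_pow_right (by omega) h1
    refine an25_ord l ?_ ?_
    · have h3 := (l.asIdeal ^ J).add_mem (Ideal.pow_le_pow_right (by omega) h1) hxl1
      rwa [sub_add_cancel] at h3
    · intro h3
      apply hxl2
      have h4 := (l.asIdeal ^ (J + 1)).sub_mem h3 h2
      rwa [sub_sub_cancel] at h4
  have hone : ∀ (v : HeightOneSpectrum (𝓞 k)) (a : 𝓞 k), a - 1 ∈ v.asIdeal ^ (J + 2) →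
      a ≠ 0 ∧ ord v (a : k) = 0 := by
    intro v a ha
    refine an25_ord_zero v (fun h3 => ?_)
    apply v.isPrime.ne_top
    rw [Ideal.eq_top_iff_one]
    have h4 := v.asIdeal.sub_mem h3 (Ideal.pow_le_self (by omega) ha)
    rwa [sub_sub_cancel] at h4
  have ha_v : ∀ a : 𝓞 k, ((m ^ (J + 2) : ℕ) : 𝓞 k) ∣ a - α → ∀ v : HeightOneSpectrum (𝓞 k),
      (m : 𝓞 k) ∈ v.asIdeal → a ≠ 0 ∧ ord v (a : k) = if v = l then (J : ℤ) else 0 := by
    intro a ha v hv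
    by_cases hvl : v = l
    · rw [if_pos hvl, hvl]
      exact ha_l a ha
    · rw [if_neg hvl]
      have h1 := hα a ha v hv
      rw [if_neg hvl] at h1
      exact hone v a h1
  have hb_v : ∀ b : 𝓞 k, ((m ^ (J + 2) : ℕ) : 𝓞 k) ∣ b - β → ∀ v : HeightOneSpectrum (𝓞 k),
      (m : 𝓞 k) ∈ v.asIdeal → b ≠ 0 ∧ ord v (b : k) = 0 := by
    intro b hb v hv
    have h1 := hβ b hb v hv
    by_cases hvq : v = q
    · rw [if_pos hvq] at h1
      rw [hvq] at h1 ⊢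
      refine an25_ord_zero q (fun h3 => hβq ?_)
      have h4 := q.asIdeal.sub_mem h3 (Ideal.pow_le_self (by omega) h1)
      rwa [sub_sub_cancel] at h4
    · rw [if_neg hvq] at h1
      exact hone v b h1
  have hαself : ((m ^ (J + 2) : ℕ) : 𝓞 k) ∣ α - α := by rw [sub_self]; exact dvd_zero _
  have hβself : ((m ^ (J + 2) : ℕ) : 𝓞 k) ∣ β - β := by rw [sub_self]; exact dvd_zero _
  refine ⟨m ^ (J + 2), l, q, α, β, pow_pos hmpos _, fun p hp hpY => ?_, ?_,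
    (ha_l α hαself).1, (hb_v β hβself l hml).1, fun a ha v hv => ?_, fun b hb v hv => ?_,
    fun a b ha hb => ?_⟩
  · have h1 : p ∣ m := Dvd.dvd.mul_left (hp.dvd_factorial.mpr (by omega)) _
    exact h1.trans (dvd_pow_self m (by omega))
  · exact unitsUpTo_of_lt q hr hrq (by omega)
  · have h1 := ha_v a ha v (hM v hv)
    have h2 := ha_v α hαself v (hM v hv)
    exact ⟨h1.1, h1.2.trans h2.2.symm⟩
  · have h1 := hb_v b hb v (hM v hv)
    have h2 := hb_v β hβself v (hM v hv)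
    exact ⟨h1.1, h1.2.trans h2.2.symm⟩
  · have haq : a - 1 ∈ q.asIdeal ^ 2 := by
      have h1 := hα a ha q hmq
      rw [if_neg hql] at h1
      exact Ideal.pow_le_pow_right (by omega) h1
    have hbq : b - βq ∈ q.asIdeal ^ 2 := by
      have h1 := hβ b hb q hmq
      rw [if_pos rfl] at h1
      exact Ideal.pow_le_pow_right (by omega) h1
    obtain ⟨-, -, h3, h4, h5⟩ := an25_tri_use d q βq hβq hβ1 hβ2 a b haq hbq
    have hal := (ha_l a ha).2
    have hbl := (hb_v b hb l hml).2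
    refine ⟨hV, hbl, by rw [hal]; positivity, ?_, ?_, h3, h4, h5⟩
    · rw [hal, ← hVV]
      have h6 : IsCoprime (((V + 2 * J : ℕ)) : ℤ) (((2 * h + 1 : ℕ)) : ℤ) :=
        Nat.isCoprime_iff_coprime.mpr hJc
      push_cast at h6
      exact h6
    · rw [hal, ← hVV]
      exact_mod_cast hJlt

end Pool.Agent.H35.AN
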