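import Pool.Agent.H35.AN.Defs
import Pool.Agent.H35.AN.Val
import Pool.Agent.H35.AN.Tower
import Pool.Agent.H35.AN.Ram
import Pool.Agent.H35.AN.Basic
import Pool.Agent.H35.AN.Loc1
import Pool.Agent.H35.AN.Loc2

/-!
# Project AN (MP_a3214d), row AN-23: primes dividing `a` or `b` exactly once divide the discriminant
-/

set_option autoImplicit false

open Polynomial IsDedekindDomain NumberField

namespace Pool.Agent.H35.AN

/-- the norm of a generator is given by the constant and the leading coefficient -/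
theorem an23_norm {k K : Type} [Field k] [NumberField k] [Field K] [NumberField K] [Algebra k K]
    {F : k[X]} {x : K} (hx : (F.map (algebraMap k K)).eval x = 0)
    (hgen : IntermediateField.adjoin k {x} = ⊤) (hn : Module.finrank k K = F.natDegree)
    (hF : F ≠ 0) :
    Algebra.norm k x = (-1) ^ F.natDegree * (F.coeff 0 / F.leadingCoeff) := by
  have hint : IsIntegral k x := Algebra.IsIntegral.isIntegral x
  have hdeg : (minpoly k x).natDegree = F.natDegree := by
    rw [← hn, ← IntermediateField.adjoin.finrank hint, hgen, IntermediateField.finrank_top']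
  have hroot : aeval x F = 0 := by
    rw [← eval_map_algebraMap]; exact hx
  have hdvd := minpoly.dvd k x hroot
  have hmin : minpoly k x = C (F.leadingCoeff)⁻¹ * F := by
    symm
    have hmonic : (C (F.leadingCoeff)⁻¹ * F).Monic := by
      rw [mul_comm]; exact monic_mul_leadingCoeff_inv hF
    refine minpoly.unique_of_degree_le_degree_minpoly k x hmonic ?_ ?_
    · rw [map_mul, hroot, mul_zero]
    · rw [degree_eq_natDegree hmonic.ne_zero, degree_eq_natDegree (minpoly.ne_zero hint),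
        natDegree_C_mul (inv_ne_zero (leadingCoeff_ne_zero.2 hF)), hdeg]
  set e := (IntermediateField.equivOfEq hgen).trans IntermediateField.topEquiv with he
  set pb := (IntermediateField.adjoin.powerBasis hint).map e with hpb
  have hgenx : pb.gen = x := by
    simp [hpb, he]
  have h := Algebra.PowerBasis.norm_gen_eq_coeff_zero_minpoly pb
  rw [hgenx] at h
  rw [h, ← pb.finrank, hn, hmin, coeff_C_mul]
  ring

theorem an23_norm_inv {k K : Type} [Field k] [Field K] [Algebra k K] [FiniteDimensional k K]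
    {x : K} (hx : x ≠ 0) : Algebra.norm k x⁻¹ = (Algebra.norm k x)⁻¹ := by
  apply eq_inv_of_mul_eq_one_left
  rw [← map_mul, inv_mul_cancel₀ hx, map_one]

section Units

variable {k : Type} [Field k] [NumberField k] (p : HeightOneSpectrum (𝓞 k))

theorem an23_ord_nat {N m : ℕ} (hu : UnitsUpTo p N) (h0 : 0 < m) (hm : m ≤ N) :
    (m : k) ≠ 0 ∧ ord p (m : k) = 0 :=
  ⟨Nat.cast_ne_zero.2 h0.ne', hu m h0 hm⟩

theorem an23_ord_sign (n : ℕ) : ord p ((-1 : k) ^ n) = 0 := by
  rw [ord_pow, ord_neg, ord_one, mul_zero]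

/-- the constants of the two families are units at `p` -/
theorem an23_consts {h : ℕ} (hh : 2 ≤ h) (hu : UnitsUpTo p (2 * h + 2)) :
    ((2 * (h : k) - 1) ≠ 0 ∧ ord p (2 * (h : k) - 1) = 0) ∧
    ((2 * (h : k) + 1) ≠ 0 ∧ ord p (2 * (h : k) + 1) = 0) ∧
    ((h : k) ≠ 0 ∧ ord p (h : k) = 0) := by
  have h1 := an23_ord_nat p hu (m := 2 * h - 1) (by omega) (by omega)
  have h2 := an23_ord_nat p hu (m := 2 * h + 1) (by omega) (by omega)
  have h3 := an23_ord_nat p hu (m := h) (by omega) (by omega)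
  have e1 : ((2 * h - 1 : ℕ) : k) = 2 * (h : k) - 1 := by
    rw [Nat.cast_sub (by omega)]; push_cast; ring
  have e2 : ((2 * h + 1 : ℕ) : k) = 2 * (h : k) + 1 := by push_cast; ring
  rw [e1] at h1
  rw [e2] at h2
  exact ⟨h1, h2, h3⟩

end Units

/-- the constant term of the first family -/
theorem an23_coeff1 {k : Type} [Field k] {h : ℕ} (hh : 2 ≤ h) (a b : k) :
    (F1 h a b).coeff 0 = -((dd1 h : k) * a ^ 2 * (2 * h - 1)) := by
  rw [coeff_zero_eq_eval_zero, F1]
  have : (2 * h) ≠ 0 := by omega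
  simp [this]
  ring

theorem an23_coeff2 {k : Type} [Field k] {h : ℕ} (hh : 2 ≤ h) (a b : k) :
    (F2 h a b).coeff 0 = -((dd2 h : k) * a ^ 2) := by
  rw [coeff_zero_eq_eval_zero, F2]
  have : (2 * h) ≠ 0 := by omega
  simp [this]

/-- from a prime above `p` with a root whose order is divided as stated -/
theorem an23_fin {k K : Type} [Field k] [NumberField k] [Field K] [NumberField K] [Algebra k K]
    {p : HeightOneSpectrum (𝓞 k)} {P : HeightOneSpectrum (𝓞 K)} (hP : below k P = p)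
    {r : ℕ} (hr : r.Prime) (hrp : (r : 𝓞 k) ∈ p.asIdeal) {N : ℕ} (hN : 2 ≤ N) {t : ℤ} (ht : t ≠ 0)
    (he : (N : ℤ) * t = erel k P ∨ (N : ℤ) * t = -(erel k P)) :
    (r : ℤ) ∣ NumberField.discr K := by
  have hpos := erel_pos (k := k) P
  refine dvd_discr_of_erel (k := k) P hr ((mem_below P r).1 (hP ▸ hrp)) ?_
  have h1 : (1 : ℤ) ≤ |t| := Int.one_le_abs ht
  have h2 : (N : ℤ) * |t| = erel k P := by
    have : |(N : ℤ) * t| = erel k P := by
      rcases he with he | he
      · rw [he, abs_of_nonneg (by positivity)]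
      · rw [he, abs_neg, abs_of_nonneg (by positivity)]
    rw [← this, abs_mul, Nat.abs_cast]
  have h3 : (2 : ℤ) ≤ erel k P := by
    rw [← h2]
    have : (2 : ℤ) ≤ N := by exact_mod_cast hN
    nlinarith
  exact_mod_cast h3

theorem dvd_discr1 {k K : Type} [Field k] [NumberField k] [Field K] [NumberField K] [Algebra k K]
    {h : ℕ} (hh : 2 ≤ h) {a b : k} (ha : a ≠ 0) (hb : b ≠ 0) {x : K}
    (hx : ev1 h (algebraMap k K a) (algebraMap k K b) x = 0)
    (hgen : IntermediateField.adjoin k {x} = ⊤) (hn : Module.finrank k K = 2 * h + 1)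
    (p : HeightOneSpectrum (𝓞 k)) (hu : UnitsUpTo p (2 * h + 2))
    (hab : (ord p a = 1 ∧ ord p b = 0) ∨ (ord p b = 1 ∧ ord p a = 0))
    {r : ℕ} (hr : r.Prime) (hrp : (r : 𝓞 k) ∈ p.asIdeal) :
    (r : ℤ) ∣ NumberField.discr K := by
  obtain ⟨hc1, hc2, hc3⟩ := an23_consts p hh hu
  obtain ⟨hdeg, hlc⟩ := F1_natDegree hh a hb
  have hd0 : ((dd1 h : ℤ) : k) ≠ 0 ∧ ord p ((dd1 h : ℤ) : k) = 0 := by
    have e : ((dd1 h : ℤ) : k) = (-1) ^ h * ((2 * h + 1) * (2 * h - 1)) := by
      rw [dd1]; push_cast; ring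
    have hne : ((-1 : k) ^ h) ≠ 0 := pow_ne_zero _ (neg_ne_zero.2 one_ne_zero)
    rw [e]
    refine ⟨mul_ne_zero hne (mul_ne_zero hc2.1 hc1.1), ?_⟩
    rw [ord_mul p hne (mul_ne_zero hc2.1 hc1.1), ord_mul p hc2.1 hc1.1, an23_ord_sign, hc2.2, hc1.2]
    norm_num
  have hF0 : F1 h a b ≠ 0 := by
    intro h0; rw [h0] at hdeg; simp at hdeg
  have hnorm : Algebra.norm k x = (dd1 h : k) * a ^ 2 / b ^ 2 := by
    rw [an23_norm (F := F1 h a b) (by rw [F1_eval]; exact hx) hgen (by rw [hn, hdeg]) hF0, hdeg, hlc,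
      an23_coeff1 hh]
    have h1 : ((-1 : k) ^ (2 * h + 1)) = -1 := by rw [pow_succ, pow_mul]; simp
    rw [h1]
    have := hc1.1
    field_simp
  have hxn0 : Algebra.norm k x ≠ 0 := by
    rw [hnorm]
    exact div_ne_zero (mul_ne_zero hd0.1 (pow_ne_zero _ ha)) (pow_ne_zero _ hb)
  have hx0 : x ≠ 0 := by
    rintro rfl
    exact hxn0 (by rw [Algebra.norm_zero])
  have hordn : ord p (Algebra.norm k x) = 2 * ord p a - 2 * ord p b := by
    rw [hnorm, ord_div p (mul_ne_zero hd0.1 (pow_ne_zero _ ha)) (pow_ne_zero _ hb),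
      ord_mul p hd0.1 (pow_ne_zero _ ha), ord_pow, ord_pow, hd0.2]
    push_cast; ring
  have ha' : algebraMap k K a ≠ 0 := (_root_.map_ne_zero _).2 ha
  have hb' : algebraMap k K b ≠ 0 := (_root_.map_ne_zero _).2 hb
  rcases hab with ⟨h1, h2⟩ | ⟨h1, h2⟩
  · -- `p ∣ a`
    obtain ⟨P, hP, hlt⟩ := exists_ord_neg (k := k) (x := x⁻¹) (inv_ne_zero hx0) p (by
      rw [an23_norm_inv hx0, ord_inv, hordn, h1, h2]; norm_num)
    rw [ord_inv] at hlt
    have hoa : ord P (algebraMap k K a) = erel k P := by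
      rw [ord_algebraMap, hP, h1, mul_one]
    have hob : ord P (algebraMap k K b) = 0 := by
      rw [ord_algebraMap, hP, h2, mul_zero]
    have hpos : (0 : ℤ) < erel k P := by exact_mod_cast erel_pos (k := k) P
    obtain ⟨-, h3⟩ := loc1_pos P hh (unitsUpTo_below P (hP ▸ hu)) hpos ha' hb' hoa hob hx
    rcases h3 with h3 | h3
    · omega
    · exact an23_fin hP hr hrp hh (t := ord P x) (by omega) (Or.inl h3)
  · -- `p ∣ b`
    obtain ⟨P, hP, hlt⟩ := exists_ord_neg (k := k) (x := x) hx0 p (by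
      rw [hordn, h1, h2]; norm_num)
    have hoa : ord P (algebraMap k K a) = 0 := by
      rw [ord_algebraMap, hP, h2, mul_zero]
    have hob : ord P (algebraMap k K b) = erel k P := by
      rw [ord_algebraMap, hP, h1, mul_one]
    have hpos : (0 : ℤ) < erel k P := by exact_mod_cast erel_pos (k := k) P
    obtain ⟨-, h3⟩ := loc1_neg P hh (unitsUpTo_below P (hP ▸ hu)) hpos ha' hb' hoa hob hx
    rcases h3 with h3 | h3
    · omega
    · exact an23_fin hP hr hrp hh (t := ord P x) (by omega) (Or.inr h3)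

theorem dvd_discr2 {k K : Type} [Field k] [NumberField k] [Field K] [NumberField K] [Algebra k K]
    {h : ℕ} (hh : 2 ≤ h) {a b : k} (ha : a ≠ 0) (hb : b ≠ 0) {x : K}
    (hx : ev2 h (algebraMap k K a) (algebraMap k K b) x = 0)
    (hgen : IntermediateField.adjoin k {x} = ⊤) (hn : Module.finrank k K = 2 * h + 2)
    (p : HeightOneSpectrum (𝓞 k)) (hu : UnitsUpTo p (2 * h + 2))
    (hab : (ord p a = 1 ∧ ord p b = 0) ∨ (ord p b = 1 ∧ ord p a = 0))
    {r : ℕ} (hr : r.Prime) (hrp : (r : 𝓞 k) ∈ p.asIdeal) :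
    (r : ℤ) ∣ NumberField.discr K := by
  obtain ⟨hc1, hc2, hc3⟩ := an23_consts p hh hu
  obtain ⟨hdeg, hlc⟩ := F2_natDegree hh a hb
  have hd0 : ((dd2 h : ℤ) : k) ≠ 0 ∧ ord p ((dd2 h : ℤ) : k) = 0 := by
    have e : ((dd2 h : ℤ) : k) = (-1) ^ h * (h * (2 * h + 1)) := by
      rw [dd2]; push_cast; ring
    have hne : ((-1 : k) ^ h) ≠ 0 := pow_ne_zero _ (neg_ne_zero.2 one_ne_zero)
    rw [e]
    refine ⟨mul_ne_zero hne (mul_ne_zero hc3.1 hc2.1), ?_⟩
    rw [ord_mul p hne (mul_ne_zero hc3.1 hc2.1), ord_mul p hc3.1 hc2.1, an23_ord_sign, hc2.2, hc3.2]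
    norm_num
  have hc0 : ((h : k) * (2 * h + 1)) ≠ 0 ∧ ord p ((h : k) * (2 * h + 1)) = 0 :=
    ⟨mul_ne_zero hc3.1 hc2.1, by rw [ord_mul p hc3.1 hc2.1, hc2.2, hc3.2]; norm_num⟩
  have hF0 : F2 h a b ≠ 0 := by
    intro h0; rw [h0] at hdeg; simp at hdeg
  have hnorm : Algebra.norm k x = -((dd2 h : k) * a ^ 2 / ((h * (2 * h + 1)) * b ^ 2)) := by
    rw [an23_norm (F := F2 h a b) (by rw [F2_eval]; exact hx) hgen (by rw [hn, hdeg]) hF0, hdeg, hlc,
      an23_coeff2 hh]
    have h1 : ((-1 : k) ^ (2 * h + 2)) = 1 := by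
      rw [show 2 * h + 2 = 2 * (h + 1) by ring, pow_mul]; simp
    rw [h1]
    ring
  have hden : ((h : k) * (2 * h + 1)) * b ^ 2 ≠ 0 := mul_ne_zero hc0.1 (pow_ne_zero _ hb)
  have hxn0 : Algebra.norm k x ≠ 0 := by
    rw [hnorm]
    exact neg_ne_zero.2 (div_ne_zero (mul_ne_zero hd0.1 (pow_ne_zero _ ha)) hden)
  have hx0 : x ≠ 0 := by
    rintro rfl
    exact hxn0 (by rw [Algebra.norm_zero])
  have hordn : ord p (Algebra.norm k x) = 2 * ord p a - 2 * ord p b := by
    rw [hnorm, ord_neg, ord_div p (mul_ne_zero hd0.1 (pow_ne_zero _ ha)) hden,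
      ord_mul p hd0.1 (pow_ne_zero _ ha), ord_mul p hc0.1 (pow_ne_zero _ hb), ord_pow, ord_pow,
      hd0.2, hc0.2]
    push_cast; ring
  have ha' : algebraMap k K a ≠ 0 := (_root_.map_ne_zero _).2 ha
  have hb' : algebraMap k K b ≠ 0 := (_root_.map_ne_zero _).2 hb
  rcases hab with ⟨h1, h2⟩ | ⟨h1, h2⟩
  · -- `p ∣ a`
    obtain ⟨P, hP, hlt⟩ := exists_ord_neg (k := k) (x := x⁻¹) (inv_ne_zero hx0) p (by
      rw [an23_norm_inv hx0, ord_inv, hordn, h1, h2]; norm_num)
    rw [ord_inv] at hlt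
    have hoa : ord P (algebraMap k K a) = erel k P := by
      rw [ord_algebraMap, hP, h1, mul_one]
    have hob : ord P (algebraMap k K b) = 0 := by
      rw [ord_algebraMap, hP, h2, mul_zero]
    have hpos : (0 : ℤ) < erel k P := by exact_mod_cast erel_pos (k := k) P
    obtain ⟨-, h3⟩ := loc2_pos P hh (unitsUpTo_below P (hP ▸ hu)) hpos ha' hb' hoa hob hx
    rcases h3 with h3 | h3
    · omega
    · exact an23_fin hP hr hrp hh (t := ord P x) (by omega) (Or.inl h3)
  · -- `p ∣ b`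
    obtain ⟨P, hP, hlt⟩ := exists_ord_neg (k := k) (x := x) hx0 p (by
      rw [hordn, h1, h2]; norm_num)
    have hoa : ord P (algebraMap k K a) = 0 := by
      rw [ord_algebraMap, hP, h2, mul_zero]
    have hob : ord P (algebraMap k K b) = erel k P := by
      rw [ord_algebraMap, hP, h1, mul_one]
    have hpos : (0 : ℤ) < erel k P := by exact_mod_cast erel_pos (k := k) P
    obtain ⟨-, h3⟩ := loc2_neg P hh (unitsUpTo_below P (hP ▸ hu)) hpos ha' hb' hoa hob hx
    refine an23_fin hP hr hrp (N := h + 1) (by omega) (t := ord P x) (by omega) (Or.inr ?_)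
    push_cast
    exact h3

end Pool.Agent.H35.AN
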