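import Pool.Agent.H35.AN.Defs
import Pool.Agent.H35.AN.Val
import Pool.Agent.H35.AN.Basic
import Pool.Agent.H35.AN.Fam1
import Pool.Agent.H35.AN.Fam2
import Pool.Agent.H35.AN.Rad
import Pool.Agent.H35.AN.Transport
import Pool.Agent.H35.AN.Param
import Pool.Agent.H35.AN.Gal1
import Pool.Agent.H35.AN.Gal2

/-!
# Project AN, row 26: the key statement
-/

set_option autoImplicit false

open Polynomial IsDedekindDomain NumberField

namespace Pool.Agent.H35.AN

/-- A large balanced element with the same valuations as `β` at the primes of `M` has a prime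
factor outside `M`. -/
theorem an26_exists_prime (k : Type) [Field k] [NumberField k] (M : ℕ) {β : 𝓞 k} (hβ : β ≠ 0)
    {lam : ℝ} (hlam : 1 ≤ lam) :
    ∃ T0 : ℕ, ∀ T : ℕ, T0 ≤ T → ∀ b : 𝓞 k, b ≠ 0 →
      (∀ r : HeightOneSpectrum (𝓞 k), (M : 𝓞 k) ∈ r.asIdeal → ord r (b : k) = ord r (β : k)) →
      Balanced lam T b → ∃ p : HeightOneSpectrum (𝓞 k), (M : 𝓞 k) ∉ p.asIdeal ∧ b ∈ p.asIdeal := by
  have hlam0 : 0 < lam := by linarith
  set N : ℝ := |((Algebra.norm ℚ (β : k) : ℚ) : ℝ)| with hN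
  refine ⟨⌈lam * (N + 1)⌉₊ + 1, fun T hT b hb hord hbal => ?_⟩
  by_contra hcon
  push Not at hcon
  have hbk : (b : k) ≠ 0 := by simpa using hb
  have hβk : (β : k) ≠ 0 := by simpa using hβ
  have hint : IsIntegral ℤ ((β : k) / (b : k)) := by
    apply isIntegral_of_forall_ge
    intro P
    rw [ge_iff P (div_ne_zero hβk hbk), ord_div P hβk hbk]
    by_cases hM : (M : 𝓞 k) ∈ P.asIdeal
    · rw [hord P hM, sub_self]
    · have h1 := hcon P hM
      rw [mem_iff_ge_one, ge_iff P hbk] at h1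
      have h2 : Ge P 0 (β : k) := ge_of_isIntegral P β.isIntegral_coe
      rw [ge_iff P hβk] at h2
      omega
  obtain ⟨c, hc⟩ : ∃ c : 𝓞 k, (c : k) = (β : k) / (b : k) := ⟨⟨_, hint⟩, rfl⟩
  have hc0 : c ≠ 0 := by
    intro h0
    rw [h0] at hc
    have : (β : k) / (b : k) ≠ 0 := div_ne_zero hβk hbk
    exact this (by rw [← hc]; simp)
  have hβc : (β : k) = (b : k) * (c : k) := by
    rw [hc]; field_simp
  have hnc : (1 : ℝ) ≤ |((Algebra.norm ℚ (c : k) : ℚ) : ℝ)| := by
    have h1 : Algebra.norm ℤ c ≠ 0 := Algebra.norm_ne_zero_iff.mpr hc0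
    have h2 : ((Algebra.norm ℤ c : ℤ) : ℚ) = Algebra.norm ℚ (c : k) := Algebra.coe_norm_int c
    rw [← h2]
    have h3 : (1 : ℤ) ≤ |Algebra.norm ℤ c| := Int.one_le_abs h1
    exact_mod_cast h3
  have hnorm : N = |((Algebra.norm ℚ (b : k) : ℚ) : ℝ)| * |((Algebra.norm ℚ (c : k) : ℚ) : ℝ)| := by
    rw [hN, hβc, map_mul]
    push_cast
    rw [abs_mul]
  have hT1 : lam * (N + 1) ≤ T := by
    have h1 := Nat.le_ceil (lam * (N + 1))
    have h2 : ((⌈lam * (N + 1)⌉₊ + 1 : ℕ) : ℝ) ≤ T := by exact_mod_cast hT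
    push_cast at h2
    linarith
  have hN0 : 0 ≤ N := abs_nonneg _
  have hTl : N + 1 ≤ T / lam := by
    rw [le_div_iff₀ hlam0]; linarith
  have hnb : T / lam ≤ |((Algebra.norm ℚ (b : k) : ℚ) : ℝ)| := by
    have h1 := InfinitePlace.prod_eq_abs_norm (b : k)
    have h2 : ∏ w : InfinitePlace k, ((T : ℝ) / lam) ^ w.mult ≤
        ∏ w : InfinitePlace k, (w (b : k)) ^ w.mult := by
      apply Finset.prod_le_prod
      · intro w _
        have : 0 ≤ (T : ℝ) / lam := by linarith
        exact pow_nonneg this _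
      · intro w _
        have h3 : (T : ℝ) / lam ≤ w (b : k) := by
          rw [← InfinitePlace.norm_embedding_eq, div_le_iff₀ hlam0]
          have := (hbal w.embedding).1
          linarith [mul_comm lam ‖w.embedding (b : k)‖]
        exact pow_le_pow_left₀ (by linarith) h3 _
    rw [Finset.prod_pow_eq_pow_sum, InfinitePlace.sum_mult_eq] at h2
    have h4 : (T : ℝ) / lam ≤ ((T : ℝ) / lam) ^ Module.finrank ℚ k := by
      have h5 : 0 < Module.finrank ℚ k := Module.finrank_pos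
      exact le_self_pow₀ (by linarith) h5.ne'
    rw [h1] at h2
    have h6 : ((|Algebra.norm ℚ (b : k)| : ℚ) : ℝ) = |((Algebra.norm ℚ (b : k) : ℚ) : ℝ)| := by
      push_cast; rfl
    linarith [h6.le, h6.ge]
  have h7 : |((Algebra.norm ℚ (b : k) : ℚ) : ℝ)| ≤ N := by
    rw [hnorm]
    exact le_mul_of_one_le_right (abs_nonneg _) hnc
  linarith

/-- primes outside `M` have large residue characteristic -/
theorem an26_units {k : Type} [Field k] [NumberField k] {M Y N : ℕ}
    (hM : ∀ r : ℕ, r.Prime → r ≤ Y → r ∣ M) (hN : N ≤ Y) (p : HeightOneSpectrum (𝓞 k))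
    (hp : (M : 𝓞 k) ∉ p.asIdeal) : UnitsUpTo p N := by
  obtain ⟨r, hr, hrp⟩ := exists_rat_prime p
  refine unitsUpTo_of_lt p hr hrp ?_
  by_contra hlt
  push Not at hlt
  obtain ⟨c, hc⟩ := hM r hr (hlt.trans hN)
  apply hp
  rw [hc]
  push_cast
  exact Ideal.mul_mem_right _ _ hrp

/-- valuations of a squarefree element -/
theorem an26_ord_one {k : Type} [Field k] [NumberField k] {M : ℕ} {a : 𝓞 k}
    (ha : a ≠ 0) (hs : SqfreeOff M a) (p : HeightOneSpectrum (𝓞 k))
    (hp : (M : 𝓞 k) ∉ p.asIdeal) (hap : a ∈ p.asIdeal) : ord p (a : k) = 1 := by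
  have hak : (a : k) ≠ 0 := by simpa using ha
  have h1 := hs p hp
  rw [mem_pow_iff, ge_iff p hak] at h1
  rw [mem_iff_ge_one, ge_iff p hak] at hap
  push_cast at h1
  omega

theorem an26_ord_zero {k : Type} [Field k] [NumberField k] {a : 𝓞 k}
    (ha : a ≠ 0) (p : HeightOneSpectrum (𝓞 k)) (hap : a ∉ p.asIdeal) : ord p (a : k) = 0 := by
  have hak : (a : k) ≠ 0 := by simpa using ha
  have h2 : Ge p 0 (a : k) := ge_of_isIntegral p a.isIntegral_coe
  rw [ge_iff p hak] at h2
  rw [mem_iff_ge_one, ge_iff p hak] at hap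
  omega

/-- The key statement from the properties of a family `F`. -/
theorem an26_key (k : Type) [Field k] [NumberField k] {h n : ℕ} (hh : 2 ≤ h) (hn : 3 ≤ n) (d : ℤ)
    (hd : d ≠ 0) (F : k → k → k[X])
    (hroots : ∀ a b : k, a ≠ 0 → b ≠ 0 → b ^ 2 ≠ (d : k) * a ^ 2 →
      Nonempty (Roots k (AlgebraicClosure k) n (F a b)))
    (hgal : ∀ (L : Type) [Field L] [NumberField L] [Algebra k L] [IsGalois k L] (a b : k)
      (R : Roots k L n (F a b)), IntermediateField.adjoin k (Set.range R.θ) = ⊤ →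
      ∀ l p q : HeightOneSpectrum (𝓞 k), Cond k h d a b l p q →
        R.permHom.range = alternatingGroup (Fin n))
    (hdisc : ∀ lam : ℝ, 1 ≤ lam → ∃ C : ℝ, 0 < C ∧
      ∀ (K : Type) [Field K] [NumberField K] [Algebra k K] (a b : 𝓞 k) (x : K) (T : ℝ), 1 ≤ T →
        Balanced lam T a → Balanced lam T b → Module.finrank k K = n →
        IntermediateField.adjoin k {x} = ⊤ →
        ((F (a : k) (b : k)).map (algebraMap k K)).eval x = 0 →
        |(NumberField.discr K : ℝ)| ≤ C * T ^ (Module.finrank ℚ k * (2 * n - 2)))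
    (hrad : ∀ (K : Type) [Field K] [NumberField K] [Algebra k K] (a b : k), a ≠ 0 → b ≠ 0 →
      ∀ x : K, ((F a b).map (algebraMap k K)).eval x = 0 →
        IntermediateField.adjoin k {x} = ⊤ → Module.finrank k K = n →
        ∀ p : HeightOneSpectrum (𝓞 k), UnitsUpTo p (2 * h + 2) →
        ((ord p a = 1 ∧ ord p b = 0) ∨ (ord p b = 1 ∧ ord p a = 0)) →
        ∀ r : ℕ, r.Prime → (r : 𝓞 k) ∈ p.asIdeal → (r : ℤ) ∣ NumberField.discr K) :
    KeyK k n := by
  intro Y
  obtain ⟨M, l, q, α, β, hM0, hMY, hqu, hα, hβ, hca, hcb, hab⟩ :=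
    exists_param k hh d hd (max Y (2 * h + 2))
  refine ⟨M, α, β, hM0, fun r hr hrY => hMY r hr (hrY.trans (le_max_left _ _)), hα, hβ, hca, hcb,
    ?_⟩
  intro lam hlam
  obtain ⟨C, hC, hdisc'⟩ := hdisc lam hlam
  obtain ⟨T0, hT0⟩ := an26_exists_prime k M hβ hlam
  refine ⟨C, T0 + 1, hC, ?_⟩
  intro T hT a b ha hb hba hbb hsa hsb hcop
  obtain ⟨hl_pos, hl_b, hl_a, hl_cop, hl_lt, hq_a, hq_b, hq_ab⟩ := hab a b ha hb
  have hT1 : (1 : ℝ) ≤ T := by
    have : 1 ≤ T := by omega
    exact_mod_cast this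
  have hne : ∀ c : 𝓞 k, Balanced lam T c → c ≠ 0 := by
    intro c hc h0
    obtain ⟨φ⟩ : Nonempty (k →+* ℂ) := inferInstance
    have h1 := (hc φ).1
    rw [h0] at h1
    simp at h1
    linarith
  have ha0 : a ≠ 0 := hne a hba
  have hb0 : b ≠ 0 := hne b hbb
  have hak : (a : k) ≠ 0 := by simpa using ha0
  have hbk : (b : k) ≠ 0 := by simpa using hb0
  obtain ⟨p, hpM, hpb⟩ := hT0 T (by omega) b hb0 (fun r hr => (hcb b hb r hr).2) hbb
  have hpa : a ∉ p.asIdeal := fun hpa => hcop p hpM ⟨hpa, hpb⟩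
  have hcond : Cond k h d (a : k) (b : k) l p q :=
    { ha := hak
      hb := hbk
      l_pos := hl_pos
      l_b := hl_b
      l_a := hl_a
      l_cop := hl_cop
      l_lt := hl_lt
      p_units := an26_units hMY (le_max_right _ _) p hpM
      p_a := an26_ord_zero ha0 p hpa
      p_b := an26_ord_one hb0 hsb p hpM hpb
      q_units := hqu
      q_a := hq_a
      q_b := hq_b
      q_ab := hq_ab }
  have hsq : (b : k) ^ 2 ≠ (d : k) * (a : k) ^ 2 := by
    intro h0
    rw [h0, sub_self, ord_zero] at hq_ab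
    exact absurd hq_ab (by norm_num)
  obtain ⟨R⟩ := hroots a b hak hbk hsq
  have i0 : Fin n := ⟨0, by omega⟩
  have halt : IsAltField k n (IntermediateField.adjoin k {R.θ i0}) :=
    transport k hn R (fun L _ _ _ _ R' hR' => hgal L (a : k) (b : k) R' hR' l p q hcond) i0
  have hfr : Module.finrank k (IntermediateField.adjoin k {R.θ i0}) = n := halt.1
  have : FiniteDimensional k (IntermediateField.adjoin k {R.θ i0}) :=
    Module.finite_of_finrank_pos (by omega)
  have hNF : NumberField (IntermediateField.adjoin k {R.θ i0}) := NumberField.of_module_finite k _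
  have hgen : IntermediateField.adjoin k
      {(IntermediateField.AdjoinSimple.gen k (R.θ i0) : IntermediateField.adjoin k {R.θ i0})} = ⊤ := by
    apply IntermediateField.lift_injective
    rw [IntermediateField.lift_adjoin_simple, IntermediateField.lift_top,
      IntermediateField.AdjoinSimple.coe_gen]
  have hroot : ((F (a : k) (b : k)).map (algebraMap k (IntermediateField.adjoin k {R.θ i0}))).eval
      (IntermediateField.AdjoinSimple.gen k (R.θ i0)) = 0 := by
    have h1 := R.eval_root i0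
    rw [eval_map_algebraMap] at h1 ⊢
    apply Subtype.ext
    have h2 : aeval (algebraMap (IntermediateField.adjoin k {R.θ i0}) (AlgebraicClosure k)
        (IntermediateField.AdjoinSimple.gen k (R.θ i0))) (F (a : k) (b : k)) =
        algebraMap (IntermediateField.adjoin k {R.θ i0}) (AlgebraicClosure k)
          (aeval (IntermediateField.AdjoinSimple.gen k (R.θ i0)) (F (a : k) (b : k))) :=
      aeval_algebraMap_apply _ _ _
    rw [IntermediateField.AdjoinSimple.algebraMap_gen, h1] at h2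
    exact h2.symm
  refine ⟨IntermediateField.adjoin k {R.θ i0}, hNF, halt, ?_, ?_⟩
  · exact hdisc' _ a b _ (T : ℝ) hT1 hba hbb hfr hgen hroot
  · intro r hr p' hrp' hMp' hor
    refine hrad _ (a : k) (b : k) hak hbk _ hroot hgen hfr p'
      (an26_units hMY (le_max_right _ _) p' hMp') ?_ r hr hrp'
    rcases hor with h1 | h1
    · exact Or.inl ⟨an26_ord_one ha0 hsa p' hMp' h1,
        an26_ord_zero hb0 p' (fun h2 => hcop p' hMp' ⟨h1, h2⟩)⟩
    · exact Or.inr ⟨an26_ord_one hb0 hsb p' hMp' h1,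
        an26_ord_zero ha0 p' (fun h2 => hcop p' hMp' ⟨h2, h1⟩)⟩

theorem key1 (k : Type) [Field k] [NumberField k] {h : ℕ} (hh : 2 ≤ h) : KeyK k (2 * h + 1) := by
  refine an26_key k hh (by omega) (dd1 h) ?_ (fun a b => F1 h a b) ?_ ?_ ?_ ?_
  · have h1 : (0 : ℤ) < (2 * h + 1) * (2 * h - 1) := by
      have : (2 : ℤ) ≤ h := by exact_mod_cast hh
      nlinarith
    unfold dd1
    exact mul_ne_zero (pow_ne_zero _ (by norm_num)) h1.ne'
  · intro a b ha hb hab
    exact exists_roots1 hh ha hb hab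
  · intro L _ _ _ _ a b R hR l p q hc
    exact gal1 hh R hR hc
  · intro lam hlam
    obtain ⟨C, hC, H⟩ := discr_le1 k hh lam hlam
    refine ⟨C, hC, ?_⟩
    intro K _ _ _ a b x T hT hba hbb hfr hgen hx
    rw [F1_eval] at hx
    have := H K a b x T hT hba hbb hfr hgen hx
    rwa [show 2 * (2 * h + 1) - 2 = 4 * h by omega]
  · intro K _ _ _ a b ha hb x hx hgen hfr p hu hor r hr hrp
    rw [F1_eval] at hx
    exact dvd_discr1 hh ha hb hx hgen hfr p hu hor hr hrp

theorem key2 (k : Type) [Field k] [NumberField k] {h : ℕ} (hh : 2 ≤ h) : KeyK k (2 * h + 2) := by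
  refine an26_key k hh (by omega) (dd2 h) ?_ (fun a b => F2 h a b) ?_ ?_ ?_ ?_
  · have h1 : (0 : ℤ) < h * (2 * h + 1) := by
      have : (2 : ℤ) ≤ h := by exact_mod_cast hh
      nlinarith
    unfold dd2
    exact mul_ne_zero (pow_ne_zero _ (by norm_num)) h1.ne'
  · intro a b ha hb hab
    exact exists_roots2 hh ha hb hab
  · intro L _ _ _ _ a b R hR l p q hc
    exact gal2 hh R hR hc
  · intro lam hlam
    obtain ⟨C, hC, H⟩ := discr_le2 k hh lam hlam
    refine ⟨C, hC, ?_⟩
    intro K _ _ _ a b x T hT hba hbb hfr hgen hx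
    rw [F2_eval] at hx
    have := H K a b x T hT hba hbb hfr hgen hx
    rwa [show 2 * (2 * h + 2) - 2 = 4 * h + 2 by omega]
  · intro K _ _ _ a b ha hb x hx hgen hfr p hu hor r hr hrp
    rw [F2_eval] at hx
    exact dvd_discr2 hh ha hb hx hgen hfr p hu hor hr hrp

end Pool.Agent.H35.AN
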