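import Pool.Agent.H35.AN.Key
import Pool.Agent.H35.AN.Count

/-!
# Project AN (MP_a3214d): assembly
-/

set_option autoImplicit false

open Polynomial IsDedekindDomain NumberField Filter

namespace Pool.Agent.H35.AN

/-- the theorem with a constant -/
theorem main (k : Type) [Field k] [NumberField k] {n : ℕ} (hn : 5 ≤ n) (ε : ℝ) (hε : 0 < ε) :
    ∃ c : ℝ, 0 < c ∧ ∀ᶠ B : ℝ in atTop,
      c * B ^ (1 / ((n : ℝ) - 1) - ε) ≤ (malleCount k n (alternatingGroup (Fin n)) B : ℝ) := by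
  rcases Nat.even_or_odd n with ⟨m, hm⟩ | ⟨m, hm⟩
  · have h2 := key2 k (h := m - 1) (by omega)
    rw [show 2 * (m - 1) + 2 = n by omega] at h2
    exact count_of_key k (by omega) h2 ε hε
  · have h1 := key1 k (h := m) (by omega)
    rw [show 2 * m + 1 = n by omega] at h1
    exact count_of_key k (by omega) h1 ε hε

/-- the theorem without a constant -/
theorem main' (k : Type) [Field k] [NumberField k] {n : ℕ} (hn : 5 ≤ n) (ε : ℝ) (hε : 0 < ε) :
    ∀ᶠ B : ℝ in atTop,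
      B ^ (1 / ((n : ℝ) - 1) - ε) ≤ (malleCount k n (alternatingGroup (Fin n)) B : ℝ) := by
  obtain ⟨c, hc, h⟩ := main k hn (ε / 2) (by positivity)
  have ht : ∀ᶠ B : ℝ in atTop, c⁻¹ ≤ B ^ (ε / 2) :=
    (tendsto_rpow_atTop (by positivity : 0 < ε / 2)).eventually_ge_atTop _
  filter_upwards [h, ht, eventually_gt_atTop (0 : ℝ)] with B hB hB' hpos
  refine le_trans ?_ hB
  have h1 : B ^ (1 / ((n : ℝ) - 1) - ε / 2) = B ^ (1 / ((n : ℝ) - 1) - ε) * B ^ (ε / 2) := by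
    rw [← Real.rpow_add hpos]
    congr 1
    ring
  rw [h1]
  have h2 : 0 ≤ B ^ (1 / ((n : ℝ) - 1) - ε) := Real.rpow_nonneg hpos.le _
  calc B ^ (1 / ((n : ℝ) - 1) - ε) = c * (B ^ (1 / ((n : ℝ) - 1) - ε) * c⁻¹) := by
        field_simp
    _ ≤ c * (B ^ (1 / ((n : ℝ) - 1) - ε) * B ^ (ε / 2)) := by gcongr

end Pool.Agent.H35.AN
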